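import Mathlib

/-!
# Lindenbaum algebras and numerated Boolean algebras: the definitions of the statement

* `IsPi11` : sets of natural numbers that are `Π¹₁`, in Kleene's normal form.
* `IsPi11Algebra ν` : `(B, ν)` is a numerated Boolean `Π¹₁`-algebra.
* `IsPi11Universal ν` : `(B, ν)` is `Π¹₁`-universal.
* `IsPrimeModel L M`, `thP L`, `Lind T` : prime models, the theory of all prime models, the
  Lindenbaum algebra of a theory.
-/

set_option autoImplicit false

namespace Pool.Agent.Lib.MP_8c048d_lc

open FirstOrder FirstOrder.Language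

/-! ## Numerated Boolean algebras -/

/-- A set `A` of natural numbers is `Π¹₁` if, for some recursive relation `R`, a number `n` is in
`A` iff for every `f : ℕ → ℕ` there is `k` with `R(n, ⟨f 0, …, f (k-1)⟩)` (Kleene's normal
form). -/
def IsPi11 (A : Set ℕ) : Prop :=
  ∃ R : ℕ × List ℕ → Prop, ComputablePred R ∧
    ∀ n, n ∈ A ↔ ∀ f : ℕ → ℕ, ∃ k, R (n, (List.range k).map f)

/-- `(B, ν)` is a numerated Boolean `Π¹₁`-algebra: `ν` maps `ℕ` onto `B`, the Boolean operations
are induced by general recursive functions on the indices, and equality of indices is `Π¹₁`. -/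
structure IsPi11Algebra {B : Type} [BooleanAlgebra B] (ν : ℕ → B) : Prop where
  surj : Function.Surjective ν
  sup : ∃ u : ℕ → ℕ → ℕ, Computable₂ u ∧ ∀ m n, ν (u m n) = ν m ⊔ ν n
  inf : ∃ i : ℕ → ℕ → ℕ, Computable₂ i ∧ ∀ m n, ν (i m n) = ν m ⊓ ν n
  compl : ∃ c : ℕ → ℕ, Computable c ∧ ∀ n, ν (c n) = (ν n)ᶜ
  eq : IsPi11 {p | ν p.unpair.1 = ν p.unpair.2}

/-- The numeration induced by `ν` on the relative algebra below `a`. -/
def relNum {B : Type} [BooleanAlgebra B] (ν : ℕ → B) (a : B) (n : ℕ) : Set.Iic a :=
  ⟨ν n ⊓ a, inf_le_right⟩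

/-- `(B, ν)` is `Π¹₁`-universal: it is a Boolean `Π¹₁`-algebra and every numerated Boolean
`Π¹₁`-algebra `(A, μ)` is isomorphic, by maps which are recursive on the indices in both
directions, to the relative algebra of `(B, ν)` below some `a ∈ B`.  (An isomorphism of Boolean
algebras is the same as an order isomorphism.) -/
def IsPi11Universal {B : Type} [BooleanAlgebra B] (ν : ℕ → B) : Prop :=
  IsPi11Algebra ν ∧ ∀ (A : Type) [BooleanAlgebra A] (μ : ℕ → A), IsPi11Algebra μ →
    ∃ (a : B) (e : A ≃o Set.Iic a),
      (∃ f : ℕ → ℕ, Computable f ∧ ∀ n, e (μ n) = relNum ν a (f n)) ∧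
      (∃ g : ℕ → ℕ, Computable g ∧ ∀ n, e.symm (relNum ν a n) = μ (g n))

/-! ## Prime models and the Lindenbaum algebra -/

/-- `M` is a prime model: it is (nonempty and) elementarily embeddable in every model of its
complete theory. -/
def IsPrimeModel (L : FirstOrder.Language.{0, 0}) (M : Type) [L.Structure M] : Prop :=
  Nonempty M ∧ ∀ (N : Type) [L.Structure N], Nonempty N → N ⊨ L.completeTheory M →
    Nonempty (M ↪ₑ[L] N)

/-- `Th(P)`: the set of all sentences true in every prime model of the signature `L`. -/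
def thP (L : FirstOrder.Language.{0, 0}) : L.Theory :=
  {φ | ∀ (M : Type) [L.Structure M], IsPrimeModel L M → M ⊨ φ}

/-- The sentences of `L`, preordered by provable implication over `T`. -/
def LindPre {L : FirstOrder.Language.{0, 0}} (_T : L.Theory) : Type := L.Sentence

instance {L : FirstOrder.Language.{0, 0}} (T : L.Theory) : Preorder (LindPre T) where
  le φ ψ := T ⊨ᵇ BoundedFormula.imp (φ : L.Sentence) (ψ : L.Sentence)
  le_refl φ := fun M v xs h => h
  le_trans φ ψ χ h1 h2 := fun M v xs h => h2 M v xs (h1 M v xs h)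

/-- The Lindenbaum algebra `𝓛(T)`: sentences modulo provable equivalence over `T`, ordered by
provable implication over `T`; as a Boolean algebra it is determined by this order. -/
abbrev Lind {L : FirstOrder.Language.{0, 0}} (T : L.Theory) : Type :=
  Antisymmetrization (LindPre T) (· ≤ ·)

end Pool.Agent.Lib.MP_8c048d_lc
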