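import Mathlib
import Pool.Agent.Lib.MP_8c048d_lc.Defs

/-!
# Internal definitions of the project

See `Blueprint.md`.
-/

set_option autoImplicit false

namespace Pool.Agent.Lib.MP_8c048d_lc

open FirstOrder

/-! ## The effective calculus -/

/-- The list `[F 0, …, F (k-1)]`. -/
def pre (F : ℕ → ℕ) (k : ℕ) : List ℕ := (List.range k).map F

/-- The join of two functions. -/
def join (F G : ℕ → ℕ) : ℕ → ℕ := fun i => if i % 2 = 0 then F (i / 2) else G (i / 2)

/-- Recursive functionals: the value `φ a F` is computed from `a` and a long enough piece of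
`F`. -/
def RecF {α β : Type} [Primcodable α] [Primcodable β] (φ : α → (ℕ → ℕ) → β) : Prop :=
  ∃ q : α × List ℕ → Option β, Computable q ∧
    (∀ a F k b, q (a, pre F k) = some b → φ a F = b) ∧
    ∀ a F, ∃ k, q (a, pre F k) = some (φ a F)

/-- `Σ¹₁` relations between `a : α` and `F : ℕ → ℕ`. -/
def Sig {α : Type} [Primcodable α] (P : α → (ℕ → ℕ) → Prop) : Prop :=
  ∃ d : α × ℕ → (ℕ → ℕ) → Bool, RecF d ∧
    ∀ a F, P a F ↔ ∃ G : ℕ → ℕ, ∀ m, d (a, m) (join F G) = true

/-- `Π¹₁` relations. -/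
def Pih {α : Type} [Primcodable α] (P : α → (ℕ → ℕ) → Prop) : Prop :=
  Sig (fun a F => ¬ P a F)

/-- `Δ¹₁` relations. -/
def Del {α : Type} [Primcodable α] (P : α → (ℕ → ℕ) → Prop) : Prop :=
  Sig P ∧ Pih P

/-- Clopen (recursive) relations. -/
def Cop {α : Type} [Primcodable α] (P : α → (ℕ → ℕ) → Prop) : Prop :=
  ∃ d : α → (ℕ → ℕ) → Bool, RecF d ∧ ∀ a F, P a F ↔ d a F = true

/-- Closed (`Π⁰₁`) relations. -/
def Clo {α : Type} [Primcodable α] (P : α → (ℕ → ℕ) → Prop) : Prop :=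
  ∃ d : α × ℕ → (ℕ → ℕ) → Bool, RecF d ∧ ∀ a F, P a F ↔ ∀ m, d (a, m) F = true

/-- Closed relations with a `Δ¹₁` matrix. -/
def ClD {α : Type} [Primcodable α] (P : α → (ℕ → ℕ) → Prop) : Prop :=
  ∃ D : α → List ℕ → Prop, Del (fun (p : α × List ℕ) (_ : ℕ → ℕ) => D p.1 p.2) ∧
    ∀ a F, P a F ↔ ∀ k, D a (pre F k)

/-! ## The complete set `O` and `Σ⁰₃(O)` -/

/-- The universal recursively enumerable relation, in bounded form. -/
def UR (e n : ℕ) (τ : List ℕ) : Prop :=
  ∃ j ≤ τ.length, Nat.Partrec.Code.evaln τ.length (Denumerable.ofNat Nat.Partrec.Code e)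
    (Encodable.encode (n, τ.take j)) = some 1

/-- A complete `Π¹₁` set. -/
def O : Set ℕ := {p | ∀ f : ℕ → ℕ, ∃ k, UR p.unpair.1 p.unpair.2 (pre f k)}

/-- `ρ` is an initial segment of the characteristic function of `O`. -/
def PrefO (ρ : List Bool) : Prop := ∀ (i : ℕ) (h : i < ρ.length), ρ[i] = true ↔ i ∈ O

/-- Relations that are recursively enumerable in `O`. -/
def CEO {α : Type} [Primcodable α] (R : α → Prop) : Prop :=
  ∃ M : α × List Bool → Prop, ComputablePred M ∧ ∀ a, R a ↔ ∃ ρ, PrefO ρ ∧ M (a, ρ)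

/-- `Σ⁰₃(O)` sets. -/
def S3 (Z : Set ℕ) : Prop :=
  ∃ R : ℕ × ℕ × ℕ → Prop, CEO R ∧ ∀ n, n ∈ Z ↔ ∃ a, ∀ b, R (n, a, b)

/-! ## The invariant -/

/-- The ideals `N_r`. -/
def NI {α : Type} [PartialOrder α] [OrderBot α] : ℕ → α → Prop
  | 0, b => ∀ a ≤ b, ¬ IsAtom a
  | r + 1, b => ∃ n : ℕ, ∀ F : Fin (n + 1) → α, (∀ i, F i ≤ b) →
      Pairwise (fun i j => Disjoint (F i) (F j)) → ∃ i, NI r (F i)

/-- The union of the ideals `N_r`. -/
def NW {α : Type} [PartialOrder α] [OrderBot α] (b : α) : Prop := ∃ r, NI r b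

/-- The invariant. -/
def CodeB (α : Type) [PartialOrder α] [OrderBot α] : Set ℕ :=
  {r | ∃ b : α, ¬ NW b ∧ ∀ c ≤ b, NI (r + 1) c ∨ (¬ NW c ∧ ∃ a ≤ c, NI (r + 1) a ∧ ¬ NI r a)}

/-! ## The tree and its cylinder algebra -/

/-- Words below a node `j :: u :: (4a+3)`. -/
def PieceT (P Q : ℕ → ℕ → ℕ → Prop) (j a : ℕ) : List ℕ → Prop
  | [] => True
  | c :: v => c % 2 = 1 ∨ (P j a (c / 2) ∧ (v.length ≤ 2 * j ∨ Q j a (c / 2)))

/-- Words below the node `j`. -/
def KernT (P Q : ℕ → ℕ → ℕ → Prop) (j : ℕ) : List ℕ → Prop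
  | [] => True
  | c :: v => (c % 2 = 0 ∧ KernT P Q j v) ∨ (c % 4 = 1 ∧ v.length ≤ 2 * j) ∨
      (c % 4 = 3 ∧ PieceT P Q j (c / 4) v)

/-- The tree. -/
def TreeT (P Q : ℕ → ℕ → ℕ → Prop) : List ℕ → Prop
  | [] => True
  | j :: v => KernT P Q j v

/-- The number coded by `(j, (a, k))` is valid. -/
def Valid (P Q : ℕ → ℕ → ℕ → Prop) (j a : ℕ) : Set ℕ := {k | P j a k ∧ ¬ Q j a k}

/-- Boolean terms, coded by numbers, evaluated at a word. -/
def evT (n : ℕ) (w : List ℕ) : Bool :=
  if h : n = 0 then false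
  else if n % 4 = 0 then ((Denumerable.ofNat (List ℕ) (n / 4 - 1)).isPrefixOf w)
  else if n % 4 = 1 then !(evT (n / 4) w)
  else if n % 4 = 2 then evT (n / 4).unpair.1 w || evT (n / 4).unpair.2 w
  else evT (n / 4).unpair.1 w && evT (n / 4).unpair.2 w
termination_by n
decreasing_by
  all_goals
    have h1 := Nat.unpair_left_le (n / 4)
    have h2 := Nat.unpair_right_le (n / 4)
    omega

def tCyl (σ : List ℕ) : ℕ := 4 * (Encodable.encode σ + 1)
def tCompl (n : ℕ) : ℕ := 4 * n + 1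
def tSup (m n : ℕ) : ℕ := 4 * Nat.pair m n + 2
def tInf (m n : ℕ) : ℕ := 4 * Nat.pair m n + 3

theorem evT_zero (w : List ℕ) : evT 0 w = false := by rw [evT]; simp

theorem evT_cyl (σ w : List ℕ) : evT (tCyl σ) w = σ.isPrefixOf w := by
  unfold tCyl
  rw [evT, dif_neg (by omega), if_pos (by omega)]
  have h : 4 * (Encodable.encode σ + 1) / 4 - 1 = Encodable.encode σ := by omega
  rw [h]
  simp

theorem evT_compl (n : ℕ) (w : List ℕ) : evT (tCompl n) w = !evT n w := by
  unfold tCompl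
  rw [evT, dif_neg (by omega), if_neg (by omega), if_pos (by omega)]
  have h : (4 * n + 1) / 4 = n := by omega
  rw [h]

theorem evT_sup (m n : ℕ) (w : List ℕ) : evT (tSup m n) w = (evT m w || evT n w) := by
  unfold tSup
  rw [evT, dif_neg (by omega), if_neg (by omega), if_neg (by omega), if_pos (by omega)]
  have h : (4 * Nat.pair m n + 2) / 4 = Nat.pair m n := by omega
  rw [h, Nat.unpair_pair]

theorem evT_inf (m n : ℕ) (w : List ℕ) : evT (tInf m n) w = (evT m w && evT n w) := by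
  unfold tInf
  rw [evT, dif_neg (by omega), if_neg (by omega), if_neg (by omega), if_neg (by omega)]
  have h : (4 * Nat.pair m n + 3) / 4 = Nat.pair m n := by omega
  rw [h, Nat.unpair_pair]

/-- The algebra of subsets of `T` generated by the cylinders. -/
def AT (T : List ℕ → Prop) : BooleanSubalgebra (Set {w : List ℕ // T w}) where
  carrier := {S | ∃ n, S = {w | evT n w.1 = true}}
  supClosed' := by
    rintro _ ⟨m, rfl⟩ _ ⟨n, rfl⟩
    refine ⟨tSup m n, ?_⟩
    ext w
    simp [evT_sup]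
  infClosed' := by
    rintro _ ⟨m, rfl⟩ _ ⟨n, rfl⟩
    refine ⟨tInf m n, ?_⟩
    ext w
    simp [evT_inf]
  compl_mem' := by
    rintro _ ⟨m, rfl⟩
    refine ⟨tCompl m, ?_⟩
    ext w
    simp [evT_compl]
  bot_mem' := by
    refine ⟨0, ?_⟩
    ext w
    simp [evT_zero]

/-- The numeration of the cylinder algebra by Boolean terms. -/
def nuT (T : List ℕ → Prop) (n : ℕ) : AT T := ⟨{w | evT n w.1 = true}, n, rfl⟩

/-! ## First-order logic -/

/-- A labelling of the symbols of a language by numbers, with recursive arities. -/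
structure Lab (L : FirstOrder.Language.{0, 0}) where
  R : ℕ → Option (Σ n, L.Relations n)
  F : ℕ → Option (Σ n, L.Functions n)
  surjR : ∀ s, ∃ k, R k = some s
  surjF : ∀ s, ∃ k, F k = some s
  arR : ℕ → ℕ
  arF : ℕ → ℕ
  compR : Computable arR
  compF : Computable arF
  eqR : ∀ k s, R k = some s → arR k = s.1
  eqF : ∀ k s, F k = some s → arF k = s.1
  isR : ℕ → Bool
  isF : ℕ → Bool
  compIsR : Computable isR
  compIsF : Computable isF
  eqIsR : ∀ k, isR k = (R k).isSome
  eqIsF : ∀ k, isF k = (F k).isSome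
  /-- different numbers never label the same relation symbol -/
  injR : ∀ k k' s, R k = some s → R k' = some s → k = k'
  /-- different numbers never label the same function symbol -/
  injF : ∀ k k' s, F k = some s → F k' = some s → k = k'

/-- Flat formulas with variables `x_0, x_1, …`.  `box φ` says that `φ` holds whenever all
variables are given the same value. -/
inductive Fm : Type
  | bot : Fm
  | eq (i j : ℕ) : Fm
  | rel (r : ℕ) (l : List ℕ) : Fm
  | fn (f : ℕ) (l : List ℕ) (j : ℕ) : Fm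
  | imp (φ ψ : Fm) : Fm
  | all (i : ℕ) (φ : Fm) : Fm
  | box (φ : Fm) : Fm

/-- Satisfaction of flat formulas. The arguments of a symbol are the variables listed in `l`
(the missing ones are `x_0`, the superfluous ones are ignored). -/
def Sat {L : FirstOrder.Language.{0, 0}} (b : Lab L) {M : Type} [L.Structure M] :
    Fm → (ℕ → M) → Prop
  | .bot, _ => False
  | .eq i j, s => s i = s j
  | .rel r l, s => match b.R r with
      | none => False
      | some p => Language.Structure.RelMap p.2 (fun i => s (l.getD i 0))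
  | .fn f l j, s => match b.F f with
      | none => False
      | some p => Language.Structure.funMap p.2 (fun i => s (l.getD i 0)) = s j
  | .imp φ ψ, s => Sat b φ s → Sat b ψ s
  | .all i φ, s => ∀ a, Sat b φ (Function.update s i a)
  | .box φ, _ => ∀ a : M, Sat b φ (fun _ => a)

/-- Decoding of formulas. -/
def dec (n : ℕ) : Fm :=
  if h0 : n % 7 = 0 then .bot
  else if h1 : n % 7 = 1 then .eq (n / 7).unpair.1 (n / 7).unpair.2
  else if h2 : n % 7 = 2 then
    .rel (n / 7).unpair.1 (Denumerable.ofNat (List ℕ) (n / 7).unpair.2)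
  else if h3 : n % 7 = 3 then .fn (n / 7).unpair.1
    (Denumerable.ofNat (List ℕ) (n / 7).unpair.2.unpair.1) (n / 7).unpair.2.unpair.2
  else if h4 : n % 7 = 4 then .imp (dec (n / 7).unpair.1) (dec (n / 7).unpair.2)
  else if h5 : n % 7 = 5 then .all (n / 7).unpair.1 (dec (n / 7).unpair.2)
  else .box (dec (n / 7))
termination_by n
decreasing_by
  all_goals
    have h1 := Nat.unpair_left_le (n / 7)
    have h2 := Nat.unpair_right_le (n / 7)
    omega

def cBot : ℕ := 0
def cEq (i j : ℕ) : ℕ := 7 * Nat.pair i j + 1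
def cRel (r : ℕ) (l : List ℕ) : ℕ := 7 * Nat.pair r (Encodable.encode l) + 2
def cFn (f : ℕ) (l : List ℕ) (j : ℕ) : ℕ := 7 * Nat.pair f (Nat.pair (Encodable.encode l) j) + 3
def cImp (m n : ℕ) : ℕ := 7 * Nat.pair m n + 4
def cAll (i n : ℕ) : ℕ := 7 * Nat.pair i n + 5
def cBox (n : ℕ) : ℕ := 7 * n + 6
def cNot (n : ℕ) : ℕ := cImp n cBot
def cAnd (m n : ℕ) : ℕ := cNot (cImp m (cNot n))

/-- Quantify over the variables `x_1, …, x_k`. -/
def allT : ℕ → ℕ → ℕ
  | 0, n => n
  | k + 1, n => allT k (cAll (k + 1) n)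

/-- The set of all `n` such that `box n` is true in `M`. -/
def ThC {L : FirstOrder.Language.{0, 0}} (b : Lab L) (M : Type) [L.Structure M] : Set ℕ :=
  {n | ∀ a : M, Sat b (dec n) (fun _ => a)}

/-- The (coded) theories of prime models. -/
def PT {L : FirstOrder.Language.{0, 0}} (b : Lab L) : Set (Set ℕ) :=
  {x | ∃ (M : Type) (_ : L.Structure M), IsPrimeModel L M ∧ x = ThC b M}

/-- The (coded) complete theories. -/
def CT {L : FirstOrder.Language.{0, 0}} (b : Lab L) : Set (Set ℕ) :=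
  {x | ∃ (M : Type) (_ : L.Structure M), Nonempty M ∧ x = ThC b M}

/-- The isolated types are dense. -/
def Atomic (x : Set ℕ) : Prop :=
  ∀ k φ, allT k (cNot φ) ∉ x → ∃ χ, allT k (cNot χ) ∉ x ∧ allT k (cImp χ φ) ∈ x ∧
    ∀ ψ, allT k (cImp χ ψ) ∈ x ∨ allT k (cImp χ (cNot ψ)) ∈ x

/-- Finite descriptions of assignments `ℕ → ℕ`: a default value and a list of changes. -/
def asg : ℕ × List (ℕ × ℕ) → ℕ → ℕ
  | (d, []), _ => d
  | (d, (i, a) :: l), j => if j = i then a else asg (d, l) j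

/-- The witness constant for the formula coded by `n` and the assignment `s`. -/
def wit (n : ℕ) (s : ℕ × List (ℕ × ℕ)) : ℕ := Nat.pair n (Encodable.encode s) + 1

/-- The assignment `s` with the value of the variable `i` changed to `a`. -/
def upd (s : ℕ × List (ℕ × ℕ)) (i a : ℕ) : ℕ × List (ℕ × ℕ) := (s.1, (i, a) :: s.2)

/-- The rules for Henkin valuations `v` (`v n s`: the formula coded by `n` is true under the
assignment `s` of constants to the variables). -/
structure Henkin {L : FirstOrder.Language.{0, 0}} (b : Lab L)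
    (v : ℕ → ℕ × List (ℕ × ℕ) → Prop) : Prop where
  bot : ∀ n s, n % 7 = 0 → ¬ v n s
  imp : ∀ m n s, v (cImp m n) s ↔ (v m s → v n s)
  all : ∀ i n s, v (cAll i n) s → ∀ a, v n (upd s i a)
  all' : ∀ i n s, v n (upd s i (wit (cAll i n) s)) → v (cAll i n) s
  box : ∀ n s, v (cBox n) s → ∀ a, v n (a, [])
  box' : ∀ n s, v n (wit (cBox n) s, []) → v (cBox n) s
  refl : ∀ i s, v (cEq i i) s
  symm : ∀ i j s, v (cEq i j) s → v (cEq j i) s
  trans : ∀ i j k s, v (cEq i j) s → v (cEq j k) s → v (cEq i k) s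
  eqc : ∀ i j i' j' s s', asg s i = asg s' i' → asg s j = asg s' j' →
    v (cEq i j) s → v (cEq i' j') s'
  rel : ∀ r l l' s s', (∀ i < b.arR r, v (cEq 0 1) (asg s (l.getD i 0),
    [(1, asg s' (l'.getD i 0))])) → v (cRel r l) s → v (cRel r l') s'
  relf : ∀ r l s, b.isR r = false → ¬ v (cRel r l) s
  fn : ∀ f l l' j j' s s', (∀ i < b.arF f, v (cEq 0 1) (asg s (l.getD i 0),
    [(1, asg s' (l'.getD i 0))])) → v (cFn f l j) s →
    (v (cEq 0 1) (asg s j, [(1, asg s' j')]) ↔ v (cFn f l' j') s')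
  fnf : ∀ f l j s, b.isF f = false → ¬ v (cFn f l j) s
  tot : ∀ f l s i, b.isF f = true → i ∉ l → i ≠ 0 → ¬ v (cAll i (cNot (cFn f l i))) s

/-- The valuation given by an interpretation `I` of the constants. -/
def val {L : FirstOrder.Language.{0, 0}} (b : Lab L) {M : Type} [L.Structure M] (I : ℕ → M)
    (n : ℕ) (s : ℕ × List (ℕ × ℕ)) : Prop :=
  Sat b (dec n) (fun i => I (asg s i))

/-- The witness conditions for the constants below `K`. -/
def WC {L : FirstOrder.Language.{0, 0}} (b : Lab L) {M : Type} [L.Structure M] (I : ℕ → M)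
    (K : ℕ) : Prop :=
  (∀ i n s, wit (cAll i n) s < K → val b I n (upd s i (wit (cAll i n) s)) →
    val b I (cAll i n) s) ∧
  (∀ n s, wit (cBox n) s < K → val b I n (wit (cBox n) s, []) → val b I (cBox n) s)

end Pool.Agent.Lib.MP_8c048d_lc
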