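import Mathlib
import Pool.Agent.Lib.MP_8c048d_lc.Base

/-!
# E1: the effective calculus (helper39)
-/

set_option autoImplicit false

namespace Pool.Agent.Lib.MP_8c048d_lc

variable {α β γ δ : Type} [Primcodable α] [Primcodable β] [Primcodable γ] [Primcodable δ]

theorem length_pre (F : ℕ → ℕ) (k : ℕ) : (pre F k).length = k := by simp [MP_8c048d_lc.pre]

theorem pre_take (F : ℕ → ℕ) (k j : ℕ) : (pre F k).take j = pre F (min j k) := by
  unfold MP_8c048d_lc.pre
  rw [← List.map_take, List.take_range]

theorem pre_getElem? (F : ℕ → ℕ) (k n : ℕ) : (pre F k)[n]? = if n < k then some (F n) else none := by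
  unfold MP_8c048d_lc.pre
  rw [List.getElem?_map]
  by_cases h : n < k
  · rw [List.getElem?_range h, if_pos h]; rfl
  · rw [if_neg h]
    have : (List.range k)[n]? = none := by
      rw [List.getElem?_eq_none_iff]
      simpa using h
    rw [this]; rfl

theorem pre_congr {F G : ℕ → ℕ} {k : ℕ} (h : ∀ i < k, F i = G i) : pre F k = pre G k := by
  unfold MP_8c048d_lc.pre
  apply List.map_congr_left
  intro i hi
  exact h i (List.mem_range.1 hi)

theorem pre_succ (F : ℕ → ℕ) (k : ℕ) : pre F (k + 1) = pre F k ++ [F k] := by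
  unfold MP_8c048d_lc.pre
  rw [List.range_succ]
  simp

/-! ### Recursive functionals -/

/-- Search for the first defined value. -/
def srch (q : α × List ℕ → Option β) (p : α × List ℕ) (n : ℕ) : Option β :=
  Nat.rec (motive := fun _ => Option β) (q (p.1, []))
    (fun k r => Option.casesOn r (q (p.1, p.2.take (k + 1))) (fun b => some b)) n

theorem srch_zero (q : α × List ℕ → Option β) (p : α × List ℕ) : srch q p 0 = q (p.1, []) := rfl

theorem srch_succ (q : α × List ℕ → Option β) (p : α × List ℕ) (n : ℕ) :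
    srch q p (n + 1) = match srch q p n with
      | none => q (p.1, p.2.take (n + 1))
      | some b => some b := by
  have h : srch q p (n + 1) = Option.casesOn (motive := fun _ => Option β) (srch q p n)
    (q (p.1, p.2.take (n + 1))) (fun b => some b) := rfl
  rw [h]
  cases srch q p n <;> rfl

theorem srch_comp {q : α × List ℕ → Option β} (hq : Computable q) :
    Computable (fun p : α × List ℕ => srch q p p.2.length) := by
  unfold srch
  have b1 : Computable (fun z : (α × List ℕ) × (ℕ × Option β) => z.1.2.take (z.2.1 + 1)) :=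
    (Primrec.list_take (α := ℕ)).to_comp.comp
      (Computable.succ.comp (Computable.fst.comp Computable.snd))
      (Computable.snd.comp Computable.fst)
  have b2 : Computable (fun z : (α × List ℕ) × (ℕ × Option β) =>
      q (z.1.1, z.1.2.take (z.2.1 + 1))) :=
    hq.comp (Computable.pair (Computable.fst.comp Computable.fst) b1)
  have b3 : Computable₂ (fun (_ : (α × List ℕ) × (ℕ × Option β)) (b : β) => some b) :=
    (Computable.option_some.comp Computable.snd).to₂
  have b4 : Computable (fun z : (α × List ℕ) × (ℕ × Option β) =>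
      (Option.casesOn (motive := fun _ => Option β) z.2.2
        (q (z.1.1, z.1.2.take (z.2.1 + 1))) (fun b => some b))) :=
    Computable.option_casesOn (Computable.snd.comp Computable.snd) b2 b3
  exact Computable.nat_rec (Computable.list_length.comp Computable.snd)
    (hq.comp (Computable.pair Computable.fst (Computable.const ([] : List ℕ)))) b4.to₂

theorem srch_sound {q : α × List ℕ → Option β} {p : α × List ℕ} {n : ℕ} {b : β}
    (h : srch q p n = some b) : ∃ j ≤ n, q (p.1, p.2.take j) = some b := by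
  induction n with
  | zero => exact ⟨0, le_rfl, by simpa [srch_zero] using h⟩
  | succ n ih =>
    rw [srch_succ] at h
    cases h' : srch q p n with
    | none => rw [h'] at h; exact ⟨n + 1, le_rfl, h⟩
    | some c =>
      rw [h'] at h
      obtain ⟨j, hj, hj'⟩ := ih (by rw [h']; exact h)
      exact ⟨j, by omega, hj'⟩

theorem srch_isSome {q : α × List ℕ → Option β} {p : α × List ℕ} {n j : ℕ} (hj : j ≤ n)
    (h : (q (p.1, p.2.take j)).isSome) : (srch q p n).isSome := by
  induction n with
  | zero =>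
    have : j = 0 := by omega
    subst this
    simpa [srch_zero] using h
  | succ n ih =>
    rw [srch_succ]
    cases h' : srch q p n with
    | none =>
      by_cases hjn : j ≤ n
      · have := ih hjn
        rw [h'] at this
        simp at this
      · have : j = n + 1 := by omega
        subst this
        exact h
    | some c => rfl

/-- A monotone algorithm. -/
theorem RecF.mono {φ : α → (ℕ → ℕ) → β} (h : RecF φ) : ∃ q : α × List ℕ → Option β,
    Computable q ∧ (∀ a F k b, q (a, MP_8c048d_lc.pre F k) = some b → φ a F = b) ∧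
    ∀ a F, ∃ k0, ∀ k, k0 ≤ k → q (a, MP_8c048d_lc.pre F k) = some (φ a F) := by
  obtain ⟨q, hq, h1, h2⟩ := h
  refine ⟨fun p => srch q p p.2.length, srch_comp hq, ?_, ?_⟩
  · intro a F k b hb
    obtain ⟨j, hj, hj'⟩ := srch_sound hb
    simp only [pre_take] at hj'
    exact h1 a F _ b hj'
  · intro a F
    obtain ⟨k0, hk0⟩ := h2 a F
    refine ⟨k0, fun k hk => ?_⟩
    have h3 : (srch q (a, MP_8c048d_lc.pre F k) (MP_8c048d_lc.pre F k).length).isSome := by
      apply srch_isSome (j := k0)
      · rw [length_pre]; exact hk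
      · simp only [pre_take]
        rw [min_eq_left hk, hk0]
        rfl
    obtain ⟨b, hb⟩ := Option.isSome_iff_exists.1 h3
    show srch q (a, MP_8c048d_lc.pre F k) (MP_8c048d_lc.pre F k).length = _
    rw [hb]
    obtain ⟨j, hj, hj'⟩ := srch_sound hb
    simp only [pre_take] at hj'
    rw [h1 a F _ b hj']

theorem RecF.congr {φ ψ : α → (ℕ → ℕ) → β} (h : RecF φ) (e : ∀ a F, φ a F = ψ a F) : RecF ψ := by
  have : φ = ψ := by funext a F; exact e a F
  rw [← this]; exact h

theorem RecF.of_computable {f : α → β} (hf : Computable f) :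
    RecF (fun a (_ : ℕ → ℕ) => f a) := by
  refine ⟨fun p => some (f p.1), Computable.option_some.comp (hf.comp Computable.fst), ?_, ?_⟩
  · intro a F k b h
    simpa using h
  · intro a F
    exact ⟨0, rfl⟩

theorem RecF.app {φ : α → (ℕ → ℕ) → ℕ} (h : RecF φ) : RecF (fun a F => F (φ a F)) := by
  obtain ⟨q, hq, h1, h2⟩ := h.mono
  refine ⟨fun p => (q p).bind fun n => p.2[n]?, ?_, ?_, ?_⟩
  · exact Computable.option_bind hq
      (Computable.list_getElem?.comp (Computable.snd.comp Computable.fst) Computable.snd)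
  · intro a F k b hb
    simp only [Option.bind_eq_some_iff] at hb
    obtain ⟨n, hn, hn'⟩ := hb
    rw [pre_getElem?] at hn'
    split_ifs at hn' with hh
    show F (φ a F) = b
    rw [h1 a F k n hn]
    simpa using hn'
  · intro a F
    obtain ⟨k0, hk0⟩ := h2 a F
    refine ⟨max k0 (φ a F + 1), ?_⟩
    simp only [hk0 _ (le_max_left _ _), Option.bind_some]
    rw [pre_getElem?, if_pos]
    have := le_max_right k0 (φ a F + 1)
    omega

theorem RecF.comp {g : β → γ} (hg : Computable g) {φ : α → (ℕ → ℕ) → β} (h : RecF φ) :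
    RecF (fun a F => g (φ a F)) := by
  obtain ⟨q, hq, h1, h2⟩ := h
  refine ⟨fun p => (q p).map g, Computable.option_map hq (hg.comp Computable.snd), ?_, ?_⟩
  · intro a F k b hb
    simp only [Option.map_eq_some_iff] at hb
    obtain ⟨c, hc, rfl⟩ := hb
    show g (φ a F) = g c
    rw [h1 a F k c hc]
  · intro a F
    obtain ⟨k, hk⟩ := h2 a F
    exact ⟨k, by simp [hk]⟩

theorem RecF.pair {φ : α → (ℕ → ℕ) → β} {ψ : α → (ℕ → ℕ) → γ} (h : RecF φ) (h' : RecF ψ) :
    RecF (fun a F => (φ a F, ψ a F)) := by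
  obtain ⟨q, hq, h1, h2⟩ := h.mono
  obtain ⟨q', hq', h1', h2'⟩ := h'.mono
  refine ⟨fun p => (q p).bind fun b => (q' p).map fun c => (b, c), ?_, ?_, ?_⟩
  · refine Computable.option_bind hq ?_
    refine Computable.option_map (hq'.comp Computable.fst) ?_
    exact Computable.pair (Computable.snd.comp Computable.fst) Computable.snd
  · intro a F k b hb
    simp only [Option.bind_eq_some_iff, Option.map_eq_some_iff] at hb
    obtain ⟨b, hb, c, hc, rfl⟩ := hb
    show (φ a F, ψ a F) = (b, c)
    rw [h1 a F k b hb, h1' a F k c hc]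
  · intro a F
    obtain ⟨k, hk⟩ := h2 a F
    obtain ⟨k', hk'⟩ := h2' a F
    refine ⟨max k k', ?_⟩
    simp [hk _ (le_max_left _ _), hk' _ (le_max_right _ _)]

/-- Composition in the first argument. -/
theorem RecF.comp₁ {φ : β → (ℕ → ℕ) → γ} (h : RecF φ) {f : α → β} (hf : Computable f) :
    RecF (fun a F => φ (f a) F) := by
  obtain ⟨q, hq, h1, h2⟩ := h
  refine ⟨fun p => q (f p.1, p.2), hq.comp (Computable.pair (hf.comp Computable.fst)
    Computable.snd), ?_, ?_⟩
  · intro a F k b hb
    exact h1 _ F k b hb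
  · intro a F
    exact h2 (f a) F

/-- Composition in the first argument, general form. -/
theorem RecF.bind {φ : β → (ℕ → ℕ) → γ} (h : RecF φ) {f : α → (ℕ → ℕ) → β} (hf : RecF f) :
    RecF (fun a F => φ (f a F) F) := by
  obtain ⟨q, hq, h1, h2⟩ := h.mono
  obtain ⟨q', hq', h1', h2'⟩ := hf.mono
  refine ⟨fun p => (q' p).bind fun b => q (b, p.2), ?_, ?_, ?_⟩
  · exact Computable.option_bind hq' (hq.comp (Computable.pair Computable.snd
      (Computable.snd.comp Computable.fst)))
  · intro a F k c hc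
    simp only [Option.bind_eq_some_iff] at hc
    obtain ⟨b, hb, hc⟩ := hc
    show φ (f a F) F = c
    rw [h1' a F k b hb]
    exact h1 b F k c hc
  · intro a F
    obtain ⟨k', hk'⟩ := h2' a F
    obtain ⟨k, hk⟩ := h2 (f a F) F
    refine ⟨max k k', ?_⟩
    simp [hk _ (le_max_left _ _), hk' _ (le_max_right _ _)]

/-- Primitive recursion. -/
theorem RecF.natRec {g : α → (ℕ → ℕ) → γ} (hg : RecF g) {h : α × ℕ × γ → (ℕ → ℕ) → γ}
    (hh : RecF h) : RecF (fun (p : α × ℕ) F =>
      Nat.rec (motive := fun _ => γ) (g p.1 F) (fun k r => h (p.1, k, r) F) p.2) := by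
  obtain ⟨q, hq, h1, h2⟩ := hg.mono
  obtain ⟨q', hq', h1', h2'⟩ := hh.mono
  have hc : Computable (fun p : (α × ℕ) × List ℕ => Nat.rec (motive := fun _ => Option γ)
      (q (p.1.1, p.2)) (fun k r => r.bind fun r => q' ((p.1.1, k, r), p.2)) p.1.2) := by
    have e1 : Computable (fun p : (α × ℕ) × List ℕ => q (p.1.1, p.2)) :=
      hq.comp (Computable.pair (Computable.fst.comp Computable.fst) Computable.snd)
    have a1 : Computable (fun z : (((α × ℕ) × List ℕ) × (ℕ × Option γ)) × γ => z.1.1.1.1) :=
      Computable.fst.comp (Computable.fst.comp (Computable.fst.comp Computable.fst))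
    have a2 : Computable (fun z : (((α × ℕ) × List ℕ) × (ℕ × Option γ)) × γ => z.1.2.1) :=
      Computable.fst.comp (Computable.snd.comp Computable.fst)
    have a3 : Computable (fun z : (((α × ℕ) × List ℕ) × (ℕ × Option γ)) × γ => z.1.1.2) :=
      Computable.snd.comp (Computable.fst.comp Computable.fst)
    have e3 : Computable (fun z : (((α × ℕ) × List ℕ) × (ℕ × Option γ)) × γ =>
        ((z.1.1.1.1, z.1.2.1, z.2), z.1.1.2)) :=
      Computable.pair (Computable.pair a1 (Computable.pair a2 Computable.snd)) a3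
    have e4 := hq'.comp e3
    have e5 : Computable (fun y : ((α × ℕ) × List ℕ) × (ℕ × Option γ) => y.2.2) :=
      Computable.snd.comp Computable.snd
    have e2 : Computable (fun (y : ((α × ℕ) × List ℕ) × (ℕ × Option γ)) =>
        y.2.2.bind fun r => q' ((y.1.1.1, y.2.1, r), y.1.2)) :=
      Computable.option_bind (f := fun y : ((α × ℕ) × List ℕ) × (ℕ × Option γ) => y.2.2)
        (g := fun y r => q' ((y.1.1.1, y.2.1, r), y.1.2)) e5 e4
    exact Computable.nat_rec (f := fun p : (α × ℕ) × List ℕ => p.1.2)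
      (g := fun p => q (p.1.1, p.2)) (h := fun p x => x.2.bind fun r => q' ((p.1.1, x.1, r), p.2))
      (Computable.snd.comp Computable.fst) e1 e2
  refine ⟨fun p => Nat.rec (motive := fun _ => Option γ) (q (p.1.1, p.2))
    (fun k r => r.bind fun r => q' ((p.1.1, k, r), p.2)) p.1.2, hc, ?_, ?_⟩
  · rintro ⟨a, n⟩ F k b hb
    simp only at hb ⊢
    induction n generalizing b with
    | zero => exact h1 a F k b hb
    | succ n ih =>
      simp only [Option.bind_eq_some_iff] at hb
      obtain ⟨c, hc, hb⟩ := hb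
      have := ih c hc
      simp only
      rw [this]
      exact h1' _ F k b hb
  · rintro ⟨a, n⟩ F
    suffices H : ∃ k0, ∀ k, k0 ≤ k → (Nat.rec (motive := fun _ => Option γ)
        (q (a, MP_8c048d_lc.pre F k)) (fun j r => r.bind fun r =>
        q' ((a, j, r), MP_8c048d_lc.pre F k)) n) = some (Nat.rec (motive := fun _ => γ) (g a F)
          (fun k r => h (a, k, r) F) n) by
      obtain ⟨k0, hk0⟩ := H
      exact ⟨k0, hk0 k0 le_rfl⟩
    induction n with
    | zero => exact h2 a F
    | succ n ih =>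
      obtain ⟨k0, hk0⟩ := ih
      obtain ⟨k1, hk1⟩ := h2' (a, n, Nat.rec (motive := fun _ => γ) (g a F)
          (fun k r => h (a, k, r) F) n) F
      refine ⟨max k0 k1, fun k hk => ?_⟩
      have e1 := hk0 k (le_trans (le_max_left _ _) hk)
      have e2 := hk1 k (le_trans (le_max_right _ _) hk)
      simp only [e1, Option.bind_some]
      exact e2

/-- Unbounded search for the first defined value. -/
theorem RecF.search {φ : α → (ℕ → ℕ) → γ} {r : α × ℕ → (ℕ → ℕ) → Option γ} (hr : RecF r)
    (h1 : ∀ a F k b, r (a, k) F = some b → φ a F = b) (h2 : ∀ a F, ∃ k, (r (a, k) F).isSome) :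
    RecF φ := by
  obtain ⟨q, hq, h3, h4⟩ := hr.mono
  let s : α × List ℕ → ℕ → Option γ := fun p n =>
    Nat.rec (motive := fun _ => Option γ) ((q ((p.1, 0), p.2)).bind id)
      (fun k o => Option.casesOn o ((q ((p.1, k + 1), p.2)).bind id) (fun b => some b)) n
  have hs : ∀ p n, s p (n + 1) = match s p n with
      | none => (q ((p.1, n + 1), p.2)).bind id
      | some b => some b := by
    intro p n
    have h : s p (n + 1) = Option.casesOn (motive := fun _ => Option γ) (s p n)
      ((q ((p.1, n + 1), p.2)).bind id) (fun b => some b) := rfl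
    rw [h]
    cases s p n <;> rfl
  have sound : ∀ p n b, s p n = some b → ∃ j, q ((p.1, j), p.2) = some (some b) := by
    intro p n
    induction n with
    | zero =>
      intro b hb
      refine ⟨0, ?_⟩
      have : (q ((p.1, 0), p.2)).bind id = some b := hb
      simpa [Option.bind_eq_some_iff] using this
    | succ n ih =>
      intro b hb
      rw [hs] at hb
      cases h' : s p n with
      | none =>
        rw [h'] at hb
        refine ⟨n + 1, ?_⟩
        simpa [Option.bind_eq_some_iff] using hb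
      | some c =>
        rw [h'] at hb
        exact ih b (by rw [h']; exact hb)
  have compl : ∀ p n j, j ≤ n → ∀ b, q ((p.1, j), p.2) = some (some b) → (s p n).isSome := by
    intro p n
    induction n with
    | zero =>
      intro j hj b hb
      have : j = 0 := by omega
      subst this
      show ((q ((p.1, 0), p.2)).bind id).isSome
      rw [hb]; rfl
    | succ n ih =>
      intro j hj b hb
      rw [hs]
      cases h' : s p n with
      | none =>
        by_cases hjn : j ≤ n
        · have := ih j hjn b hb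
          rw [h'] at this
          simp at this
        · have : j = n + 1 := by omega
          subst this
          simp [hb]
      | some c => rfl
  have hcs : Computable (fun p : α × List ℕ => s p p.2.length) := by
    have b1 : Computable (fun p : α × List ℕ => ((p.1, 0), p.2)) :=
      Computable.pair (Computable.pair Computable.fst (Computable.const 0)) Computable.snd
    have b2 : Computable (fun p : α × List ℕ => (q ((p.1, 0), p.2)).bind id) :=
      Computable.option_bind (hq.comp b1) (g := fun _ x => x) Computable.snd.to₂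
    have b3 : Computable (fun z : (α × List ℕ) × (ℕ × Option γ) =>
        ((z.1.1, z.2.1 + 1), z.1.2)) :=
      Computable.pair (Computable.pair (Computable.fst.comp Computable.fst)
          (Computable.succ.comp (Computable.fst.comp Computable.snd)))
          (Computable.snd.comp Computable.fst)
    have b4 : Computable (fun z : (α × List ℕ) × (ℕ × Option γ) =>
        (q ((z.1.1, z.2.1 + 1), z.1.2)).bind id) :=
      Computable.option_bind (hq.comp b3) (g := fun _ x => x) Computable.snd.to₂
    have b5 : Computable₂ (fun (_ : (α × List ℕ) × (ℕ × Option γ)) (b : γ) => some b) :=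
      (Computable.option_some.comp Computable.snd).to₂
    have b6 : Computable (fun z : (α × List ℕ) × (ℕ × Option γ) =>
        (Option.casesOn (motive := fun _ => Option γ) z.2.2
          ((q ((z.1.1, z.2.1 + 1), z.1.2)).bind id) (fun b => some b))) :=
      Computable.option_casesOn (Computable.snd.comp Computable.snd) b4 b5
    exact Computable.nat_rec (Computable.list_length.comp Computable.snd) b2 b6.to₂
  refine ⟨fun p => s p p.2.length, hcs, ?_, ?_⟩
  · intro a F k b hb
    obtain ⟨j, hj⟩ := sound _ _ _ hb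
    exact h1 a F j b (h3 _ _ _ _ hj)
  · intro a F
    obtain ⟨j, hj⟩ := h2 a F
    obtain ⟨b, hb⟩ := Option.isSome_iff_exists.1 hj
    obtain ⟨k0, hk0⟩ := h4 (a, j) F
    rw [hb] at hk0
    have h5 := compl (a, MP_8c048d_lc.pre F (max j k0)) (max j k0) j (le_max_left _ _) b
      (hk0 _ (le_max_right _ _))
    obtain ⟨c, hc⟩ := Option.isSome_iff_exists.1 h5
    refine ⟨max j k0, ?_⟩
    simp only [length_pre]
    rw [hc]
    obtain ⟨i, hi⟩ := sound _ _ _ hc
    rw [h1 a F i c (h3 _ _ _ _ hi)]

theorem RecF.pre' {Ψ : α → (ℕ → ℕ) → ℕ → ℕ} (hΨ : RecF (fun (p : α × ℕ) F => Ψ p.1 F p.2)) :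
    RecF (fun (p : α × ℕ) F => MP_8c048d_lc.pre (Ψ p.1 F) p.2) := by
  have h1 : RecF (fun (p : α × ℕ × List ℕ) F => p.2.2 ++ [Ψ p.1 F p.2.1]) := by
    have h2 : RecF (fun (p : α × ℕ × List ℕ) F => Ψ p.1 F p.2.1) :=
      hΨ.comp₁ (f := fun p : α × ℕ × List ℕ => (p.1, p.2.1))
        (Computable.pair Computable.fst (Computable.fst.comp Computable.snd))
    have h3 : RecF (fun (p : α × ℕ × List ℕ) (_ : ℕ → ℕ) => p.2.2) :=
      RecF.of_computable (Computable.snd.comp Computable.snd)
    exact (h3.pair h2).comp (g := fun x : List ℕ × ℕ => x.1 ++ [x.2])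
      (Computable.list_concat.comp Computable.fst Computable.snd)
  have h2 := RecF.natRec (RecF.of_computable (Computable.const ([] : List ℕ)) : RecF
    (fun (_ : α) (_ : ℕ → ℕ) => ([] : List ℕ))) h1
  refine h2.congr ?_
  rintro ⟨a, n⟩ F
  simp only
  induction n with
  | zero => rfl
  | succ n ih =>
    rw [pre_succ]
    simp only
    rw [ih]

/-- Composition, with a substitution of the function argument as well. -/
theorem RecF.subst {d : β → (ℕ → ℕ) → γ} (hd : RecF d) {ψ : α → (ℕ → ℕ) → β} (hψ : RecF ψ)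
    {Ψ : α → (ℕ → ℕ) → ℕ → ℕ} (hΨ : RecF (fun (p : α × ℕ) F => Ψ p.1 F p.2)) :
    RecF (fun a F => d (ψ a F) (Ψ a F)) := by
  obtain ⟨q, hq, h1, h2⟩ := hd.mono
  have h3 : RecF (fun (p : α × ℕ) F => q (ψ p.1 F, MP_8c048d_lc.pre (Ψ p.1 F) p.2)) := by
    refine RecF.comp hq (RecF.pair ?_ hΨ.pre')
    exact hψ.comp₁ (f := fun p : α × ℕ => p.1) Computable.fst
  refine RecF.search h3 ?_ ?_
  · intro a F k b hb
    exact h1 _ _ _ _ hb
  · intro a F
    obtain ⟨k0, hk0⟩ := h2 (ψ a F) (Ψ a F)
    refine ⟨k0, ?_⟩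
    simp only
    rw [hk0 k0 le_rfl]; rfl

theorem RecF.pre : RecF (fun (k : ℕ) F => MP_8c048d_lc.pre F k) := by
  have h : RecF (fun (p : Unit × ℕ) F => F p.2) :=
    RecF.app (RecF.of_computable (f := fun p : Unit × ℕ => p.2) Computable.snd)
  have h2 := RecF.pre' (Ψ := fun (_ : Unit) (F : ℕ → ℕ) => F) h
  exact h2.comp₁ (f := fun k : ℕ => ((), k)) (Computable.pair (Computable.const ()) Computable.id)

/-- Reindexing of the function argument. -/
theorem RecF.reindex {d : β → (ℕ → ℕ) → γ} (hd : RecF d) {f : α → β} (hf : Computable f)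
    {g : α × ℕ → ℕ} (hg : Computable g) :
    RecF (fun a E => d (f a) (fun i => E (g (a, i)))) :=
  hd.subst (RecF.of_computable hf) (Ψ := fun a E i => E (g (a, i)))
    (RecF.app (RecF.of_computable hg))

theorem RecF.cond {c : α → (ℕ → ℕ) → Bool} (hc : RecF c) {φ ψ : α → (ℕ → ℕ) → β} (h : RecF φ)
    (h' : RecF ψ) : RecF (fun a F => bif c a F then φ a F else ψ a F) := by
  have := (hc.pair (h.pair h')).comp (g := fun x : Bool × β × β => bif x.1 then x.2.1 else x.2.2)
    (Computable.cond Computable.fst (Computable.fst.comp Computable.snd)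
      (Computable.snd.comp Computable.snd))
  exact this

/-- Decoding of an argument. -/
theorem RecF.decode {d : γ × β → (ℕ → ℕ) → δ} (hd : RecF d) (c : δ) :
    RecF (fun (p : γ × ℕ) F => ((Encodable.decode p.2 : Option β).elim c fun b => d (p.1, b) F)) := by
  obtain ⟨q, hq, h1, h2⟩ := hd
  refine ⟨fun p => Option.casesOn (Encodable.decode p.1.2 : Option β) (some c)
    (fun b => q ((p.1.1, b), p.2)), ?_, ?_, ?_⟩
  · refine Computable.option_casesOn
      (Computable.decode.comp (Computable.snd.comp Computable.fst)) (Computable.const _) ?_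
    exact hq.comp (Computable.pair (Computable.pair (Computable.fst.comp (Computable.fst.comp
      Computable.fst)) Computable.snd) (Computable.snd.comp Computable.fst))
  · rintro ⟨a, n⟩ F k x hx
    simp only at hx ⊢
    cases h : (Encodable.decode n : Option β) with
    | none => rw [h] at hx; simpa using hx
    | some b => rw [h] at hx; exact h1 _ _ _ _ hx
  · rintro ⟨a, n⟩ F
    simp only
    cases h : (Encodable.decode n : Option β) with
    | none => exact ⟨0, rfl⟩
    | some b => exact h2 (a, b) F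

/-! ### `Σ¹₁` -/

theorem join_even (F G : ℕ → ℕ) (i : ℕ) : join F G (2 * i) = F i := by
  unfold join
  rw [if_pos (by omega)]
  congr 1
  omega

theorem join_odd (F G : ℕ → ℕ) (i : ℕ) : join F G (2 * i + 1) = G i := by
  unfold join
  rw [if_neg (by omega)]
  congr 1
  omega

theorem join_eta (E : ℕ → ℕ) : join (fun i => E (2 * i)) (fun i => E (2 * i + 1)) = E := by
  funext i
  unfold join
  split_ifs with h
  · show E (2 * (i / 2)) = E i
    congr 1; omega
  · show E (2 * (i / 2) + 1) = E i
    congr 1; omega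

private theorem c_add : Computable₂ (fun a b : ℕ => a + b) := Primrec.nat_add.to_comp
private theorem c_mul : Computable₂ (fun a b : ℕ => a * b) := Primrec.nat_mul.to_comp
private theorem c_div : Computable₂ (fun a b : ℕ => a / b) := Primrec.nat_div.to_comp
private theorem c_mod : Computable₂ (fun a b : ℕ => a % b) := Primrec.nat_mod.to_comp

private theorem c_dbl {f : α → ℕ} (hf : Computable f) : Computable (fun a => 2 * f a) :=
  c_mul.comp (Computable.const 2) hf
private theorem c_dbl1 {f : α → ℕ} (hf : Computable f) : Computable (fun a => 2 * f a + 1) :=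
  c_add.comp (c_dbl hf) (Computable.const 1)
private theorem c_half {f : α → ℕ} (hf : Computable f) : Computable (fun a => f a / 2) :=
  c_div.comp hf (Computable.const 2)
private theorem c_even {f : α → ℕ} (hf : Computable f) :
    Computable (fun a => decide (f a % 2 = 0)) := by
  have h : PrimrecPred (fun n : ℕ => n % 2 = 0) :=
    PrimrecRel.comp Primrec.eq (Primrec.nat_mod.comp Primrec.id (Primrec.const 2)) (Primrec.const 0)
  have h2 : Computable (fun n : ℕ => decide (n % 2 = 0)) := by
    obtain ⟨_, h'⟩ := h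
    refine (Primrec.of_eq h' ?_).to_comp
    intro n
    congr
  exact h2.comp hf

/-- Join of two recursive functionals. -/
theorem RecF.joinF {Ψ Φ : α → (ℕ → ℕ) → ℕ → ℕ} (h : RecF (fun (p : α × ℕ) F => Ψ p.1 F p.2))
    (h' : RecF (fun (p : α × ℕ) F => Φ p.1 F p.2)) :
    RecF (fun (p : α × ℕ) F => join (Ψ p.1 F) (Φ p.1 F) p.2) := by
  have e1 : RecF (fun (p : α × ℕ) F => Ψ p.1 F (p.2 / 2)) :=
    h.comp₁ (f := fun p : α × ℕ => (p.1, p.2 / 2))
      (Computable.pair Computable.fst (c_half Computable.snd))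
  have e2 : RecF (fun (p : α × ℕ) F => Φ p.1 F (p.2 / 2)) :=
    h'.comp₁ (f := fun p : α × ℕ => (p.1, p.2 / 2))
      (Computable.pair Computable.fst (c_half Computable.snd))
  have e3 : RecF (fun (p : α × ℕ) (_ : ℕ → ℕ) => decide (p.2 % 2 = 0)) :=
    RecF.of_computable (c_even Computable.snd)
  refine (RecF.cond e3 e1 e2).congr ?_
  rintro ⟨a, i⟩ F
  unfold join
  by_cases hi : i % 2 = 0 <;> simp [hi]

/-- The value at a computed place. -/
theorem RecF.at {f : α → ℕ} (hf : Computable f) : RecF (fun a F => F (f a)) :=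
  RecF.app (RecF.of_computable hf)

theorem Sig.congr {P Q : α → (ℕ → ℕ) → Prop} (h : Sig P) (e : ∀ a F, P a F ↔ Q a F) : Sig Q := by
  have : P = Q := by funext a F; exact propext (e a F)
  rw [← this]; exact h

/-- The standard way to show that a relation is `Σ¹₁`: the matrix is given as a functional of
`E = join F G`. -/
theorem Sig.mk {P : α → (ℕ → ℕ) → Prop} {d : α × ℕ → (ℕ → ℕ) → Bool} (hd : RecF d)
    (h : ∀ a F, P a F ↔ ∃ G : ℕ → ℕ, ∀ m, d (a, m) (join F G) = true) : Sig P := ⟨d, hd, h⟩

theorem Sig.of_recF {d : α → (ℕ → ℕ) → Bool} (hd : RecF d) : Sig (fun a F => d a F = true) := by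
  refine Sig.mk (d := fun p E => d p.1 (fun i => E (2 * i)))
    (hd.subst (RecF.of_computable Computable.fst) (Ψ := fun (_ : α × ℕ) E i => E (2 * i))
      (RecF.at (c_dbl Computable.snd))) ?_
  intro a F
  simp only [join_even]
  constructor
  · intro h
    exact ⟨fun _ => 0, fun _ => h⟩
  · rintro ⟨G, hG⟩
    exact hG 0

theorem Sig.subst {P : β → (ℕ → ℕ) → Prop} (h : Sig P) {ψ : α → (ℕ → ℕ) → β} (hψ : RecF ψ)
    {Ψ : α → (ℕ → ℕ) → ℕ → ℕ} (hΨ : RecF (fun (p : α × ℕ) F => Ψ p.1 F p.2)) :
    Sig (fun a F => P (ψ a F) (Ψ a F)) := by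
  obtain ⟨d, hd, h1⟩ := h
  have e0 : RecF (fun (p : (α × ℕ) × ℕ) (E : ℕ → ℕ) => (fun i => E (2 * i)) p.2) :=
    RecF.at (c_dbl Computable.snd)
  -- ψ a (even part)
  have e1 : RecF (fun (p : α × ℕ) (E : ℕ → ℕ) => ψ p.1 (fun i => E (2 * i))) :=
    hψ.subst (RecF.of_computable Computable.fst) (Ψ := fun (_ : α × ℕ) E i => E (2 * i)) e0
  have e2 : RecF (fun (p : α × ℕ) (E : ℕ → ℕ) => (ψ p.1 (fun i => E (2 * i)), p.2)) :=
    e1.pair (RecF.of_computable Computable.snd)
  have e3 : RecF (fun (p : (α × ℕ) × ℕ) (E : ℕ → ℕ) => Ψ p.1.1 (fun i => E (2 * i)) p.2) := by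
    have := hΨ.subst (ψ := fun (p : (α × ℕ) × ℕ) (_ : ℕ → ℕ) => (p.1.1, p.2))
      (RecF.of_computable (Computable.pair (Computable.fst.comp Computable.fst) Computable.snd))
      (Ψ := fun (_ : (α × ℕ) × ℕ) E i => E (2 * i)) (RecF.at (c_dbl Computable.snd))
    exact this
  have e4 : RecF (fun (p : (α × ℕ) × ℕ) (E : ℕ → ℕ) => E (2 * p.2 + 1)) :=
    RecF.at (c_dbl1 Computable.snd)
  have e5 := RecF.joinF (α := α × ℕ) (Ψ := fun p E => Ψ p.1 (fun i => E (2 * i)))
    (Φ := fun _ E i => E (2 * i + 1)) e3 e4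
  refine Sig.mk (hd.subst e2 (Ψ := fun (p : α × ℕ) E => join (Ψ p.1 (fun i => E (2 * i)))
    (fun i => E (2 * i + 1))) e5) ?_
  intro a F
  simp only [join_even, join_odd]
  exact h1 (ψ a F) (Ψ a F)

theorem Sig.comp {P : β → (ℕ → ℕ) → Prop} (h : Sig P) {f : α → β} (hf : Computable f) :
    Sig (fun a F => P (f a) F) :=
  h.subst (RecF.of_computable hf) (Ψ := fun (_ : α) F => F) (RecF.at Computable.snd)

theorem Sig.of_computable {P : α → Prop} (h : ComputablePred P) :
    Sig (fun a (_ : ℕ → ℕ) => P a) := by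
  obtain ⟨_, h'⟩ := h
  exact (Sig.of_recF (RecF.of_computable h')).congr fun a F => by simp

theorem Sig.and {P Q : α → (ℕ → ℕ) → Prop} (h : Sig P) (h' : Sig Q) :
    Sig (fun a F => P a F ∧ Q a F) := by
  obtain ⟨d, hd, h1⟩ := h
  obtain ⟨d', hd', h1'⟩ := h'
  -- G = join G₁ G₂
  have r1 : RecF (fun (p : α × ℕ) (E : ℕ → ℕ) =>
      d (p.1, p.2 / 2) (join (fun i => E (2 * i)) (fun i => E (2 * (2 * i) + 1)))) := by
    refine hd.subst (RecF.of_computable (Computable.pair Computable.fst (c_half Computable.snd))) ?_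
    exact RecF.joinF (α := α × ℕ) (Ψ := fun _ E i => E (2 * i))
      (Φ := fun _ E i => E (2 * (2 * i) + 1)) (RecF.at (c_dbl Computable.snd))
      (RecF.at (c_dbl1 (c_dbl Computable.snd)))
  have r2 : RecF (fun (p : α × ℕ) (E : ℕ → ℕ) =>
      d' (p.1, p.2 / 2) (join (fun i => E (2 * i)) (fun i => E (2 * (2 * i + 1) + 1)))) := by
    refine hd'.subst (RecF.of_computable (Computable.pair Computable.fst (c_half Computable.snd))) ?_
    exact RecF.joinF (α := α × ℕ) (Ψ := fun _ E i => E (2 * i))
      (Φ := fun _ E i => E (2 * (2 * i + 1) + 1)) (RecF.at (c_dbl Computable.snd))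
      (RecF.at (c_dbl1 (c_dbl1 Computable.snd)))
  have r3 : RecF (fun (p : α × ℕ) (_ : ℕ → ℕ) => decide (p.2 % 2 = 0)) :=
    RecF.of_computable (c_even Computable.snd)
  refine Sig.mk (RecF.cond r3 r1 r2) ?_
  intro a F
  simp only [join_even, join_odd]
  constructor
  · rintro ⟨hp, hq⟩
    obtain ⟨G1, hG1⟩ := (h1 a F).1 hp
    obtain ⟨G2, hG2⟩ := (h1' a F).1 hq
    refine ⟨join G1 G2, fun m => ?_⟩
    simp only [join_even, join_odd]
    by_cases hm : m % 2 = 0
    · simpa [hm] using hG1 (m / 2)
    · simpa [hm] using hG2 (m / 2)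
  · rintro ⟨G, hG⟩
    constructor
    · refine (h1 a F).2 ⟨fun i => G (2 * i), fun m => ?_⟩
      have := hG (2 * m)
      have e1 : 2 * m % 2 = 0 := by omega
      have e2 : 2 * m / 2 = m := by omega
      simpa [e1, e2] using this
    · refine (h1' a F).2 ⟨fun i => G (2 * i + 1), fun m => ?_⟩
      have := hG (2 * m + 1)
      have e1 : ¬ ((2 * m + 1) % 2 = 0) := by omega
      have e2 : (2 * m + 1) / 2 = m := by omega
      simpa [e1, e2] using this

theorem Sig.or {P Q : α → (ℕ → ℕ) → Prop} (h : Sig P) (h' : Sig Q) :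
    Sig (fun a F => P a F ∨ Q a F) := by
  obtain ⟨d, hd, h1⟩ := h
  obtain ⟨d', hd', h1'⟩ := h'
  -- G 0 decides, the rest is the witness
  have rr : RecF (fun (p : (α × ℕ) × ℕ) (E : ℕ → ℕ) =>
      join (fun i => E (2 * i)) (fun i => E (2 * (i + 1) + 1)) p.2) :=
    RecF.joinF (α := α × ℕ) (Ψ := fun _ E i => E (2 * i))
      (Φ := fun _ E i => E (2 * (i + 1) + 1)) (RecF.at (c_dbl Computable.snd))
      (RecF.at (c_dbl1 (Computable.succ.comp Computable.snd)))
  have r1 : RecF (fun (p : α × ℕ) (E : ℕ → ℕ) =>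
      d p (join (fun i => E (2 * i)) (fun i => E (2 * (i + 1) + 1)))) :=
    hd.subst (RecF.of_computable Computable.id) rr
  have r2 : RecF (fun (p : α × ℕ) (E : ℕ → ℕ) =>
      d' p (join (fun i => E (2 * i)) (fun i => E (2 * (i + 1) + 1)))) :=
    hd'.subst (RecF.of_computable Computable.id) rr
  have r3 : RecF (fun (_ : α × ℕ) (E : ℕ → ℕ) => decide (E 1 % 2 = 0)) :=
    (RecF.at (f := fun _ : α × ℕ => 1) (Computable.const 1)).comp
      (g := fun n : ℕ => decide (n % 2 = 0)) (c_even Computable.id)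
  refine Sig.mk (RecF.cond r3 r1 r2) ?_
  intro a F
  simp only [join_even, join_odd]
  have e1 : ∀ G : ℕ → ℕ, join F G 1 = G 0 := fun G => join_odd F G 0
  simp only [e1]
  constructor
  · rintro (hp | hq)
    · obtain ⟨G1, hG1⟩ := (h1 a F).1 hp
      refine ⟨fun i => Nat.casesOn i 0 G1, fun m => ?_⟩
      simpa using hG1 m
    · obtain ⟨G2, hG2⟩ := (h1' a F).1 hq
      refine ⟨fun i => Nat.casesOn i 1 G2, fun m => ?_⟩
      simpa using hG2 m
  · rintro ⟨G, hG⟩
    by_cases hm : G 0 % 2 = 0
    · left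
      refine (h1 a F).2 ⟨fun i => G (i + 1), fun m => ?_⟩
      simpa [hm] using hG m
    · right
      refine (h1' a F).2 ⟨fun i => G (i + 1), fun m => ?_⟩
      simpa [hm] using hG m

theorem Sig.exN {P : α → ℕ → (ℕ → ℕ) → Prop} (h : Sig (fun (p : α × ℕ) F => P p.1 p.2 F)) :
    Sig (fun a F => ∃ n, P a n F) := by
  obtain ⟨d, hd, h1⟩ := h
  have rr : RecF (fun (p : (α × ℕ) × ℕ) (E : ℕ → ℕ) =>
      join (fun i => E (2 * i)) (fun i => E (2 * (i + 1) + 1)) p.2) :=
    RecF.joinF (α := α × ℕ) (Ψ := fun _ E i => E (2 * i))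
      (Φ := fun _ E i => E (2 * (i + 1) + 1)) (RecF.at (c_dbl Computable.snd))
      (RecF.at (c_dbl1 (Computable.succ.comp Computable.snd)))
  have r0 : RecF (fun (p : α × ℕ) (E : ℕ → ℕ) => ((p.1, E 1), p.2)) :=
    ((RecF.of_computable Computable.fst).pair
      (RecF.at (f := fun _ : α × ℕ => 1) (Computable.const 1))).pair
      (RecF.of_computable Computable.snd)
  have r1 : RecF (fun (p : α × ℕ) (E : ℕ → ℕ) =>
      d ((p.1, E 1), p.2) (join (fun i => E (2 * i)) (fun i => E (2 * (i + 1) + 1)))) :=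
    hd.subst r0 rr
  refine Sig.mk r1 ?_
  intro a F
  simp only [join_even, join_odd]
  have e1 : ∀ G : ℕ → ℕ, join F G 1 = G 0 := fun G => join_odd F G 0
  simp only [e1]
  constructor
  · rintro ⟨n, hn⟩
    obtain ⟨G, hG⟩ := (h1 (a, n) F).1 hn
    exact ⟨fun i => Nat.casesOn i n G, fun m => hG m⟩
  · rintro ⟨G, hG⟩
    exact ⟨G 0, (h1 (a, G 0) F).2 ⟨fun i => G (i + 1), fun m => hG m⟩⟩

theorem Sig.allN {P : α → ℕ → (ℕ → ℕ) → Prop} (h : Sig (fun (p : α × ℕ) F => P p.1 p.2 F)) :
    Sig (fun a F => ∀ n, P a n F) := by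
  obtain ⟨d, hd, h1⟩ := h
  have cu1 : Computable (fun m : ℕ => m.unpair.1) := (Primrec.fst.comp Primrec.unpair).to_comp
  have cu2 : Computable (fun m : ℕ => m.unpair.2) := (Primrec.snd.comp Primrec.unpair).to_comp
  have cp : Computable₂ Nat.pair := Primrec₂.natPair.to_comp
  have rr : RecF (fun (p : (α × ℕ) × ℕ) (E : ℕ → ℕ) =>
      join (fun i => E (2 * i)) (fun i => E (2 * (Nat.pair p.1.2.unpair.1 i) + 1)) p.2) :=
    RecF.joinF (α := α × ℕ) (Ψ := fun _ E i => E (2 * i))
      (Φ := fun p E i => E (2 * (Nat.pair p.2.unpair.1 i) + 1)) (RecF.at (c_dbl Computable.snd))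
      (RecF.at (c_dbl1 (cp.comp (cu1.comp (Computable.snd.comp Computable.fst)) Computable.snd)))
  have r0 : RecF (fun (p : α × ℕ) (_ : ℕ → ℕ) => ((p.1, p.2.unpair.1), p.2.unpair.2)) :=
    RecF.of_computable (Computable.pair (Computable.pair Computable.fst
      (cu1.comp Computable.snd)) (cu2.comp Computable.snd))
  refine Sig.mk (hd.subst r0 (Ψ := fun (p : α × ℕ) E => join (fun i => E (2 * i))
    (fun i => E (2 * (Nat.pair p.2.unpair.1 i) + 1))) rr) ?_
  intro a F
  simp only [join_even, join_odd]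
  constructor
  · intro hn
    have hn' := fun n => (h1 (a, n) F).1 (hn n)
    choose G hG using hn'
    refine ⟨fun i => G i.unpair.1 i.unpair.2, fun m => ?_⟩
    simp only [Nat.unpair_pair]
    exact hG _ _
  · rintro ⟨G, hG⟩ n
    refine (h1 (a, n) F).2 ⟨fun i => G (Nat.pair n i), fun m => ?_⟩
    have := hG (Nat.pair n m)
    simpa using this

theorem Sig.decode {P : α → β → (ℕ → ℕ) → Prop} (h : Sig (fun (p : α × β) F => P p.1 p.2 F))
    (c : Prop) :
    Sig (fun (p : α × ℕ) F => (Encodable.decode p.2 : Option β).elim c fun b => P p.1 b F) := by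
  classical
  obtain ⟨d, hd, h1⟩ := h
  have e1 : RecF (fun (q : (α × ℕ) × β) F => d ((q.1.1, q.2), q.1.2) F) :=
    hd.comp₁ (f := fun q : (α × ℕ) × β => ((q.1.1, q.2), q.1.2))
      (Computable.pair (Computable.pair (Computable.fst.comp Computable.fst) Computable.snd)
        (Computable.snd.comp Computable.fst))
  have e2 := RecF.decode (γ := α × ℕ) (β := β) (d := fun q F => d ((q.1.1, q.2), q.1.2) F) e1
    (decide c)
  have e3 : RecF (fun (p : (α × ℕ) × ℕ) F => ((Encodable.decode p.1.2 : Option β).elim (decide c)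
      fun b => d ((p.1.1, b), p.2) F)) :=
    e2.comp₁ (f := fun p : (α × ℕ) × ℕ => ((p.1.1, p.2), p.1.2))
      (Computable.pair (Computable.pair (Computable.fst.comp Computable.fst) Computable.snd)
        (Computable.snd.comp Computable.fst))
  refine Sig.mk e3 ?_
  rintro ⟨a, n⟩ F
  simp only
  cases hb : (Encodable.decode n : Option β) with
  | none =>
    simp only [Option.elim_none, decide_eq_true_eq]
    exact ⟨fun h => ⟨fun _ => 0, fun _ => h⟩, fun ⟨G, hG⟩ => hG 0⟩
  | some b => exact h1 (a, b) F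

theorem Sig.ex {P : α → β → (ℕ → ℕ) → Prop} (h : Sig (fun (p : α × β) F => P p.1 p.2 F)) :
    Sig (fun a F => ∃ b, P a b F) := by
  refine (Sig.exN (P := fun a n F => (Encodable.decode n : Option β).elim False
    fun b => P a b F) (h.decode False)).congr ?_
  intro a F
  constructor
  · rintro ⟨n, hn⟩
    cases hb : (Encodable.decode n : Option β) with
    | none => rw [hb] at hn; exact hn.elim
    | some b => rw [hb] at hn; exact ⟨b, hn⟩
  · rintro ⟨b, hb⟩
    exact ⟨Encodable.encode b, by rw [Encodable.encodek]; exact hb⟩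

theorem Sig.all {P : α → β → (ℕ → ℕ) → Prop} (h : Sig (fun (p : α × β) F => P p.1 p.2 F)) :
    Sig (fun a F => ∀ b, P a b F) := by
  refine (Sig.allN (P := fun a n F => (Encodable.decode n : Option β).elim True
    fun b => P a b F) (h.decode True)).congr ?_
  intro a F
  constructor
  · intro hn b
    have := hn (Encodable.encode b)
    rw [Encodable.encodek] at this
    exact this
  · intro hb n
    cases hn : (Encodable.decode n : Option β) with
    | none => trivial
    | some b => exact hb b

/-- Quantification over a function `G`; inside, `G i` is written `(join F G) (2 * i + 1)` and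
`F i` is written `(join F G) (2 * i)`. -/
theorem Sig.exF {P : α → (ℕ → ℕ) → Prop} (h : Sig P) : Sig (fun a F => ∃ G, P a (join F G)) := by
  obtain ⟨d, hd, h1⟩ := h
  have r0 : RecF (fun (p : (α × ℕ) × ℕ) (E : ℕ → ℕ) =>
      join (fun i => E (2 * i)) (fun i => E (2 * (2 * i) + 1)) p.2) :=
    RecF.joinF (α := α × ℕ) (Ψ := fun _ E i => E (2 * i))
      (Φ := fun _ E i => E (2 * (2 * i) + 1)) (RecF.at (c_dbl Computable.snd))
      (RecF.at (c_dbl1 (c_dbl Computable.snd)))
  have rr : RecF (fun (p : (α × ℕ) × ℕ) (E : ℕ → ℕ) =>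
      join (join (fun i => E (2 * i)) (fun i => E (2 * (2 * i) + 1)))
        (fun i => E (2 * (2 * i + 1) + 1)) p.2) :=
    RecF.joinF (α := α × ℕ) (Ψ := fun _ E => join (fun i => E (2 * i))
      (fun i => E (2 * (2 * i) + 1)))
      (Φ := fun _ E i => E (2 * (2 * i + 1) + 1)) r0 (RecF.at (c_dbl1 (c_dbl1 Computable.snd)))
  refine Sig.mk (hd.subst (RecF.of_computable Computable.id) (Ψ := fun (_ : α × ℕ) E =>
    join (join (fun i => E (2 * i)) (fun i => E (2 * (2 * i) + 1)))
        (fun i => E (2 * (2 * i + 1) + 1))) rr) ?_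
  intro a F
  simp only [join_even, join_odd, id]
  constructor
  · rintro ⟨G, hG⟩
    obtain ⟨H, hH⟩ := (h1 a _).1 hG
    refine ⟨join G H, fun m => ?_⟩
    simp only [join_even, join_odd]
    exact hH m
  · rintro ⟨K, hK⟩
    exact ⟨fun i => K (2 * i), (h1 a _).2 ⟨fun i => K (2 * i + 1), hK⟩⟩

/-! ### `Π¹₁` and `Δ¹₁` -/

theorem Pih.congr {P Q : α → (ℕ → ℕ) → Prop} (h : Pih P) (e : ∀ a F, P a F ↔ Q a F) : Pih Q := by
  have : P = Q := by funext a F; exact propext (e a F)
  rw [← this]; exact h

theorem Sig.not {P : α → (ℕ → ℕ) → Prop} (h : Sig P) : Pih (fun a F => ¬ P a F) := by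
  unfold Pih
  exact h.congr fun a F => by simp

theorem Pih.not {P : α → (ℕ → ℕ) → Prop} (h : Pih P) : Sig (fun a F => ¬ P a F) := h

theorem RecF.notB {d : α → (ℕ → ℕ) → Bool} (hd : RecF d) : RecF (fun a F => !d a F) :=
  hd.comp (g := fun b : Bool => !b) (Primrec.not.to_comp)

theorem Pih.of_recF {d : α → (ℕ → ℕ) → Bool} (hd : RecF d) : Pih (fun a F => d a F = true) := by
  unfold Pih
  exact (Sig.of_recF hd.notB).congr fun a F => by simp

theorem Pih.of_computable {P : α → Prop} (h : ComputablePred P) :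
    Pih (fun a (_ : ℕ → ℕ) => P a) := by
  obtain ⟨_, h'⟩ := h
  exact (Pih.of_recF (RecF.of_computable h')).congr fun a F => by simp

theorem Pih.and {P Q : α → (ℕ → ℕ) → Prop} (h : Pih P) (h' : Pih Q) :
    Pih (fun a F => P a F ∧ Q a F) := by
  unfold Pih at *
  exact (h.or h').congr fun a F => by tauto

theorem Pih.or {P Q : α → (ℕ → ℕ) → Prop} (h : Pih P) (h' : Pih Q) :
    Pih (fun a F => P a F ∨ Q a F) := by
  unfold Pih at *
  exact (h.and h').congr fun a F => by tauto

theorem Pih.ex {P : α → β → (ℕ → ℕ) → Prop} (h : Pih (fun (p : α × β) F => P p.1 p.2 F)) :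
    Pih (fun a F => ∃ b, P a b F) := by
  unfold Pih at *
  exact (Sig.all (P := fun a b F => ¬ P a b F) h).congr fun a F => by simp

theorem Pih.all {P : α → β → (ℕ → ℕ) → Prop} (h : Pih (fun (p : α × β) F => P p.1 p.2 F)) :
    Pih (fun a F => ∀ b, P a b F) := by
  unfold Pih at *
  exact (Sig.ex (P := fun a b F => ¬ P a b F) h).congr fun a F => by simp

theorem Pih.allF {P : α → (ℕ → ℕ) → Prop} (h : Pih P) : Pih (fun a F => ∀ G, P a (join F G)) := by
  unfold Pih at *
  exact (Sig.exF h).congr fun a F => by simp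

theorem Pih.subst {P : β → (ℕ → ℕ) → Prop} (h : Pih P) {ψ : α → (ℕ → ℕ) → β} (hψ : RecF ψ)
    {Ψ : α → (ℕ → ℕ) → ℕ → ℕ} (hΨ : RecF (fun (p : α × ℕ) F => Ψ p.1 F p.2)) :
    Pih (fun a F => P (ψ a F) (Ψ a F)) := by
  unfold Pih at *
  exact Sig.subst h hψ hΨ

theorem Pih.comp {P : β → (ℕ → ℕ) → Prop} (h : Pih P) {f : α → β} (hf : Computable f) :
    Pih (fun a F => P (f a) F) := by
  unfold Pih at *
  exact Sig.comp h hf

theorem Del.congr {P Q : α → (ℕ → ℕ) → Prop} (h : Del P) (e : ∀ a F, P a F ↔ Q a F) : Del Q :=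
  ⟨h.1.congr e, h.2.congr e⟩

theorem Del.of_recF {d : α → (ℕ → ℕ) → Bool} (hd : RecF d) : Del (fun a F => d a F = true) :=
  ⟨Sig.of_recF hd, Pih.of_recF hd⟩

theorem Del.of_computable {P : α → Prop} (h : ComputablePred P) :
    Del (fun a (_ : ℕ → ℕ) => P a) :=
  ⟨Sig.of_computable h, Pih.of_computable h⟩

theorem Del.not {P : α → (ℕ → ℕ) → Prop} (h : Del P) : Del (fun a F => ¬ P a F) :=
  ⟨h.2.not, h.1.not⟩

theorem Del.and {P Q : α → (ℕ → ℕ) → Prop} (h : Del P) (h' : Del Q) :
    Del (fun a F => P a F ∧ Q a F) :=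
  ⟨h.1.and h'.1, h.2.and h'.2⟩

theorem Del.or {P Q : α → (ℕ → ℕ) → Prop} (h : Del P) (h' : Del Q) :
    Del (fun a F => P a F ∨ Q a F) :=
  ⟨h.1.or h'.1, h.2.or h'.2⟩

theorem Del.imp {P Q : α → (ℕ → ℕ) → Prop} (h : Del P) (h' : Del Q) :
    Del (fun a F => P a F → Q a F) :=
  (h.not.or h').congr fun a F => by tauto

theorem Del.ex {P : α → β → (ℕ → ℕ) → Prop} (h : Del (fun (p : α × β) F => P p.1 p.2 F)) :
    Del (fun a F => ∃ b, P a b F) :=
  ⟨Sig.ex h.1, Pih.ex h.2⟩

theorem Del.all {P : α → β → (ℕ → ℕ) → Prop} (h : Del (fun (p : α × β) F => P p.1 p.2 F)) :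
    Del (fun a F => ∀ b, P a b F) :=
  ⟨Sig.all h.1, Pih.all h.2⟩

theorem Del.comp {P : β → (ℕ → ℕ) → Prop} (h : Del P) {f : α → β} (hf : Computable f) :
    Del (fun a F => P (f a) F) :=
  ⟨h.1.comp hf, h.2.comp hf⟩

theorem Del.subst {P : β → (ℕ → ℕ) → Prop} (h : Del P) {ψ : α → (ℕ → ℕ) → β} (hψ : RecF ψ)
    {Ψ : α → (ℕ → ℕ) → ℕ → ℕ} (hΨ : RecF (fun (p : α × ℕ) F => Ψ p.1 F p.2)) :
    Del (fun a F => P (ψ a F) (Ψ a F)) :=
  ⟨h.1.subst hψ hΨ, h.2.subst hψ hΨ⟩

/-! ### Clopen and closed relations -/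

theorem Cop.congr {P Q : α → (ℕ → ℕ) → Prop} (h : Cop P) (e : ∀ a F, P a F ↔ Q a F) : Cop Q := by
  have : P = Q := by funext a F; exact propext (e a F)
  rw [← this]; exact h

theorem Cop.of_computable {P : α → Prop} (h : ComputablePred P) :
    Cop (fun a (_ : ℕ → ℕ) => P a) := by
  obtain ⟨_, h'⟩ := h
  exact ⟨fun a _ => decide (P a), RecF.of_computable h', fun a F => by simp⟩

theorem Cop.of_recF {φ : α → (ℕ → ℕ) → β} (hφ : RecF φ) {p : β → Prop} (hp : ComputablePred p) :
    Cop (fun a F => p (φ a F)) := by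
  obtain ⟨_, h'⟩ := hp
  exact ⟨fun a F => decide (p (φ a F)), hφ.comp h', fun a F => by simp⟩

private theorem eqPair : ComputablePred (fun p : ℕ × ℕ => p.1 = p.2) := by
  have h : PrimrecRel (fun a b : ℕ => a = b) := Primrec.eq
  exact PrimrecPred.computablePred (PrimrecRel.comp h Primrec.fst Primrec.snd)

/-- Basic clopen relations: `F (f a) = g a`. -/
theorem Cop.app_eq {f g : α → ℕ} (hf : Computable f) (hg : Computable g) :
    Cop (fun a F => F (f a) = g a) :=
  Cop.of_recF ((RecF.at hf).pair (RecF.of_computable hg)) (p := fun p : ℕ × ℕ => p.1 = p.2) eqPair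

theorem Cop.not {P : α → (ℕ → ℕ) → Prop} (h : Cop P) : Cop (fun a F => ¬ P a F) := by
  obtain ⟨d, hd, h1⟩ := h
  exact ⟨fun a F => !d a F, hd.notB, fun a F => by
    show (¬ P a F) ↔ (!d a F) = true
    rw [h1]; simp⟩

theorem Cop.and {P Q : α → (ℕ → ℕ) → Prop} (h : Cop P) (h' : Cop Q) :
    Cop (fun a F => P a F ∧ Q a F) := by
  obtain ⟨d, hd, h1⟩ := h
  obtain ⟨d', hd', h1'⟩ := h'
  refine ⟨fun a F => bif d a F then d' a F else false, RecF.cond hd hd'
    (RecF.of_computable (Computable.const false)), fun a F => ?_⟩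
  show (P a F ∧ Q a F) ↔ (bif d a F then d' a F else false) = true
  rw [h1, h1']
  cases d a F <;> simp

theorem Cop.or {P Q : α → (ℕ → ℕ) → Prop} (h : Cop P) (h' : Cop Q) :
    Cop (fun a F => P a F ∨ Q a F) :=
  (h.not.and h'.not).not.congr fun a F => by tauto

theorem Cop.imp {P Q : α → (ℕ → ℕ) → Prop} (h : Cop P) (h' : Cop Q) :
    Cop (fun a F => P a F → Q a F) :=
  (h.not.or h').congr fun a F => by tauto

theorem Cop.iff {P Q : α → (ℕ → ℕ) → Prop} (h : Cop P) (h' : Cop Q) :
    Cop (fun a F => (P a F ↔ Q a F)) :=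
  ((h.imp h').and (h'.imp h)).congr fun a F => by tauto

theorem Cop.comp {P : β → (ℕ → ℕ) → Prop} (h : Cop P) {f : α → β} (hf : Computable f) :
    Cop (fun a F => P (f a) F) := by
  obtain ⟨d, hd, h1⟩ := h
  exact ⟨fun a F => d (f a) F, hd.comp₁ hf, fun a F => h1 _ _⟩

theorem Cop.subst {P : β → (ℕ → ℕ) → Prop} (h : Cop P) {ψ : α → (ℕ → ℕ) → β} (hψ : RecF ψ)
    {Ψ : α → (ℕ → ℕ) → ℕ → ℕ} (hΨ : RecF (fun (p : α × ℕ) F => Ψ p.1 F p.2)) :
    Cop (fun a F => P (ψ a F) (Ψ a F)) := by
  obtain ⟨d, hd, h1⟩ := h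
  exact ⟨fun a F => d (ψ a F) (Ψ a F), hd.subst hψ hΨ, fun a F => h1 _ _⟩

/-- Bounded quantifiers. -/
theorem Cop.ball {P : α → ℕ → (ℕ → ℕ) → Prop} (h : Cop (fun (p : α × ℕ) F => P p.1 p.2 F))
    {f : α → ℕ} (hf : Computable f) : Cop (fun a F => ∀ i < f a, P a i F) := by
  obtain ⟨d, hd, h1⟩ := h
  have e1 : RecF (fun (x : α × ℕ × Bool) F => bif x.2.2 then d (x.1, x.2.1) F else false) :=
    RecF.cond (RecF.of_computable (Computable.snd.comp Computable.snd))
      (hd.comp₁ (f := fun x : α × ℕ × Bool => (x.1, x.2.1))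
        (Computable.pair Computable.fst (Computable.fst.comp Computable.snd)))
      (RecF.of_computable (Computable.const false))
  have e2 := RecF.natRec (g := fun (_ : α) (_ : ℕ → ℕ) => true)
    (RecF.of_computable (Computable.const true)) e1
  have e3 := e2.comp₁ (f := fun a : α => (a, f a)) (Computable.pair Computable.id hf)
  refine ⟨_, e3, fun a F => ?_⟩
  simp only
  generalize f a = n
  induction n with
  | zero => simp
  | succ n ih =>
    constructor
    · intro hh
      have := ih.1 (fun i hi => hh i (by omega))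
      simp only [this, cond_true]
      exact (h1 (a, n) F).1 (hh n (by omega))
    · intro hh i hi
      simp only at hh
      cases hr : (Nat.rec (motive := fun _ => Bool) true
        (fun k r => bif r then d (a, k) F else false) n) with
      | false => rw [hr] at hh; simp at hh
      | true =>
        rw [hr] at hh
        simp only [cond_true] at hh
        by_cases hin : i < n
        · exact ih.2 hr i hin
        · have : i = n := by omega
          subst this
          exact (h1 (a, i) F).2 hh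

theorem Clo.congr {P Q : α → (ℕ → ℕ) → Prop} (h : Clo P) (e : ∀ a F, P a F ↔ Q a F) : Clo Q := by
  have : P = Q := by funext a F; exact propext (e a F)
  rw [← this]; exact h

theorem Clo.of_cop {P : α → (ℕ → ℕ) → Prop} (h : Cop P) : Clo P := by
  obtain ⟨d, hd, h1⟩ := h
  exact ⟨fun p F => d p.1 F, hd.comp₁ Computable.fst, fun a F => by
    rw [h1]; exact ⟨fun h _ => h, fun h => h 0⟩⟩

/-- A countable intersection of clopen relations is closed. -/
theorem Clo.iInter {P : α → ℕ → (ℕ → ℕ) → Prop} (h : Cop (fun (p : α × ℕ) F => P p.1 p.2 F)) :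
    Clo (fun a F => ∀ m, P a m F) := by
  obtain ⟨d, hd, h1⟩ := h
  exact ⟨d, hd, fun a F => forall_congr' fun m => h1 (a, m) F⟩

theorem Clo.allN {P : α → ℕ → (ℕ → ℕ) → Prop} (h : Clo (fun (p : α × ℕ) F => P p.1 p.2 F)) :
    Clo (fun a F => ∀ n, P a n F) := by
  obtain ⟨d, hd, h1⟩ := h
  have cu1 : Computable (fun m : ℕ => m.unpair.1) := (Primrec.fst.comp Primrec.unpair).to_comp
  have cu2 : Computable (fun m : ℕ => m.unpair.2) := (Primrec.snd.comp Primrec.unpair).to_comp
  refine ⟨fun p F => d ((p.1, p.2.unpair.1), p.2.unpair.2) F, hd.comp₁ ?_, fun a F => ?_⟩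
  · exact Computable.pair (Computable.pair Computable.fst
      (cu1.comp Computable.snd)) (cu2.comp Computable.snd)
  · constructor
    · intro h m
      exact (h1 (a, m.unpair.1) F).1 (h _) _
    · intro h n
      refine (h1 (a, n) F).2 fun m => ?_
      have := h (Nat.pair n m)
      simpa using this

theorem Clo.decode {P : α → β → (ℕ → ℕ) → Prop} (h : Clo (fun (p : α × β) F => P p.1 p.2 F))
    (c : Prop) :
    Clo (fun (p : α × ℕ) F => (Encodable.decode p.2 : Option β).elim c fun b => P p.1 b F) := by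
  classical
  obtain ⟨d, hd, h1⟩ := h
  have e1 : RecF (fun (q : (α × ℕ) × β) F => d ((q.1.1, q.2), q.1.2) F) :=
    hd.comp₁ (f := fun q : (α × ℕ) × β => ((q.1.1, q.2), q.1.2))
      (Computable.pair (Computable.pair (Computable.fst.comp Computable.fst) Computable.snd)
        (Computable.snd.comp Computable.fst))
  have e2 := RecF.decode (γ := α × ℕ) (β := β) (d := fun q F => d ((q.1.1, q.2), q.1.2) F) e1
    (decide c)
  have e3 : RecF (fun (p : (α × ℕ) × ℕ) F => ((Encodable.decode p.1.2 : Option β).elim (decide c)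
      fun b => d ((p.1.1, b), p.2) F)) :=
    e2.comp₁ (f := fun p : (α × ℕ) × ℕ => ((p.1.1, p.2), p.1.2))
      (Computable.pair (Computable.pair (Computable.fst.comp Computable.fst) Computable.snd)
        (Computable.snd.comp Computable.fst))
  refine ⟨_, e3, ?_⟩
  rintro ⟨a, n⟩ F
  simp only
  cases hb : (Encodable.decode n : Option β) with
  | none =>
    simp only [Option.elim_none, decide_eq_true_eq]
    exact ⟨fun h _ => h, fun h => h 0⟩
  | some b => exact h1 (a, b) F

theorem Clo.all {P : α → β → (ℕ → ℕ) → Prop} (h : Clo (fun (p : α × β) F => P p.1 p.2 F)) :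
    Clo (fun a F => ∀ b, P a b F) := by
  refine (Clo.allN (P := fun a n F => (Encodable.decode n : Option β).elim True
    fun b => P a b F) (h.decode True)).congr ?_
  intro a F
  constructor
  · intro hn b
    have := hn (Encodable.encode b)
    rw [Encodable.encodek] at this
    exact this
  · intro hb n
    cases hn : (Encodable.decode n : Option β) with
    | none => trivial
    | some b => exact hb b

theorem Clo.and {P Q : α → (ℕ → ℕ) → Prop} (h : Clo P) (h' : Clo Q) :
    Clo (fun a F => P a F ∧ Q a F) := by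
  obtain ⟨d, hd, h1⟩ := h
  obtain ⟨d', hd', h1'⟩ := h'
  have e1 : Cop (fun (p : α × ℕ) F => d p F = true) := ⟨d, hd, fun _ _ => Iff.rfl⟩
  have e2 : Cop (fun (p : α × ℕ) F => d' p F = true) := ⟨d', hd', fun _ _ => Iff.rfl⟩
  refine (Clo.iInter (P := fun a m F => d (a, m) F = true ∧ d' (a, m) F = true)
    (e1.and e2)).congr ?_
  intro a F
  rw [h1, h1']
  exact forall_and

theorem Clo.imp {P Q : α → (ℕ → ℕ) → Prop} (h : Cop P) (h' : Clo Q) :
    Clo (fun a F => P a F → Q a F) := by
  obtain ⟨d', hd', h1'⟩ := h'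
  have e2 : Cop (fun (p : α × ℕ) F => d' p F = true) := ⟨d', hd', fun _ _ => Iff.rfl⟩
  refine (Clo.iInter (P := fun a m F => P a F → d' (a, m) F = true)
    ((h.comp (f := fun p : α × ℕ => p.1) Computable.fst).imp e2)).congr ?_
  intro a F
  rw [h1']
  exact ⟨fun hh hp m => hh m hp, fun hh m hp => hh hp m⟩

theorem Clo.comp {P : β → (ℕ → ℕ) → Prop} (h : Clo P) {f : α → β} (hf : Computable f) :
    Clo (fun a F => P (f a) F) := by
  obtain ⟨d, hd, h1⟩ := h
  exact ⟨fun p F => d (f p.1, p.2) F, hd.comp₁ (Computable.pair (hf.comp Computable.fst)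
    Computable.snd), fun a F => h1 _ _⟩

theorem Cop.del {P : α → (ℕ → ℕ) → Prop} (h : Cop P) : Del P := by
  obtain ⟨d, hd, h1⟩ := h
  exact (Del.of_recF hd).congr fun a F => (h1 a F).symm

theorem Clo.del {P : α → (ℕ → ℕ) → Prop} (h : Clo P) : Del P := by
  obtain ⟨d, hd, h1⟩ := h
  exact (Del.all (P := fun a m F => d (a, m) F = true) (Del.of_recF hd)).congr
    fun a F => (h1 a F).symm

private theorem le_comp : ComputablePred (fun p : ℕ × ℕ => p.1 ≤ p.2) :=
  PrimrecPred.computablePred (PrimrecRel.comp Primrec.nat_le Primrec.fst Primrec.snd)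

/-- A monotone algorithm with stable values. -/
theorem RecF.stable {d : α → (ℕ → ℕ) → β} (hd : RecF d) : ∃ q : α × List ℕ → Option β,
    Computable q ∧ (∀ a F k b, q (a, MP_8c048d_lc.pre F k) = some b → d a F = b) ∧
    (∀ a F, ∃ k0, ∀ k, k0 ≤ k → q (a, MP_8c048d_lc.pre F k) = some (d a F)) ∧
    ∀ a F k k', k ≤ k' → (q (a, MP_8c048d_lc.pre F k)).isSome →
      (q (a, MP_8c048d_lc.pre F k')).isSome := by
  obtain ⟨q, hq, h1, h2⟩ := hd
  refine ⟨fun p => srch q p p.2.length, srch_comp hq, ?_, ?_, ?_⟩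
  · intro a F k b hb
    obtain ⟨j, hj, hj'⟩ := srch_sound hb
    simp only [pre_take] at hj'
    exact h1 a F _ b hj'
  · intro a F
    obtain ⟨k0, hk0⟩ := h2 a F
    refine ⟨k0, fun k hk => ?_⟩
    have h3 : (srch q (a, MP_8c048d_lc.pre F k) (MP_8c048d_lc.pre F k).length).isSome := by
      apply srch_isSome (j := k0)
      · rw [length_pre]; exact hk
      · simp only [pre_take]
        rw [min_eq_left hk, hk0]
        rfl
    obtain ⟨b, hb⟩ := Option.isSome_iff_exists.1 h3
    show srch q (a, MP_8c048d_lc.pre F k) (MP_8c048d_lc.pre F k).length = _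
    rw [hb]
    obtain ⟨j, hj, hj'⟩ := srch_sound hb
    simp only [pre_take] at hj'
    rw [h1 a F _ b hj']
  · intro a F k k' hk hs
    obtain ⟨b, hb⟩ := Option.isSome_iff_exists.1 hs
    obtain ⟨j, hj, hj'⟩ := srch_sound hb
    simp only [length_pre] at hj
    simp only [pre_take] at hj'
    apply srch_isSome (j := j)
    · rw [length_pre]; omega
    · simp only [pre_take]
      rw [min_eq_left (by omega)]
      rw [min_eq_left (by omega)] at hj'
      rw [hj']
      rfl

/-- Compactness: a closed condition on a `0-1`-valued function can be quantified away. -/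
theorem Clo.compact {P : α → (ℕ → ℕ) → Prop} (h : Clo P) :
    Del (fun (a : α) (_ : ℕ → ℕ) => ∃ v : ℕ → ℕ, (∀ i, v i ≤ 1) ∧ P a v) := by
  have hP := h
  obtain ⟨d, hd, h1⟩ := h
  constructor
  · -- Σ
    have e1 : Sig (fun (a : α) (E : ℕ → ℕ) => P a (fun i => E (2 * i + 1))) :=
      hP.del.1.subst (RecF.of_computable Computable.id)
        (Ψ := fun (_ : α) E i => E (2 * i + 1)) (RecF.at (c_dbl1 Computable.snd))
    have e2 : Sig (fun (a : α) (E : ℕ → ℕ) => ∀ i, E (2 * i + 1) ≤ 1) := by
      refine Sig.all (P := fun (_ : α) (i : ℕ) E => E (2 * i + 1) ≤ 1) ?_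
      have : Cop (fun (p : α × ℕ) (E : ℕ → ℕ) => (E (2 * p.2 + 1), 1).1 ≤ (E (2 * p.2 + 1), 1).2) :=
        Cop.of_recF (φ := fun (p : α × ℕ) (E : ℕ → ℕ) => (E (2 * p.2 + 1), 1))
          ((RecF.at (c_dbl1 Computable.snd)).pair (RecF.of_computable (Computable.const 1)))
          (p := fun p : ℕ × ℕ => p.1 ≤ p.2) le_comp
      exact this.del.1
    refine (Sig.exF (e2.and e1)).congr ?_
    intro a F
    simp only [join_odd]
  · -- Π
    obtain ⟨q, hq, h2, h3, h4⟩ := hd.stable
    have key : ∀ a, (∃ v : ℕ → ℕ, (∀ i, v i ≤ 1) ∧ P a v) ↔ ∀ k : ℕ, ∃ s : List ℕ,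
        (s.length = k ∧ ∀ x ∈ s, x ≤ 1) ∧ ∀ m : ℕ, m ≤ k → ¬ q ((a, m), s) = some false := by
      intro a
      constructor
      · rintro ⟨v, hv, hPv⟩ k
        refine ⟨MP_8c048d_lc.pre v k, ⟨length_pre v k, ?_⟩, ?_⟩
        · intro x hx
          simp only [MP_8c048d_lc.pre, List.mem_map] at hx
          obtain ⟨i, -, rfl⟩ := hx
          exact hv i
        · intro m _ hm
          have := h2 _ _ _ _ hm
          rw [(h1 a v).1 hPv m] at this
          exact absurd this (by decide)
      · intro H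
        -- compactness of the Cantor space
        let K : ℕ → Set (ℕ → Bool) := fun k =>
          {v | ∀ m, m ≤ k → ¬ q ((a, m), MP_8c048d_lc.pre (fun i => (v i).toNat) k) = some false}
        have hcl : ∀ k, IsClosed (K k) := by
          intro k
          have : K k = ⋂ m : ℕ, ⋂ _ : m ≤ k, {v | ¬ q ((a, m),
              MP_8c048d_lc.pre (fun i => (v i).toNat) k) = some false} := by
            ext v; simp [K]
          rw [this]
          refine isClosed_iInter fun m => isClosed_iInter fun _ => ?_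
          have hc : Continuous (fun v : ℕ → Bool =>
              (fun i : Fin k => v i)) := continuous_pi fun i => continuous_apply _
          have hs : {v : ℕ → Bool | ¬ q ((a, m),
              MP_8c048d_lc.pre (fun i => (v i).toNat) k) = some false} =
              (fun v : ℕ → Bool => (fun i : Fin k => v i)) ⁻¹' {w : Fin k → Bool | ¬ q ((a, m),
                MP_8c048d_lc.pre (fun i => if h : i < k then (w ⟨i, h⟩).toNat else 0) k)
                  = some false} := by
            ext v
            simp only [Set.mem_preimage, Set.mem_setOf_eq]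
            rw [pre_congr (F := fun i => (v i).toNat)
              (G := fun i => if h : i < k then (v (⟨i, h⟩ : Fin k)).toNat else 0)]
            intro i hi
            simp [hi]
          rw [hs]
          exact (isClosed_discrete _).preimage hc
        have hmono : ∀ k, K (k + 1) ⊆ K k := by
          intro k v hv m hm hq'
          have h5 := h4 (a, m) (fun i => (v i).toNat) k (k + 1) (by omega) (by rw [hq']; rfl)
          obtain ⟨b, hb⟩ := Option.isSome_iff_exists.1 h5
          have e1 := h2 _ _ _ _ hq'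
          have e2 := h2 _ _ _ _ hb
          rw [e1] at e2
          exact hv m (by omega) (by rw [hb, ← e2])
        have hne : ∀ k, (K k).Nonempty := by
          intro k
          obtain ⟨s, ⟨hs1, hs2⟩, hs3⟩ := H k
          refine ⟨fun i => decide (s.getD i 0 = 1), ?_⟩
          intro m hm
          have : MP_8c048d_lc.pre (fun i => (decide (s.getD i 0 = 1)).toNat) k = s := by
            apply List.ext_getElem
            · rw [length_pre, hs1]
            · intro i h1 h2
              simp only [MP_8c048d_lc.pre, List.getElem_map, List.getElem_range]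
              have h3 : s.getD i 0 = s[i] := by
                simp [List.getD_eq_getElem?_getD, h2]
              rw [h3]
              have h4 := hs2 _ (List.getElem_mem h2)
              have h5 : s[i] = 0 ∨ s[i] = 1 := by omega
              rcases h5 with h5 | h5 <;> simp [h5]
          rw [this]
          exact hs3 m hm
        obtain ⟨v, hv⟩ := IsCompact.nonempty_iInter_of_sequence_nonempty_isCompact_isClosed K
          hmono hne (hcl 0).isCompact hcl
        refine ⟨fun i => (v i).toNat, fun i => Bool.toNat_le (v i), (h1 a _).2 fun m => ?_⟩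
        obtain ⟨k0, hk0⟩ := h3 (a, m) (fun i => (v i).toNat)
        have h5 := Set.mem_iInter.1 hv (max k0 m) m (le_max_right _ _)
        rw [hk0 _ (le_max_left _ _)] at h5
        cases hd' : d (a, m) (fun i => (v i).toNat) with
        | true => rfl
        | false => rw [hd'] at h5; exact absurd rfl h5
    -- complexity
    have c1 : Pih (fun (p : ((α × ℕ) × List ℕ) × ℕ) (_ : ℕ → ℕ) =>
        p.2 ≤ p.1.1.2 → ¬ q ((p.1.1.1, p.2), p.1.2) = some false) := by
      have d1 : Cop (fun (p : ((α × ℕ) × List ℕ) × ℕ) (_ : ℕ → ℕ) => p.2 ≤ p.1.1.2) := by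
        have := Cop.of_recF (φ := fun (p : ((α × ℕ) × List ℕ) × ℕ) (_ : ℕ → ℕ) => (p.2, p.1.1.2))
          (RecF.of_computable (Computable.pair Computable.snd
            (Computable.snd.comp (Computable.fst.comp Computable.fst))))
          (p := fun p : ℕ × ℕ => p.1 ≤ p.2) le_comp
        exact this
      have d2 : Cop (fun (p : ((α × ℕ) × List ℕ) × ℕ) (_ : ℕ → ℕ) =>
          q ((p.1.1.1, p.2), p.1.2) = some false) := by
        have e1 : Computable (fun p : ((α × ℕ) × List ℕ) × ℕ => q ((p.1.1.1, p.2), p.1.2)) :=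
          hq.comp (Computable.pair (Computable.pair
            (Computable.fst.comp (Computable.fst.comp Computable.fst)) Computable.snd)
            (Computable.snd.comp Computable.fst))
        have e2 : ComputablePred (fun o : Option Bool => o = some false) :=
          PrimrecPred.computablePred (PrimrecRel.comp Primrec.eq Primrec.id (Primrec.const _))
        exact Cop.of_recF (RecF.of_computable e1) e2
      exact (d1.imp d2.not).del.2
    have c2 : Pih (fun (p : (α × ℕ) × List ℕ) (_ : ℕ → ℕ) =>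
        ∀ m : ℕ, m ≤ p.1.2 → ¬ q ((p.1.1, m), p.2) = some false) :=
      Pih.all (P := fun (p : (α × ℕ) × List ℕ) (m : ℕ) (_ : ℕ → ℕ) =>
        m ≤ p.1.2 → ¬ q ((p.1.1, m), p.2) = some false) c1
    have c3 : Pih (fun (p : (α × ℕ) × List ℕ) (_ : ℕ → ℕ) =>
        p.2.length = p.1.2 ∧ ∀ x ∈ p.2, x ≤ 1) := by
      have d1 : Cop (fun (p : (α × ℕ) × List ℕ) (_ : ℕ → ℕ) => p.2.length = p.1.2) := by
        have := Cop.of_recF (φ := fun (p : (α × ℕ) × List ℕ) (_ : ℕ → ℕ) => (p.2.length, p.1.2))
          (RecF.of_computable (Computable.pair (Computable.list_length.comp Computable.snd)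
            (Computable.snd.comp Computable.fst)))
          (p := fun p : ℕ × ℕ => p.1 = p.2) eqPair
        exact this
      have d2 : Cop (fun (p : (α × ℕ) × List ℕ) (_ : ℕ → ℕ) =>
          ∀ i < p.2.length, p.2.getD i 0 ≤ 1) := by
        refine Cop.ball (P := fun (p : (α × ℕ) × List ℕ) (i : ℕ) (_ : ℕ → ℕ) =>
          p.2.getD i 0 ≤ 1) ?_ (Computable.list_length.comp Computable.snd)
        have e1 : Computable (fun p : ((α × ℕ) × List ℕ) × ℕ => p.1.2.getD p.2 0) :=
          (Primrec.list_getD 0).to_comp.comp (Computable.snd.comp Computable.fst) Computable.snd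
        have := Cop.of_recF (φ := fun (p : ((α × ℕ) × List ℕ) × ℕ) (_ : ℕ → ℕ) =>
            (p.1.2.getD p.2 0, 1))
          (RecF.of_computable (Computable.pair e1 (Computable.const 1)))
          (p := fun p : ℕ × ℕ => p.1 ≤ p.2) le_comp
        exact this
      refine (d1.and d2).del.2.congr ?_
      intro p F
      refine and_congr_right fun _ => ?_
      constructor
      · intro h x hx
        obtain ⟨i, hi, rfl⟩ := List.getElem_of_mem hx
        have := h i hi
        simpa [List.getD_eq_getElem?_getD, hi] using this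
      · intro h i hi
        have := h _ (List.getElem_mem hi)
        simpa [List.getD_eq_getElem?_getD, hi] using this
    refine (Pih.all (P := fun (a : α) (k : ℕ) (_ : ℕ → ℕ) => ∃ s : List ℕ,
        (s.length = k ∧ ∀ x ∈ s, x ≤ 1) ∧ ∀ m : ℕ, m ≤ k → ¬ q ((a, m), s) = some false)
        (Pih.ex (P := fun (p : α × ℕ) (s : List ℕ) (_ : ℕ → ℕ) =>
        (s.length = p.2 ∧ ∀ x ∈ s, x ≤ 1) ∧ ∀ m : ℕ, m ≤ p.2 → ¬ q ((p.1, m), s) = some false)
        (c3.and c2))).congr ?_
    intro a F
    exact (key a).symm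

/-! ### Normal forms -/

/-- The normal form for `Π¹₁` relations without function arguments. -/
theorem pih_normal {P : α → Prop} (h : Pih (fun (a : α) (_ : ℕ → ℕ) => P a)) :
    ∃ R : α × List ℕ → Prop, ComputablePred R ∧
      ∀ a, P a ↔ ∀ f : ℕ → ℕ, ∃ k, R (a, MP_8c048d_lc.pre f k) := by
  obtain ⟨d, hd, h1⟩ := h
  have e1 : RecF (fun (p : α × ℕ) (f : ℕ → ℕ) => d p (join (fun _ => 0) f)) := by
    refine hd.subst (RecF.of_computable Computable.id)
      (Ψ := fun (_ : α × ℕ) f => join (fun _ => 0) f) ?_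
    exact RecF.joinF (α := α × ℕ) (Ψ := fun _ _ _ => 0) (Φ := fun _ f => f)
      (RecF.of_computable (Computable.const 0)) (RecF.at Computable.snd)
  obtain ⟨q, hq, h2, h3⟩ := e1.mono
  -- bounded search
  let s : α × List ℕ → ℕ → Bool := fun p n => Nat.rec (motive := fun _ => Bool)
    (decide (q ((p.1, 0), p.2) = some false))
    (fun m r => bif r then true else decide (q ((p.1, m + 1), p.2) = some false)) n
  have hs : ∀ p n, s p n = true ↔ ∃ m ≤ n, q ((p.1, m), p.2) = some false := by
    intro p n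
    induction n with
    | zero =>
      show decide (q ((p.1, 0), p.2) = some false) = true ↔ _
      simp
    | succ n ih =>
      have e : s p (n + 1) = bif s p n then true
        else decide (q ((p.1, n + 1), p.2) = some false) := rfl
      rw [e]
      cases hn : s p n with
      | true =>
        rw [hn] at ih
        obtain ⟨m, hm, hm'⟩ := ih.1 rfl
        simp only [cond_true, true_iff]
        exact ⟨m, by omega, hm'⟩
      | false =>
        rw [hn] at ih
        simp only [cond_false, decide_eq_true_eq]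
        constructor
        · intro h; exact ⟨n + 1, le_rfl, h⟩
        · rintro ⟨m, hm, hm'⟩
          by_cases hmn : m ≤ n
          · exact absurd (ih.2 ⟨m, hmn, hm'⟩) (by decide)
          · have : m = n + 1 := by omega
            rw [← this]; exact hm'
  have hcs : Computable (fun p : α × List ℕ => s p p.2.length) := by
    have e2 : Computable (fun o : Option Bool => decide (o = some false)) := by
      have h : PrimrecPred (fun o : Option Bool => o = some false) :=
        PrimrecRel.comp Primrec.eq Primrec.id (Primrec.const _)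
      obtain ⟨_, h'⟩ := h
      refine (Primrec.of_eq h' ?_).to_comp
      intro n
      congr
    have b1 : Computable (fun p : α × List ℕ => decide (q ((p.1, 0), p.2) = some false)) :=
      e2.comp (hq.comp (Computable.pair (Computable.pair Computable.fst (Computable.const 0))
        Computable.snd))
    have b3 : Computable (fun z : (α × List ℕ) × (ℕ × Bool) =>
        decide (q ((z.1.1, z.2.1 + 1), z.1.2) = some false)) :=
      e2.comp (hq.comp (Computable.pair (Computable.pair (Computable.fst.comp Computable.fst)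
        (Computable.succ.comp (Computable.fst.comp Computable.snd)))
        (Computable.snd.comp Computable.fst)))
    have b4 : Computable (fun z : (α × List ℕ) × (ℕ × Bool) => bif z.2.2 then true else
        decide (q ((z.1.1, z.2.1 + 1), z.1.2) = some false)) :=
      Computable.cond (Computable.snd.comp Computable.snd) (Computable.const true) b3
    exact Computable.nat_rec (Computable.list_length.comp Computable.snd) b1 b4.to₂
  refine ⟨fun p => s p p.2.length = true, ⟨inferInstance, ?_⟩, ?_⟩
  · exact hcs.of_eq fun p => by simp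
  · intro a
    have h4 := h1 a (fun _ => 0)
    constructor
    · intro hp f
      have h5 : ¬ ∀ m, d (a, m) (join (fun _ => 0) f) = true := fun hh => (h4.2 ⟨f, hh⟩) hp
      push Not at h5
      obtain ⟨m, hm⟩ := h5
      obtain ⟨k0, hk0⟩ := h3 (a, m) f
      refine ⟨max k0 m, ?_⟩
      show s _ _ = true
      rw [hs]
      refine ⟨m, by rw [length_pre]; exact le_max_right _ _, ?_⟩
      rw [hk0 _ (le_max_left _ _)]
      congr 1
      simpa using hm
    · intro H
      by_contra hp
      obtain ⟨G, hG⟩ := h4.1 hp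
      obtain ⟨k, hk⟩ := H G
      have hk' : s _ _ = true := hk
      rw [hs] at hk'
      obtain ⟨m, -, hm⟩ := hk'
      have := h2 _ _ _ _ hm
      simp only at this
      rw [hG m] at this
      exact absurd this (by decide)

theorem pih_of_normal {P : α → Prop} {R : α × List ℕ → Prop} (hR : ComputablePred R)
    (h : ∀ a, P a ↔ ∀ f : ℕ → ℕ, ∃ k, R (a, MP_8c048d_lc.pre f k)) :
    Pih (fun (a : α) (_ : ℕ → ℕ) => P a) := by
  have e1 : RecF (fun (p : α × ℕ) (E : ℕ → ℕ) =>
      (p.1, MP_8c048d_lc.pre (fun i => E (2 * i + 1)) p.2)) := by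
    refine (RecF.of_computable Computable.fst).pair ?_
    exact RecF.pre' (Ψ := fun (_ : α) E i => E (2 * i + 1)) (RecF.at (c_dbl1 Computable.snd))
  have e2 : Pih (fun (a : α) (E : ℕ → ℕ) =>
      ∃ k, R (a, MP_8c048d_lc.pre (fun i => E (2 * i + 1)) k)) :=
    Pih.ex (P := fun (a : α) (k : ℕ) (E : ℕ → ℕ) =>
      R (a, MP_8c048d_lc.pre (fun i => E (2 * i + 1)) k)) (Cop.of_recF e1 hR).del.2
  refine (Pih.allF e2).congr ?_
  intro a F
  simp only [join_odd]
  exact (h a).symm

/-- A `Π¹₁` set of numbers in the sense of the statement. -/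
theorem isPi11_iff (A : Set ℕ) : IsPi11 A ↔ Pih (fun (n : ℕ) (_ : ℕ → ℕ) => n ∈ A) := by
  constructor
  · rintro ⟨R, hR, h⟩
    exact pih_of_normal hR h
  · intro h
    obtain ⟨R, hR, h⟩ := pih_normal h
    exact ⟨R, hR, h⟩

end Pool.Agent.Lib.MP_8c048d_lc
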