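import Mathlib
import Pool.Agent.Lib.MP_8c048d_lc.Eff

/-!
# E2: the unique path lemma
-/

set_option autoImplicit false

namespace Pool.Agent.Lib.MP_8c048d_lc

open Ordinal

/-! ### Combinatorial part -/

private theorem pre_length (F : ℕ → ℕ) (k : ℕ) : (pre F k).length = k := by simp [pre]

private theorem pre_prefix (F : ℕ → ℕ) {j k : ℕ} (h : j ≤ k) : pre F j <+: pre F k := by
  induction h with
  | refl => exact List.prefix_rfl
  | step _ ih =>
    rw [pre_succ]
    exact ih.trans (List.prefix_append _ _)

/-- Codes for the elements of the ordinal sum of the tree of pairs and `ω`. -/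
private abbrev VV : Type := ℕ × List ℕ × List ℕ

private def MV (T : List ℕ → Prop) (x : VV) : Prop :=
  x.1 = 0 → T x.2.1 ∧ T x.2.2 ∧ x.2.1 ≠ x.2.2 ∧ x.2.1.length = x.2.2.length

private def LV (x y : VV) : Prop :=
  x.1 < y.1 ∨ (x.1 = 0 ∧ y.1 = 0 ∧ ∃ c d : ℕ, x.2.1 = y.2.1 ++ [c] ∧ x.2.2 = y.2.2 ++ [d])

private def RV (T : List ℕ → Prop) (x y : VV) : Prop := MV T x ∧ MV T y ∧ LV x y

private def RT (T : List ℕ → Prop) (s' s : List ℕ) : Prop := T s' ∧ ∃ c : ℕ, s' = s ++ [c]

private theorem exists_limit (u : ℕ → List ℕ) (hu : ∀ j, ∃ c : ℕ, u (j + 1) = u j ++ [c]) :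
    ∃ g : ℕ → ℕ, ∀ j, u j = pre g ((u 0).length + j) := by
  have hlen : ∀ j, (u j).length = (u 0).length + j := by
    intro j
    induction j with
    | zero => simp
    | succ j ih =>
      obtain ⟨c, hc⟩ := hu j
      rw [hc, List.length_append, ih]
      simp
      omega
  have hpre : ∀ i j, i ≤ j → u i <+: u j := by
    intro i j h
    induction h with
    | refl => exact List.prefix_rfl
    | step _ ih =>
      obtain ⟨c, hc⟩ := hu _
      rw [hc]
      exact ih.trans (List.prefix_append _ _)
  refine ⟨fun i => (u (i + 1)).getD i 0, fun j => ?_⟩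
  apply List.ext_getElem
  · rw [hlen, pre_length]
  · intro i h1 h2
    have h3 : i < (u (i + 1)).length := by rw [hlen]; omega
    have h4 : (pre (fun i => (u (i + 1)).getD i 0) ((u 0).length + j))[i] =
        (u (i + 1)).getD i 0 := by
      simp [pre]
    rw [h4, List.getD_eq_getElem _ _ h3]
    rcases le_total j (i + 1) with h | h
    · exact (hpre _ _ h).getElem h1
    · exact ((hpre _ _ h).getElem h3).symm

/-- A descending sequence in `VV` gives two different paths. -/
private theorem two_paths {T : List ℕ → Prop} (hpre : ∀ l l', l' <+: l → T l → T l')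
    (x : ℕ → VV) (hx : ∀ k, RV T (x (k + 1)) (x k)) :
    ∃ f g : ℕ → ℕ, (∀ k, T (pre f k)) ∧ (∀ k, T (pre g k)) ∧ f ≠ g := by
  have h1 : ∃ k, (x k).1 = 0 := by
    by_contra hne
    push Not at hne
    have h2 : ∀ k, (x (k + 1)).1 < (x k).1 := by
      intro k
      rcases (hx k).2.2 with h | h
      · exact h
      · exact absurd h.1 (hne _)
    have h3 : ∀ k, (x k).1 + k ≤ (x 0).1 := by
      intro k
      induction k with
      | zero => simp
      | succ k ih => have := h2 k; omega
    have h4 := h3 ((x 0).1 + 1)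
    omega
  obtain ⟨k0, hk0⟩ := h1
  have h2 : ∀ j, (x (k0 + j)).1 = 0 := by
    intro j
    induction j with
    | zero => exact hk0
    | succ j ih =>
      rcases (hx (k0 + j)).2.2 with h | h
      · omega
      · exact h.1
  have h3 : ∀ j, ∃ c d : ℕ, (x (k0 + j + 1)).2.1 = (x (k0 + j)).2.1 ++ [c] ∧
      (x (k0 + j + 1)).2.2 = (x (k0 + j)).2.2 ++ [d] := by
    intro j
    rcases (hx (k0 + j)).2.2 with h | h
    · have := h2 j; omega
    · exact h.2.2
  obtain ⟨f, hf⟩ := exists_limit (fun j => (x (k0 + j)).2.1)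
    (fun j => by obtain ⟨c, d, h, _⟩ := h3 j; exact ⟨c, h⟩)
  obtain ⟨g, hg⟩ := exists_limit (fun j => (x (k0 + j)).2.2)
    (fun j => by obtain ⟨c, d, _, h⟩ := h3 j; exact ⟨d, h⟩)
  have hM : ∀ j, MV T (x (k0 + j)) := fun j => (hx (k0 + j)).2.1
  refine ⟨f, g, fun k => ?_, fun k => ?_, fun hfg => ?_⟩
  · have h4 := (hM k (h2 k)).1
    rw [hf k] at h4
    exact hpre _ _ (pre_prefix f (by omega)) h4
  · have h4 := (hM k (h2 k)).2.1
    rw [hg k] at h4
    exact hpre _ _ (pre_prefix g (by omega)) h4
  · have h4 := (hM 0 (h2 0)).2.2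
    have h5 := hf 0
    have h6 := hg 0
    simp only [add_zero] at h5 h6 h4
    apply h4.1
    rw [h5, h6, hfg, h4.2]

private theorem comb1 {T : List ℕ → Prop} (hpre : ∀ l l', l' <+: l → T l → T l')
    (hu : ∃! f : ℕ → ℕ, ∀ k, T (pre f k))
    (H : List ℕ → VV) (hH : ∀ s c, T (s ++ [c]) → RV T (H (s ++ [c])) (H s)) : False := by
  obtain ⟨f, hf, huf⟩ := hu
  obtain ⟨g1, g2, h1, h2, h3⟩ := two_paths hpre (fun k => H (pre f k)) (fun k => by
    have := hH (pre f k) (f k) (by rw [← pre_succ]; exact hf _)
    rw [← pre_succ] at this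
    exact this)
  exact h3 ((huf g1 h1).trans (huf g2 h2).symm)

private theorem lt_rank_iff {α : Type} {r : α → α → Prop} [IsWellFounded α r] {a : α}
    {γ : Ordinal.{0}} : γ < IsWellFounded.rank r a ↔ ∃ b, r b a ∧ γ ≤ IsWellFounded.rank r b := by
  rw [IsWellFounded.rank_eq, Ordinal.lt_iSup_iff]
  constructor
  · rintro ⟨⟨b, hb⟩, h⟩
    exact ⟨b, hb, Order.lt_succ_iff.1 h⟩
  · rintro ⟨b, hb, h⟩
    exact ⟨⟨b, hb⟩, Order.lt_succ_iff.2 h⟩

private theorem comb2 {T : List ℕ → Prop} (hpre : ∀ l l', l' <+: l → T l → T l')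
    (hno : ¬ ∃ f : ℕ → ℕ, ∀ k, T (pre f k)) :
    ∃ H : List ℕ → VV, ∀ s c, T (s ++ [c]) → RV T (H (s ++ [c])) (H s) := by
  classical
  have w1 : IsWellFounded (List ℕ) (RT T) := by
    refine ⟨wellFounded_iff_isEmpty_descending_chain.2 ⟨fun ⟨u, hu⟩ => hno ?_⟩⟩
    obtain ⟨g, hg⟩ := exists_limit u (fun j => (hu j).2)
    refine ⟨g, fun k => ?_⟩
    have h1 := (hu k).1
    rw [hg (k + 1)] at h1
    exact hpre _ _ (pre_prefix g (by omega)) h1
  have w2 : IsWellFounded VV (RV T) := by
    refine ⟨wellFounded_iff_isEmpty_descending_chain.2 ⟨fun ⟨u, hu⟩ => hno ?_⟩⟩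
    obtain ⟨f, g, h1, h2, h3⟩ := two_paths hpre u hu
    exact ⟨f, h1⟩
  set rk := IsWellFounded.rank (RT T) with hrk
  set ρ := IsWellFounded.rank (RV T) with hρ
  -- pairs
  have hpair : ∀ s t : List ℕ, T s → T t → s ≠ t → s.length = t.length →
      min (rk s) (rk t) ≤ ρ (0, s, t) := by
    intro s
    induction s using (w1.wf).induction with
    | _ s ih =>
    intro t hs ht hne hl
    refine le_of_forall_lt fun γ hγ => ?_
    rw [lt_min_iff] at hγ
    obtain ⟨s', hs', h1⟩ := lt_rank_iff.1 hγ.1
    obtain ⟨t', ht', h2⟩ := lt_rank_iff.1 hγ.2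
    have hs2 := hs'
    obtain ⟨hs3, c, hc⟩ := hs2
    have ht2 := ht'
    obtain ⟨ht3, d, hd⟩ := ht2
    have hne' : s' ≠ t' := by
      rintro rfl
      rw [hc] at hd
      exact hne (List.append_inj_left' hd rfl)
    have hl' : s'.length = t'.length := by rw [hc, hd]; simp [hl]
    refine lt_rank_iff.2 ⟨(0, s', t'), ⟨fun _ => ⟨hs3, ht3, hne', hl'⟩,
      fun _ => ⟨hs, ht, hne, hl⟩, Or.inr ⟨rfl, rfl, c, d, hc, hd⟩⟩, ?_⟩
    exact (le_min h1 h2).trans (ih s' hs' t' hs3 ht3 hne' hl')
  set β := ρ (1, [], []) with hβ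
  have hpairβ : ∀ s t : List ℕ, T s → T t → s ≠ t → s.length = t.length →
      min (rk s) (rk t) < β := by
    intro s t hs ht hne hl
    refine (hpair s t hs ht hne hl).trans_lt (IsWellFounded.rank_lt_of_rel ?_)
    exact ⟨fun _ => ⟨hs, ht, hne, hl⟩, fun h => by simp at h, Or.inl (by simp)⟩
  have hn : ∀ n : ℕ, β + n ≤ ρ (n + 1, [], []) := by
    intro n
    induction n with
    | zero => simp [hβ]
    | succ n ih =>
      have h1 : ρ (n + 1, [], []) < ρ (n + 1 + 1, [], []) := IsWellFounded.rank_lt_of_rel
        ⟨fun h => by simp at h, fun h => by simp at h, Or.inl (by simp)⟩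
      have h2 : β + ((n + 1 : ℕ) : Ordinal) = Order.succ (β + n) := by
        push_cast
        rw [← add_assoc, Order.succ_eq_add_one]
      rw [h2]
      exact Order.succ_le_of_lt (ih.trans_lt h1)
  have hω : ∀ s, rk s < β + ω := by
    intro s
    induction s using (w1.wf).induction with
    | _ s ih =>
    by_contra hge
    push Not at hge
    have h1 : ∀ m : ℕ, ∃ s', RT T s' s ∧ β + m ≤ rk s' := by
      intro m
      apply lt_rank_iff.1
      exact lt_of_lt_of_le (add_lt_add_right (natCast_lt_omega0 m) β) hge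
    choose u hu hum using h1
    have h2 : ∀ m, u m = u 0 := by
      intro m
      by_contra hne
      obtain ⟨c, hc⟩ := (hu m).2
      obtain ⟨d, hd⟩ := (hu 0).2
      have h3 := hpairβ (u m) (u 0) (hu m).1 (hu 0).1 hne (by rw [hc, hd]; simp)
      rw [min_lt_iff] at h3
      rcases h3 with h3 | h3
      · exact absurd ((le_add_right le_rfl).trans (hum m)) (not_le.2 h3)
      · exact absurd ((le_add_right le_rfl).trans (hum 0)) (not_le.2 h3)
    have h4 := ih (u 0) (hu 0)
    rw [Ordinal.lt_add_iff omega0_ne_zero] at h4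
    obtain ⟨δ, hδ, h5⟩ := h4
    obtain ⟨m, rfl⟩ := lt_omega0.1 hδ
    have h6 := hum (m + 1)
    rw [h2] at h6
    have h7 : β + (m : Ordinal) < β + ((m + 1 : ℕ) : Ordinal) := by
      apply add_lt_add_right
      exact_mod_cast Nat.lt_succ_self m
    exact absurd (h6.trans h5) (not_le.2 h7)
  -- the root
  obtain ⟨δ, hδ, h0⟩ := (Ordinal.lt_add_iff omega0_ne_zero).1 (hω [])
  obtain ⟨n, rfl⟩ := lt_omega0.1 hδ
  have hroot : rk [] ≤ ρ (n + 1, [], []) := h0.trans (hn n)
  let nx : List ℕ → ℕ → VV → VV := fun s c x =>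
    if h : ∃ y, RV T y x ∧ rk (s ++ [c]) ≤ ρ y then h.choose else x
  let H : List ℕ → VV := fun l => List.reverseRecOn l (n + 1, [], []) nx
  have H0 : H [] = (n + 1, [], []) := by simp [H]
  have H1 : ∀ s c, H (s ++ [c]) = nx s c (H s) := by
    intro s c
    simp [H]
  have key : ∀ s c, T (s ++ [c]) → rk s ≤ ρ (H s) →
      RV T (H (s ++ [c])) (H s) ∧ rk (s ++ [c]) ≤ ρ (H (s ++ [c])) := by
    intro s c hT hle
    have h1 : rk (s ++ [c]) < rk s := IsWellFounded.rank_lt_of_rel ⟨hT, c, rfl⟩
    have h2 : ∃ y, RV T y (H s) ∧ rk (s ++ [c]) ≤ ρ y := lt_rank_iff.1 (h1.trans_le hle)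
    have h3 : H (s ++ [c]) = h2.choose := by
      rw [H1]
      simp only [nx]
      rw [dif_pos h2]
    rw [h3]
    exact h2.choose_spec
  have inv : ∀ s, T s → rk s ≤ ρ (H s) := by
    intro s
    induction s using List.reverseRecOn with
    | nil => intro _; rw [H0]; exact hroot
    | append_singleton s c ih =>
      intro hT
      exact (key s c hT (ih (hpre _ _ (List.prefix_append _ _) hT))).2
  exact ⟨H, fun s c hT => (key s c hT (inv s (hpre _ _ (List.prefix_append _ _) hT))).1⟩

/-! ### Complexity -/

variable {α β : Type} [Primcodable α] [Primcodable β]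

private theorem computablePred_eq {γ δ : Type} [Primcodable γ] [Primcodable δ] {f g : γ → δ}
    (hf : Computable f) (hg : Computable g) : ComputablePred fun a => f a = g a := by
  classical
  refine ⟨fun a => Classical.propDecidable _, ?_⟩
  have h := (Primrec.eq (α := δ)).decide.to_comp.comp hf hg
  exact h.of_eq fun a => by simp

/-- The unique path lemma: to have exactly one path is a `Π¹₁` property of a tree. -/
theorem unique_path (T : α → List ℕ → Prop)
    (hT : Del (fun (p : α × List ℕ) (_ : ℕ → ℕ) => T p.1 p.2))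
    (hpre : ∀ a l l', l' <+: l → T a l → T a l') :
    Pih (fun (a : α) (_ : ℕ → ℕ) => ∃! f : ℕ → ℕ, ∀ k, T a (pre f k)) := by
  -- the two conditions
  have hAB : ∀ a, (∃! f : ℕ → ℕ, ∀ k, T a (pre f k)) ↔
      ((∀ G : ℕ → ℕ, (∃ k, ¬ T a (pre (fun i => G (2 * i)) k)) ∨
        (∃ k, ¬ T a (pre (fun i => G (2 * i + 1)) k)) ∨ ∀ i, G (2 * i) = G (2 * i + 1)) ∧
      ¬ ∃ G : ℕ → ℕ, ∀ p : List ℕ × ℕ, T a (p.1 ++ [p.2]) →
        RV (T a) (Denumerable.ofNat VV (G (Encodable.encode (p.1 ++ [p.2]))))
          (Denumerable.ofNat VV (G (Encodable.encode p.1)))) := by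
    intro a
    constructor
    · intro hu
      refine ⟨fun G => ?_, fun ⟨G, hG⟩ => ?_⟩
      · by_contra hne
        push Not at hne
        obtain ⟨h1, h2, i, hi⟩ := hne
        exact hi (congrFun (hu.unique h1 h2) i)
      · exact comb1 (hpre a) hu (fun s => Denumerable.ofNat VV (G (Encodable.encode s)))
          (fun s c h => hG (s, c) h)
    · rintro ⟨h1, h2⟩
      by_cases hex : ∃ f : ℕ → ℕ, ∀ k, T a (pre f k)
      · obtain ⟨f, hf⟩ := hex
        refine ⟨f, hf, fun g hg => ?_⟩
        have h3 := h1 (fun i => if i % 2 = 0 then f (i / 2) else g (i / 2))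
        have e1 : (fun i => (fun i => if i % 2 = 0 then f (i / 2) else g (i / 2)) (2 * i)) = f := by
          funext i
          simp
        have e2 : (fun i => (fun i => if i % 2 = 0 then f (i / 2) else g (i / 2)) (2 * i + 1)) =
            g := by
          funext i
          have h5 : (2 * i + 1) % 2 = 1 := by omega
          have h6 : (2 * i + 1) / 2 = i := by omega
          simp [h5, h6]
        rw [e1, e2] at h3
        rcases h3 with ⟨k, hk⟩ | ⟨k, hk⟩ | h3
        · exact absurd (hf k) hk
        · exact absurd (hg k) hk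
        · funext i
          have h4 := h3 i
          have h5 : (2 * i + 1) % 2 = 1 := by omega
          have h6 : (2 * i + 1) / 2 = i := by omega
          simp [h5, h6] at h4
          exact h4.symm
      · exfalso
        obtain ⟨H, hH⟩ := comb2 (hpre a) hex
        refine h2 ⟨fun n => Encodable.encode (H (Denumerable.ofNat (List ℕ) n)), fun p hp => ?_⟩
        have := hH p.1 p.2 hp
        simp only [Denumerable.ofNat_encode]
        exact this
  refine Pih.congr (P := fun (a : α) (_ : ℕ → ℕ) =>
    ((∀ G : ℕ → ℕ, (∃ k, ¬ T a (pre (fun i => G (2 * i)) k)) ∨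
        (∃ k, ¬ T a (pre (fun i => G (2 * i + 1)) k)) ∨ ∀ i, G (2 * i) = G (2 * i + 1)) ∧
      ¬ ∃ G : ℕ → ℕ, ∀ p : List ℕ × ℕ, T a (p.1 ++ [p.2]) →
        RV (T a) (Denumerable.ofNat VV (G (Encodable.encode (p.1 ++ [p.2]))))
          (Denumerable.ofNat VV (G (Encodable.encode p.1))))) ?_ (fun a _ => (hAB a).symm)
  have hj : ∀ (F G : ℕ → ℕ) (i : ℕ), join F G (2 * i + 1) = G i := by
    intro F G i
    have h5 : (2 * i + 1) % 2 = 1 := by omega
    have h6 : (2 * i + 1) / 2 = i := by omega
    simp [join, h5, h6]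
  apply Pih.and
  · -- part A
    have hA := Pih.allF (P := fun (a : α) (F : ℕ → ℕ) =>
      (∃ k, ¬ T a (pre (fun i => F (2 * (2 * i) + 1)) k)) ∨
        (∃ k, ¬ T a (pre (fun i => F (2 * (2 * i + 1) + 1)) k)) ∨
        ∀ i, F (2 * (2 * i) + 1) = F (2 * (2 * i + 1) + 1)) ?_
    · refine hA.congr fun a F => ?_
      simp only [hj]
    · have hr : ∀ f : ℕ → ℕ, Computable f →
          RecF (fun (q : α × ℕ) F => (q.1, pre (fun i => F (f i)) q.2)) := by
        intro f hf
        exact RecF.pair (RecF.of_computable Computable.fst)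
          (RecF.subst (Ψ := fun (q : α × ℕ) F i => F (f i)) RecF.pre
            (RecF.of_computable Computable.snd)
            (RecF.app (RecF.of_computable (hf.comp Computable.snd))))
      have hs : ∀ f : ℕ → ℕ, Computable f →
          Pih (fun (a : α) F => ∃ k, ¬ T a (pre (fun i => F (f i)) k)) := by
        intro f hf
        apply Pih.ex
        exact (Del.subst (Ψ := fun _ F i => F i) hT.not (hr f hf)
          (RecF.app (RecF.of_computable Computable.snd))).2
      have c0 : Computable (fun i : ℕ => 2 * (2 * i) + 1) :=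
        (Primrec.succ.comp (Primrec.nat_mul.comp (Primrec.const 2)
          (Primrec.nat_mul.comp (Primrec.const 2) Primrec.id))).to_comp
      have c1 : Computable (fun i : ℕ => 2 * (2 * i + 1) + 1) :=
        (Primrec.succ.comp (Primrec.nat_mul.comp (Primrec.const 2)
          (Primrec.succ.comp (Primrec.nat_mul.comp (Primrec.const 2) Primrec.id)))).to_comp
      refine Pih.or (hs _ c0) (Pih.or (hs _ c1) (Pih.all ?_))
      exact (Cop.of_recF (p := fun x : ℕ × ℕ => x.1 = x.2)
        (RecF.pair (RecF.app (RecF.of_computable (c0.comp Computable.snd)))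
          (RecF.app (RecF.of_computable (c1.comp Computable.snd))))
        (computablePred_eq Computable.fst Computable.snd)).del.2
  · -- part B
    apply Sig.not
    have hB := Sig.exF (P := fun (a : α) (F : ℕ → ℕ) => ∀ p : List ℕ × ℕ, T a (p.1 ++ [p.2]) →
        RV (T a) (Denumerable.ofNat VV (F (2 * (Encodable.encode (p.1 ++ [p.2])) + 1)))
          (Denumerable.ofNat VV (F (2 * (Encodable.encode p.1) + 1)))) ?_
    · refine hB.congr fun a F => ?_
      simp only [hj]
    · apply Sig.all
      have cE : Primrec (fun l : List ℕ => 2 * Encodable.encode l + 1) :=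
        Primrec.succ.comp (Primrec.nat_mul.comp (Primrec.const 2) Primrec.encode)
      have cA : Primrec (fun q : α × (List ℕ × ℕ) => q.2.1 ++ [q.2.2]) :=
        Primrec.list_append.comp (Primrec.fst.comp Primrec.snd)
          (Primrec.list_cons.comp (Primrec.snd.comp Primrec.snd) (Primrec.const []))
      have hM : Del (fun (q : α × VV) (_ : ℕ → ℕ) => MV (T q.1) q.2) := by
        unfold MV
        refine Del.imp (Del.of_computable (computablePred_eq
          (Primrec.fst.comp Primrec.snd).to_comp (Computable.const 0))) ?_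
        refine Del.and ?_ (Del.and ?_ (Del.and (Del.not ?_) ?_))
        · exact Del.comp (f := fun q : α × VV => (q.1, q.2.2.1)) hT
            (Primrec.pair Primrec.fst
              (Primrec.fst.comp (Primrec.snd.comp Primrec.snd))).to_comp
        · exact Del.comp (f := fun q : α × VV => (q.1, q.2.2.2)) hT
            (Primrec.pair Primrec.fst
              (Primrec.snd.comp (Primrec.snd.comp Primrec.snd))).to_comp
        · exact Del.of_computable (computablePred_eq
            (Primrec.fst.comp (Primrec.snd.comp Primrec.snd)).to_comp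
            (Primrec.snd.comp (Primrec.snd.comp Primrec.snd)).to_comp)
        · exact Del.of_computable (computablePred_eq
            (Primrec.list_length.comp (Primrec.fst.comp (Primrec.snd.comp Primrec.snd))).to_comp
            (Primrec.list_length.comp (Primrec.snd.comp (Primrec.snd.comp Primrec.snd))).to_comp)
      have hL : Del (fun (q : VV × VV) (_ : ℕ → ℕ) => LV q.1 q.2) := by
        unfold LV
        refine Del.or ?_ (Del.and ?_ (Del.and ?_ (Del.ex (Del.ex (Del.and ?_ ?_)))))
        · apply Del.of_computable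
          classical
          refine ⟨fun a => Classical.propDecidable _, ?_⟩
          have h := (Primrec.nat_lt).decide.to_comp.comp
            ((Primrec.fst.comp Primrec.fst).to_comp (α := VV × VV))
            (Primrec.fst.comp Primrec.snd).to_comp
          exact h.of_eq fun a => by simp
        · exact Del.of_computable (computablePred_eq
            (Primrec.fst.comp Primrec.fst).to_comp (Computable.const 0))
        · exact Del.of_computable (computablePred_eq
            (Primrec.fst.comp Primrec.snd).to_comp (Computable.const 0))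
        · exact Del.of_computable (computablePred_eq
            (Primrec.fst.comp (Primrec.snd.comp (Primrec.fst.comp
              (Primrec.fst.comp Primrec.fst)))).to_comp
            (Primrec.list_append.comp
              (Primrec.fst.comp (Primrec.snd.comp (Primrec.snd.comp
                (Primrec.fst.comp Primrec.fst))))
              (Primrec.list_cons.comp (Primrec.snd.comp Primrec.fst) (Primrec.const []))).to_comp)
        · exact Del.of_computable (computablePred_eq
            (Primrec.snd.comp (Primrec.snd.comp (Primrec.fst.comp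
              (Primrec.fst.comp Primrec.fst)))).to_comp
            (Primrec.list_append.comp
              (Primrec.snd.comp (Primrec.snd.comp (Primrec.snd.comp
                (Primrec.fst.comp Primrec.fst))))
              (Primrec.list_cons.comp Primrec.snd (Primrec.const []))).to_comp)
      have hR : Del (fun (q : α × (VV × VV)) (_ : ℕ → ℕ) => RV (T q.1) q.2.1 q.2.2) := by
        unfold RV
        refine Del.and ?_ (Del.and ?_ ?_)
        · exact Del.comp (f := fun q : α × (VV × VV) => (q.1, q.2.1)) hM
            (Primrec.pair Primrec.fst (Primrec.fst.comp Primrec.snd)).to_comp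
        · exact Del.comp (f := fun q : α × (VV × VV) => (q.1, q.2.2)) hM
            (Primrec.pair Primrec.fst (Primrec.snd.comp Primrec.snd)).to_comp
        · exact Del.comp (f := fun q : α × (VV × VV) => q.2) hL Computable.snd
      refine (Del.imp ?_ ?_).1
      · exact Del.comp (f := fun q : α × (List ℕ × ℕ) => (q.1, q.2.1 ++ [q.2.2])) hT
          (Primrec.pair Primrec.fst cA).to_comp
      · refine Del.subst (ψ := fun (q : α × (List ℕ × ℕ)) F =>
          (q.1, (Denumerable.ofNat VV (F (2 * (Encodable.encode (q.2.1 ++ [q.2.2])) + 1)),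
            Denumerable.ofNat VV (F (2 * (Encodable.encode q.2.1) + 1)))))
          (Ψ := fun _ F i => F i) hR ?_ (RecF.app (RecF.of_computable Computable.snd))
        refine RecF.pair (RecF.of_computable Computable.fst) (RecF.pair ?_ ?_)
        · exact RecF.comp (Primrec.ofNat VV).to_comp
            (RecF.app (RecF.of_computable (cE.comp cA).to_comp))
        · exact RecF.comp (Primrec.ofNat VV).to_comp
            (RecF.app (RecF.of_computable
              (cE.comp (Primrec.fst.comp Primrec.snd)).to_comp))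

theorem ClD.congr {P Q : α → (ℕ → ℕ) → Prop} (h : ClD P) (e : ∀ a F, P a F ↔ Q a F) : ClD Q := by
  obtain ⟨D, h1, h2⟩ := h
  exact ⟨D, h1, fun a F => (e a F).symm.trans (h2 a F)⟩

theorem ClD.of_clo {P : α → (ℕ → ℕ) → Prop} (h : Clo P) : ClD P := by
  obtain ⟨d, ⟨q, hq, h1, h2⟩, h3⟩ := h
  refine ⟨fun a l => ∀ m, q ((a, m), l) ≠ some false, ?_, fun a F => ?_⟩
  · apply Del.all
    apply Del.not
    apply Del.of_computable
    apply computablePred_eq
    · exact hq.comp (((Computable.fst.comp Computable.fst).pair Computable.snd).pair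
        (Computable.snd.comp Computable.fst))
    · exact Computable.const _
  · rw [h3]
    constructor
    · intro h k m hf
      have := h1 (a, m) F k false hf
      rw [h m] at this
      exact absurd this (by simp)
    · intro h m
      obtain ⟨k, hk⟩ := h2 (a, m) F
      have := h k m
      rw [hk] at this
      cases hd : d (a, m) F with
      | true => rfl
      | false => rw [hd] at this; exact absurd rfl this

theorem ClD.and {P Q : α → (ℕ → ℕ) → Prop} (h : ClD P) (h' : ClD Q) :
    ClD (fun a F => P a F ∧ Q a F) := by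
  obtain ⟨D, h1, h2⟩ := h
  obtain ⟨D', h1', h2'⟩ := h'
  refine ⟨fun a l => D a l ∧ D' a l, h1.and h1', fun a F => ?_⟩
  change (P a F ∧ Q a F) ↔ ∀ k, (D a (pre F k) ∧ D' a (pre F k))
  rw [h2, h2', forall_and]

/-- The same lemma for closed relations with a `Δ¹₁` matrix. -/
theorem unique_clD {P : α → (ℕ → ℕ) → Prop} (h : ClD P) :
    Pih (fun (a : α) (_ : ℕ → ℕ) => ∃! f : ℕ → ℕ, P a f) := by
  obtain ⟨D, h1, h2⟩ := h
  have h3 := unique_path (fun a l => ∀ l' t : List ℕ, l' ++ t = l → D a l') ?_ ?_
  · refine h3.congr fun a _ => ?_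
    refine existsUnique_congr fun f => ?_
    rw [h2]
    constructor
    · intro h k
      exact h k (pre f k) [] (by simp)
    · intro h k l' t hl
      have h4 : l' <+: pre f k := ⟨t, hl⟩
      have h5 : l' = pre f l'.length := by
        have h6 : l'.length ≤ k := by
          have := h4.length_le
          rwa [pre_length] at this
        have h7 := pre_prefix f h6
        exact List.IsPrefix.eq_of_length (List.prefix_of_prefix_length_le h4 h7
          (by rw [pre_length])) (by rw [pre_length])
      rw [h5]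
      exact h _
  · apply Del.all
    apply Del.all
    apply Del.imp
    · apply Del.of_computable
      apply computablePred_eq
      · exact (Primrec.list_append.comp (Primrec.snd.comp Primrec.fst) Primrec.snd).to_comp
      · exact (Primrec.snd.comp (Primrec.fst.comp Primrec.fst)).to_comp
    · exact Del.comp (f := fun p : ((α × List ℕ) × List ℕ) × List ℕ => (p.1.1.1, p.1.2)) h1
        ((Computable.fst.comp (Computable.fst.comp Computable.fst)).pair
          (Computable.snd.comp Computable.fst))
  · rintro a l l' ⟨r, hr⟩ h l'' t ht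
    exact h l'' (t ++ r) (by rw [← List.append_assoc, ht, hr])

end Pool.Agent.Lib.MP_8c048d_lc
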