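import Mathlib
import Pool.Agent.Lib.MP_8c048d_lc.Base

/-!
# L0: the functions on codes are recursive
-/

set_option autoImplicit false

namespace Pool.Agent.Lib.MP_8c048d_lc

private theorem pr_lin {α : Type} [Primcodable α] {f : α → ℕ} (hf : Primrec f) (a b : ℕ) :
    Primrec (fun x => a * f x + b) :=
  Primrec.nat_add.comp (Primrec.nat_mul.comp (Primrec.const a) hf) (Primrec.const b)

private theorem pr_pair {α : Type} [Primcodable α] {f g : α → ℕ} (hf : Primrec f)
    (hg : Primrec g) : Primrec (fun x => Nat.pair (f x) (g x)) :=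
  Primrec₂.natPair.comp hf hg

theorem cEq_prim : Primrec₂ cEq :=
  (pr_lin (pr_pair Primrec.fst Primrec.snd) 7 1 : Primrec fun (p : ℕ × ℕ) => cEq p.1 p.2)

theorem cRel_prim : Primrec₂ cRel :=
  (pr_lin (pr_pair Primrec.fst (Primrec.encode.comp Primrec.snd)) 7 2 :
    Primrec fun (p : ℕ × List ℕ) => cRel p.1 p.2)

theorem cFn_prim : Primrec (fun (p : ℕ × List ℕ × ℕ) => cFn p.1 p.2.1 p.2.2) :=
  pr_lin (pr_pair Primrec.fst (pr_pair (Primrec.encode.comp (Primrec.fst.comp Primrec.snd))
    (Primrec.snd.comp Primrec.snd))) 7 3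

theorem cImp_prim : Primrec₂ cImp :=
  (pr_lin (pr_pair Primrec.fst Primrec.snd) 7 4 : Primrec fun (p : ℕ × ℕ) => cImp p.1 p.2)

theorem cAll_prim : Primrec₂ cAll :=
  (pr_lin (pr_pair Primrec.fst Primrec.snd) 7 5 : Primrec fun (p : ℕ × ℕ) => cAll p.1 p.2)

theorem cBox_prim : Primrec cBox := pr_lin Primrec.id 7 6

theorem cNot_prim : Primrec cNot := cImp_prim.comp Primrec.id (Primrec.const cBot)

theorem cAnd_prim : Primrec₂ cAnd :=
  (cNot_prim.comp (cImp_prim.comp Primrec.fst (cNot_prim.comp Primrec.snd)) :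
    Primrec fun (p : ℕ × ℕ) => cAnd p.1 p.2)

theorem cEq_comp : Computable₂ cEq := cEq_prim.to_comp

theorem cRel_comp : Computable₂ cRel := cRel_prim.to_comp

theorem cFn_comp : Computable (fun (p : ℕ × List ℕ × ℕ) => cFn p.1 p.2.1 p.2.2) :=
  cFn_prim.to_comp

theorem cImp_comp : Computable₂ cImp := cImp_prim.to_comp

theorem cAll_comp : Computable₂ cAll := cAll_prim.to_comp

theorem cBox_comp : Computable cBox := cBox_prim.to_comp

theorem cNot_comp : Computable cNot := cNot_prim.to_comp

theorem cAnd_comp : Computable₂ cAnd := cAnd_prim.to_comp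

/-- The partial results of the computation of `allT`. -/
private def allG (k n i : ℕ) : ℕ := Nat.rec n (fun i acc => cAll (k - i) acc) i

private theorem allG_shift (k n : ℕ) : ∀ i, allG (k + 1) n (i + 1) = allG k (cAll (k + 1) n) i
  | 0 => rfl
  | i + 1 => by
    have h := allG_shift k n i
    show cAll (k + 1 - (i + 1)) (allG (k + 1) n (i + 1)) =
      cAll (k - i) (allG k (cAll (k + 1) n) i)
    rw [h, Nat.add_sub_add_right]

private theorem allT_eq : ∀ k n, allT k n = allG k n k
  | 0, _ => rfl
  | k + 1, n => by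
    rw [allG_shift, ← allT_eq k]
    rfl

theorem allT_prim : Primrec₂ allT := by
  have h : Primrec (fun p : ℕ × ℕ => allG p.1 p.2 p.1) := by
    refine Primrec.nat_rec' (f := fun p : ℕ × ℕ => p.1) (g := fun p => p.2)
      (h := fun p q => cAll (p.1 - q.1) q.2) Primrec.fst Primrec.snd ?_
    exact cAll_prim.comp (Primrec.nat_sub.comp (Primrec.fst.comp Primrec.fst)
      (Primrec.fst.comp Primrec.snd)) (Primrec.snd.comp Primrec.snd)
  exact h.of_eq fun p => (allT_eq p.1 p.2).symm

theorem allT_comp : Computable₂ allT := allT_prim.to_comp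

theorem asg_nil (d j : ℕ) : asg (d, []) j = d := by rw [asg]

theorem asg_cons (d j i a : ℕ) (l : List (ℕ × ℕ)) :
    asg (d, (i, a) :: l) j = if j = i then a else asg (d, l) j := by rw [asg]

private theorem asg_eq (d j : ℕ) : ∀ l : List (ℕ × ℕ),
    asg (d, l) j = l.foldr (fun p acc => if j = p.1 then p.2 else acc) d
  | [] => asg_nil d j
  | (i, a) :: l => by
    rw [asg_cons, asg_eq d j l]
    rfl

theorem asg_prim : Primrec₂ asg := by
  have h : Primrec (fun p : (ℕ × List (ℕ × ℕ)) × ℕ =>
      p.1.2.foldr (fun q acc => if p.2 = q.1 then q.2 else acc) p.1.1) := by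
    refine Primrec.list_foldr (f := fun p : (ℕ × List (ℕ × ℕ)) × ℕ => p.1.2)
      (g := fun p => p.1.1)
      (h := fun p q => if p.2 = q.1.1 then q.1.2 else q.2)
      (Primrec.snd.comp Primrec.fst) (Primrec.fst.comp Primrec.fst) ?_
    refine Primrec.ite ?_ ?_ ?_
    · exact Primrec.eq.comp (Primrec.snd.comp Primrec.fst)
        (Primrec.fst.comp (Primrec.fst.comp Primrec.snd))
    · exact Primrec.snd.comp (Primrec.fst.comp Primrec.snd)
    · exact Primrec.snd.comp Primrec.snd
  exact h.of_eq fun p => (asg_eq p.1.1 p.2 p.1.2).symm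

theorem asg_comp : Computable₂ asg := asg_prim.to_comp

theorem wit_prim : Primrec₂ wit :=
  (Primrec.succ.comp (pr_pair Primrec.fst (Primrec.encode.comp Primrec.snd)) :
    Primrec fun (p : ℕ × (ℕ × List (ℕ × ℕ))) => wit p.1 p.2)

theorem wit_comp : Computable₂ wit := wit_prim.to_comp

theorem upd_prim : Primrec (fun (p : (ℕ × List (ℕ × ℕ)) × ℕ × ℕ) => upd p.1 p.2.1 p.2.2) :=
  Primrec.pair (Primrec.fst.comp Primrec.fst)
    (Primrec.list_cons.comp Primrec.snd (Primrec.snd.comp Primrec.fst))

theorem upd_comp : Computable (fun (p : (ℕ × List (ℕ × ℕ)) × ℕ × ℕ) => upd p.1 p.2.1 p.2.2) :=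
  upd_prim.to_comp

theorem getD_prim : Primrec (fun (p : List ℕ × ℕ) => p.1.getD p.2 0) :=
  Primrec.list_getD 0

theorem getD_comp : Computable (fun (p : List ℕ × ℕ) => p.1.getD p.2 0) := getD_prim.to_comp

theorem tCompl_prim : Primrec tCompl := pr_lin Primrec.id 4 1

theorem tCompl_comp : Computable tCompl := tCompl_prim.to_comp

theorem tSup_prim : Primrec₂ tSup :=
  (pr_lin (pr_pair Primrec.fst Primrec.snd) 4 2 : Primrec fun (p : ℕ × ℕ) => tSup p.1 p.2)

theorem tSup_comp : Computable₂ tSup := tSup_prim.to_comp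

theorem tInf_prim : Primrec₂ tInf :=
  (pr_lin (pr_pair Primrec.fst Primrec.snd) 4 3 : Primrec fun (p : ℕ × ℕ) => tInf p.1 p.2)

theorem tInf_comp : Computable₂ tInf := tInf_prim.to_comp

private theorem isPrefixOf_eq (s w : List ℕ) :
    s.isPrefixOf w = decide (w.take s.length = s) := by
  rw [Bool.eq_iff_iff, decide_eq_true_iff, List.isPrefixOf_iff_prefix, List.prefix_iff_eq_take]
  exact eq_comm

private theorem isPrefixOf_prim : Primrec₂ (fun s w : List ℕ => s.isPrefixOf w) := by
  have h : Primrec (fun p : List ℕ × List ℕ => decide (p.2.take p.1.length = p.1)) := by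
    refine PrimrecPred.decide ?_
    exact Primrec.eq.comp (Primrec.list_take.comp (Primrec.list_length.comp Primrec.fst)
      Primrec.snd) Primrec.fst
  exact h.of_eq fun p => (isPrefixOf_eq p.1 p.2).symm

/-- One step of the evaluation of a term, from the list of the values of the smaller terms. -/
private def evG (w : List ℕ) (L : List Bool) : Bool :=
  if L.length = 0 then false
  else if L.length % 4 = 0 then
    ((Denumerable.ofNat (List ℕ) (L.length / 4 - 1)).isPrefixOf w)
  else if L.length % 4 = 1 then !(L.getD (L.length / 4) false)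
  else if L.length % 4 = 2 then
    L.getD (L.length / 4).unpair.1 false || L.getD (L.length / 4).unpair.2 false
  else L.getD (L.length / 4).unpair.1 false && L.getD (L.length / 4).unpair.2 false

private theorem evG_prim : Primrec₂ evG := by
  have hL : Primrec (fun p : List ℕ × List Bool => p.2.length) :=
    Primrec.list_length.comp Primrec.snd
  have hq : Primrec (fun p : List ℕ × List Bool => p.2.length / 4) :=
    Primrec.nat_div.comp hL (Primrec.const 4)
  have hm : Primrec (fun p : List ℕ × List Bool => p.2.length % 4) :=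
    Primrec.nat_mod.comp hL (Primrec.const 4)
  have hu : Primrec (fun p : List ℕ × List Bool => (p.2.length / 4).unpair) :=
    Primrec.unpair.comp hq
  have hg : ∀ f : List ℕ × List Bool → ℕ, Primrec f →
      Primrec (fun p : List ℕ × List Bool => p.2.getD (f p) false) := fun f hf =>
    (Primrec.list_getD false).comp Primrec.snd hf
  have h : Primrec (fun p : List ℕ × List Bool => evG p.1 p.2) := by
    unfold evG
    refine Primrec.ite (Primrec.eq.comp hL (Primrec.const 0)) (Primrec.const false) ?_
    refine Primrec.ite (Primrec.eq.comp hm (Primrec.const 0)) ?_ ?_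
    · exact isPrefixOf_prim.comp ((Primrec.ofNat (List ℕ)).comp
        (Primrec.nat_sub.comp hq (Primrec.const 1))) Primrec.fst
    refine Primrec.ite (Primrec.eq.comp hm (Primrec.const 1)) ?_ ?_
    · exact Primrec.not.comp (hg _ hq)
    refine Primrec.ite (Primrec.eq.comp hm (Primrec.const 2)) ?_ ?_
    · exact Primrec.or.comp (hg _ (Primrec.fst.comp hu)) (hg _ (Primrec.snd.comp hu))
    · exact Primrec.and.comp (hg _ (Primrec.fst.comp hu)) (hg _ (Primrec.snd.comp hu))
  exact h

private theorem evG_eq (w : List ℕ) (n : ℕ) :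
    evG w ((List.range n).map (fun i => evT i w)) = evT n w := by
  have hget : ∀ i, i < n → ((List.range n).map (fun i => evT i w)).getD i false = evT i w := by
    intro i hi
    rw [List.getD_eq_getElem?_getD, List.getElem?_map, List.getElem?_range hi]
    rfl
  unfold evG
  rw [evT]
  simp only [List.length_map, List.length_range]
  by_cases h0 : n = 0
  · simp [h0]
  have h1 := Nat.unpair_left_le (n / 4)
  have h2 := Nat.unpair_right_le (n / 4)
  rw [if_neg h0, dif_neg h0, hget (n / 4) (by omega), hget (n / 4).unpair.1 (by omega),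
    hget (n / 4).unpair.2 (by omega)]

theorem evT_prim : Primrec₂ evT := by
  have h : Primrec₂ (fun (w : List ℕ) (n : ℕ) => evT n w) := by
    refine Primrec.nat_strong_rec (fun (w : List ℕ) (n : ℕ) => evT n w)
      (g := fun w L => some (evG w L)) (Primrec.option_some.comp evG_prim) ?_
    intro w n
    rw [evG_eq]
  exact h.swap

theorem evT_comp : Computable₂ evT := evT_prim.to_comp

theorem asg_upd (s : ℕ × List (ℕ × ℕ)) (i a : ℕ) :
    asg (upd s i a) = Function.update (asg s) i a := by
  funext j
  obtain ⟨d, l⟩ := s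
  unfold upd
  rw [asg_cons, Function.update_apply]

private theorem asg_le (d j : ℕ) : ∀ l : List (ℕ × ℕ),
    asg (d, l) j ≤ max d (Encodable.encode l)
  | [] => by
    rw [asg_nil]
    exact le_max_left _ _
  | (i, a) :: l => by
    rw [asg_cons]
    have h := asg_le d j l
    have e : Encodable.encode ((i, a) :: l) = Nat.succ (Nat.pair (Nat.pair i a)
      (Encodable.encode l)) := rfl
    have h1 := Nat.left_le_pair (Nat.pair i a) (Encodable.encode l)
    have h2 := Nat.right_le_pair (Nat.pair i a) (Encodable.encode l)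
    have h3 := Nat.right_le_pair i a
    rw [e]
    split_ifs
    · exact le_max_of_le_right (by omega)
    · rcases le_max_iff.1 h with h | h
      · exact le_max_of_le_left h
      · exact le_max_of_le_right (by omega)

theorem asg_lt_wit (n : ℕ) (s : ℕ × List (ℕ × ℕ)) (j : ℕ) : asg s j < wit n s := by
  obtain ⟨d, l⟩ := s
  have h := asg_le d j l
  have e : Encodable.encode (d, l) = Nat.pair d (Encodable.encode l) := rfl
  have h1 := Nat.left_le_pair d (Encodable.encode l)
  have h2 := Nat.right_le_pair d (Encodable.encode l)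
  have h3 := Nat.right_le_pair n (Nat.pair d (Encodable.encode l))
  unfold wit
  rw [e]
  rcases le_max_iff.1 h with h | h <;> omega

theorem wit_inj {n m : ℕ} {s t : ℕ × List (ℕ × ℕ)} (h : wit n s = wit m t) :
    n = m ∧ s = t := by
  unfold wit at h
  have h' := Nat.succ_injective h
  have h2 := Nat.pair_eq_pair.1 h'
  exact ⟨h2.1, Encodable.encode_injective h2.2⟩

private theorem asg_map (d j : ℕ) (g : ℕ → ℕ) : ∀ l : List ℕ,
    asg (d, l.map (fun i => (i, g i))) j = if j ∈ l then g j else d
  | [] => by
    rw [List.map_nil, asg_nil]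
    simp
  | i :: l => by
    rw [List.map_cons, asg_cons, asg_map d j g l]
    by_cases h : j = i
    · subst h
      simp
    · simp [h]

theorem asg_surj (d k : ℕ) (g : ℕ → ℕ) : ∃ s : ℕ × List (ℕ × ℕ), s.1 = d ∧
    (∀ i < k, asg s i = g i) ∧ ∀ i, k ≤ i → asg s i = d := by
  refine ⟨(d, (List.range k).map (fun i => (i, g i))), rfl, ?_, ?_⟩
  · intro i hi
    rw [asg_map, if_pos (List.mem_range.2 hi)]
  · intro i hi
    rw [asg_map, if_neg (fun h => absurd (List.mem_range.1 h) (by omega))]

end Pool.Agent.Lib.MP_8c048d_lc
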