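import Mathlib
import Pool.Agent.Lib.MP_8c048d_lc.Comp

/-!
# L1: codes of formulas
-/

set_option autoImplicit false

namespace Pool.Agent.Lib.MP_8c048d_lc

open FirstOrder

variable {L : FirstOrder.Language.{0, 0}}

private theorem lab_aux (S : Type) (ar : S → ℕ) [Finite S] :
    ∃ (R : ℕ → Option S) (a : ℕ → ℕ) (d : ℕ → Bool), (∀ s, ∃ k, R k = some s) ∧ Computable a ∧
      (∀ k s, R k = some s → a k = ar s) ∧ Computable d ∧ (∀ k, d k = (R k).isSome) ∧
      ∀ k k' s, R k = some s → R k' = some s → k = k' := by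
  obtain ⟨N, ⟨e⟩⟩ := Finite.exists_equiv_fin S
  refine ⟨fun k => if h : k < N then some (e.symm ⟨k, h⟩) else none,
    fun k => (List.ofFn (fun i : Fin N => ar (e.symm i))).getD k 0,
    fun k => decide (k < N), ?_, ?_, ?_, ?_, ?_, ?_⟩
  · intro s
    refine ⟨e s, ?_⟩
    simp
  · exact ((Primrec.list_getD 0).comp (Primrec.const _) Primrec.id).to_comp
  · intro k s h
    by_cases hk : k < N
    · simp only [hk, dif_pos, Option.some.injEq] at h
      subst h
      simp [List.getD, hk]
    · simp [hk] at h
  · have h : PrimrecPred fun k : ℕ => k < N := Primrec.nat_lt.comp Primrec.id (Primrec.const N)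
    exact h.decide.to_comp
  · intro k
    by_cases hk : k < N
    · simp [hk]
    · simp [hk]
  · intro k k' s h h'
    by_cases hk : k < N
    · by_cases hk' : k' < N
      · simp only [hk, hk', dif_pos, Option.some.injEq] at h h'
        have := e.symm.injective (h.trans h'.symm)
        simpa using this
      · simp [hk'] at h'
    · simp [hk] at h

theorem exists_lab (L : FirstOrder.Language.{0, 0}) [Finite (Σ n, L.Relations n)]
    [Finite (Σ n, L.Functions n)] : Nonempty (Lab L) := by
  obtain ⟨R, a, d, h1, h2, h3, h4, h5, h6⟩ := lab_aux (Σ n, L.Relations n) (fun s => s.1)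
  obtain ⟨F, a', d', h1', h2', h3', h4', h5', h6'⟩ := lab_aux (Σ n, L.Functions n) (fun s => s.1)
  exact ⟨⟨R, F, h1, h1', a, a', h2, h2', h3, h3', d, d', h4, h4', h5, h5', h6, h6'⟩⟩

theorem dec_bot (n : ℕ) (h : n % 7 = 0) : dec n = .bot := by
  rw [dec, dif_pos h]

theorem dec_cEq (i j : ℕ) : dec (cEq i j) = .eq i j := by
  unfold cEq
  rw [dec, dif_neg (by omega), dif_pos (by omega)]
  have h : (7 * Nat.pair i j + 1) / 7 = Nat.pair i j := by omega
  rw [h, Nat.unpair_pair]

theorem dec_cRel (r : ℕ) (l : List ℕ) : dec (cRel r l) = .rel r l := by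
  unfold cRel
  rw [dec, dif_neg (by omega), dif_neg (by omega), dif_pos (by omega)]
  have h : (7 * Nat.pair r (Encodable.encode l) + 2) / 7 = Nat.pair r (Encodable.encode l) := by
    omega
  rw [h, Nat.unpair_pair]
  simp

theorem dec_cFn (f : ℕ) (l : List ℕ) (j : ℕ) : dec (cFn f l j) = .fn f l j := by
  unfold cFn
  rw [dec, dif_neg (by omega), dif_neg (by omega), dif_neg (by omega), dif_pos (by omega)]
  have h : (7 * Nat.pair f (Nat.pair (Encodable.encode l) j) + 3) / 7 =
      Nat.pair f (Nat.pair (Encodable.encode l) j) := by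
    omega
  rw [h, Nat.unpair_pair]
  simp

theorem dec_cImp (m n : ℕ) : dec (cImp m n) = .imp (dec m) (dec n) := by
  unfold cImp
  rw [dec, dif_neg (by omega), dif_neg (by omega), dif_neg (by omega), dif_neg (by omega),
    dif_pos (by omega)]
  have h : (7 * Nat.pair m n + 4) / 7 = Nat.pair m n := by omega
  rw [h, Nat.unpair_pair]

theorem dec_cAll (i n : ℕ) : dec (cAll i n) = .all i (dec n) := by
  unfold cAll
  rw [dec, dif_neg (by omega), dif_neg (by omega), dif_neg (by omega), dif_neg (by omega),
    dif_neg (by omega), dif_pos (by omega)]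
  have h : (7 * Nat.pair i n + 5) / 7 = Nat.pair i n := by omega
  rw [h, Nat.unpair_pair]

theorem dec_cBox (n : ℕ) : dec (cBox n) = .box (dec n) := by
  unfold cBox
  rw [dec, dif_neg (by omega), dif_neg (by omega), dif_neg (by omega), dif_neg (by omega),
    dif_neg (by omega), dif_neg (by omega)]
  have h : (7 * n + 6) / 7 = n := by omega
  rw [h]

theorem dec_surjective : Function.Surjective dec := by
  intro φ
  induction φ with
  | bot => exact ⟨0, dec_bot 0 rfl⟩
  | eq i j => exact ⟨_, dec_cEq i j⟩
  | rel r l => exact ⟨_, dec_cRel r l⟩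
  | fn f l j => exact ⟨_, dec_cFn f l j⟩
  | imp φ ψ h1 h2 =>
    obtain ⟨m, rfl⟩ := h1
    obtain ⟨n, rfl⟩ := h2
    exact ⟨_, dec_cImp m n⟩
  | all i φ h =>
    obtain ⟨m, rfl⟩ := h
    exact ⟨_, dec_cAll i m⟩
  | box φ h =>
    obtain ⟨m, rfl⟩ := h
    exact ⟨_, dec_cBox m⟩

/-- Every number is of exactly one of the forms (use it as an induction/cases principle). -/
theorem code_cases (n : ℕ) : n % 7 = 0 ∨ (∃ i j, n = cEq i j) ∨ (∃ r l, n = cRel r l) ∨
    (∃ f l j, n = cFn f l j) ∨ (∃ m k, n = cImp m k) ∨ (∃ i m, n = cAll i m) ∨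
    ∃ m, n = cBox m := by
  have h7 : n % 7 = 0 ∨ n % 7 = 1 ∨ n % 7 = 2 ∨ n % 7 = 3 ∨ n % 7 = 4 ∨ n % 7 = 5 ∨ n % 7 = 6 := by
    omega
  have hd := Nat.div_add_mod n 7
  rcases h7 with h | h | h | h | h | h | h
  · exact Or.inl h
  · refine Or.inr (Or.inl ⟨(n / 7).unpair.1, (n / 7).unpair.2, ?_⟩)
    unfold cEq
    rw [Nat.pair_unpair]
    omega
  · refine Or.inr (Or.inr (Or.inl ⟨(n / 7).unpair.1,
      Denumerable.ofNat (List ℕ) (n / 7).unpair.2, ?_⟩))
    unfold cRel
    rw [Denumerable.encode_ofNat, Nat.pair_unpair]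
    omega
  · refine Or.inr (Or.inr (Or.inr (Or.inl ⟨(n / 7).unpair.1,
      Denumerable.ofNat (List ℕ) (n / 7).unpair.2.unpair.1, (n / 7).unpair.2.unpair.2, ?_⟩)))
    unfold cFn
    rw [Denumerable.encode_ofNat, Nat.pair_unpair, Nat.pair_unpair]
    omega
  · refine Or.inr (Or.inr (Or.inr (Or.inr (Or.inl ⟨(n / 7).unpair.1, (n / 7).unpair.2, ?_⟩))))
    unfold cImp
    rw [Nat.pair_unpair]
    omega
  · refine Or.inr (Or.inr (Or.inr (Or.inr (Or.inr (Or.inl ⟨(n / 7).unpair.1,
      (n / 7).unpair.2, ?_⟩)))))
    unfold cAll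
    rw [Nat.pair_unpair]
    omega
  · refine Or.inr (Or.inr (Or.inr (Or.inr (Or.inr (Or.inr ⟨n / 7, ?_⟩)))))
    unfold cBox
    omega

/-- Strong induction along codes. -/
theorem code_induction {C : ℕ → Prop} (hbot : ∀ n, n % 7 = 0 → C n) (heq : ∀ i j, C (cEq i j))
    (hrel : ∀ r l, C (cRel r l)) (hfn : ∀ f l j, C (cFn f l j))
    (himp : ∀ m n, C m → C n → C (cImp m n)) (hall : ∀ i n, C n → C (cAll i n))
    (hbox : ∀ n, C n → C (cBox n)) : ∀ n, C n := by
  intro n
  induction n using Nat.strong_induction_on with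
  | _ n ih =>
    rcases code_cases n with h | ⟨i, j, h⟩ | ⟨r, l, h⟩ | ⟨f, l, j, h⟩ | ⟨m, k, h⟩ | ⟨i, m, h⟩ |
      ⟨m, h⟩
    · exact hbot n h
    · exact h ▸ heq i j
    · exact h ▸ hrel r l
    · exact h ▸ hfn f l j
    · have h1 := Nat.left_le_pair m k
      have h2 := Nat.right_le_pair m k
      have h3 : n = 7 * Nat.pair m k + 4 := h
      rw [h]
      exact himp m k (ih m (by omega)) (ih k (by omega))
    · have h2 := Nat.right_le_pair i m
      have h3 : n = 7 * Nat.pair i m + 5 := h
      rw [h]
      exact hall i m (ih m (by omega))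
    · have h3 : n = 7 * m + 6 := h
      rw [h]
      exact hbox m (ih m (by omega))

/-- Every flat formula is equivalent to a formula of `L`. -/
theorem formula_of_fm (b : Lab L) (φ : Fm) : ∃ ψ : L.Formula ℕ,
    ∀ (M : Type) [L.Structure M] (s : ℕ → M), ψ.Realize s ↔ Sat b φ s := by
  induction φ with
  | bot =>
    refine ⟨⊥, ?_⟩
    intro M _ s
    simp [Sat]
  | eq i j =>
    refine ⟨(Language.Term.var i).equal (Language.Term.var j), ?_⟩
    intro M _ s
    simp [Sat]
  | rel r l =>
    cases hr : b.R r with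
    | none =>
      refine ⟨⊥, ?_⟩
      intro M _ s
      simp [Sat, hr]
    | some p =>
      refine ⟨p.2.formula (fun i => Language.Term.var (l.getD i 0)), ?_⟩
      intro M _ s
      simp only [Sat, hr, Language.Formula.realize_rel, Language.Term.realize_var]
  | fn f l j =>
    cases hr : b.F f with
    | none =>
      refine ⟨⊥, ?_⟩
      intro M _ s
      simp [Sat, hr]
    | some p =>
      refine ⟨(Language.Term.func p.2 (fun i => Language.Term.var (l.getD i 0))).equal
        (Language.Term.var j), ?_⟩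
      intro M _ s
      simp only [Sat, hr, Language.Formula.realize_equal, Language.Term.realize_func,
        Language.Term.realize_var]
  | imp φ ψ h1 h2 =>
    obtain ⟨χ1, h1⟩ := h1
    obtain ⟨χ2, h2⟩ := h2
    refine ⟨χ1.imp χ2, ?_⟩
    intro M _ s
    simp only [Sat, Language.Formula.realize_imp, h1, h2]
  | all i φ h =>
    obtain ⟨χ, h⟩ := h
    refine ⟨(χ.relabel (fun j => if j = i then Sum.inr () else Sum.inl j) :
      L.Formula (ℕ ⊕ Unit)).iAlls Unit, ?_⟩
    intro M _ s
    rw [Language.Formula.realize_iAlls]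
    simp only [Sat, Language.Formula.realize_relabel]
    constructor
    · intro H a
      have H1 := H (fun _ => a)
      rw [← h]
      convert H1 using 1
      funext j
      by_cases hj : j = i
      · simp [hj]
      · simp [hj]
    · intro H g
      have H1 := H (g ())
      rw [← h] at H1
      convert H1 using 1
      funext j
      by_cases hj : j = i
      · simp [hj]
      · simp [hj]
  | box φ h =>
    obtain ⟨χ, h⟩ := h
    refine ⟨(χ.relabel (fun _ => Sum.inr ()) : L.Formula (ℕ ⊕ Unit)).iAlls Unit, ?_⟩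
    intro M _ s
    rw [Language.Formula.realize_iAlls]
    simp only [Sat, Language.Formula.realize_relabel]
    constructor
    · intro H a
      have H1 := H (fun _ => a)
      rw [← h]
      exact H1
    · intro H g
      have H1 := H (g ())
      rw [← h] at H1
      exact H1

/-- Only finitely many variables matter. -/
private theorem exists_bound' (b : Lab L) (φ : Fm) : ∃ k, ∀ (M : Type) [L.Structure M]
    (s t : ℕ → M), (∀ i < k, s i = t i) → (Sat b φ s ↔ Sat b φ t) := by
  have hget : ∀ (l : List ℕ) (i : ℕ), l.getD i 0 ≤ l.sum := by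
    intro l i
    by_cases hi : i < l.length
    · rw [List.getD_eq_getElem _ _ hi]
      exact List.single_le_sum (by simp) _ (List.getElem_mem hi)
    · rw [List.getD_eq_default _ _ (by omega)]
      exact Nat.zero_le _
  induction φ with
  | bot => exact ⟨0, fun M _ s t _ => Iff.rfl⟩
  | eq i j =>
    refine ⟨i + j + 1, ?_⟩
    intro M _ s t h
    simp only [Sat]
    rw [h i (by omega), h j (by omega)]
  | rel r l =>
    refine ⟨l.sum + 1, ?_⟩
    intro M _ s t h
    cases hr : b.R r with
    | none => simp [Sat, hr]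
    | some p =>
      simp only [Sat, hr]
      have : (fun i : Fin p.1 => s (l.getD i 0)) = fun i : Fin p.1 => t (l.getD i 0) := by
        funext i
        exact h _ (by have := hget l i; omega)
      rw [this]
  | fn f l j =>
    refine ⟨l.sum + j + 1, ?_⟩
    intro M _ s t h
    cases hr : b.F f with
    | none => simp [Sat, hr]
    | some p =>
      simp only [Sat, hr]
      have : (fun i : Fin p.1 => s (l.getD i 0)) = fun i : Fin p.1 => t (l.getD i 0) := by
        funext i
        exact h _ (by have := hget l i; omega)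
      rw [this, h j (by omega)]
  | imp φ ψ h1 h2 =>
    obtain ⟨k1, h1⟩ := h1
    obtain ⟨k2, h2⟩ := h2
    refine ⟨max k1 k2, ?_⟩
    intro M _ s t h
    simp only [Sat]
    rw [h1 M s t (fun i hi => h i (lt_of_lt_of_le hi (le_max_left _ _))),
      h2 M s t (fun i hi => h i (lt_of_lt_of_le hi (le_max_right _ _)))]
  | all j φ h1 =>
    obtain ⟨k, h1⟩ := h1
    refine ⟨k, ?_⟩
    intro M _ s t h
    simp only [Sat]
    refine forall_congr' fun a => h1 M _ _ ?_
    intro i hi
    by_cases hij : i = j
    · simp [hij]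
    · simp [hij, h i hi]
  | box φ h1 =>
    refine ⟨0, ?_⟩
    intro M _ s t _
    simp only [Sat]

/-- Quantify over a list of variables. -/
private def allL : List ℕ → Fm → Fm
  | [], φ => φ
  | i :: l, φ => .all i (allL l φ)

private theorem sat_allL (b : Lab L) {M : Type} [L.Structure M] (l : List ℕ) (φ : Fm) :
    ∀ s : ℕ → M, Sat b (allL l φ) s ↔ ∀ s' : ℕ → M, (∀ i, i ∉ l → s' i = s i) → Sat b φ s' := by
  induction l with
  | nil =>
    intro s
    simp only [allL]
    constructor
    · intro h s' hs'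
      have : s' = s := funext fun i => hs' i (by simp)
      rw [this]; exact h
    · intro h
      exact h s (fun _ _ => rfl)
  | cons i l ih =>
    intro s
    simp only [allL, Sat]
    constructor
    · intro h s' hs'
      refine (ih _).mp (h (s' i)) s' ?_
      intro j hj
      by_cases hji : j = i
      · subst hji; simp
      · rw [Function.update_of_ne hji]
        exact hs' j (by simp [hji, hj])
    · intro h a
      rw [ih]
      intro s' hs'
      apply h
      intro j hj
      have h1 : j ≠ i := by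
        intro h'; exact hj (by simp [h'])
      have h2 : j ∉ l := by
        intro h'; exact hj (by simp [h'])
      rw [hs' j h2, Function.update_of_ne h1]

/-- Implications with a list of premises. -/
private def impL : List Fm → Fm → Fm
  | [], φ => φ
  | ψ :: l, φ => .imp ψ (impL l φ)

private theorem sat_impL (b : Lab L) {M : Type} [L.Structure M] (l : List Fm) (φ : Fm)
    (s : ℕ → M) : Sat b (impL l φ) s ↔ ((∀ ψ ∈ l, Sat b ψ s) → Sat b φ s) := by
  induction l with
  | nil => simp [impL]
  | cons ψ l ih =>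
    simp only [impL, Sat, ih]
    constructor
    · intro h h'
      exact h (h' ψ (by simp)) (fun χ hχ => h' χ (by simp [hχ]))
    · intro h h1 h2
      apply h
      intro χ hχ
      rcases List.mem_cons.mp hχ with rfl | hχ
      · exact h1
      · exact h2 χ hχ

/-- Flat formulas are closed under substitutions of variables: moving a block. -/
private theorem subst_block (b : Lab L) (k N : ℕ) (φ : Fm) (σ : ℕ → ℕ)
    (hσ : ∀ i < k, σ i < N ∨ N + k ≤ σ i) {M : Type} [L.Structure M] (s : ℕ → M) :
    Sat b (allL ((List.range k).map (N + ·))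
      (impL ((List.range k).map (fun i => Fm.eq (N + i) (σ i))) φ)) s ↔
    Sat b φ (fun j => if N ≤ j ∧ j < N + k then s (σ (j - N)) else s j) := by
  rw [sat_allL]
  constructor
  · intro h
    have h1 := h (fun j => if N ≤ j ∧ j < N + k then s (σ (j - N)) else s j) ?_
    · rw [sat_impL] at h1
      apply h1
      intro ψ hψ
      obtain ⟨i, hi, rfl⟩ := List.mem_map.mp hψ
      have hi' : i < k := List.mem_range.mp hi
      simp only [Sat]
      rw [if_pos (by omega), if_neg (by have := hσ i hi'; omega)]
      congr 2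
      omega
    · intro i hi
      rw [if_neg]
      rintro ⟨h1, h2⟩
      apply hi
      exact List.mem_map.mpr ⟨i - N, List.mem_range.mpr (by omega), by omega⟩
  · intro h s' hs'
    rw [sat_impL]
    intro h2
    convert h using 1
    funext j
    by_cases hj : N ≤ j ∧ j < N + k
    · rw [if_pos hj]
      have h3 := h2 (Fm.eq (N + (j - N)) (σ (j - N)))
        (List.mem_map.mpr ⟨j - N, List.mem_range.mpr (by omega), rfl⟩)
      simp only [Sat] at h3
      have e : N + (j - N) = j := by omega
      rw [e] at h3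
      rw [h3]
      apply hs'
      intro h4
      obtain ⟨i, hi, h5⟩ := List.mem_map.mp h4
      have hi' : i < k := List.mem_range.mp hi
      have := hσ (j - N) (by omega)
      change N + i = σ (j - N) at h5
      omega
    · rw [if_neg hj]
      apply hs'
      intro h4
      obtain ⟨i, hi, h5⟩ := List.mem_map.mp h4
      have hi' : i < k := List.mem_range.mp hi
      change N + i = j at h5
      omega

private theorem exists_subst' (b : Lab L) (φ : Fm) (σ : ℕ → ℕ) : ∃ φ' : Fm,
    ∀ (M : Type) [L.Structure M] (s : ℕ → M), Sat b φ' s ↔ Sat b φ (s ∘ σ) := by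
  obtain ⟨k, hk⟩ := exists_bound' b φ
  obtain ⟨N, hN1, hN2⟩ : ∃ N, k ≤ N ∧ ∀ i < k, σ i < N := by
    refine ⟨k + ∑ i ∈ Finset.range k, (σ i + 1), by omega, ?_⟩
    intro i hi
    have := Finset.single_le_sum (f := fun i => σ i + 1) (fun _ _ => Nat.zero_le _)
      (Finset.mem_range.mpr hi)
    change σ i + 1 ≤ _ at this
    omega
  refine ⟨allL ((List.range k).map (N + ·))
      (impL ((List.range k).map (fun i => Fm.eq (N + i) (σ i)))
        (allL ((List.range k).map (0 + ·))
          (impL ((List.range k).map (fun i => Fm.eq (0 + i) (N + i))) φ))), ?_⟩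
  intro M _ s
  rw [subst_block b k N _ σ (fun i hi => Or.inl (hN2 i hi)),
    subst_block b k 0 _ (fun i => N + i) (fun i hi => Or.inr (by omega))]
  apply hk
  intro i hi
  rw [if_pos (by omega), if_pos (by omega)]
  simp only [Function.comp_apply]
  congr 2
  omega

/-- The value of the argument variables. -/
private noncomputable def extS {M : Type} [L.Structure M] {m : ℕ} (ts : Fin m → L.Term ℕ) (B : ℕ)
    (s : ℕ → M) : ℕ → M :=
  fun k => if h : B ≤ k ∧ k < B + m then (ts ⟨k - B, by omega⟩).realize s else s k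

private theorem extS_arg {M : Type} [L.Structure M] {m : ℕ} (ts : Fin m → L.Term ℕ) (B : ℕ)
    (s : ℕ → M) (i : Fin m) : extS ts B s (B + i) = (ts i).realize s := by
  unfold extS
  have hi := i.2
  rw [dif_pos (by omega)]
  congr 2
  ext
  simp

private theorem extS_lt {M : Type} [L.Structure M] {m : ℕ} (ts : Fin m → L.Term ℕ) (B : ℕ)
    (s : ℕ → M) (j : ℕ) (hj : j < B) : extS ts B s j = s j := by
  unfold extS
  rw [dif_neg (by omega)]

private theorem sat_args (b : Lab L) {m : ℕ} (ts : Fin m → L.Term ℕ) (B : ℕ) (φs : Fin m → Fm)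
    (χ : Fm) {M : Type} [L.Structure M] (s : ℕ → M)
    (hφ : ∀ (i : Fin m) (s : ℕ → M), Sat b (φs i) s ↔ (ts i).realize s = s (B + i))
    (hinv : ∀ (i : Fin m) (s s' : ℕ → M), (∀ j < B, s j = s' j) →
      (ts i).realize s = (ts i).realize s') :
    Sat b (allL ((List.range m).map (B + ·)) (impL (List.ofFn φs) χ)) s ↔
      Sat b χ (extS ts B s) := by
  rw [sat_allL]
  constructor
  · intro h
    have h1 := h (extS ts B s) ?_
    · rw [sat_impL] at h1
      apply h1
      intro ψ hψ
      obtain ⟨i, rfl⟩ := (List.mem_ofFn' _ _).mp hψ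
      rw [hφ, extS_arg]
      exact hinv i _ _ (fun j hj => extS_lt ts B s j hj)
    · intro i hi
      unfold extS
      rw [dif_neg]
      rintro ⟨h1, h2⟩
      apply hi
      exact List.mem_map.mpr ⟨i - B, List.mem_range.mpr (by omega), by omega⟩
  · intro h s' hs'
    rw [sat_impL]
    intro h2
    have hag : ∀ j < B, s' j = s j := by
      intro j hj
      apply hs'
      intro h4
      obtain ⟨i, hi, h5⟩ := List.mem_map.mp h4
      change B + i = j at h5
      omega
    convert h using 1
    funext j
    by_cases hj : B ≤ j ∧ j < B + m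
    · have h3 := h2 (φs ⟨j - B, by omega⟩) ((List.mem_ofFn' _ _).mpr ⟨_, rfl⟩)
      rw [hφ] at h3
      have e : B + ((⟨j - B, by omega⟩ : Fin m) : ℕ) = j := by
        show B + (j - B) = j
        omega
      rw [e] at h3
      rw [← h3, hinv _ s' s hag]
      unfold extS
      rw [dif_pos hj]
    · unfold extS
      rw [dif_neg hj]
      apply hs'
      intro h4
      obtain ⟨i, hi, h5⟩ := List.mem_map.mp h4
      have hi' : i < m := List.mem_range.mp hi
      change B + i = j at h5
      omega

private theorem getD_arg (B m i : ℕ) (hi : i < m) :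
    ((List.range m).map (B + ·)).getD i 0 = B + i := by
  rw [List.getD_eq_getElem _ _ (by simpa using hi)]
  simp

/-- Flattening of terms. -/
private theorem flat_term (b : Lab L) (t : L.Term ℕ) : ∃ B₀ : ℕ,
    (∀ (M : Type) [L.Structure M] (s s' : ℕ → M), (∀ i < B₀, s i = s' i) →
      t.realize s = t.realize s') ∧
    ∀ B, B₀ ≤ B → ∀ j < B, ∃ φ : Fm, ∀ (M : Type) [L.Structure M] (s : ℕ → M),
      Sat b φ s ↔ t.realize s = s j := by
  induction t with
  | var i =>
    refine ⟨i + 1, ?_, ?_⟩
    · intro M _ s s' h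
      simpa using h i (by omega)
    · intro B hB j hj
      refine ⟨.eq i j, ?_⟩
      intro M _ s
      simp [Sat]
  | @func m f ts ih =>
    choose B₁ h1 h2 using ih
    have hle : ∀ i, B₁ i ≤ ∑ i, B₁ i := fun i =>
      Finset.single_le_sum (fun _ _ => Nat.zero_le _) (Finset.mem_univ i)
    refine ⟨∑ i, B₁ i, ?_, ?_⟩
    · intro M _ s s' h
      simp only [Language.Term.realize_func]
      congr 1
      funext i
      exact h1 i M s s' (fun j hj => h j (lt_of_lt_of_le hj (hle i)))
    · intro B hB j hj
      have h3 : ∀ i : Fin m, ∃ φ : Fm, ∀ (M : Type) [L.Structure M] (s : ℕ → M),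
          Sat b φ s ↔ (ts i).realize s = s (B + i) := fun i =>
        h2 i (B + m) (by have := hle i; omega) (B + i) (by have := i.2; omega)
      choose φs hφs using h3
      obtain ⟨f', hf'⟩ := b.surjF ⟨m, f⟩
      refine ⟨allL ((List.range m).map (B + ·)) (impL (List.ofFn φs)
        (.fn f' ((List.range m).map (B + ·)) j)), ?_⟩
      intro M _ s
      rw [sat_args b ts B φs _ s (fun i s => hφs i M s) (fun i s s' h => h1 i M s s'
        (fun j hj => h j (by have := hle i; omega)))]
      simp only [Sat, hf', Language.Term.realize_func]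
      rw [extS_lt ts B s j hj]
      have e : (fun i : Fin m => extS ts B s (((List.range m).map (B + ·)).getD i 0)) =
          fun i => (ts i).realize s := by
        funext i
        rw [getD_arg B m i i.2, extS_arg]
      rw [e]

/-- The coding of the variables of a bounded formula. -/
private def cv {n : ℕ} : ℕ ⊕ Fin n → ℕ := Sum.elim (fun i => 2 * i) (fun k => 2 * (k : ℕ) + 1)

private theorem comp_cv {n : ℕ} {M : Type} (s : ℕ → M) :
    s ∘ (cv : ℕ ⊕ Fin n → ℕ) = Sum.elim (fun i => s (2 * i)) (fun k : Fin n => s (2 * (k : ℕ) + 1)) := by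
  funext x
  cases x <;> rfl

/-- A list of terms at the same time. -/
private theorem flat_terms (b : Lab L) {m : ℕ} (ts : Fin m → L.Term ℕ) : ∃ (B : ℕ)
    (φs : Fin m → Fm), ∀ (χ : Fm) (M : Type) [L.Structure M] (s : ℕ → M),
    Sat b (allL ((List.range m).map (B + ·)) (impL (List.ofFn φs) χ)) s ↔
      Sat b χ (extS ts B s) := by
  choose B₁ h1 h2 using fun i => flat_term b (ts i)
  have hle : ∀ i, B₁ i ≤ ∑ i, B₁ i := fun i =>
    Finset.single_le_sum (fun _ _ => Nat.zero_le _) (Finset.mem_univ i)
  have h3 : ∀ i : Fin m, ∃ φ : Fm, ∀ (M : Type) [L.Structure M] (s : ℕ → M),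
      Sat b φ s ↔ (ts i).realize s = s ((∑ i, B₁ i) + i) := fun i =>
    h2 i ((∑ i, B₁ i) + m) (by have := hle i; omega) ((∑ i, B₁ i) + i) (by have := i.2; omega)
  choose φs hφs using h3
  refine ⟨∑ i, B₁ i, φs, ?_⟩
  intro χ M _ s
  exact sat_args b ts _ φs χ s (fun i s => hφs i M s) (fun i s s' h => h1 i M s s'
    (fun j hj => h j (by have := hle i; omega)))

private theorem fm_of_bounded (b : Lab L) : ∀ {n : ℕ} (ψ : L.BoundedFormula ℕ n), ∃ φ : Fm,
    ∀ (M : Type) [L.Structure M] (s : ℕ → M),
      Sat b φ s ↔ ψ.Realize (fun i => s (2 * i)) (fun k : Fin n => s (2 * (k : ℕ) + 1)) := by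
  intro n ψ
  induction ψ with
  | falsum =>
    refine ⟨.bot, ?_⟩
    intro M _ s
    simp [Sat, Language.BoundedFormula.Realize]
  | equal t₁ t₂ =>
    obtain ⟨B, φs, h⟩ := flat_terms b ![t₁.relabel cv, t₂.relabel cv]
    refine ⟨_, fun M _ s => (h (.eq (B + ((0 : Fin 2) : ℕ)) (B + ((1 : Fin 2) : ℕ))) M s).trans ?_⟩
    simp only [Sat, Language.BoundedFormula.Realize]
    rw [extS_arg, extS_arg, ← comp_cv]
    simp
  | @rel n m R ts =>
    obtain ⟨B, φs, h⟩ := flat_terms b (fun i => (ts i).relabel cv)
    obtain ⟨r', hr'⟩ := b.surjR ⟨m, R⟩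
    refine ⟨_, fun M _ s => (h (.rel r' ((List.range m).map (B + ·))) M s).trans ?_⟩
    simp only [Sat, Language.BoundedFormula.Realize, hr']
    have e : (fun i : Fin m => extS (fun i => (ts i).relabel cv) B s
        (((List.range m).map (B + ·)).getD i 0)) =
        fun i => (ts i).realize (Sum.elim (fun i => s (2 * i))
          (fun k : Fin n => s (2 * (k : ℕ) + 1))) := by
      funext i
      rw [getD_arg B m i i.2, extS_arg, ← comp_cv]
      simp
    rw [e]
  | imp ψ₁ ψ₂ h1 h2 =>
    obtain ⟨φ₁, h1⟩ := h1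
    obtain ⟨φ₂, h2⟩ := h2
    refine ⟨.imp φ₁ φ₂, ?_⟩
    intro M _ s
    simp only [Sat, Language.BoundedFormula.Realize, h1 M s, h2 M s]
  | @all n ψ h1 =>
    obtain ⟨φ, h1⟩ := h1
    refine ⟨.all (2 * n + 1) φ, ?_⟩
    intro M _ s
    simp only [Sat, Language.BoundedFormula.Realize]
    refine forall_congr' fun a => ?_
    rw [h1 M]
    have e1 : (fun i => Function.update s (2 * n + 1) a (2 * i)) = fun i => s (2 * i) := by
      funext i
      rw [Function.update_of_ne (by omega)]
    have e2 : (fun k : Fin (n + 1) => Function.update s (2 * n + 1) a (2 * (k : ℕ) + 1)) =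
        Fin.snoc (fun k : Fin n => s (2 * (k : ℕ) + 1)) a := by
      funext k
      refine Fin.lastCases ?_ (fun k => ?_) k
      · simp
      · rw [Fin.snoc_castSucc]
        have hk := k.2
        simp only [Fin.val_castSucc]
        rw [Function.update_of_ne (by omega)]
    rw [e1, e2]

/-- Every formula of `L` is equivalent to a flat formula. -/
theorem fm_of_formula (b : Lab L) (ψ : L.Formula ℕ) : ∃ φ : Fm,
    ∀ (M : Type) [L.Structure M] (s : ℕ → M), ψ.Realize s ↔ Sat b φ s := by
  obtain ⟨φ, hφ⟩ := fm_of_bounded b ψ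
  obtain ⟨φ', hφ'⟩ := exists_subst' b φ (fun i => i / 2)
  refine ⟨φ', ?_⟩
  intro M _ s
  rw [hφ' M s, hφ M, Language.Formula.Realize]
  have e1 : (fun i => (s ∘ fun i => i / 2) (2 * i)) = s := by
    funext i
    simp
  rw [e1]
  exact iff_of_eq (congrArg _ (Subsingleton.elim _ _))

/-- The sentence coded by `n`. -/
theorem exists_sent (b : Lab L) (n : ℕ) : ∃ ψ : L.Sentence,
    ∀ (M : Type) [L.Structure M], M ⊨ ψ ↔ n ∈ ThC b M := by
  obtain ⟨χ, hχ⟩ := formula_of_fm b (dec n)
  refine ⟨(χ.relabel (fun _ => Sum.inr ()) : L.Formula (Empty ⊕ Unit)).iAlls Unit, ?_⟩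
  intro M _
  rw [Language.Sentence.Realize, Language.Formula.realize_iAlls]
  simp only [Language.Formula.realize_relabel]
  constructor
  · intro H a
    have H1 := H (fun _ => a)
    rw [← hχ]
    exact H1
  · intro H g
    have H1 := H (g ())
    rw [← hχ] at H1
    exact H1

/-- Every sentence is coded by some `n`. -/
theorem exists_code (b : Lab L) (ψ : L.Sentence) : ∃ n,
    ∀ (M : Type) [L.Structure M] [Nonempty M], M ⊨ ψ ↔ n ∈ ThC b M := by
  obtain ⟨φ, hφ⟩ := fm_of_formula b (Language.Formula.relabel (Empty.elim : Empty → ℕ) ψ)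
  obtain ⟨n, hn⟩ := dec_surjective φ
  refine ⟨n, ?_⟩
  intro M _ _
  have key : ∀ a : M, M ⊨ ψ ↔ Sat b (dec n) (fun _ => a) := by
    intro a
    rw [hn, ← hφ, Language.Formula.realize_relabel, Language.Sentence.Realize]
    exact iff_of_eq (congrArg _ (Subsingleton.elim _ _))
  constructor
  · intro h a
    exact (key a).mp h
  · intro h
    exact (key (Classical.arbitrary M)).mpr (h _)

/-- Flat formulas are closed under substitutions of variables. -/
theorem exists_subst (b : Lab L) (φ : Fm) (σ : ℕ → ℕ) : ∃ φ' : Fm,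
    ∀ (M : Type) [L.Structure M] (s : ℕ → M), Sat b φ' s ↔ Sat b φ (s ∘ σ) :=
  exists_subst' b φ σ

/-- Only finitely many variables matter. -/
theorem exists_bound (b : Lab L) (φ : Fm) : ∃ k, ∀ (M : Type) [L.Structure M] (s t : ℕ → M),
    (∀ i < k, s i = t i) → (Sat b φ s ↔ Sat b φ t) :=
  exists_bound' b φ

/-- The meaning of `allT`. -/
theorem mem_ThC_allT (b : Lab L) (M : Type) [L.Structure M] (k n : ℕ) :
    allT k n ∈ ThC b M ↔ ∀ s : ℕ → M, (∀ i, k < i → s i = s 0) → Sat b (dec n) s := by
  induction k generalizing n with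
  | zero =>
    simp only [allT, ThC, Set.mem_ofPred_eq]
    constructor
    · intro h s hs
      have e : s = fun _ => s 0 := by
        funext i
        rcases Nat.eq_zero_or_pos i with rfl | hi
        · rfl
        · exact hs i hi
      rw [e]
      exact h _
    · intro h a
      exact h _ (fun _ _ => rfl)
  | succ k ih =>
    simp only [allT]
    rw [ih, dec_cAll]
    simp only [Sat]
    constructor
    · intro h s hs
      have h1 := h (Function.update s (k + 1) (s 0)) ?_ (s (k + 1))
      · rwa [Function.update_idem, Function.update_eq_self] at h1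
      · intro i hi
        rw [Function.update_of_ne (show (0 : ℕ) ≠ k + 1 by omega)]
        by_cases hi' : i = k + 1
        · rw [hi', Function.update_self]
        · rw [Function.update_of_ne hi']
          exact hs i (by omega)
    · intro h s hs a
      apply h
      intro i hi
      rw [Function.update_of_ne (show i ≠ k + 1 by omega),
        Function.update_of_ne (show (0 : ℕ) ≠ k + 1 by omega)]
      exact hs i (by omega)

end Pool.Agent.Lib.MP_8c048d_lc
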