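import Mathlib
import Pool.Agent.Lib.MP_8c048d_lc.Codes

/-!
# L2: Henkin valuations
-/

set_option autoImplicit false

namespace Pool.Agent.Lib.MP_8c048d_lc

open FirstOrder

variable {L : FirstOrder.Language.{0, 0}}

/-! ## Assignments -/

private theorem asg_upd1 (s : ℕ × List (ℕ × ℕ)) (i a j : ℕ) :
    asg (upd s i a) j = if j = i then a else asg s j := by
  obtain ⟨d, l⟩ := s
  simp [upd, asg]

private theorem asg_upd_fun {M : Type} (I : ℕ → M) (s : ℕ × List (ℕ × ℕ)) (i a : ℕ) :
    (fun j => I (asg (upd s i a) j)) = Function.update (fun j => I (asg s j)) i (I a) := by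
  funext j
  rw [asg_upd1]
  by_cases h : j = i
  · subst h; simp
  · simp [h]

private theorem asg_pair0 (a c : ℕ) : asg (a, [(1, c)]) 0 = a := by simp [asg]

private theorem asg_pair1 (a c : ℕ) : asg (a, [(1, c)]) 1 = c := by simp [asg]

/-! ## Satisfaction of coded formulas -/

section Val

variable (b : Lab L) {M : Type} [L.Structure M] (I : ℕ → M)

private theorem val_bot (n : ℕ) (s : ℕ × List (ℕ × ℕ)) (h : n % 7 = 0) : ¬ val b I n s := by
  unfold val
  rw [dec_bot n h]
  simp [Sat]

private theorem val_eq (i j : ℕ) (s : ℕ × List (ℕ × ℕ)) :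
    val b I (cEq i j) s ↔ I (asg s i) = I (asg s j) := by
  unfold val
  rw [dec_cEq]
  simp [Sat]

private theorem val_imp (m n : ℕ) (s : ℕ × List (ℕ × ℕ)) :
    val b I (cImp m n) s ↔ (val b I m s → val b I n s) := by
  unfold val
  rw [dec_cImp]
  simp [Sat]

private theorem val_not (m : ℕ) (s : ℕ × List (ℕ × ℕ)) :
    val b I (cNot m) s ↔ ¬ val b I m s := by
  unfold cNot
  rw [val_imp]
  have := val_bot b I cBot s rfl
  tauto

private theorem val_all (i n : ℕ) (s : ℕ × List (ℕ × ℕ)) :
    val b I (cAll i n) s ↔
      ∀ a : M, Sat b (dec n) (Function.update (fun j => I (asg s j)) i a) := by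
  unfold val
  rw [dec_cAll]
  simp [Sat]

private theorem val_box (n : ℕ) (s : ℕ × List (ℕ × ℕ)) :
    val b I (cBox n) s ↔ ∀ a : M, Sat b (dec n) (fun _ => a) := by
  unfold val
  rw [dec_cBox]
  simp [Sat]

private theorem val_upd (n i a : ℕ) (s : ℕ × List (ℕ × ℕ)) :
    val b I n (upd s i a) ↔ Sat b (dec n) (Function.update (fun j => I (asg s j)) i (I a)) := by
  unfold val
  rw [asg_upd_fun]

private theorem val_const (n a : ℕ) :
    val b I n (a, []) ↔ Sat b (dec n) (fun _ => I a) := by
  unfold val
  simp only [asg_nil]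

private theorem val_rel_none (r : ℕ) (l : List ℕ) (s : ℕ × List (ℕ × ℕ)) (h : b.R r = none) :
    ¬ val b I (cRel r l) s := by
  unfold val
  rw [dec_cRel]
  simp [Sat, h]

private theorem val_rel_some (r : ℕ) (l : List ℕ) (s : ℕ × List (ℕ × ℕ))
    (p : Σ n, L.Relations n) (h : b.R r = some p) :
    val b I (cRel r l) s ↔
      Language.Structure.RelMap p.2 (fun i : Fin p.1 => I (asg s (l.getD i 0))) := by
  unfold val
  rw [dec_cRel]
  simp only [Sat]
  rw [h]

private theorem val_fn_none (f : ℕ) (l : List ℕ) (j : ℕ) (s : ℕ × List (ℕ × ℕ))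
    (h : b.F f = none) : ¬ val b I (cFn f l j) s := by
  unfold val
  rw [dec_cFn]
  simp [Sat, h]

private theorem val_fn_some (f : ℕ) (l : List ℕ) (j : ℕ) (s : ℕ × List (ℕ × ℕ))
    (p : Σ n, L.Functions n) (h : b.F f = some p) :
    val b I (cFn f l j) s ↔
      Language.Structure.funMap p.2 (fun i : Fin p.1 => I (asg s (l.getD i 0))) =
        I (asg s j) := by
  unfold val
  rw [dec_cFn]
  simp only [Sat]
  rw [h]

/-- Values only depend on the constants that occur. -/
private theorem val_congr {I I' : ℕ → M} (n : ℕ) (s : ℕ × List (ℕ × ℕ))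
    (h : ∀ j, I (asg s j) = I' (asg s j)) : val b I n s ↔ val b I' n s := by
  unfold val
  have : (fun i => I (asg s i)) = (fun i => I' (asg s i)) := funext h
  rw [this]

end Val

/-! ## The model of a Henkin valuation -/

section Model

variable (b : Lab L) {v : ℕ → ℕ × List (ℕ × ℕ) → Prop}

/-- Equality of constants. -/
private def EE (v : ℕ → ℕ × List (ℕ × ℕ) → Prop) (c d : ℕ) : Prop := v (cEq 0 1) (c, [(1, d)])

private theorem ee_iff (hv : Henkin b v) (i j : ℕ) (s : ℕ × List (ℕ × ℕ)) :
    v (cEq i j) s ↔ EE v (asg s i) (asg s j) := by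
  constructor
  · intro h
    exact hv.eqc i j 0 1 s _ (asg_pair0 _ _).symm (asg_pair1 _ _).symm h
  · intro h
    exact hv.eqc 0 1 i j _ s (asg_pair0 _ _) (asg_pair1 _ _) h

private theorem ee_refl (hv : Henkin b v) (c : ℕ) : EE v c c := by
  have h := hv.refl 0 (c, [])
  rw [ee_iff b hv, asg_nil] at h
  exact h

private theorem ee_symm (hv : Henkin b v) {c d : ℕ} (h : EE v c d) : EE v d c := by
  have h' := hv.symm 0 1 _ h
  rw [ee_iff b hv, asg_pair0, asg_pair1] at h'
  exact h'

private theorem ee_trans (hv : Henkin b v) {c d e : ℕ} (h : EE v c d) (h' : EE v d e) :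
    EE v c e := by
  have h0 : asg (c, [(1, d), (2, e)]) 0 = c := by simp [asg]
  have h1 : asg (c, [(1, d), (2, e)]) 1 = d := by simp [asg]
  have h2 : asg (c, [(1, d), (2, e)]) 2 = e := by simp [asg]
  have k1 : v (cEq 0 1) (c, [(1, d), (2, e)]) := by
    rw [ee_iff b hv, h0, h1]; exact h
  have k2 : v (cEq 1 2) (c, [(1, d), (2, e)]) := by
    rw [ee_iff b hv, h1, h2]; exact h'
  have k3 := hv.trans 0 1 2 _ k1 k2
  rw [ee_iff b hv, h0, h2] at k3
  exact k3

private def hset (b : Lab L) (v : ℕ → ℕ × List (ℕ × ℕ) → Prop) (hv : Henkin b v) : Setoid ℕ where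
  r := EE v
  iseqv := ⟨ee_refl b hv, fun h => ee_symm b hv h, fun h h' => ee_trans b hv h h'⟩

/-- The assignment which sends `i < n` to `c i`. -/
private def tupA {n : ℕ} (c : Fin n → ℕ) : ℕ × List (ℕ × ℕ) :=
  (0, List.ofFn (fun i : Fin n => ((i : ℕ), c i)))

private theorem asg_append_not (d : ℕ) (l : List (ℕ × ℕ)) (j : ℕ) (h : ∀ p ∈ l, p.1 ≠ j) :
    asg (d, l) j = d := by
  induction l with
  | nil => simp [asg]
  | cons p l ih =>
    obtain ⟨i, a⟩ := p
    have h1 : j ≠ i := fun hh => h (i, a) (by simp) hh.symm
    have h2 : asg (d, (i, a) :: l) j = asg (d, l) j := by simp [asg, h1]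
    rw [h2]
    exact ih (fun p hp => h p (by simp [hp]))

private theorem asg_mem (d : ℕ) (l : List (ℕ × ℕ)) (j a : ℕ) (h : (j, a) ∈ l)
    (hl : ∀ p ∈ l, ∀ q ∈ l, p.1 = q.1 → p = q) : asg (d, l) j = a := by
  induction l with
  | nil => simp at h
  | cons p l ih =>
    obtain ⟨i, c⟩ := p
    by_cases hj : j = i
    · subst hj
      have h1 := hl (j, a) h (j, c) (by simp) rfl
      have h2 : a = c := congrArg Prod.snd h1
      subst h2
      simp [asg]
    · have h2 : asg (d, (i, c) :: l) j = asg (d, l) j := by simp [asg, hj]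
      rw [h2]
      apply ih
      · rcases List.mem_cons.1 h with h | h
        · exact absurd (congrArg Prod.fst h) hj
        · exact h
      · intro p hp q hq
        exact hl p (List.mem_cons_of_mem _ hp) q (List.mem_cons_of_mem _ hq)

private theorem asg_tupA {n : ℕ} (c : Fin n → ℕ) (i : Fin n) : asg (tupA c) i = c i := by
  apply asg_mem
  · exact List.mem_ofFn.2 ⟨i, rfl⟩
  · intro p hp q hq hpq
    obtain ⟨x, rfl⟩ := List.mem_ofFn.1 hp
    obtain ⟨y, rfl⟩ := List.mem_ofFn.1 hq
    have : x = y := Fin.ext hpq
    rw [this]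

private theorem getD_range (n i : ℕ) (h : i < n) : (List.range n).getD i 0 = i := by
  rw [List.getD_eq_getElem _ _ (by simpa using h)]
  simp

/-- Some number labelling the relation symbol. -/
private noncomputable def labR (b : Lab L) {n : ℕ} (R : L.Relations n) : ℕ :=
  (b.surjR ⟨n, R⟩).choose

private theorem labR_spec (b : Lab L) {n : ℕ} (R : L.Relations n) :
    b.R (labR b R) = some ⟨n, R⟩ := (b.surjR ⟨n, R⟩).choose_spec

/-- Some number labelling the function symbol. -/
private noncomputable def labF (b : Lab L) {n : ℕ} (F : L.Functions n) : ℕ :=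
  (b.surjF ⟨n, F⟩).choose

private theorem labF_spec (b : Lab L) {n : ℕ} (F : L.Functions n) :
    b.F (labF b F) = some ⟨n, F⟩ := (b.surjF ⟨n, F⟩).choose_spec

/-- The witness of the value of a function symbol. -/
private noncomputable def fval (b : Lab L) {n : ℕ} (F : L.Functions n) (c : Fin n → ℕ) : ℕ :=
  wit (cAll (n + 1) (cNot (cFn (labF b F) (List.range n) (n + 1)))) (tupA c)

private theorem v_not (hv : Henkin b v) (m : ℕ) (s : ℕ × List (ℕ × ℕ)) :
    v (cNot m) s ↔ ¬ v m s := by
  unfold cNot
  rw [hv.imp]
  have := hv.bot cBot s rfl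
  tauto

private theorem fval_spec (hv : Henkin b v) {n : ℕ} (F : L.Functions n) (c : Fin n → ℕ) :
    v (cFn (labF b F) (List.range n) (n + 1)) (upd (tupA c) (n + 1) (fval b F c)) := by
  have hF : b.isF (labF b F) = true := by
    rw [b.eqIsF, labF_spec]; rfl
  have h := hv.tot (labF b F) (List.range n) (tupA c) (n + 1) hF (by simp) (by simp)
  by_contra h2
  apply h
  apply hv.all'
  rw [v_not b hv]
  exact h2

@[instance_reducible]
private noncomputable def hstr (b : Lab L) (v : ℕ → ℕ × List (ℕ × ℕ) → Prop) (hv : Henkin b v) :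
    L.Structure (Quotient (hset b v hv)) where
  funMap {n} F x := Quotient.mk (hset b v hv) (fval b F (fun i => (x i).out))
  RelMap {n} R x := v (cRel (labR b R) (List.range n)) (tupA (fun i => (x i).out))

private theorem mk_eq_iff (hv : Henkin b v) (c d : ℕ) :
    Quotient.mk (hset b v hv) c = Quotient.mk (hset b v hv) d ↔ EE v c d := by
  rw [Quotient.eq]
  rfl

private theorem out_ee (hv : Henkin b v) (c : ℕ) :
    EE v (Quotient.mk (hset b v hv) c).out c := by
  have h := Quotient.out_eq (Quotient.mk (hset b v hv) c)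
  rw [mk_eq_iff b hv] at h
  exact h

/-- The model of a Henkin valuation. -/
theorem Henkin.model (b : Lab L) {v : ℕ → ℕ × List (ℕ × ℕ) → Prop} (hv : Henkin b v) :
    ∃ (M : Type) (_ : L.Structure M) (c : ℕ → M), Function.Surjective c ∧
      ∀ n s, val b c n s ↔ v n s := by
  let _ := hstr b v hv
  refine ⟨Quotient (hset b v hv), hstr b v hv, Quotient.mk (hset b v hv),
    Quotient.mk_surjective, ?_⟩
  intro n
  induction n using code_induction with
  | hbot n h =>
    intro s
    exact iff_of_false (val_bot b _ n s h) (hv.bot n s h)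
  | heq i j =>
    intro s
    rw [val_eq, mk_eq_iff b hv, ee_iff b hv]
  | hrel r l =>
    intro s
    cases h : b.R r with
    | none =>
      refine iff_of_false (val_rel_none b _ r l s h) (hv.relf r l s ?_)
      rw [b.eqIsR, h]; rfl
    | some p =>
      rw [val_rel_some b _ r l s p h]
      obtain ⟨n, R⟩ := p
      have hr : labR b R = r := b.injR _ _ _ (labR_spec b R) h
      have har : b.arR r = n := b.eqR r _ h
      show v (cRel (labR b R) (List.range n)) (tupA (fun i => _)) ↔ _
      rw [hr]
      have key : ∀ i < n, asg (tupA (fun i : Fin n =>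
          (Quotient.mk (hset b v hv) (asg s (l.getD i 0))).out)) ((List.range n).getD i 0) =
          (Quotient.mk (hset b v hv) (asg s (l.getD i 0))).out := by
        intro i hi
        rw [getD_range n i hi]
        exact asg_tupA (fun i : Fin n =>
          (Quotient.mk (hset b v hv) (asg s (l.getD i 0))).out) ⟨i, hi⟩
      constructor
      · intro hh
        refine hv.rel r (List.range n) l _ s ?_ hh
        intro i hi
        rw [har] at hi
        rw [key i hi]
        exact out_ee b hv _
      · intro hh
        refine hv.rel r l (List.range n) s _ ?_ hh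
        intro i hi
        rw [har] at hi
        rw [key i hi]
        exact ee_symm b hv (out_ee b hv _)
  | hfn f l j =>
    intro s
    cases h : b.F f with
    | none =>
      refine iff_of_false (val_fn_none b _ f l j s h) (hv.fnf f l j s ?_)
      rw [b.eqIsF, h]; rfl
    | some p =>
      rw [val_fn_some b _ f l j s p h]
      obtain ⟨n, F⟩ := p
      have hf : labF b F = f := b.injF _ _ _ (labF_spec b F) h
      have har : b.arF f = n := b.eqF f _ h
      set c : Fin n → ℕ := fun i => (Quotient.mk (hset b v hv) (asg s (l.getD i 0))).out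
        with hc
      show Quotient.mk (hset b v hv) (fval b F c) = _ ↔ _
      rw [mk_eq_iff b hv]
      have hspec := fval_spec b hv F c
      rw [hf] at hspec
      have h3 := hv.fn f (List.range n) l (n + 1) j (upd (tupA c) (n + 1) (fval b F c)) s ?_ hspec
      · rw [asg_upd1, if_pos rfl] at h3
        exact h3
      · intro i hi
        rw [har] at hi
        rw [getD_range n i hi, asg_upd1, if_neg (by omega)]
        rw [asg_tupA c ⟨i, hi⟩]
        exact out_ee b hv _
  | himp m n hm hn =>
    intro s
    rw [val_imp, hm s, hn s, hv.imp]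
  | hall i n hn =>
    intro s
    rw [val_all]
    constructor
    · intro h
      apply hv.all'
      rw [← hn, val_upd]
      exact h _
    · intro h a
      obtain ⟨a, rfl⟩ := Quotient.mk_surjective a
      rw [← val_upd, hn]
      exact hv.all i n s h a
  | hbox n hn =>
    intro s
    rw [val_box]
    constructor
    · intro h
      apply hv.box'
      rw [← hn, val_const]
      exact h _
    · intro h a
      obtain ⟨a, rfl⟩ := Quotient.mk_surjective a
      rw [← val_const, hn]
      exact hv.box n s h a

end Model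

/-- An interpretation of the constants satisfying all witness conditions gives a Henkin
valuation. -/
theorem henkin_val (b : Lab L) {M : Type} [L.Structure M] (I : ℕ → M) (h : ∀ K, WC b I K) :
    Henkin b (val b I) where
  bot n s hn := val_bot b I n s hn
  imp m n s := val_imp b I m n s
  all i n s hh a := by
    rw [val_upd]
    rw [val_all] at hh
    exact hh _
  all' i n s hh := (h (wit (cAll i n) s + 1)).1 i n s (by omega) hh
  box n s hh a := by
    rw [val_const]
    rw [val_box] at hh
    exact hh _
  box' n s hh := (h (wit (cBox n) s + 1)).2 n s (by omega) hh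
  refl i s := by rw [val_eq]
  symm i j s hh := by
    rw [val_eq] at hh ⊢
    exact hh.symm
  trans i j k s h1 h2 := by
    rw [val_eq] at h1 h2 ⊢
    exact h1.trans h2
  eqc i j i' j' s s' h1 h2 h3 := by
    rw [val_eq] at h3 ⊢
    rw [← h1, ← h2]
    exact h3
  rel r l l' s s' h1 h2 := by
    cases hr : b.R r with
    | none => exact absurd h2 (val_rel_none b I r l s hr)
    | some p =>
      rw [val_rel_some b I r l s p hr] at h2
      rw [val_rel_some b I r l' s' p hr]
      have hk : (fun i : Fin p.1 => I (asg s (l.getD i 0))) =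
          (fun i : Fin p.1 => I (asg s' (l'.getD i 0))) := by
        funext i
        have := h1 i (by rw [b.eqR r p hr]; exact i.2)
        rw [val_eq, asg_pair0, asg_pair1] at this
        exact this
      rw [← hk]
      exact h2
  relf r l s hr := by
    apply val_rel_none
    rw [b.eqIsR] at hr
    cases h2 : b.R r with
    | none => rfl
    | some p => rw [h2] at hr; simp at hr
  fn f l l' j j' s s' h1 h2 := by
    cases hr : b.F f with
    | none => exact absurd h2 (val_fn_none b I f l j s hr)
    | some p =>
      rw [val_fn_some b I f l j s p hr] at h2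
      rw [val_fn_some b I f l' j' s' p hr]
      have hk : (fun i : Fin p.1 => I (asg s (l.getD i 0))) =
          (fun i : Fin p.1 => I (asg s' (l'.getD i 0))) := by
        funext i
        have := h1 i (by rw [b.eqF f p hr]; exact i.2)
        rw [val_eq, asg_pair0, asg_pair1] at this
        exact this
      rw [val_eq, asg_pair0, asg_pair1, ← hk, h2]
  fnf f l j s hr := by
    apply val_fn_none
    rw [b.eqIsF] at hr
    cases h2 : b.F f with
    | none => rfl
    | some p => rw [h2] at hr; simp at hr
  tot f l s i hr hl hi := by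
    intro hh
    rw [b.eqIsF] at hr
    cases h2 : b.F f with
    | none => rw [h2] at hr; simp at hr
    | some p =>
      rw [val_all] at hh
      have h3 := hh (Language.Structure.funMap p.2 (fun k : Fin p.1 => I (asg s (l.getD k 0))))
      unfold cNot at h3
      rw [dec_cImp, dec_cFn, dec_bot cBot rfl] at h3
      simp only [Sat] at h3
      rw [h2] at h3
      apply h3
      simp only [Function.update_self]
      congr 1
      funext k
      have h4 : l.getD k 0 ≠ i := by
        by_cases hk : (k : ℕ) < l.length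
        · rw [List.getD_eq_getElem _ _ hk]
          intro h5
          exact hl (h5 ▸ List.getElem_mem hk)
        · rw [List.getD_eq_default _ _ (by omega)]
          exact fun h5 => hi h5.symm
      rw [Function.update_of_ne h4]

/-! ## The extension lemma -/

/-- The witness condition at the constant `k`. -/
private def WAt (b : Lab L) {M : Type} [L.Structure M] (I : ℕ → M) (k : ℕ) : Prop :=
  (∀ i n s, wit (cAll i n) s = k → val b I n (upd s i k) → val b I (cAll i n) s) ∧
  (∀ n s, wit (cBox n) s = k → val b I n (k, []) → val b I (cBox n) s)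

private theorem wc_iff (b : Lab L) {M : Type} [L.Structure M] (I : ℕ → M) (K : ℕ) :
    WC b I K ↔ ∀ k < K, WAt b I k := by
  constructor
  · intro h k hk
    refine ⟨?_, ?_⟩
    · rintro i n s rfl hh
      exact h.1 i n s hk hh
    · rintro n s rfl hh
      exact h.2 n s hk hh
  · intro h
    exact ⟨fun i n s hk hh => (h _ hk).1 i n s rfl hh, fun n s hk hh => (h _ hk).2 n s rfl hh⟩

private theorem wat_congr (b : Lab L) {M : Type} [L.Structure M] {I I' : ℕ → M} (k : ℕ)
    (h : ∀ j ≤ k, I j = I' j) (hI : WAt b I k) : WAt b I' k := by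
  refine ⟨?_, ?_⟩
  · intro i n s hw hh
    have h1 : ∀ j, asg s j < k := fun j => hw ▸ asg_lt_wit _ s j
    rw [← val_congr b (I := I) (I' := I') (cAll i n) s (fun j => h _ (h1 j).le)]
    apply hI.1 i n s hw
    rw [val_congr b (I := I) (I' := I') n (upd s i k)]
    · exact hh
    · intro j
      rw [asg_upd1]
      split_ifs with hj
      · exact h _ le_rfl
      · exact h _ (h1 j).le
  · intro n s hw hh
    have h1 : ∀ j, asg s j < k := fun j => hw ▸ asg_lt_wit _ s j
    rw [← val_congr b (I := I) (I' := I') (cBox n) s (fun j => h _ (h1 j).le)]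
    apply hI.2 n s hw
    rw [val_congr b (I := I) (I' := I') n (k, [])]
    · exact hh
    · intro j
      rw [asg_nil]
      exact h _ le_rfl

private theorem cAll_ne_cBox (i m n : ℕ) : cAll i m ≠ cBox n := by
  unfold cAll cBox
  omega

private theorem cAll_inj {i m j n : ℕ} (h : cAll i m = cAll j n) : i = j ∧ m = n := by
  unfold cAll at h
  have : Nat.pair i m = Nat.pair j n := by omega
  exact Nat.pair_eq_pair.1 this

private theorem cBox_inj {m n : ℕ} (h : cBox m = cBox n) : m = n := by
  unfold cBox at h
  omega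

private theorem exists_wat (b : Lab L) {M : Type} [L.Structure M] (I : ℕ → M) (k : ℕ) :
    ∃ a : M, WAt b (Function.update I k a) k := by
  by_cases h1 : ∃ i n s, wit (cAll i n) s = k
  · obtain ⟨i, n, s, hk⟩ := h1
    have hlt : ∀ j, asg s j < k := fun j => hk ▸ asg_lt_wit _ s j
    have hI : ∀ a : M, (fun j => (Function.update I k a) (asg s j)) = fun j => I (asg s j) := by
      intro a
      funext j
      rw [Function.update_of_ne (hlt j).ne]
    obtain ⟨a, ha⟩ : ∃ a : M, Sat b (dec n) (Function.update (fun j => I (asg s j)) i a) →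
        ∀ a : M, Sat b (dec n) (Function.update (fun j => I (asg s j)) i a) := by
      by_cases h2 : ∀ a : M, Sat b (dec n) (Function.update (fun j => I (asg s j)) i a)
      · exact ⟨I 0, fun _ => h2⟩
      · obtain ⟨a, ha⟩ := not_forall.1 h2
        exact ⟨a, fun h3 => absurd h3 ha⟩
    refine ⟨a, ?_, ?_⟩
    · intro i' n' s' hk' hh
      obtain ⟨e1, rfl⟩ := wit_inj (hk'.trans hk.symm)
      obtain ⟨rfl, rfl⟩ := cAll_inj e1
      rw [val_upd, hI, Function.update_self] at hh
      rw [val_all, hI]
      exact ha hh
    · intro n' s' hk' hh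
      obtain ⟨e1, -⟩ := wit_inj (hk'.trans hk.symm)
      exact absurd e1.symm (cAll_ne_cBox _ _ _)
  · by_cases h2 : ∃ n s, wit (cBox n) s = k
    · obtain ⟨n, s, hk⟩ := h2
      obtain ⟨a, ha⟩ : ∃ a : M, Sat b (dec n) (fun _ => a) →
          ∀ a : M, Sat b (dec n) (fun _ => a) := by
        by_cases h2 : ∀ a : M, Sat b (dec n) (fun _ => a)
        · exact ⟨I 0, fun _ => h2⟩
        · obtain ⟨a, ha⟩ := not_forall.1 h2
          exact ⟨a, fun h3 => absurd h3 ha⟩
      refine ⟨a, ?_, ?_⟩
      · intro i' n' s' hk' hh
        exact absurd ⟨i', n', s', hk'⟩ h1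
      · intro n' s' hk' hh
        obtain ⟨e1, rfl⟩ := wit_inj (hk'.trans hk.symm)
        have e2 := cBox_inj e1
        subst e2
        rw [val_const, Function.update_self] at hh
        rw [val_box]
        exact ha hh
    · refine ⟨I 0, ?_, ?_⟩
      · intro i' n' s' hk' hh
        exact absurd ⟨i', n', s', hk'⟩ h1
      · intro n' s' hk' hh
        exact absurd ⟨n', s', hk'⟩ h2

private noncomputable def extStep (b : Lab L) {M : Type} [L.Structure M] (K : ℕ) (d : ℕ → M) :
    ℕ → (ℕ → M)
  | 0 => d
  | k + 1 => if k < K then extStep b K d k else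
      Function.update (extStep b K d k) k (exists_wat b (extStep b K d k) k).choose

private theorem extStep_succ_of_ne (b : Lab L) {M : Type} [L.Structure M] (K : ℕ) (d : ℕ → M)
    (k j : ℕ) (h : j ≠ k) : extStep b K d (k + 1) j = extStep b K d k j := by
  rw [extStep]
  split_ifs with hk
  · rfl
  · exact Function.update_of_ne h _ _

private theorem extStep_stable (b : Lab L) {M : Type} [L.Structure M] (K : ℕ) (d : ℕ → M)
    (k m j : ℕ) (h : j < k) (hkm : k ≤ m) : extStep b K d m j = extStep b K d k j := by
  induction m, hkm using Nat.le_induction with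
  | base => rfl
  | succ m hm ih => rw [extStep_succ_of_ne b K d m j (by omega), ih]

private theorem extStep_lt (b : Lab L) {M : Type} [L.Structure M] (K : ℕ) (d : ℕ → M)
    (m j : ℕ) (h : j < K) : extStep b K d m j = d j := by
  induction m with
  | zero => rfl
  | succ m ih =>
    rw [extStep]
    split_ifs with hk
    · exact ih
    · rw [Function.update_of_ne (by omega)]
      exact ih

/-- The extension lemma. -/
theorem exists_extension (b : Lab L) {M : Type} [L.Structure M] (K : ℕ) (d : ℕ → M)
    (hd : WC b d K) : ∃ I : ℕ → M, (∀ k < K, I k = d k) ∧ ∀ K, WC b I K := by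
  refine ⟨fun k => extStep b K d (k + 1) k, fun k hk => extStep_lt b K d _ k hk, ?_⟩
  intro K'
  rw [wc_iff] at hd ⊢
  intro k _
  by_cases hk : k < K
  · refine wat_congr b (I := d) k ?_ (hd k hk)
    intro j hj
    exact (extStep_lt b K d _ j (by omega)).symm
  · refine wat_congr b (I := extStep b K d (k + 1)) k ?_ ?_
    · intro j hj
      exact extStep_stable b K d (j + 1) (k + 1) j (by omega) (by omega)
    · have h2 : extStep b K d (k + 1) =
          Function.update (extStep b K d k) k (exists_wat b (extStep b K d k) k).choose := by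
        rw [extStep, if_neg hk]
      rw [h2]
      exact (exists_wat b (extStep b K d k) k).choose_spec

/-- Henkin valuations have the witness property below every `K`. -/
theorem Henkin.wc (b : Lab L) {v : ℕ → ℕ × List (ℕ × ℕ) → Prop} (hv : Henkin b v) {M : Type}
    [L.Structure M] (c : ℕ → M) (hc : ∀ n s, val b c n s ↔ v n s) (K : ℕ) : WC b c K := by
  refine ⟨?_, ?_⟩
  · intro i n s _ h
    rw [hc] at h ⊢
    exact hv.all' i n s h
  · intro n s _ h
    rw [hc] at h ⊢
    exact hv.box' n s h

/-- The complete theories are given by the Henkin valuations. -/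
theorem mem_CT_iff (b : Lab L) (x : Set ℕ) :
    x ∈ CT b ↔ ∃ v, Henkin b v ∧ ∀ n, n ∈ x ↔ v (cBox n) (0, []) := by
  constructor
  · rintro ⟨M, _, ⟨m⟩, rfl⟩
    obtain ⟨I, -, hI⟩ := exists_extension b 0 (fun _ => m)
      ⟨fun i n s h => absurd h (Nat.not_lt_zero _), fun n s h => absurd h (Nat.not_lt_zero _)⟩
    refine ⟨val b I, henkin_val b I hI, fun n => ?_⟩
    rw [val_box]
    rfl
  · rintro ⟨v, hv, hx⟩
    obtain ⟨M, _, c, hc, hcv⟩ := hv.model
    refine ⟨M, inferInstance, ⟨c 0⟩, ?_⟩
    ext n
    rw [hx, ← hcv, val_box]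
    rfl

end Pool.Agent.Lib.MP_8c048d_lc
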