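import Mathlib
import Pool.Agent.Lib.MP_8c048d_lc.Henkin

/-!
# L3: theories of prime models
-/

set_option autoImplicit false

namespace Pool.Agent.Lib.MP_8c048d_lc

open FirstOrder

variable {L : FirstOrder.Language.{0, 0}}

namespace PrimeAux

/-- Definability of a property of assignments in the fixed structure `M`. -/
def Dfb (b : Lab L) (M : Type) [L.Structure M] (P : (ℕ → M) → Prop) : Prop :=
  ∃ φ : Fm, ∀ s, Sat b φ s ↔ P s

variable {b : Lab L} {M : Type} [L.Structure M]

theorem Dfb.congr {P Q : (ℕ → M) → Prop} (h : Dfb b M P) (e : ∀ s, P s ↔ Q s) : Dfb b M Q := by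
  obtain ⟨φ, hφ⟩ := h
  exact ⟨φ, fun s => (hφ s).trans (e s)⟩

theorem Dfb.imp {P Q : (ℕ → M) → Prop} (h : Dfb b M P) (h' : Dfb b M Q) :
    Dfb b M (fun s => P s → Q s) := by
  obtain ⟨φ, hφ⟩ := h
  obtain ⟨ψ, hψ⟩ := h'
  exact ⟨.imp φ ψ, fun s => imp_congr (hφ s) (hψ s)⟩

theorem Dfb.false : Dfb b M (fun _ => False) := ⟨.bot, fun _ => Iff.rfl⟩

theorem Dfb.not {P : (ℕ → M) → Prop} (h : Dfb b M P) : Dfb b M (fun s => ¬ P s) :=
  (h.imp Dfb.false).congr fun _ => Iff.rfl

theorem Dfb.true : Dfb b M (fun _ => True) := (Dfb.false.not).congr fun _ => by simp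

theorem Dfb.and {P Q : (ℕ → M) → Prop} (h : Dfb b M P) (h' : Dfb b M Q) :
    Dfb b M (fun s => P s ∧ Q s) :=
  (h.imp h'.not).not.congr fun _ => by tauto

theorem Dfb.all {P : (ℕ → M) → Prop} (h : Dfb b M P) (i : ℕ) :
    Dfb b M (fun s => ∀ a, P (Function.update s i a)) := by
  obtain ⟨φ, hφ⟩ := h
  exact ⟨.all i φ, fun s => forall_congr' fun a => hφ _⟩

theorem Dfb.ex {P : (ℕ → M) → Prop} (h : Dfb b M P) (i : ℕ) :
    Dfb b M (fun s => ∃ a, P (Function.update s i a)) :=
  ((h.not.all i).not).congr fun _ => by simp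

theorem Dfb.subst {P : (ℕ → M) → Prop} (h : Dfb b M P) (σ : ℕ → ℕ) :
    Dfb b M (fun s => P (s ∘ σ)) := by
  obtain ⟨φ, hφ⟩ := h
  obtain ⟨φ', hφ'⟩ := exists_subst b φ σ
  exact ⟨φ', fun s => (hφ' M s).trans (hφ _)⟩

theorem Dfb.eq (i j : ℕ) : Dfb b M (fun s => s i = s j) := ⟨.eq i j, fun _ => Iff.rfl⟩

theorem Dfb.vl (n : ℕ) (t : ℕ × List (ℕ × ℕ)) : Dfb b M (fun d => val b d n t) := by
  have h : Dfb b M (fun s => Sat b (dec n) s) := ⟨dec n, fun s => Iff.rfl⟩
  exact (h.subst (asg t)).congr fun _ => Iff.rfl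

/-- Finite conjunctions. -/
theorem Dfb.fin {ι : Type} {A : Set ι} (hA : A.Finite) {P : ι → (ℕ → M) → Prop}
    (h : ∀ q, Dfb b M (P q)) : Dfb b M (fun s => ∀ q ∈ A, P q s) := by
  induction A, hA using Set.Finite.induction_on with
  | empty => exact Dfb.true.congr fun _ => by simp
  | @insert a A _ _ ih => exact ((h a).and ih).congr fun _ => by simp

/-- Projections. -/
theorem Dfb.exF {Q : (ℕ → M) → Prop} (h : Dfb b M Q) (J : Finset ℕ) :
    Dfb b M (fun s => ∃ s' : ℕ → M, (∀ i ∉ J, s' i = s i) ∧ Q s') := by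
  classical
  induction J using Finset.induction_on with
  | empty =>
    refine h.congr fun s => ⟨fun hs => ⟨s, fun _ _ => rfl, hs⟩, ?_⟩
    rintro ⟨s', h1, h2⟩
    rwa [show s = s' from funext fun i => (h1 i (by simp)).symm]
  | insert j J hj ih =>
    refine (ih.ex j).congr fun s => ⟨?_, ?_⟩
    · rintro ⟨a, s', h1, h2⟩
      refine ⟨s', fun i hi => ?_, h2⟩
      simp only [Finset.mem_insert, not_or] at hi
      rw [h1 i hi.2, Function.update_of_ne hi.1]
    · rintro ⟨s', h1, h2⟩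
      refine ⟨s' j, s', fun i hi => ?_, h2⟩
      by_cases hij : i = j
      · subst hij
        simp
      · rw [Function.update_of_ne hij]
        exact h1 i (by simp [hij, hi])

theorem Dfb.proj {P : (ℕ → M) → Prop} (h : Dfb b M P) (u : ℕ → ℕ) (k : ℕ) :
    Dfb b M (fun s => ∃ d : ℕ → M, P d ∧ ∀ i ≤ k, d (u i) = s i) := by
  obtain ⟨K, hK⟩ : ∃ K, ∀ d d' : ℕ → M, (∀ i < K, d i = d' i) → (P d ↔ P d') := by
    obtain ⟨φ, hφ⟩ := h
    obtain ⟨K, hK⟩ := exists_bound b φ
    exact ⟨K, fun d d' hd => by rw [← hφ, ← hφ]; exact hK M d d' hd⟩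
  obtain ⟨K', hK', hu⟩ : ∃ K', K ≤ K' ∧ ∀ i ≤ k, u i < K' := by
    refine ⟨K + (Finset.range (k + 1)).sup u + 1, by omega, fun i hi => ?_⟩
    have : u i ≤ (Finset.range (k + 1)).sup u :=
      Finset.le_sup (f := u) (Finset.mem_range.2 (Nat.lt_succ_of_le hi))
    omega
  have h1 : Dfb b M (fun s' => P (s' ∘ fun j => j + (k + 1)) ∧
      ∀ i ∈ Set.Iic k, s' (u i + (k + 1)) = s' i) :=
    (h.subst _).and (Dfb.fin (Set.finite_Iic k) fun i => Dfb.eq _ _)
  refine (h1.exF (Finset.Ico (k + 1) (k + 1 + K'))).congr fun s => ⟨?_, ?_⟩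
  · rintro ⟨s', h2, h3, h4⟩
    refine ⟨_, h3, fun i hi => ?_⟩
    simp only [Function.comp]
    rw [h4 i hi, h2 i (by simp only [Finset.mem_Ico]; omega)]
  · rintro ⟨d, h2, h3⟩
    refine ⟨fun i => if i ≤ k then s i else if i < k + 1 + K' then d (i - (k + 1)) else s i,
      fun i hi => ?_, ?_, fun i hi => ?_⟩
    · simp only [Finset.mem_Ico, not_and, not_lt] at hi
      by_cases h4 : i ≤ k
      · simp [h4]
      · have := hi (by omega)
        simp [h4, show ¬ i < k + 1 + K' by omega]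
    · refine (hK _ _ fun j hj => ?_).2 h2
      simp only [Function.comp]
      rw [if_neg (by omega), if_pos (by omega), Nat.add_sub_cancel]
    · have hi' : i ≤ k := hi
      have := hu i hi'
      simp only
      rw [if_neg (by omega), if_pos (by omega), Nat.add_sub_cancel, if_pos hi', h3 i hi']

theorem cAll_inj {i n j m : ℕ} (h : cAll i n = cAll j m) : i = j ∧ n = m := by
  have h1 : Nat.pair i n = Nat.pair j m := by
    unfold cAll at h
    omega
  have h2 := congrArg Nat.unpair h1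
  simpa using h2

theorem cBox_inj {n m : ℕ} (h : cBox n = cBox m) : n = m := by
  unfold cBox at h
  omega

theorem Dfb.wc (K : ℕ) : Dfb b M (fun d => WC b d K) := by
  have f1 : {q : ℕ × ℕ × (ℕ × List (ℕ × ℕ)) | wit (cAll q.1 q.2.1) q.2.2 < K}.Finite := by
    refine (Set.finite_Iio K).preimage (f := fun q : ℕ × ℕ × (ℕ × List (ℕ × ℕ)) =>
      wit (cAll q.1 q.2.1) q.2.2) ?_
    rintro ⟨i, n, s⟩ - ⟨j, m, t⟩ - h
    obtain ⟨h1, h2⟩ := wit_inj h
    obtain ⟨h3, h4⟩ := cAll_inj h1
    simp only at h2 h3 h4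
    rw [h2, h3, h4]
  have f2 : {q : ℕ × (ℕ × List (ℕ × ℕ)) | wit (cBox q.1) q.2 < K}.Finite := by
    refine (Set.finite_Iio K).preimage (f := fun q : ℕ × (ℕ × List (ℕ × ℕ)) =>
      wit (cBox q.1) q.2) ?_
    rintro ⟨n, s⟩ - ⟨m, t⟩ - h
    obtain ⟨h1, h2⟩ := wit_inj h
    have h3 := cBox_inj h1
    simp only at h2 h3
    rw [h2, h3]
  have d1 := Dfb.fin (b := b) (M := M) f1 (P := fun q d =>
    val b d q.2.1 (upd q.2.2 q.1 (wit (cAll q.1 q.2.1) q.2.2)) → val b d (cAll q.1 q.2.1) q.2.2)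
    fun q => (Dfb.vl _ _).imp (Dfb.vl _ _)
  have d2 := Dfb.fin (b := b) (M := M) f2 (P := fun q d =>
    val b d q.1 (wit (cBox q.1) q.2, []) → val b d (cBox q.1) q.2)
    fun q => (Dfb.vl _ _).imp (Dfb.vl _ _)
  refine (d1.and d2).congr fun d => ⟨fun h => ⟨fun i n s hs => ?_, fun n s hs => ?_⟩,
    fun h => ⟨?_, ?_⟩⟩
  · exact h.1 (i, n, s) hs
  · exact h.2 (n, s) hs
  · rintro ⟨i, n, s⟩ hs
    exact h.1 i n s hs
  · rintro ⟨n, s⟩ hs
    exact h.2 n s hs

theorem asg_bdd (t : ℕ × List (ℕ × ℕ)) : ∃ K, ∀ j, asg t j < K :=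
  ⟨wit 0 t, fun j => asg_lt_wit 0 t j⟩

theorem asg_bdd_list (l : List (ℕ × (ℕ × List (ℕ × ℕ)))) :
    ∃ K, ∀ q ∈ l, ∀ j, asg q.2 j < K := by
  induction l with
  | nil => exact ⟨0, by simp⟩
  | cons q l ih =>
    obtain ⟨K, hK⟩ := ih
    obtain ⟨K', hK'⟩ := asg_bdd q.2
    refine ⟨K + K', ?_⟩
    intro p hp j
    rcases List.mem_cons.1 hp with rfl | hp
    · exact lt_of_lt_of_le (hK' j) (by omega)
    · exact lt_of_lt_of_le (hK p hp j) (by omega)

/-- The main density lemma. -/
theorem density (l : List (ℕ × (ℕ × List (ℕ × ℕ)))) (t : ℕ × List (ℕ × ℕ)) (k : ℕ)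
    (ht : ∀ i, k < i → asg t i = asg t 0) :
    ∃ χ : ℕ, (∀ I : ℕ → M, (∀ K, WC b I K) → (∀ q ∈ l, val b I q.1 q.2) →
        Sat b (dec χ) (I ∘ asg t)) ∧
      ∀ s : ℕ → M, (∀ i, k < i → s i = s 0) → Sat b (dec χ) s →
        ∃ I : ℕ → M, (∀ K, WC b I K) ∧ (∀ q ∈ l, val b I q.1 q.2) ∧ I ∘ asg t = s := by
  obtain ⟨K1, hK1⟩ := asg_bdd_list l
  obtain ⟨K2, hK2⟩ := asg_bdd t
  have hP : Dfb b M (fun d => WC b d (K1 + K2) ∧ ∀ q ∈ {q | q ∈ l}, val b d q.1 q.2) :=
    (Dfb.wc _).and (Dfb.fin (List.finite_toSet l) fun q => Dfb.vl _ _)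
  obtain ⟨φ, hφ⟩ := hP.proj (asg t) k
  obtain ⟨χ, rfl⟩ := dec_surjective φ
  refine ⟨χ, fun I hI hl => (hφ _).2 ⟨I, ⟨hI _, hl⟩, fun i _ => rfl⟩, fun s hs h => ?_⟩
  obtain ⟨d, ⟨hd, hl⟩, hd'⟩ := (hφ s).1 h
  obtain ⟨I, hI, hI'⟩ := exists_extension b (K1 + K2) d hd
  refine ⟨I, hI', fun q hq => ?_, funext fun i => ?_⟩
  · have h1 : (fun i => I (asg q.2 i)) = fun i => d (asg q.2 i) :=
      funext fun i => hI _ (lt_of_lt_of_le (hK1 q hq i) (by omega))
    have h2 := hl q hq
    unfold val at h2 ⊢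
    rwa [h1]
  · simp only [Function.comp]
    rw [hI _ (lt_of_lt_of_le (hK2 i) (by omega))]
    by_cases hi : i ≤ k
    · exact hd' i hi
    · rw [ht i (by omega), hs i (by omega)]
      exact hd' 0 (by omega)


/-- An ultralimit of Henkin valuations is a Henkin valuation. -/
theorem henkin_lim (b : Lab L) (U : Ultrafilter ℕ) (w : ℕ → ℕ → ℕ × List (ℕ × ℕ) → Prop)
    (hw : ∀ m, Henkin b (w m)) : Henkin b (fun n s => ∀ᶠ m in (U : Filter ℕ), w m n s) where
  bot n s h h' := by
    obtain ⟨m, hm⟩ := h'.exists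
    exact (hw m).bot n s h hm
  imp m n s := by
    rw [← Ultrafilter.eventually_imp]
    exact Filter.eventually_congr (Filter.Eventually.of_forall fun k => (hw k).imp m n s)
  all i n s h a := h.mono fun m hm => (hw m).all i n s hm a
  all' i n s h := h.mono fun m hm => (hw m).all' i n s hm
  box n s h a := h.mono fun m hm => (hw m).box n s hm a
  box' n s h := h.mono fun m hm => (hw m).box' n s hm
  refl i s := Filter.Eventually.of_forall fun m => (hw m).refl i s
  symm i j s h := h.mono fun m hm => (hw m).symm i j s hm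
  trans i j k s h h' := (h.and h').mono fun m hm => (hw m).trans i j k s hm.1 hm.2
  eqc i j i' j' s s' h1 h2 h := h.mono fun m hm => (hw m).eqc i j i' j' s s' h1 h2 hm
  rel r l l' s s' h h' := by
    have h1 := (Filter.eventually_all_finite (Set.finite_lt_nat (b.arR r))).2 h
    exact (h1.and h').mono fun m hm => (hw m).rel r l l' s s' hm.1 hm.2
  relf r l s h h' := by
    obtain ⟨m, hm⟩ := h'.exists
    exact (hw m).relf r l s h hm
  fn f l l' j j' s s' h h' := by
    have h1 := (Filter.eventually_all_finite (Set.finite_lt_nat (b.arF f))).2 h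
    have h2 := (h1.and h').mono fun m hm => (hw m).fn f l l' j j' s s' hm.1 hm.2
    exact Filter.eventually_congr h2
  fnf f l j s h h' := by
    obtain ⟨m, hm⟩ := h'.exists
    exact (hw m).fnf f l j s h hm
  tot f l s i h1 h2 h3 h' := by
    obtain ⟨m, hm⟩ := h'.exists
    exact (hw m).tot f l s i h1 h2 h3 hm

theorem val_box (b : Lab L) (I : ℕ → M) (n : ℕ) (s : ℕ × List (ℕ × ℕ)) :
    val b I (cBox n) s ↔ n ∈ ThC b M := by
  unfold val ThC
  rw [dec_cBox]
  exact Iff.rfl

/-- Generic Henkin valuations. -/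
theorem generic (b : Lab L) (M : Type) [L.Structure M] [Nonempty M]
    (D : ℕ → Set (ℕ × (ℕ × List (ℕ × ℕ))))
    (hD : ∀ (m : ℕ) (l : List (ℕ × (ℕ × List (ℕ × ℕ)))) (I : ℕ → M), (∀ K, WC b I K) →
      (∀ q ∈ l, val b I q.1 q.2) →
      ∃ p ∈ D m, ∃ I' : ℕ → M, (∀ K, WC b I' K) ∧ (∀ q ∈ l, val b I' q.1 q.2) ∧
        val b I' p.1 p.2) :
    ∃ v, Henkin b v ∧ (∀ m, ∃ p ∈ D m, v p.1 p.2) ∧
      ∀ n, v (cBox n) (0, []) ↔ n ∈ ThC b M := by
  classical
  choose! p hp I' hI' hl' hv' using hD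
  obtain ⟨I0, -, hI0⟩ := exists_extension b (M := M) 0 (fun _ => Classical.arbitrary M)
    ⟨fun i n s h => absurd h (Nat.not_lt_zero _), fun n s h => absurd h (Nat.not_lt_zero _)⟩
  -- the construction
  let st : ℕ → List (ℕ × (ℕ × List (ℕ × ℕ))) × (ℕ → M) := fun m =>
    Nat.rec ([], I0) (fun m x => (p m x.1 x.2 :: x.1, I' m x.1 x.2)) m
  have st0 : st 0 = ([], I0) := rfl
  have sts : ∀ m, st (m + 1) = (p m (st m).1 (st m).2 :: (st m).1, I' m (st m).1 (st m).2) :=
    fun m => rfl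
  have hst : ∀ m, (∀ K, WC b (st m).2 K) ∧ ∀ q ∈ (st m).1, val b (st m).2 q.1 q.2 := by
    intro m
    induction m with
    | zero => exact ⟨hI0, by simp [st0]⟩
    | succ m ih =>
      rw [sts]
      refine ⟨hI' m _ _ ih.1 ih.2, fun q hq => ?_⟩
      rcases List.mem_cons.1 hq with rfl | hq
      · exact hv' m _ _ ih.1 ih.2
      · exact hl' m _ _ ih.1 ih.2 q hq
  have hmono : ∀ m n, m ≤ n → ∀ q ∈ (st m).1, q ∈ (st n).1 := by
    intro m n hmn
    induction n, hmn using Nat.le_induction with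
    | base => exact fun q hq => hq
    | succ n _ ih =>
      intro q hq
      rw [sts]
      exact List.mem_cons_of_mem _ (ih q hq)
  refine ⟨_, henkin_lim b (Filter.hyperfilter ℕ) (fun m => val b (st m).2)
    fun m => henkin_val b _ (hst m).1, fun m => ⟨p m (st m).1 (st m).2,
      hp m _ _ (hst m).1 (hst m).2, ?_⟩, fun n => ?_⟩
  · have h1 : ∀ᶠ k in Filter.atTop, val b (st k).2 (p m (st m).1 (st m).2).1
        (p m (st m).1 (st m).2).2 := by
      filter_upwards [Filter.eventually_ge_atTop (m + 1)] with k hk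
      exact (hst k).2 _ (hmono (m + 1) k hk _ (by rw [sts]; exact List.mem_cons_self))
    exact Nat.hyperfilter_le_atTop h1
  · simp only [val_box]
    constructor
    · intro h
      obtain ⟨_, h⟩ := h.exists
      exact h
    · intro h
      exact Filter.Eventually.of_forall fun _ => h

/-- All assignments that are constant beyond `k` come from codes. -/
theorem exists_asg {N : Type} {c : ℕ → N} (hc : Function.Surjective c) (k : ℕ) (s : ℕ → N)
    (hs : ∀ i, k < i → s i = s 0) : ∃ t : ℕ × List (ℕ × ℕ),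
      (∀ i, k < i → asg t i = asg t 0) ∧ c ∘ asg t = s := by
  choose g hg using hc
  obtain ⟨t, -, h2, h3⟩ := asg_surj (g (s 0)) (k + 1) (fun i => g (s i))
  refine ⟨t, fun i hi => ?_, funext fun i => ?_⟩
  · rw [h3 i hi, h2 0 (by omega)]
  · simp only [Function.comp]
    by_cases hi : k < i
    · rw [h3 i hi, hg, hs i hi]
    · rw [h2 i (by omega), hg]

end PrimeAux

open PrimeAux

/-- Omitting types: a prime model is atomic. -/
theorem atomic_of_prime (b : Lab L) (M : Type) [L.Structure M] (h : IsPrimeModel L M) :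
    Atomic (ThC b M) := by
  classical
  obtain ⟨hne, hpr⟩ := h
  intro k φ hφ
  rw [mem_ThC_allT] at hφ
  push Not at hφ
  obtain ⟨s0, hs0, hφ0⟩ := hφ
  have hφ1 : Sat b (dec φ) s0 := by
    unfold cNot at hφ0
    rw [dec_cImp] at hφ0
    by_contra h1
    exact hφ0 fun h2 => absurd h2 h1
  -- if the type is isolated, we are done
  by_cases hiso : ∃ χ, Sat b (dec χ) s0 ∧ ∀ ψ, Sat b (dec ψ) s0 →
      ∀ s : ℕ → M, (∀ i, k < i → s i = s 0) → Sat b (dec χ) s → Sat b (dec ψ) s
  · obtain ⟨χ, h1, h2⟩ := hiso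
    refine ⟨χ, fun h3 => ?_, ?_, fun ψ => ?_⟩
    · rw [mem_ThC_allT] at h3
      have h4 := h3 s0 hs0
      unfold cNot at h4
      rw [dec_cImp] at h4
      have h5 := h4 h1
      rw [dec_bot cBot rfl] at h5
      exact h5
    · rw [mem_ThC_allT]
      intro s hs
      rw [dec_cImp]
      exact h2 φ hφ1 s hs
    · by_cases h3 : Sat b (dec ψ) s0
      · left
        rw [mem_ThC_allT]
        intro s hs
        rw [dec_cImp]
        exact h2 ψ h3 s hs
      · right
        rw [mem_ThC_allT]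
        intro s hs
        rw [dec_cImp]
        refine h2 (cNot ψ) ?_ s hs
        unfold cNot
        rw [dec_cImp]
        exact fun h4 => absurd h4 h3
  -- otherwise we omit the type
  exfalso
  have key := generic b M (D := fun m => {q | (∀ i, k < i →
      asg (Denumerable.ofNat (ℕ × List (ℕ × ℕ)) m) i =
        asg (Denumerable.ofNat (ℕ × List (ℕ × ℕ)) m) 0) →
    q.2 = Denumerable.ofNat (ℕ × List (ℕ × ℕ)) m ∧ ∃ ψ, Sat b (dec ψ) s0 ∧ q.1 = cNot ψ}) ?_
  · obtain ⟨v, hv, h1, h2⟩ := key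
    obtain ⟨N, _, c, hc, hcv⟩ := hv.model
    have hN : Nonempty N := ⟨c 0⟩
    have hth : ThC b N = ThC b M := by
      ext n
      rw [← h2, ← hcv, val_box]
    have hmod : N ⊨ L.completeTheory M := by
      rw [Language.Theory.model_iff]
      intro ψ hψ
      obtain ⟨n, hn⟩ := exists_code b ψ
      have h3 : M ⊨ ψ := hψ
      rw [hn] at h3 ⊢
      rwa [hth]
    obtain ⟨j⟩ := hpr N hN hmod
    obtain ⟨t, ht, hct⟩ := exists_asg hc k (j ∘ s0) (fun i hi => by simp [hs0 i hi])
    obtain ⟨q, hq, hq'⟩ := h1 (Encodable.encode t)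
    simp only [Denumerable.ofNat_encode, Set.mem_ofPred_eq] at hq
    obtain ⟨h3, ψ, h4, h5⟩ := hq ht
    rw [← hcv, h3, h5] at hq'
    obtain ⟨θ, hθ⟩ := formula_of_fm b (dec ψ)
    have h6 : Sat b (dec ψ) (j ∘ s0) := by
      rw [← hθ, Language.ElementaryEmbedding.map_formula, hθ]
      exact h4
    have h7 : Sat b (dec (cNot ψ)) (c ∘ asg t) := hq'
    unfold cNot at h7
    rw [dec_cImp, hct] at h7
    have h8 := h7 h6
    rw [dec_bot cBot rfl] at h8
    exact h8
  · intro m l I hI hl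
    by_cases ht : ∀ i, k < i → asg (Denumerable.ofNat (ℕ × List (ℕ × ℕ)) m) i =
        asg (Denumerable.ofNat (ℕ × List (ℕ × ℕ)) m) 0
    · obtain ⟨χ, h1, h2⟩ := density (b := b) (M := M) l (Denumerable.ofNat _ m) k ht
      by_contra hcon
      apply hiso
      have h3 : ∀ ψ, Sat b (dec ψ) s0 → ∀ I' : ℕ → M, (∀ K, WC b I' K) →
          (∀ q ∈ l, val b I' q.1 q.2) →
          Sat b (dec ψ) (I' ∘ asg (Denumerable.ofNat (ℕ × List (ℕ × ℕ)) m)) := by
        intro ψ hψ I' hI' hl'
        by_contra h4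
        refine hcon ⟨(cNot ψ, Denumerable.ofNat _ m), fun _ => ⟨rfl, ψ, hψ, rfl⟩, I', hI', hl', ?_⟩
        unfold val cNot
        rw [dec_cImp]
        exact fun h5 => absurd h5 h4
      have h4 : ∀ ψ, Sat b (dec ψ) s0 →
          ∀ s : ℕ → M, (∀ i, k < i → s i = s 0) → Sat b (dec χ) s → Sat b (dec ψ) s := by
        intro ψ hψ s hs hχ
        obtain ⟨I', h5, h6, h7⟩ := h2 s hs hχ
        rw [← h7]
        exact h3 ψ hψ I' h5 h6
      refine ⟨χ, ?_, h4⟩
      by_contra h5
      have h6 : Sat b (dec (cNot χ)) s0 := by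
        unfold cNot
        rw [dec_cImp]
        exact fun h7 => absurd h7 h5
      have h7 := h3 _ h6 I hI hl
      unfold cNot at h7
      rw [dec_cImp] at h7
      have h8 := h7 (h1 I hI hl)
      rw [dec_bot cBot rfl] at h8
      exact h8
    · refine ⟨(cEq 0 0, (0, [])), fun h => absurd h ht, I, hI, hl, ?_⟩
      unfold val
      rw [dec_cEq]
      exact rfl

/-- `χ` is a complete formula for the theory `x`. -/
def PrimeAux.Cpl (x : Set ℕ) (k χ : ℕ) : Prop :=
  ∀ ψ, allT k (cImp χ ψ) ∈ x ∨ allT k (cImp χ (cNot ψ)) ∈ x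

/-- An atomic theory has a model with an enumeration in which all tuples satisfy complete
formulas. -/
theorem PrimeAux.exists_atomic_model (b : Lab L) (M : Type) [L.Structure M] [Nonempty M]
    (ha : Atomic (ThC b M)) :
    ∃ (N : Type) (_ : L.Structure N) (c : ℕ → N), Function.Surjective c ∧
      ThC b N = ThC b M ∧ ∀ (k : ℕ) (s : ℕ → N), (∀ i, k < i → s i = s 0) →
        ∃ χ, Cpl (ThC b M) k χ ∧ Sat b (dec χ) s := by
  classical
  have key := generic b M (D := fun m => {q |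
    (∀ i, m.unpair.1 < i → asg (Denumerable.ofNat (ℕ × List (ℕ × ℕ)) m.unpair.2) i =
        asg (Denumerable.ofNat (ℕ × List (ℕ × ℕ)) m.unpair.2) 0) →
    q.2 = Denumerable.ofNat (ℕ × List (ℕ × ℕ)) m.unpair.2 ∧ Cpl (ThC b M) m.unpair.1 q.1}) ?_
  · obtain ⟨v, hv, h1, h2⟩ := key
    obtain ⟨N, _, c, hc, hcv⟩ := hv.model
    have hth : ThC b N = ThC b M := by
      ext n
      rw [← h2, ← hcv, val_box]
    refine ⟨N, _, c, hc, hth, fun k s hs => ?_⟩
    obtain ⟨t, ht, hct⟩ := exists_asg hc k s hs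
    obtain ⟨q, hq, hq'⟩ := h1 (Nat.pair k (Encodable.encode t))
    simp only [Denumerable.ofNat_encode, Set.mem_ofPred_eq, Nat.unpair_pair] at hq
    obtain ⟨h3, h4⟩ := hq ht
    refine ⟨q.1, h4, ?_⟩
    rw [← hcv, h3] at hq'
    rw [← hct]
    exact hq'
  · intro m l I hI hl
    by_cases ht : ∀ i, m.unpair.1 < i →
        asg (Denumerable.ofNat (ℕ × List (ℕ × ℕ)) m.unpair.2) i =
        asg (Denumerable.ofNat (ℕ × List (ℕ × ℕ)) m.unpair.2) 0
    · obtain ⟨χ, h1, h2⟩ := density (b := b) (M := M) l (Denumerable.ofNat _ m.unpair.2) _ ht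
      have h3 : allT m.unpair.1 (cNot χ) ∉ ThC b M := by
        rw [mem_ThC_allT]
        intro h3
        have h4 := h3 (I ∘ asg (Denumerable.ofNat (ℕ × List (ℕ × ℕ)) m.unpair.2))
          (fun i hi => by simp only [Function.comp]; rw [ht i hi])
        unfold cNot at h4
        rw [dec_cImp] at h4
        have h5 := h4 (h1 I hI hl)
        rw [dec_bot cBot rfl] at h5
        exact h5
      obtain ⟨χ', h4, h5, h6⟩ := ha _ _ h3
      rw [mem_ThC_allT] at h4 h5
      push Not at h4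
      obtain ⟨s, hs, h7⟩ := h4
      have h8 : Sat b (dec χ') s := by
        by_contra h9
        apply h7
        unfold cNot
        rw [dec_cImp]
        exact fun h10 => absurd h10 h9
      have h9 := h5 s hs
      rw [dec_cImp] at h9
      obtain ⟨I', h10, h11, h12⟩ := h2 s hs (h9 h8)
      refine ⟨(χ', Denumerable.ofNat _ m.unpair.2), fun _ => ⟨rfl, h6⟩, I', h10, h11, ?_⟩
      change Sat b (dec χ') (I' ∘ asg _)
      rw [h12]
      exact h8
    · refine ⟨(cEq 0 0, (0, [])), fun h => absurd h ht, I, hI, hl, ?_⟩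
      unfold val
      rw [dec_cEq]
      exact rfl

/-- The assignment `(e 0, …, e k, e 0, e 0, …)`. -/
def PrimeAux.tup {N : Type} (e : ℕ → N) (k i : ℕ) : N := if i ≤ k then e i else e 0

theorem PrimeAux.tup_const {N : Type} (e : ℕ → N) (k i : ℕ) (h : k < i) :
    tup e k i = tup e k 0 := by
  unfold tup
  rw [if_neg (by omega), if_pos (by omega)]

theorem PrimeAux.transfer (b : Lab L) {x : Set ℕ} {k χ : ℕ} (h : Cpl x k χ) {N N' : Type}
    [L.Structure N] [L.Structure N'] (hN : ThC b N = x) (hN' : ThC b N' = x) {s : ℕ → N}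
    {s' : ℕ → N'} (hs : ∀ i, k < i → s i = s 0) (hs' : ∀ i, k < i → s' i = s' 0)
    (h1 : Sat b (dec χ) s) (h2 : Sat b (dec χ) s') (ψ : ℕ) :
    Sat b (dec ψ) s ↔ Sat b (dec ψ) s' := by
  rcases h ψ with h3 | h3
  · have h4 := h3
    rw [← hN, mem_ThC_allT] at h3
    rw [← hN', mem_ThC_allT] at h4
    have h5 := h3 s hs
    have h6 := h4 s' hs'
    rw [dec_cImp] at h5 h6
    exact ⟨fun _ => h6 h2, fun _ => h5 h1⟩
  · have h4 := h3
    rw [← hN, mem_ThC_allT] at h3
    rw [← hN', mem_ThC_allT] at h4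
    have h5 := h3 s hs
    have h6 := h4 s' hs'
    unfold cNot at h5 h6
    rw [dec_cImp, dec_cImp, dec_bot cBot rfl] at h5 h6
    exact ⟨fun h7 => (h5 h1 h7).elim, fun h7 => (h6 h2 h7).elim⟩

/-- Building an embedding step by step. -/
theorem PrimeAux.exists_seq {N N' : Type} (e : ℕ → N) (R : ℕ → (ℕ → N) → (ℕ → N') → Prop)
    (h0 : ∃ a, R 0 (tup e 0) (fun _ => a))
    (hs : ∀ k (g : ℕ → N'), (∀ i, k < i → g i = g 0) → R k (tup e k) g →
      ∃ a, R (k + 1) (tup e (k + 1)) (Function.update g (k + 1) a)) :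
    ∃ g : ℕ → N', ∀ k, R k (tup e k) (tup g k) := by
  classical
  obtain ⟨a0, ha0⟩ := h0
  have : Nonempty N' := ⟨a0⟩
  choose! f hf using hs
  let st : ℕ → (ℕ → N') := fun m =>
    Nat.rec (fun _ => a0) (fun k g => Function.update g (k + 1) (f k g)) m
  have st0 : st 0 = fun _ => a0 := rfl
  have sts : ∀ m, st (m + 1) = Function.update (st m) (m + 1) (f m (st m)) := fun m => rfl
  have hc : ∀ k i, k < i → st k i = a0 := by
    intro k
    induction k with
    | zero => intro i _; rw [st0]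
    | succ k ih =>
      intro i hi
      rw [sts, Function.update_of_ne (by omega)]
      exact ih i (by omega)
  have hz : ∀ k, st k 0 = a0 := by
    intro k
    induction k with
    | zero => rw [st0]
    | succ k ih => rw [sts, Function.update_of_ne (by omega), ih]
  have hr : ∀ k, R k (tup e k) (st k) := by
    intro k
    induction k with
    | zero => exact ha0
    | succ k ih =>
      rw [sts]
      exact hf k (st k) (fun i hi => by rw [hc k i hi, hz]) ih
  have hm : ∀ i k, i ≤ k → st k i = st i i := by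
    intro i k hik
    induction k, hik using Nat.le_induction with
    | base => rfl
    | succ k hk ih => rw [sts, Function.update_of_ne (by omega), ih]
  refine ⟨fun i => st i i, fun k => ?_⟩
  have h1 : tup (fun i => st i i) k = st k := by
    funext i
    unfold tup
    by_cases hi : i ≤ k
    · rw [if_pos hi, hm i k hi]
    · rw [if_neg hi, hc k i (by omega)]
      exact hz 0
  rw [h1]
  exact hr k

/-- An atomic complete theory has a prime model. -/
theorem exists_prime (b : Lab L) (x : Set ℕ) (hx : x ∈ CT b) (ha : Atomic x) : x ∈ PT b := by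
  classical
  obtain ⟨M, _, hM, rfl⟩ := hx
  obtain ⟨N, _, c, hc, hth, hat⟩ := exists_atomic_model b M ha
  refine ⟨N, _, ⟨⟨c 0⟩, fun N' _ hN' hmod => ?_⟩, hth.symm⟩
  have hth' : ThC b N' = ThC b N := by
    ext n
    obtain ⟨ψ, hψ⟩ := exists_sent b n
    rw [← hψ, ← hψ]
    rw [Language.Theory.model_iff] at hmod
    constructor
    · intro h
      by_contra h1
      have h2 : ψ.not ∈ L.completeTheory N := by
        rw [Language.mem_completeTheory, Language.Sentence.realize_not]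
        exact h1
      have h3 := hmod _ h2
      rw [Language.Sentence.realize_not] at h3
      exact h3 h
    · intro h
      exact hmod ψ ((Language.mem_completeTheory).2 h)
  -- the sequence
  have key : ∃ g : ℕ → N', ∀ k, ∀ ψ, Sat b (dec ψ) (tup c k) ↔ Sat b (dec ψ) (tup g k) := by
    refine exists_seq (N' := N') c
      (fun k s s' => ∀ ψ, Sat b (dec ψ) s ↔ Sat b (dec ψ) s') ?_ ?_
    · obtain ⟨χ, h1, h2⟩ := hat 0 (tup c 0) (fun i hi => tup_const c 0 i hi)
      have h3 : allT 0 (cNot χ) ∉ ThC b N' := by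
        rw [hth', mem_ThC_allT]
        intro h3
        have h4 := h3 (tup c 0) (fun i hi => tup_const c 0 i hi)
        unfold cNot at h4
        rw [dec_cImp, dec_bot cBot rfl] at h4
        exact h4 h2
      rw [mem_ThC_allT] at h3
      push Not at h3
      obtain ⟨s, hs, h4⟩ := h3
      have h5 : Sat b (dec χ) s := by
        by_contra h6
        apply h4
        unfold cNot
        rw [dec_cImp]
        exact fun h7 => absurd h7 h6
      refine ⟨s 0, fun ψ => ?_⟩
      have h6 : s = fun _ => s 0 := by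
        funext i
        rcases Nat.eq_zero_or_pos i with rfl | hi
        · rfl
        · exact hs i hi
      rw [← h6]
      exact transfer b h1 hth (hth'.trans hth) (fun i hi => tup_const c 0 i hi) hs h2 h5 ψ
    · intro k g hg0 hg
      obtain ⟨χ, h1, h2⟩ := hat (k + 1) (tup c (k + 1)) (fun i hi => tup_const c (k + 1) i hi)
      have h3 := hg (cNot (cAll (k + 1) (cNot χ)))
      unfold cNot at h3
      rw [dec_cImp, dec_cAll, dec_cImp, dec_bot cBot rfl] at h3
      have h4 : Function.update (tup c k) (k + 1) (c (k + 1)) = tup c (k + 1) := by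
        funext i
        unfold tup
        by_cases hi : i = k + 1
        · subst hi
          simp
        · rw [Function.update_of_ne hi]
          by_cases hi' : i ≤ k
          · rw [if_pos hi', if_pos (by omega)]
          · rw [if_neg hi', if_neg (by omega)]
      have h5 := h3.1 fun h5 => by
        have h6 := h5 (c (k + 1))
        rw [h4] at h6
        exact h6 h2
      have h6 : ∃ a, Sat b (dec χ) (Function.update g (k + 1) a) := by
        by_contra h6
        push Not at h6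
        exact h5 fun a h7 => absurd h7 (h6 a)
      obtain ⟨a, h7⟩ := h6
      refine ⟨a, fun ψ => ?_⟩
      refine transfer b h1 hth (hth'.trans hth) (fun i hi => tup_const c (k + 1) i hi) ?_ h2 h7 ψ
      intro i hi
      rw [Function.update_of_ne (by omega), Function.update_of_ne (by omega)]
      exact hg0 i (by omega)
  obtain ⟨g, hg⟩ := key
  refine ⟨⟨fun y => g (Function.surjInv hc y), fun n φ x => ?_⟩⟩
  obtain ⟨θ, hθ⟩ := fm_of_formula b (φ.relabel fun i => Function.surjInv hc (x i))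
  obtain ⟨ψ, rfl⟩ := dec_surjective θ
  obtain ⟨k, hk⟩ : ∃ k, ∀ i, Function.surjInv hc (x i) ≤ k :=
    ⟨Finset.univ.sup fun i => Function.surjInv hc (x i), fun i =>
      Finset.le_sup (f := fun i => Function.surjInv hc (x i)) (Finset.mem_univ i)⟩
  have h1 := hg k ψ
  rw [← hθ, ← hθ, Language.Formula.realize_relabel, Language.Formula.realize_relabel] at h1
  have h2 : (tup c k ∘ fun i => Function.surjInv hc (x i)) = x := by
    funext i
    simp only [Function.comp, tup]
    rw [if_pos (hk i), Function.surjInv_eq hc]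
  have h3 : (tup g k ∘ fun i => Function.surjInv hc (x i)) =
      (fun y => g (Function.surjInv hc y)) ∘ x := by
    funext i
    simp only [Function.comp, tup]
    rw [if_pos (hk i)]
  rw [h2, h3] at h1
  exact h1.symm

theorem mem_PT_iff (b : Lab L) (x : Set ℕ) : x ∈ PT b ↔ x ∈ CT b ∧ Atomic x := by
  constructor
  · rintro ⟨M, _, hM, rfl⟩
    exact ⟨⟨M, _, hM.1, rfl⟩, atomic_of_prime b M hM⟩
  · rintro ⟨hx, ha⟩
    exact exists_prime b x hx ha

end Pool.Agent.Lib.MP_8c048d_lc
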