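import Mathlib
import Pool.Agent.Lib.MP_8c048d_lc.Path
import Pool.Agent.Lib.MP_8c048d_lc.Prime

/-!
# L4: the sentences with exactly one prime completion form a `Π¹₁` set
-/

set_option autoImplicit false

namespace Pool.Agent.Lib.MP_8c048d_lc

open FirstOrder

variable {L : FirstOrder.Language.{0, 0}}

namespace L4

/-! ### computable predicates -/

section Comp

variable {α β γ δ ε ζ η : Type} [Primcodable α] [Primcodable β] [Primcodable γ] [Primcodable δ]
  [Primcodable ε] [Primcodable ζ] [Primcodable η]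

theorem cp_of_primrec {p : α → Prop} (h : PrimrecPred p) : ComputablePred p := by
  obtain ⟨i, h⟩ := h
  exact ⟨i, h.to_comp⟩

theorem cp_comp {p : β → Prop} (h : ComputablePred p) {f : α → β} (hf : Computable f) :
    ComputablePred (fun a => p (f a)) := by
  obtain ⟨i, h⟩ := h
  exact ⟨fun a => i (f a), h.comp hf⟩

theorem cp_eq {f g : α → β} (hf : Computable f) (hg : Computable g) :
    ComputablePred (fun a => f a = g a) :=
  cp_comp (p := fun q : β × β => q.1 = q.2) (cp_of_primrec Primrec.eq) (hf.pair hg)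

theorem cp_lt {f g : α → ℕ} (hf : Computable f) (hg : Computable g) :
    ComputablePred (fun a => f a < g a) :=
  cp_comp (p := fun q : ℕ × ℕ => q.1 < q.2) (cp_of_primrec Primrec.nat_lt) (hf.pair hg)

theorem cp_not {p : α → Prop} (h : ComputablePred p) : ComputablePred (fun a => ¬ p a) := by
  obtain ⟨i, h⟩ := h
  refine ⟨fun a => inferInstance, ?_⟩
  refine (Primrec.not.to_comp.comp h).of_eq ?_
  intro a
  by_cases hp : p a <;> simp [hp]

theorem cp_mem : ComputablePred (fun q : ℕ × List ℕ => q.1 ∈ q.2) := by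
  have h := PrimrecRel.exists_mem_list (R := fun a b : ℕ => a = b) Primrec.eq
  have h2 : PrimrecPred (fun q : List ℕ × ℕ => q.2 ∈ q.1) := by
    refine PrimrecPred.of_eq h ?_
    intro q
    simp
  exact cp_comp (p := fun q : List ℕ × ℕ => q.2 ∈ q.1) (cp_of_primrec h2)
    (Computable.snd.pair Computable.fst)

theorem q1 : Computable (fun p : α × β => p.1) := Computable.fst
theorem q2 : Computable (fun p : α × β × γ => p.2.1) := Computable.fst.comp Computable.snd
theorem q3 : Computable (fun p : α × β × γ × δ => p.2.2.1) := q2.comp Computable.snd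
theorem q4 : Computable (fun p : α × β × γ × δ × ε => p.2.2.2.1) := q3.comp Computable.snd
theorem q5 : Computable (fun p : α × β × γ × δ × ε × ζ => p.2.2.2.2.1) := q4.comp Computable.snd
theorem q6 : Computable (fun p : α × β × γ × δ × ε × ζ × η => p.2.2.2.2.2.1) :=
  q5.comp Computable.snd
theorem e2 : Computable (fun p : α × β => p.2) := Computable.snd
theorem e3 : Computable (fun p : α × β × γ => p.2.2) := Computable.snd.comp Computable.snd
theorem e4 : Computable (fun p : α × β × γ × δ => p.2.2.2) := e3.comp Computable.snd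
theorem e5 : Computable (fun p : α × β × γ × δ × ε => p.2.2.2.2) := e4.comp Computable.snd
theorem e6 : Computable (fun p : α × β × γ × δ × ε × ζ => p.2.2.2.2.2) := e5.comp Computable.snd
theorem e7 : Computable (fun p : α × β × γ × δ × ε × ζ × η => p.2.2.2.2.2.2) :=
  e6.comp Computable.snd

end Comp

/-! ### Henkin valuations as a closed relation -/

/-- the assignments -/
abbrev SS : Type := ℕ × List (ℕ × ℕ)

/-- The valuation coded by a function. -/
def VV (F : ℕ → ℕ) (n : ℕ) (s : SS) : Prop := F (Encodable.encode (n, s)) = 1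

section

variable {α β : Type} [Primcodable α] [Primcodable β]

theorem vv_cop {f : α → ℕ} {g : α → SS} (hf : Computable f) (hg : Computable g) :
    Cop (fun a F => VV F (f a) (g a)) :=
  Cop.app_eq (Computable.encode.comp (hf.pair hg)) (Computable.const 1)

theorem clo_all {P : β → (ℕ → ℕ) → Prop} (h : Cop P) :
    Clo (fun (_ : Unit) F => ∀ b, P b F) :=
  Clo.all (α := Unit) (P := fun _ b F => P b F) ((Clo.of_cop h).comp Computable.snd)

end

theorem comp_upd {α : Type} [Primcodable α] {s : α → SS} {i a : α → ℕ} (hs : Computable s)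
    (hi : Computable i) (ha : Computable a) : Computable (fun p => upd (s p) (i p) (a p)) :=
  upd_comp.comp (hs.pair (hi.pair ha))

theorem comp_pairnil {α : Type} [Primcodable α] {a : α → ℕ} (ha : Computable a) :
    Computable (fun p => ((a p, []) : SS)) :=
  ha.pair (Computable.const [])

theorem comp_single {α : Type} [Primcodable α] {a c : α → ℕ} (ha : Computable a)
    (hc : Computable c) : Computable (fun p => ((a p, [(1, c p)]) : SS)) :=
  ha.pair (Computable.list_cons.comp ((Computable.const 1).pair hc) (Computable.const []))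

theorem comp_getD {α : Type} [Primcodable α] {l : α → List ℕ} {i : α → ℕ} (hl : Computable l)
    (hi : Computable i) : Computable (fun p => (l p).getD (i p) 0) :=
  getD_comp.comp (hl.pair hi)

theorem comp_cFn {α : Type} [Primcodable α] {f j : α → ℕ} {l : α → List ℕ} (hf : Computable f)
    (hl : Computable l) (hj : Computable j) : Computable (fun p => cFn (f p) (l p) (j p)) :=
  cFn_comp.comp (hf.pair (hl.pair hj))

theorem henkin_clo (b : Lab L) : Clo (fun (_ : Unit) F => Henkin b (VV F)) := by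
  have hbot : Clo (fun (_ : Unit) F => ∀ p : ℕ × SS, p.1 % 7 = 0 → ¬ VV F p.1 p.2) :=
    clo_all (Cop.imp (Cop.of_computable (cp_eq
      (Primrec.nat_mod.to_comp.comp Computable.fst (Computable.const 7)) (Computable.const 0)))
      (Cop.not (vv_cop Computable.fst Computable.snd)))
  have himp : Clo (fun (_ : Unit) F => ∀ p : ℕ × ℕ × SS,
      (VV F (cImp p.1 p.2.1) p.2.2 ↔ (VV F p.1 p.2.2 → VV F p.2.1 p.2.2))) :=
    clo_all (Cop.iff (vv_cop (cImp_comp.comp q1 q2) e3)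
      (Cop.imp (vv_cop q1 e3) (vv_cop q2 e3)))
  have hall : Clo (fun (_ : Unit) F => ∀ p : ℕ × ℕ × SS × ℕ,
      VV F (cAll p.1 p.2.1) p.2.2.1 → VV F p.2.1 (upd p.2.2.1 p.1 p.2.2.2)) :=
    clo_all (Cop.imp (vv_cop (cAll_comp.comp q1 q2) q3) (vv_cop q2 (comp_upd q3 q1 e4)))
  have hall' : Clo (fun (_ : Unit) F => ∀ p : ℕ × ℕ × SS,
      VV F p.2.1 (upd p.2.2 p.1 (wit (cAll p.1 p.2.1) p.2.2)) → VV F (cAll p.1 p.2.1) p.2.2) :=
    clo_all (Cop.imp (vv_cop q2 (comp_upd e3 q1 (wit_comp.comp (cAll_comp.comp q1 q2) e3)))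
      (vv_cop (cAll_comp.comp q1 q2) e3))
  have hbox : Clo (fun (_ : Unit) F => ∀ p : ℕ × SS × ℕ,
      VV F (cBox p.1) p.2.1 → VV F p.1 (p.2.2, [])) :=
    clo_all (Cop.imp (vv_cop (cBox_comp.comp q1) q2) (vv_cop q1 (comp_pairnil e3)))
  have hbox' : Clo (fun (_ : Unit) F => ∀ p : ℕ × SS,
      VV F p.1 (wit (cBox p.1) p.2, []) → VV F (cBox p.1) p.2) :=
    clo_all (Cop.imp (vv_cop q1 (comp_pairnil (wit_comp.comp (cBox_comp.comp q1) e2)))
      (vv_cop (cBox_comp.comp q1) e2))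
  have hrefl : Clo (fun (_ : Unit) F => ∀ p : ℕ × SS, VV F (cEq p.1 p.1) p.2) :=
    clo_all (vv_cop (cEq_comp.comp q1 q1) e2)
  have hsymm : Clo (fun (_ : Unit) F => ∀ p : ℕ × ℕ × SS,
      VV F (cEq p.1 p.2.1) p.2.2 → VV F (cEq p.2.1 p.1) p.2.2) :=
    clo_all (Cop.imp (vv_cop (cEq_comp.comp q1 q2) e3) (vv_cop (cEq_comp.comp q2 q1) e3))
  have htrans : Clo (fun (_ : Unit) F => ∀ p : ℕ × ℕ × ℕ × SS,
      VV F (cEq p.1 p.2.1) p.2.2.2 → VV F (cEq p.2.1 p.2.2.1) p.2.2.2 →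
        VV F (cEq p.1 p.2.2.1) p.2.2.2) :=
    clo_all (Cop.imp (vv_cop (cEq_comp.comp q1 q2) e4) (Cop.imp
      (vv_cop (cEq_comp.comp q2 q3) e4) (vv_cop (cEq_comp.comp q1 q3) e4)))
  -- i j i' j' s s'
  have heqc : Clo (fun (_ : Unit) F => ∀ p : ℕ × ℕ × ℕ × ℕ × SS × SS,
      asg p.2.2.2.2.1 p.1 = asg p.2.2.2.2.2 p.2.2.1 →
      asg p.2.2.2.2.1 p.2.1 = asg p.2.2.2.2.2 p.2.2.2.1 →
      VV F (cEq p.1 p.2.1) p.2.2.2.2.1 → VV F (cEq p.2.2.1 p.2.2.2.1) p.2.2.2.2.2) :=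
    clo_all (Cop.imp (Cop.of_computable (cp_eq (asg_comp.comp q5 q1) (asg_comp.comp e6 q3)))
      (Cop.imp (Cop.of_computable (cp_eq (asg_comp.comp q5 q2) (asg_comp.comp e6 q4)))
        (Cop.imp (vv_cop (cEq_comp.comp q1 q2) q5) (vv_cop (cEq_comp.comp q3 q4) e6))))
  -- r l l' s s'
  have hrel : Clo (fun (_ : Unit) F => ∀ p : ℕ × List ℕ × List ℕ × SS × SS,
      (∀ i < b.arR p.1, VV F (cEq 0 1) (asg p.2.2.2.1 (p.2.1.getD i 0),
        [(1, asg p.2.2.2.2 (p.2.2.1.getD i 0))])) →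
      VV F (cRel p.1 p.2.1) p.2.2.2.1 → VV F (cRel p.1 p.2.2.1) p.2.2.2.2) := by
    refine clo_all (Cop.imp ?_ (Cop.imp (vv_cop (cRel_comp.comp q1 q2) q4)
      (vv_cop (cRel_comp.comp q1 q3) e5)))
    refine Cop.ball (P := fun (p : ℕ × List ℕ × List ℕ × SS × SS) (i : ℕ) F =>
      VV F (cEq 0 1) (asg p.2.2.2.1 (p.2.1.getD i 0), [(1, asg p.2.2.2.2 (p.2.2.1.getD i 0))]))
      ?_ (b.compR.comp q1)
    exact vv_cop (Computable.const _) (comp_single
      (asg_comp.comp (q4.comp q1) (comp_getD (q2.comp q1) e2))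
      (asg_comp.comp (e5.comp q1) (comp_getD (q3.comp q1) e2)))
  have hrelf : Clo (fun (_ : Unit) F => ∀ p : ℕ × List ℕ × SS,
      b.isR p.1 = false → ¬ VV F (cRel p.1 p.2.1) p.2.2) :=
    clo_all (Cop.imp (Cop.of_computable (cp_eq (b.compIsR.comp q1) (Computable.const false)))
      (Cop.not (vv_cop (cRel_comp.comp q1 q2) e3)))
  -- f l l' j j' s s'
  have hfn : Clo (fun (_ : Unit) F => ∀ p : ℕ × List ℕ × List ℕ × ℕ × ℕ × SS × SS,
      (∀ i < b.arF p.1, VV F (cEq 0 1) (asg p.2.2.2.2.2.1 (p.2.1.getD i 0),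
        [(1, asg p.2.2.2.2.2.2 (p.2.2.1.getD i 0))])) →
      VV F (cFn p.1 p.2.1 p.2.2.2.1) p.2.2.2.2.2.1 →
      (VV F (cEq 0 1) (asg p.2.2.2.2.2.1 p.2.2.2.1, [(1, asg p.2.2.2.2.2.2 p.2.2.2.2.1)]) ↔
        VV F (cFn p.1 p.2.2.1 p.2.2.2.2.1) p.2.2.2.2.2.2)) := by
    refine clo_all (Cop.imp ?_ (Cop.imp (vv_cop (comp_cFn q1 q2 q4) q6)
      (Cop.iff (vv_cop (Computable.const _) (comp_single (asg_comp.comp q6 q4)
        (asg_comp.comp e7 q5))) (vv_cop (comp_cFn q1 q3 q5) e7))))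
    refine Cop.ball (P := fun (p : ℕ × List ℕ × List ℕ × ℕ × ℕ × SS × SS) (i : ℕ) F =>
      VV F (cEq 0 1) (asg p.2.2.2.2.2.1 (p.2.1.getD i 0),
        [(1, asg p.2.2.2.2.2.2 (p.2.2.1.getD i 0))]))
      ?_ (b.compF.comp q1)
    exact vv_cop (Computable.const _) (comp_single
      (asg_comp.comp (q6.comp q1) (comp_getD (q2.comp q1) e2))
      (asg_comp.comp (e7.comp q1) (comp_getD (q3.comp q1) e2)))
  have hfnf : Clo (fun (_ : Unit) F => ∀ p : ℕ × List ℕ × ℕ × SS,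
      b.isF p.1 = false → ¬ VV F (cFn p.1 p.2.1 p.2.2.1) p.2.2.2) :=
    clo_all (Cop.imp (Cop.of_computable (cp_eq (b.compIsF.comp q1) (Computable.const false)))
      (Cop.not (vv_cop (comp_cFn q1 q2 q3) e4)))
  -- f l s i
  have htot : Clo (fun (_ : Unit) F => ∀ p : ℕ × List ℕ × SS × ℕ,
      b.isF p.1 = true → ¬ p.2.2.2 ∈ p.2.1 → ¬ p.2.2.2 = 0 →
        ¬ VV F (cAll p.2.2.2 (cNot (cFn p.1 p.2.1 p.2.2.2))) p.2.2.1) :=
    clo_all (Cop.imp (Cop.of_computable (cp_eq (b.compIsF.comp q1) (Computable.const true)))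
      (Cop.imp (Cop.of_computable (cp_not (cp_comp cp_mem (e4.pair q2))))
        (Cop.imp (Cop.of_computable (cp_not (cp_eq e4 (Computable.const 0))))
          (Cop.not (vv_cop (cAll_comp.comp e4 (cNot_comp.comp (comp_cFn q1 q2 e4))) q3)))))
  refine (hbot.and (himp.and (hall.and (hall'.and (hbox.and (hbox'.and (hrefl.and (hsymm.and
    (htrans.and (heqc.and (hrel.and (hrelf.and (hfn.and (hfnf.and htot)))))))))))))).congr ?_
  intro _ F
  constructor
  · rintro ⟨hbot, himp, hall, hall', hbox, hbox', hrefl, hsymm, htrans, heqc, hrel, hrelf, hfn,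
      hfnf, htot⟩
    exact
      { bot := fun n s => hbot (n, s)
        imp := fun m n s => himp (m, n, s)
        all := fun i n s h a => hall (i, n, s, a) h
        all' := fun i n s => hall' (i, n, s)
        box := fun n s h a => hbox (n, s, a) h
        box' := fun n s => hbox' (n, s)
        refl := fun i s => hrefl (i, s)
        symm := fun i j s => hsymm (i, j, s)
        trans := fun i j k s => htrans (i, j, k, s)
        eqc := fun i j i' j' s s' => heqc (i, j, i', j', s, s')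
        rel := fun r l l' s s' => hrel (r, l, l', s, s')
        relf := fun r l s => hrelf (r, l, s)
        fn := fun f l l' j j' s s' => hfn (f, l, l', j, j', s, s')
        fnf := fun f l j s => hfnf (f, l, j, s)
        tot := fun f l s i => htot (f, l, s, i) }
  · intro h
    exact ⟨fun p => h.bot p.1 p.2, fun p => h.imp p.1 p.2.1 p.2.2,
      fun p hp => h.all p.1 p.2.1 p.2.2.1 hp p.2.2.2, fun p => h.all' p.1 p.2.1 p.2.2,
      fun p hp => h.box p.1 p.2.1 hp p.2.2, fun p => h.box' p.1 p.2, fun p => h.refl p.1 p.2,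
      fun p => h.symm p.1 p.2.1 p.2.2, fun p => h.trans p.1 p.2.1 p.2.2.1 p.2.2.2,
      fun p => h.eqc p.1 p.2.1 p.2.2.1 p.2.2.2.1 p.2.2.2.2.1 p.2.2.2.2.2,
      fun p => h.rel p.1 p.2.1 p.2.2.1 p.2.2.2.1 p.2.2.2.2,
      fun p => h.relf p.1 p.2.1 p.2.2,
      fun p => h.fn p.1 p.2.1 p.2.2.1 p.2.2.2.1 p.2.2.2.2.1 p.2.2.2.2.2.1 p.2.2.2.2.2.2,
      fun p => h.fnf p.1 p.2.1 p.2.2.1 p.2.2.2,
      fun p => h.tot p.1 p.2.1 p.2.2.1 p.2.2.2⟩

/-! ### the initial segments -/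

/-- the place at which the truth value of `box m` is read -/
def bx (m : ℕ) : ℕ := Encodable.encode ((cBox m, (0, [])) : ℕ × SS)

theorem bx_comp : Computable bx :=
  Computable.encode.comp (cBox_comp.pair (Computable.const ((0, []) : SS)))

/-- the condition on an initial segment `l` and a valuation `v` -/
def PP (b : Lab L) (l : List ℕ) (v : ℕ → ℕ) : Prop :=
  Henkin b (VV v) ∧ ∀ m, 2 * m < l.length → v (bx m) = l.getD (2 * m) 0

theorem pp_clo (b : Lab L) : Clo (fun l F => PP b l F) := by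
  have h2 : Computable (fun m : ℕ => 2 * m) :=
    (Primrec.nat_mul.comp (Primrec.const 2) Primrec.id).to_comp
  have h1 : Clo (fun (l : List ℕ) F => ∀ m, 2 * m < l.length → F (bx m) = l.getD (2 * m) 0) := by
    refine Clo.all (P := fun (l : List ℕ) (m : ℕ) F =>
      2 * m < l.length → F (bx m) = l.getD (2 * m) 0) (Clo.of_cop (Cop.imp (Cop.of_computable
        (cp_lt (h2.comp e2) (Computable.list_length.comp q1)))
        (Cop.app_eq (bx_comp.comp e2) (comp_getD q1 (h2.comp e2)))))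
  exact (((henkin_clo b).comp (f := fun _ : List ℕ => ()) (Computable.const ())).and h1)

/-- the condition on an initial segment -/
def Con (b : Lab L) (l : List ℕ) : Prop := ∃ v : ℕ → ℕ, (∀ i, v i ≤ 1) ∧ PP b l v

theorem con_del (b : Lab L) : Del (fun (l : List ℕ) (_ : ℕ → ℕ) => Con b l) :=
  Clo.compact (pp_clo b)

/-! ### closed relations are closed -/

theorem isClosed_of_clo {α : Type} [Primcodable α] {P : α → (ℕ → ℕ) → Prop} (h : Clo P) (a : α) :
    IsClosed {F | P a F} := by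
  obtain ⟨d, ⟨q, -, hq1, hq2⟩, hd⟩ := h
  rw [← isOpen_compl_iff, isOpen_iff_forall_mem_open]
  intro F hF
  have hF' : ¬ P a F := hF
  rw [hd] at hF'
  push Not at hF'
  obtain ⟨m, hm⟩ := hF'
  obtain ⟨k, hk⟩ := hq2 (a, m) F
  refine ⟨{F' | ∀ i < k, F' i = F i}, ?_, ?_, fun i _ => rfl⟩
  · intro F' hF'
    have e : pre F' k = pre F k := by
      unfold pre
      apply List.map_congr_left
      intro i hi
      exact hF' i (List.mem_range.1 hi)
    have h1 := hq1 (a, m) F' k (d (a, m) F) (by rw [e]; exact hk)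
    intro h2
    have h3 := (hd a F').1 h2 m
    rw [h1] at h3
    exact hm h3
  · have : {F' : ℕ → ℕ | ∀ i < k, F' i = F i} = ⋂ i ∈ Set.Iio k, {F' | F' i = F i} := by
      ext F'
      simp
    rw [this]
    apply Set.Finite.isOpen_biInter (Set.finite_Iio k)
    intro i _
    have hc : Continuous (fun F' : ℕ → ℕ => F' i) := continuous_apply i
    exact hc.isOpen_preimage _ (isOpen_discrete ({F i} : Set ℕ))

theorem pre_length (F : ℕ → ℕ) (k : ℕ) : (pre F k).length = k := by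
  unfold pre; simp

theorem pre_getD (F : ℕ → ℕ) {k i : ℕ} (h : i < k) : (pre F k).getD i 0 = F i := by
  unfold pre
  rw [List.getD_eq_getElem _ _ (by simpa using h)]
  simp

/-- compactness -/
theorem exists_of_con (b : Lab L) (F : ℕ → ℕ) (h : ∀ k, Con b (pre F k)) :
    ∃ v : ℕ → ℕ, Henkin b (VV v) ∧ ∀ m, v (bx m) = F (2 * m) := by
  let t : ℕ → Set (ℕ → ℕ) := fun k => {v | ∀ i, v i ≤ 1} ∩ {v | PP b (pre F k) v}
  have hcpt : IsCompact {v : ℕ → ℕ | ∀ i, v i ≤ 1} := by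
    have h1 := isCompact_univ_pi (X := fun _ : ℕ => ℕ) (s := fun _ => Set.Iic 1)
      (fun i => (Set.finite_Iic 1).isCompact)
    have h2 : {v : ℕ → ℕ | ∀ i, v i ≤ 1} = Set.univ.pi (fun _ => Set.Iic 1) := by
      ext v
      simp only [Set.mem_ofPred_eq, Set.mem_pi, Set.mem_univ, true_imp_iff, Set.mem_Iic]
    rw [h2]
    exact h1
  have hcl : ∀ k, IsClosed {v | PP b (pre F k) v} := fun k => isClosed_of_clo (pp_clo b) _
  have hne : (⋂ k, t k).Nonempty := by
    apply IsCompact.nonempty_iInter_of_sequence_nonempty_isCompact_isClosed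
    · intro k v hv
      refine ⟨hv.1, hv.2.1, ?_⟩
      intro m hm
      rw [pre_length] at hm
      have h1 := hv.2.2 m (by rw [pre_length]; omega)
      rw [pre_getD F hm]
      rw [pre_getD F (show 2 * m < k + 1 by omega)] at h1
      exact h1
    · intro k
      obtain ⟨v, hv1, hv2⟩ := h k
      exact ⟨v, hv1, hv2⟩
    · exact hcpt.inter_right (hcl 0)
    · intro k
      exact (hcpt.isClosed).inter (hcl k)
  obtain ⟨v, hv⟩ := hne
  rw [Set.mem_iInter] at hv
  refine ⟨v, (hv 0).2.1, ?_⟩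
  intro m
  have h1 := (hv (2 * m + 1)).2.2 m (by rw [pre_length]; omega)
  rw [pre_getD F (show 2 * m < 2 * m + 1 by omega)] at h1
  exact h1

/-! ### unique witnesses -/

/-- `f` and `g` are the least witnesses for `∀ i, ∃ χ, ∀ ψ, e i χ ψ` -/
def Wt (e : ℕ → ℕ → ℕ → Prop) (f g : ℕ → ℕ) : Prop :=
  (∀ i ψ, e i (f i) ψ) ∧
  (∀ i χ, χ < f i → ¬ e i χ (g (Nat.pair i χ))) ∧
  (∀ i χ ψ, χ < f i → ψ < g (Nat.pair i χ) → e i χ ψ) ∧
  ∀ i χ, f i ≤ χ → g (Nat.pair i χ) = 0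

theorem exists_wt {e : ℕ → ℕ → ℕ → Prop} (h : ∀ i, ∃ χ, ∀ ψ, e i χ ψ) : ∃ f g, Wt e f g := by
  classical
  let f : ℕ → ℕ := fun i => Nat.find (h i)
  have hf : ∀ i χ, χ < f i → ∃ ψ, ¬ e i χ ψ := by
    intro i χ hχ
    have := Nat.find_min (h i) hχ
    push Not at this
    exact this
  let g : ℕ → ℕ := fun n => if hn : n.unpair.2 < f n.unpair.1 then Nat.find (hf _ _ hn) else 0
  have hg : ∀ i χ (hχ : χ < f i), g (Nat.pair i χ) = Nat.find (hf i χ hχ) := by
    intro i χ hχ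
    simp only [g, Nat.unpair_pair, hχ, dif_pos]
  refine ⟨f, g, fun i ψ => Nat.find_spec (h i) ψ, ?_, ?_, ?_⟩
  · intro i χ hχ
    rw [hg i χ hχ]
    exact Nat.find_spec (hf i χ hχ)
  · intro i χ ψ hχ hψ
    rw [hg i χ hχ] at hψ
    have := Nat.find_min (hf i χ hχ) hψ
    push Not at this
    exact this
  · intro i χ hχ
    simp only [g, Nat.unpair_pair]
    rw [dif_neg (by omega)]

theorem wt_unique {e : ℕ → ℕ → ℕ → Prop} {f g f' g' : ℕ → ℕ} (h : Wt e f g) (h' : Wt e f' g') :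
    f = f' ∧ g = g' := by
  have hf : f = f' := by
    funext i
    rcases Nat.lt_trichotomy (f i) (f' i) with h1 | h1 | h1
    · exact absurd (h.1 i _) (h'.2.1 i _ h1)
    · exact h1
    · exact absurd (h'.1 i _) (h.2.1 i _ h1)
  subst hf
  refine ⟨rfl, ?_⟩
  funext n
  obtain ⟨i, χ, rfl⟩ : ∃ i χ, n = Nat.pair i χ := ⟨n.unpair.1, n.unpair.2, (Nat.pair_unpair n).symm⟩
  by_cases hχ : χ < f i
  · rcases Nat.lt_trichotomy (g (Nat.pair i χ)) (g' (Nat.pair i χ)) with h1 | h1 | h1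
    · exact absurd (h'.2.2.1 i χ _ hχ h1) (h.2.1 i χ hχ)
    · exact h1
    · exact absurd (h.2.2.1 i χ _ hχ h1) (h'.2.1 i χ hχ)
  · rw [h.2.2.2 i χ (by omega), h'.2.2.2 i χ (by omega)]

/-! ### the path relation -/

/-- the set coded by `F` -/
def XX (F : ℕ → ℕ) : Set ℕ := {m | F (2 * m) = 1}

/-- the matrix of `Atomic` -/
def EE (x : Set ℕ) (i χ ψ : ℕ) : Prop :=
  allT i.unpair.1 (cNot i.unpair.2) ∈ x ∨
    (¬ allT i.unpair.1 (cNot χ) ∈ x ∧ allT i.unpair.1 (cImp χ i.unpair.2) ∈ x ∧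
      (allT i.unpair.1 (cImp χ ψ) ∈ x ∨ allT i.unpair.1 (cImp χ (cNot ψ)) ∈ x))

theorem atomic_iff (x : Set ℕ) : Atomic x ↔ ∀ i, ∃ χ, ∀ ψ, EE x i χ ψ := by
  constructor
  · intro h i
    by_cases h0 : allT i.unpair.1 (cNot i.unpair.2) ∈ x
    · exact ⟨0, fun ψ => Or.inl h0⟩
    · obtain ⟨χ, h1, h2, h3⟩ := h _ _ h0
      exact ⟨χ, fun ψ => Or.inr ⟨h1, h2, h3 ψ⟩⟩
  · intro h k φ h0
    obtain ⟨χ, hχ⟩ := h (Nat.pair k φ)
    unfold EE at hχ
    simp only [Nat.unpair_pair] at hχ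
    have h1 : ∀ ψ, ¬ allT k (cNot χ) ∈ x ∧ allT k (cImp χ φ) ∈ x ∧
        (allT k (cImp χ ψ) ∈ x ∨ allT k (cImp χ (cNot ψ)) ∈ x) :=
      fun ψ => (hχ ψ).resolve_left h0
    exact ⟨χ, (h1 0).1, (h1 0).2.1, fun ψ => (h1 ψ).2.2⟩

/-- the functions coding a prime theory containing `n` -/
def QQ (b : Lab L) (n : ℕ) (F : ℕ → ℕ) : Prop :=
  ((∀ m, F (2 * m) ≤ 1) ∧ n ∈ XX F ∧ Wt (EE (XX F)) (fun i => F (4 * i + 1))
    (fun i => F (4 * i + 3))) ∧ ∀ k, Con b (pre F k)

theorem mem_PT_of_QQ (b : Lab L) {n : ℕ} {F : ℕ → ℕ} (h : QQ b n F) : XX F ∈ PT b ∧ n ∈ XX F := by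
  obtain ⟨⟨h1, h2, h3⟩, h4⟩ := h
  refine ⟨(mem_PT_iff b _).2 ⟨?_, ?_⟩, h2⟩
  · obtain ⟨v, hv1, hv2⟩ := exists_of_con b F h4
    rw [mem_CT_iff]
    refine ⟨VV v, hv1, ?_⟩
    intro m
    unfold VV XX
    rw [Set.mem_ofPred_eq, ← hv2 m]
    rfl
  · rw [atomic_iff]
    exact fun i => ⟨_, h3.1 i⟩

theorem exists_QQ (b : Lab L) {n : ℕ} {x : Set ℕ} (hx : x ∈ PT b) (hn : n ∈ x) :
    ∃ F, QQ b n F ∧ XX F = x := by
  classical
  rw [mem_PT_iff, mem_CT_iff] at hx
  obtain ⟨⟨w, hw1, hw2⟩, hA⟩ := hx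
  rw [atomic_iff] at hA
  obtain ⟨f, g, hfg⟩ := exists_wt hA
  let F : ℕ → ℕ := fun i => if i % 2 = 0 then (if i / 2 ∈ x then 1 else 0) else
    if i % 4 = 1 then f (i / 4) else g (i / 4)
  have hF0 : ∀ m, F (2 * m) = if m ∈ x then 1 else 0 := by
    intro m
    simp only [F]
    rw [if_pos (by omega)]
    congr 2
    omega
  have hF1 : ∀ m, F (4 * m + 1) = f m := by
    intro m
    simp only [F]
    rw [if_neg (by omega), if_pos (by omega)]
    congr 1
    omega
  have hF3 : ∀ m, F (4 * m + 3) = g m := by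
    intro m
    simp only [F]
    rw [if_neg (by omega), if_neg (by omega)]
    congr 1
    omega
  have hX : XX F = x := by
    ext m
    unfold XX
    rw [Set.mem_ofPred_eq, hF0]
    split_ifs with h
    · simp [h]
    · simp [h]
  refine ⟨F, ⟨⟨?_, ?_, ?_⟩, ?_⟩, hX⟩
  · intro m
    rw [hF0]
    split_ifs <;> simp
  · rw [hX]; exact hn
  · rw [hX]
    have e1 : (fun i => F (4 * i + 1)) = f := funext hF1
    have e2 : (fun i => F (4 * i + 3)) = g := funext hF3
    rw [e1, e2]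
    exact hfg
  · intro k
    let v : ℕ → ℕ := fun j =>
      if w (Denumerable.ofNat (ℕ × SS) j).1 (Denumerable.ofNat (ℕ × SS) j).2 then 1 else 0
    have hv : VV v = w := by
      funext n s
      unfold VV
      simp only [v, Denumerable.ofNat_encode]
      apply propext
      split_ifs with h
      · simp [h]
      · simp [h]
    refine ⟨v, ?_, ?_, ?_⟩
    · intro i
      simp only [v]
      split_ifs <;> simp
    · rw [hv]; exact hw1
    · intro m hm
      rw [pre_length] at hm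
      rw [pre_getD F hm, hF0]
      simp only [v, bx, Denumerable.ofNat_encode]
      by_cases h : m ∈ x
      · rw [if_pos h, if_pos ((hw2 m).1 h)]
      · rw [if_neg h, if_neg (fun h' => h ((hw2 m).2 h'))]

theorem QQ_inj (b : Lab L) {n : ℕ} {F F' : ℕ → ℕ} (h : QQ b n F) (h' : QQ b n F')
    (e : XX F = XX F') : F = F' := by
  obtain ⟨⟨h1, h2, h3⟩, h4⟩ := h
  obtain ⟨⟨h1', h2', h3'⟩, h4'⟩ := h'
  rw [← e] at h3'
  obtain ⟨hf, hg⟩ := wt_unique h3 h3'
  funext j
  rcases (by omega : j % 2 = 0 ∨ j % 4 = 1 ∨ j % 4 = 3) with hj | hj | hj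
  · obtain ⟨m, rfl⟩ : ∃ m, j = 2 * m := ⟨j / 2, by omega⟩
    have a1 := h1 m
    have a2 := h1' m
    have a3 : F (2 * m) = 1 ↔ F' (2 * m) = 1 := by
      have : m ∈ XX F ↔ m ∈ XX F' := by rw [e]
      exact this
    omega
  · obtain ⟨m, rfl⟩ : ∃ m, j = 4 * m + 1 := ⟨j / 4, by omega⟩
    exact congrFun hf m
  · obtain ⟨m, rfl⟩ : ∃ m, j = 4 * m + 3 := ⟨j / 4, by omega⟩
    exact congrFun hg m

/-! ### the path relation is closed with a `Δ¹₁` matrix -/

section

variable {α β : Type} [Primcodable α] [Primcodable β]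

theorem Cop.sub1 {P : β → (ℕ → ℕ) → Prop} (h : Cop P) {ψ : α → (ℕ → ℕ) → β} (hψ : RecF ψ) :
    Cop (fun a F => P (ψ a F) F) :=
  h.subst hψ (Ψ := fun _ F => F) (RecF.app (RecF.of_computable Computable.snd))

theorem xx_cop {f : α → ℕ} (hf : Computable f) : Cop (fun a F => f a ∈ XX F) :=
  Cop.app_eq (Primrec.nat_mul.to_comp.comp (Computable.const 2) hf) (Computable.const 1)

end

theorem ee_cop : Cop (fun (p : ℕ × ℕ × ℕ) F => EE (XX F) p.1 p.2.1 p.2.2) := by
  have hk : Computable (fun p : ℕ × ℕ × ℕ => p.1.unpair.1) :=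
    Computable.fst.comp (Computable.unpair.comp q1)
  have hφ : Computable (fun p : ℕ × ℕ × ℕ => p.1.unpair.2) :=
    Computable.snd.comp (Computable.unpair.comp q1)
  exact Cop.or (xx_cop (allT_comp.comp hk (cNot_comp.comp hφ)))
    (Cop.and (Cop.not (xx_cop (allT_comp.comp hk (cNot_comp.comp q2))))
      (Cop.and (xx_cop (allT_comp.comp hk (cImp_comp.comp q2 hφ)))
        (Cop.or (xx_cop (allT_comp.comp hk (cImp_comp.comp q2 e3)))
          (xx_cop (allT_comp.comp hk (cImp_comp.comp q2 (cNot_comp.comp e3)))))))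

theorem lin_comp (c e : ℕ) {α : Type} [Primcodable α] {f : α → ℕ} (hf : Computable f) :
    Computable (fun a => c * f a + e) :=
  Primrec.nat_add.to_comp.comp (Primrec.nat_mul.to_comp.comp (Computable.const c) hf)
    (Computable.const e)

theorem wt_clo : Clo (fun (_ : Unit) F => Wt (EE (XX F)) (fun i => F (4 * i + 1))
    (fun i => F (4 * i + 3))) := by
  have hf : ∀ {α : Type} [Primcodable α] {u : α → ℕ}, Computable u →
      RecF (fun a F => F (4 * u a + 1)) :=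
    fun hu => RecF.app (RecF.of_computable (lin_comp 4 1 hu))
  have hg : ∀ {α : Type} [Primcodable α] {u : α → ℕ}, Computable u →
      RecF (fun a F => F (4 * u a + 3)) :=
    fun hu => RecF.app (RecF.of_computable (lin_comp 4 3 hu))
  have hpair : ∀ {α : Type} [Primcodable α] {u w : α → ℕ}, Computable u → Computable w →
      Computable (fun a => Nat.pair (u a) (w a)) :=
    fun hu hw => Primrec₂.natPair.to_comp.comp hu hw
  have hlt : ComputablePred (fun q : ℕ × ℕ => q.1 < q.2) := cp_lt q1 e2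
  have hlef : Cop (fun (p : ℕ × ℕ) F => p.2 < F (4 * p.1 + 1)) :=
    Cop.of_recF (φ := fun (p : ℕ × ℕ) F => (p.2, F (4 * p.1 + 1)))
      ((RecF.of_computable e2).pair (hf q1)) hlt
  have c1 : Clo (fun (_ : Unit) F => ∀ p : ℕ × ℕ, EE (XX F) p.1 (F (4 * p.1 + 1)) p.2) :=
    clo_all (Cop.sub1 ee_cop (ψ := fun (p : ℕ × ℕ) F => (p.1, F (4 * p.1 + 1), p.2))
      ((RecF.of_computable q1).pair ((hf q1).pair (RecF.of_computable e2))))
  have c2 : Clo (fun (_ : Unit) F => ∀ p : ℕ × ℕ, p.2 < F (4 * p.1 + 1) →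
      ¬ EE (XX F) p.1 p.2 (F (4 * (Nat.pair p.1 p.2) + 3))) :=
    clo_all (Cop.imp hlef (Cop.not (Cop.sub1 ee_cop
      (ψ := fun (p : ℕ × ℕ) F => (p.1, p.2, F (4 * (Nat.pair p.1 p.2) + 3)))
      ((RecF.of_computable q1).pair ((RecF.of_computable e2).pair (hg (hpair q1 e2)))))))
  have c3 : Clo (fun (_ : Unit) F => ∀ p : ℕ × ℕ × ℕ, p.2.1 < F (4 * p.1 + 1) →
      p.2.2 < F (4 * (Nat.pair p.1 p.2.1) + 3) → EE (XX F) p.1 p.2.1 p.2.2) := by
    refine clo_all (Cop.imp ?_ (Cop.imp ?_ ee_cop))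
    · exact Cop.of_recF (φ := fun (p : ℕ × ℕ × ℕ) F => (p.2.1, F (4 * p.1 + 1)))
        ((RecF.of_computable q2).pair (hf q1)) hlt
    · exact Cop.of_recF (φ := fun (p : ℕ × ℕ × ℕ) F =>
        (p.2.2, F (4 * (Nat.pair p.1 p.2.1) + 3)))
        ((RecF.of_computable e3).pair (hg (hpair q1 q2))) hlt
  have c4 : Clo (fun (_ : Unit) F => ∀ p : ℕ × ℕ, ¬ p.2 < F (4 * p.1 + 1) →
      F (4 * (Nat.pair p.1 p.2) + 3) = 0) :=
    clo_all (Cop.imp (Cop.not hlef) (Cop.app_eq (lin_comp 4 3 (hpair q1 e2))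
      (Computable.const 0)))
  refine (c1.and (c2.and (c3.and c4))).congr ?_
  intro _ F
  constructor
  · rintro ⟨h1, h2, h3, h4⟩
    exact ⟨fun i ψ => h1 (i, ψ), fun i χ => h2 (i, χ), fun i χ ψ => h3 (i, χ, ψ),
      fun i χ hχ => h4 (i, χ) (Nat.not_lt.2 hχ)⟩
  · rintro ⟨h1, h2, h3, h4⟩
    exact ⟨fun p => h1 p.1 p.2, fun p => h2 p.1 p.2, fun p => h3 p.1 p.2.1 p.2.2,
      fun p hp => h4 p.1 p.2 (Nat.not_lt.1 hp)⟩

theorem qq_clD (b : Lab L) : ClD (fun n F => QQ b n F) := by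
  have c1 : Clo (fun (_ : ℕ) F => ∀ m, F (2 * m) ≤ 1) := by
    have h : Clo (fun (_ : Unit) F => ∀ m : ℕ, F (2 * m) ≤ 1) := by
      refine clo_all (Cop.of_recF (φ := fun (m : ℕ) F => F (2 * m)) ?_ (p := fun k => k ≤ 1) ?_)
      · exact RecF.app (RecF.of_computable
          (Primrec.nat_mul.to_comp.comp (Computable.const 2) Computable.id))
      · exact cp_comp (p := fun q : ℕ × ℕ => q.1 ≤ q.2) (cp_of_primrec Primrec.nat_le)
          (Computable.id.pair (Computable.const 1))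
    exact h.comp (f := fun _ : ℕ => ()) (Computable.const ())
  have c2 : Clo (fun (n : ℕ) F => n ∈ XX F) := Clo.of_cop (xx_cop Computable.id)
  have c3 := wt_clo.comp (f := fun _ : ℕ => ()) (Computable.const ())
  have c4 : ClD (fun (_ : ℕ) F => ∀ k, Con b (pre F k)) :=
    ⟨fun _ l => Con b l, (con_del b).comp (f := fun p : ℕ × List ℕ => p.2) Computable.snd,
      fun _ _ => Iff.rfl⟩
  exact (ClD.of_clo (c1.and (c2.and c3))).and c4

end L4

theorem unique_prime_pi11 (b : Lab L) : IsPi11 {n | ∃! x : Set ℕ, x ∈ PT b ∧ n ∈ x} := by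
  rw [isPi11_iff]
  refine (unique_clD (L4.qq_clD b)).congr ?_
  intro n _
  constructor
  · rintro ⟨F, hF, hu⟩
    refine ⟨L4.XX F, L4.mem_PT_of_QQ b hF, ?_⟩
    rintro x ⟨hx, hn⟩
    obtain ⟨F', hF', rfl⟩ := L4.exists_QQ b hx hn
    rw [hu F' hF']
  · rintro ⟨x, ⟨hx, hn⟩, hu⟩
    obtain ⟨F, hF, rfl⟩ := L4.exists_QQ b hx hn
    refine ⟨F, hF, ?_⟩
    intro F' hF'
    exact L4.QQ_inj b hF' hF (hu _ (L4.mem_PT_of_QQ b hF'))

end Pool.Agent.Lib.MP_8c048d_lc
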