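import Mathlib
import Pool.Agent.Lib.MP_8c048d_lc.Eff

/-!
# E3: the complete set `O`, relations recursively enumerable in `O`, the diagonal argument
-/

set_option autoImplicit false

namespace Pool.Agent.Lib.MP_8c048d_lc

variable {α β : Type} [Primcodable α] [Primcodable β]

/-! ### Computable predicates -/

theorem e3_cp_iff {p : α → Prop} :
    ComputablePred p ↔ ∃ f : α → Bool, Computable f ∧ ∀ a, p a ↔ f a = true := by
  rw [ComputablePred.computable_iff]
  constructor
  · rintro ⟨f, hf, rfl⟩
    exact ⟨f, hf, fun a => Iff.rfl⟩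
  · rintro ⟨f, hf, h⟩
    exact ⟨f, hf, funext fun a => propext (h a)⟩

theorem e3_cp_comp {p : β → Prop} (h : ComputablePred p) {f : α → β} (hf : Computable f) :
    ComputablePred (fun a => p (f a)) := by
  obtain ⟨g, hg, e⟩ := e3_cp_iff.1 h
  exact e3_cp_iff.2 ⟨fun a => g (f a), hg.comp hf, fun a => e _⟩

theorem e3_cp_and {p q : α → Prop} (hp : ComputablePred p) (hq : ComputablePred q) :
    ComputablePred (fun a => p a ∧ q a) := by
  obtain ⟨f, hf, e⟩ := e3_cp_iff.1 hp
  obtain ⟨g, hg, e'⟩ := e3_cp_iff.1 hq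
  refine e3_cp_iff.2 ⟨fun a => f a && g a, ?_, fun a => by rw [e, e', Bool.and_eq_true]⟩
  exact (Primrec.and.to_comp).comp hf hg

theorem e3_cp_or {p q : α → Prop} (hp : ComputablePred p) (hq : ComputablePred q) :
    ComputablePred (fun a => p a ∨ q a) := by
  obtain ⟨f, hf, e⟩ := e3_cp_iff.1 hp
  obtain ⟨g, hg, e'⟩ := e3_cp_iff.1 hq
  refine e3_cp_iff.2 ⟨fun a => f a || g a, ?_, fun a => by rw [e, e', Bool.or_eq_true]⟩
  exact (Primrec.or.to_comp).comp hf hg

theorem e3_cp_eq {f g : α → β} (hf : Computable f) (hg : Computable g) :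
    ComputablePred (fun a => f a = g a) := by
  classical
  have h : PrimrecPred (fun p : β × β => p.1 = p.2) := Primrec.eq
  exact e3_cp_comp (p := fun p : β × β => p.1 = p.2) h.computablePred (hf.pair hg)

theorem e3_cp_exists_lt {p : α × ℕ → Prop} (h : ComputablePred p) {f : α → ℕ} (hf : Computable f) :
    ComputablePred (fun a => ∃ j < f a, p (a, j)) := by
  obtain ⟨g, hg, e⟩ := e3_cp_iff.1 h
  refine e3_cp_iff.2 ⟨fun a => Nat.rec (motive := fun _ => Bool) false
    (fun j b => b || g (a, j)) (f a), ?_, ?_⟩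
  · refine Computable.nat_rec (h := fun a (x : ℕ × Bool) => x.2 || g (a, x.1)) hf
      (Computable.const false) ?_
    have h1 : Computable (fun x : α × ℕ × Bool => x.2.2 || g (x.1, x.2.1)) :=
      (Primrec.or.to_comp).comp (Computable.snd.comp Computable.snd)
        (hg.comp (Computable.fst.pair (Computable.fst.comp Computable.snd)))
    exact h1
  · intro a
    show (∃ j < f a, p (a, j)) ↔
      (Nat.rec (motive := fun _ => Bool) false (fun j b => b || g (a, j)) (f a)) = true
    generalize f a = n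
    induction n with
    | zero => simp
    | succ n ih =>
      show _ ↔ ((Nat.rec (motive := fun _ => Bool) false (fun j b => b || g (a, j)) n) || g (a, n))
        = true
      rw [Bool.or_eq_true, ← ih, ← e]
      constructor
      · rintro ⟨j, hj, hp⟩
        rcases Nat.lt_succ_iff_lt_or_eq.1 hj with h' | rfl
        · exact Or.inl ⟨j, h', hp⟩
        · exact Or.inr hp
      · rintro (⟨j, hj, hp⟩ | hp)
        · exact ⟨j, by omega, hp⟩
        · exact ⟨n, by omega, hp⟩

theorem e3_cp_forall_lt {p : α × ℕ → Prop} (h : ComputablePred p) {f : α → ℕ} (hf : Computable f) :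
    ComputablePred (fun a => ∀ j < f a, p (a, j)) := by
  refine (e3_cp_exists_lt h.not hf).not.of_eq fun a => ?_
  push Not
  rfl

/-- every computable predicate is searched for by a code -/
theorem e3_exists_code {p : α → Prop} (hp : ComputablePred p) :
    ∃ c : Nat.Partrec.Code, ∀ x : α,
      (∃ k, Nat.Partrec.Code.evaln k c (Encodable.encode x) = some 1) ↔ p x := by
  obtain ⟨f, hf, e⟩ := e3_cp_iff.1 hp
  have h1 : Computable (fun x : α => cond (f x) 1 0 : α → ℕ) :=
    Computable.cond hf (Computable.const 1) (Computable.const 0)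
  obtain ⟨c, hc⟩ := Nat.Partrec.Code.exists_code.1 h1
  refine ⟨c, fun x => ?_⟩
  have h2 : c.eval (Encodable.encode x) = Part.some (cond (f x) 1 0 : ℕ) := by
    rw [hc]
    simp
  have h3 : (∃ k, Nat.Partrec.Code.evaln k c (Encodable.encode x) = some 1) ↔
      1 ∈ c.eval (Encodable.encode x) := by
    rw [Nat.Partrec.Code.evaln_complete]
    rfl
  rw [h3, h2, Part.mem_some_iff, e]
  cases f x <;> simp

theorem evaln_mono' {k k' : ℕ} {c : Nat.Partrec.Code} {n : ℕ} (h : k ≤ k')
    (h' : Nat.Partrec.Code.evaln k c n = some 1) : Nat.Partrec.Code.evaln k' c n = some 1 :=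
  Nat.Partrec.Code.evaln_mono h h'

theorem e3_length_pre (F : ℕ → ℕ) (k : ℕ) : (pre F k).length = k := by simp [pre]

theorem e3_take_pre (F : ℕ → ℕ) {j k : ℕ} (h : j ≤ k) : (pre F k).take j = pre F j := by
  rw [pre, ← List.map_take, List.take_range, min_eq_left h, pre]

theorem UR_pre (e n : ℕ) (f : ℕ → ℕ) : (∃ k, UR e n (pre f k)) ↔
    ∃ j k, Nat.Partrec.Code.evaln k (Denumerable.ofNat Nat.Partrec.Code e)
      (Encodable.encode (n, pre f j)) = some 1 := by
  constructor
  · rintro ⟨k, j, hj, h⟩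
    rw [e3_length_pre] at hj h
    rw [e3_take_pre f hj] at h
    exact ⟨j, k, h⟩
  · rintro ⟨j, k, h⟩
    refine ⟨max j k, j, ?_, ?_⟩
    · rw [e3_length_pre]; exact le_max_left _ _
    · rw [e3_length_pre, e3_take_pre f (le_max_left _ _)]
      exact evaln_mono' (le_max_right _ _) h

theorem O_complete {P : α → Prop} (h : Pih (fun (a : α) (_ : ℕ → ℕ) => P a)) :
    ∃ g : α → ℕ, Computable g ∧ ∀ a, P a ↔ g a ∈ O := by
  obtain ⟨R, hR, hP⟩ := pih_normal h
  -- the relation on numbers
  obtain ⟨f, hf, ef⟩ := e3_cp_iff.1 hR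
  have h1 : ComputablePred (fun x : ℕ × List ℕ =>
      (Option.casesOn (motive := fun _ => Bool) (Encodable.decode (α := α) x.1) false
        (fun a => f (a, x.2))) = true) := by
    apply e3_cp_eq _ (Computable.const true)
    apply Computable.option_casesOn (Computable.decode.comp Computable.fst)
      (Computable.const false)
    have h2 : Computable (fun x : (ℕ × List ℕ) × α => f (x.2, x.1.2)) :=
      hf.comp (Computable.snd.pair (Computable.snd.comp Computable.fst))
    exact h2
  obtain ⟨c, hc⟩ := e3_exists_code h1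
  refine ⟨fun a => Nat.pair (Encodable.encode c) (Encodable.encode a), ?_, fun a => ?_⟩
  · exact (Primrec₂.natPair.to_comp).comp (Computable.const _) Computable.encode
  · rw [hP a]
    show _ ↔ ∀ f : ℕ → ℕ, ∃ k, UR _ _ (pre f k)
    apply forall_congr'
    intro F
    rw [UR_pre, Nat.unpair_pair, Denumerable.ofNat_encode]
    apply exists_congr
    intro j
    have h3 := hc (Encodable.encode a, pre F j)
    simp only [Encodable.encodek] at h3
    rw [ef, ← h3]

theorem e3_cp_UR : ComputablePred (fun x : ℕ × List ℕ => UR x.1.unpair.1 x.1.unpair.2 x.2) := by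
  have h1 : ComputablePred (fun x : (ℕ × List ℕ) × ℕ =>
      Nat.Partrec.Code.evaln x.1.2.length (Denumerable.ofNat Nat.Partrec.Code x.1.1.unpair.1)
        (Encodable.encode (x.1.1.unpair.2, x.1.2.take x.2)) = some 1) := by
    apply e3_cp_eq _ (Computable.const _)
    have hl : Computable (fun x : (ℕ × List ℕ) × ℕ => x.1.2) :=
      Computable.snd.comp Computable.fst
    have hn : Computable (fun x : (ℕ × List ℕ) × ℕ => x.1.1.unpair) :=
      Computable.unpair.comp (Computable.fst.comp Computable.fst)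
    refine (Nat.Partrec.Code.primrec_evaln.to_comp).comp (Computable.pair (Computable.pair
      (Computable.list_length.comp hl) ((Computable.ofNat _).comp (Computable.fst.comp hn)))
      (Computable.encode.comp (Computable.pair (Computable.snd.comp hn)
        (Primrec.list_take.to_comp.comp Computable.snd hl))))
  refine (e3_cp_exists_lt h1 (f := fun x => x.2.length + 1)
    (Computable.succ.comp (Computable.list_length.comp Computable.snd))).of_eq fun x => ?_
  simp only [UR, Nat.lt_succ_iff]

theorem pih_O : Pih (fun (n : ℕ) (_ : ℕ → ℕ) => n ∈ O) :=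
  (isPi11_iff O).1 ⟨fun x => UR x.1.unpair.1 x.1.unpair.2 x.2, e3_cp_UR, fun _ => Iff.rfl⟩

/-! ### Prefixes of `O` -/

open Classical in
/-- the characteristic function of `O` on the numbers below `n` -/
noncomputable def chO (n : ℕ) : List Bool := (List.range n).map (fun i => decide (i ∈ O))

theorem length_chO (n : ℕ) : (chO n).length = n := by simp [chO]

theorem prefO_chO (n : ℕ) : PrefO (chO n) := by
  intro i h
  simp [chO]

theorem take_chO {i n : ℕ} (h : i ≤ n) : (chO n).take i = chO i := by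
  rw [chO, ← List.map_take, List.take_range, min_eq_left h, chO]

theorem PrefO.eq {ρ : List Bool} (h : PrefO ρ) : ρ = chO ρ.length := by
  apply List.ext_getElem (length_chO _).symm
  intro i h1 h2
  rw [Bool.eq_iff_iff, h i h1, prefO_chO _ i h2]

theorem PrefO.get {ρ : List Bool} (h : PrefO ρ) {i : ℕ} {b : Bool} (hb : ρ[i]? = some b) :
    b = true ↔ i ∈ O := by
  obtain ⟨h1, h2⟩ := List.getElem?_eq_some_iff.1 hb
  rw [← h2]
  exact h i h1

theorem ex_prefO {M : List Bool → Prop} : (∃ ρ, PrefO ρ ∧ M ρ) ↔ ∃ n, M (chO n) := by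
  constructor
  · rintro ⟨ρ, h, hM⟩
    refine ⟨ρ.length, ?_⟩
    rwa [← h.eq]
  · rintro ⟨n, h⟩
    exact ⟨chO n, prefO_chO n, h⟩

theorem ex_take {M : List Bool → Prop} (n : ℕ) :
    (∃ i < (chO n).length + 1, M ((chO n).take i)) ↔ ∃ i ≤ n, M (chO i) := by
  rw [length_chO]
  constructor
  · rintro ⟨i, hi, h⟩
    exact ⟨i, by omega, by rwa [take_chO (by omega)] at h⟩
  · rintro ⟨i, hi, h⟩
    exact ⟨i, by omega, by rwa [take_chO (by omega)]⟩

theorem getElem?_chO {i n : ℕ} (h : i < n) (b : Bool) :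
    (chO n)[i]? = some b ↔ (b = true ↔ i ∈ O) := by
  classical
  rw [chO, List.getElem?_map, List.getElem?_range h, Option.map_some, Option.some_inj,
    Bool.eq_iff_iff, decide_eq_true_iff]
  tauto

/-! ### Relations recursively enumerable in `O` -/

theorem CEO.congr {P Q : α → Prop} (h : CEO P) (e : ∀ a, P a ↔ Q a) : CEO Q := by
  obtain ⟨M, hM, h1⟩ := h
  exact ⟨M, hM, fun a => by rw [← e, h1]⟩

theorem CEO.of_pih {P : α → Prop} (h : Pih (fun (a : α) (_ : ℕ → ℕ) => P a)) : CEO P := by
  obtain ⟨g, hg, e⟩ := O_complete h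
  refine ⟨fun x => x.2[g x.1]? = some true, ?_, fun a => ?_⟩
  · exact e3_cp_eq (Computable.list_getElem?.comp Computable.snd (hg.comp Computable.fst))
      (Computable.const _)
  · rw [e, ex_prefO (M := fun ρ => ρ[g a]? = some true)]
    constructor
    · intro h1
      exact ⟨g a + 1, (getElem?_chO (by omega) _).2 (by simpa using h1)⟩
    · rintro ⟨n, h1⟩
      simpa using (prefO_chO n).get h1

theorem CEO.of_sig {P : α → Prop} (h : Sig (fun (a : α) (_ : ℕ → ℕ) => P a)) : CEO P := by
  obtain ⟨g, hg, e⟩ := O_complete (P := fun a => ¬ P a)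
    (Sig.not (P := fun (a : α) (_ : ℕ → ℕ) => P a) h)
  refine ⟨fun x => x.2[g x.1]? = some false, ?_, fun a => ?_⟩
  · exact e3_cp_eq (Computable.list_getElem?.comp Computable.snd (hg.comp Computable.fst))
      (Computable.const _)
  · rw [← not_iff_not, e, ex_prefO (M := fun ρ => ρ[g a]? = some false), not_exists]
    constructor
    · intro h1 n h2
      have := (prefO_chO n).get h2
      simp [h1] at this
    · intro h1
      by_contra h2
      exact h1 (g a + 1) ((getElem?_chO (by omega) _).2 (by simpa using h2))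

theorem e3_cp_take {M : α × List Bool → Prop} (hM : ComputablePred M) :
    ComputablePred (fun x : α × List Bool => ∃ i < x.2.length + 1, M (x.1, x.2.take i)) := by
  refine e3_cp_exists_lt (p := fun y : (α × List Bool) × ℕ => M (y.1.1, y.1.2.take y.2)) ?_
    (Computable.succ.comp (Computable.list_length.comp Computable.snd))
  exact e3_cp_comp hM (Computable.pair (Computable.fst.comp Computable.fst)
    (Primrec.list_take.to_comp.comp Computable.snd (Computable.snd.comp Computable.fst)))

theorem CEO.and {P Q : α → Prop} (h : CEO P) (h' : CEO Q) : CEO (fun a => P a ∧ Q a) := by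
  obtain ⟨M, hM, e⟩ := h
  obtain ⟨N, hN, e'⟩ := h'
  refine ⟨fun x => (∃ i < x.2.length + 1, M (x.1, x.2.take i)) ∧
    (∃ i < x.2.length + 1, N (x.1, x.2.take i)), e3_cp_and (e3_cp_take hM) (e3_cp_take hN), fun a => ?_⟩
  show P a ∧ Q a ↔ ∃ ρ, PrefO ρ ∧ ((∃ i < ρ.length + 1, M (a, ρ.take i)) ∧
      (∃ i < ρ.length + 1, N (a, ρ.take i)))
  rw [e, e', ex_prefO (M := fun ρ => M (a, ρ)), ex_prefO (M := fun ρ => N (a, ρ)),
    ex_prefO (M := fun ρ => (∃ i < ρ.length + 1, M (a, ρ.take i)) ∧
      (∃ i < ρ.length + 1, N (a, ρ.take i)))]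
  constructor
  · rintro ⟨⟨m, hm⟩, ⟨n, hn⟩⟩
    exact ⟨max m n, (ex_take (M := fun ρ => M (a, ρ)) _).2 ⟨m, le_max_left _ _, hm⟩,
      (ex_take (M := fun ρ => N (a, ρ)) _).2 ⟨n, le_max_right _ _, hn⟩⟩
  · rintro ⟨k, h1, h2⟩
    obtain ⟨m, -, hm⟩ := (ex_take (M := fun ρ => M (a, ρ)) _).1 h1
    obtain ⟨n, -, hn⟩ := (ex_take (M := fun ρ => N (a, ρ)) _).1 h2
    exact ⟨⟨m, hm⟩, ⟨n, hn⟩⟩

theorem CEO.or {P Q : α → Prop} (h : CEO P) (h' : CEO Q) : CEO (fun a => P a ∨ Q a) := by
  obtain ⟨M, hM, e⟩ := h
  obtain ⟨N, hN, e'⟩ := h'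
  refine ⟨fun x => M x ∨ N x, e3_cp_or hM hN, fun a => ?_⟩
  show P a ∨ Q a ↔ ∃ ρ, PrefO ρ ∧ (M (a, ρ) ∨ N (a, ρ))
  rw [e, e', ← exists_or]
  apply exists_congr
  intro ρ
  tauto

theorem CEO.ex {P : α → β → Prop} (h : CEO (fun (p : α × β) => P p.1 p.2)) :
    CEO (fun a => ∃ b, P a b) := by
  obtain ⟨M, hM, e⟩ := h
  obtain ⟨f, hf, ef⟩ := e3_cp_iff.1 (e3_cp_take hM)
  have e' : ∀ a b, P a b ↔ ∃ n, M ((a, b), chO n) := fun a b =>
    (e (a, b)).trans (ex_prefO (M := fun ρ => M ((a, b), ρ)))
  refine ⟨fun x => ∃ m < x.2.length, (Option.casesOn (motive := fun _ => Bool)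
    (Encodable.decode (α := β) m) false (fun b => f ((x.1, b), x.2))) = true, ?_, fun a => ?_⟩
  · refine e3_cp_exists_lt (p := fun y : (α × List Bool) × ℕ =>
      (Option.casesOn (motive := fun _ => Bool)
        (Encodable.decode (α := β) y.2) false (fun b => f ((y.1.1, b), y.1.2))) = true) ?_
      (Computable.list_length.comp Computable.snd)
    apply e3_cp_eq _ (Computable.const true)
    apply Computable.option_casesOn (Computable.decode.comp Computable.snd)
      (Computable.const false)
    have h2 : Computable (fun x : ((α × List Bool) × ℕ) × β => f ((x.1.1.1, x.2), x.1.1.2)) :=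
      hf.comp (Computable.pair (Computable.pair
        (Computable.fst.comp (Computable.fst.comp Computable.fst)) Computable.snd)
        (Computable.snd.comp (Computable.fst.comp Computable.fst)))
    exact h2
  · rw [ex_prefO (M := fun ρ => ∃ m < ρ.length, (Option.casesOn (motive := fun _ => Bool)
      (Encodable.decode (α := β) m) false (fun b => f ((a, b), ρ))) = true)]
    constructor
    · rintro ⟨b, hb⟩
      rw [e'] at hb
      obtain ⟨n, hn⟩ := hb
      refine ⟨max n (Encodable.encode b + 1), Encodable.encode b, ?_, ?_⟩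
      · rw [length_chO]
        omega
      · rw [Encodable.encodek]
        apply (ef _).1
        exact (ex_take (M := fun ρ => M ((a, b), ρ)) _).2 ⟨n, le_max_left _ _, hn⟩
    · rintro ⟨n, m, -, h1⟩
      rcases hd : (Encodable.decode (α := β) m) with _ | b
      · rw [hd] at h1
        simp at h1
      · rw [hd] at h1
        have h2 := (ef _).2 h1
        obtain ⟨k, -, hk⟩ := (ex_take (M := fun ρ => M ((a, b), ρ)) _).1 h2
        refine ⟨b, ?_⟩
        rw [e']
        exact ⟨k, hk⟩

theorem CEO.comp {P : β → Prop} (h : CEO P) {f : α → β} (hf : Computable f) :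
    CEO (fun a => P (f a)) := by
  obtain ⟨M, hM, e⟩ := h
  exact ⟨fun x => M (f x.1, x.2), e3_cp_comp hM (Computable.pair (hf.comp Computable.fst)
    Computable.snd), fun a => e _⟩

theorem S3.comp {Z : Set ℕ} (h : S3 Z) {f : ℕ → ℕ} (hf : Computable f) : S3 {n | f n ∈ Z} := by
  obtain ⟨R, hR, e⟩ := h
  refine ⟨fun x => R (f x.1, x.2), hR.comp (f := fun x : ℕ × ℕ × ℕ => (f x.1, x.2))
    (Computable.pair (hf.comp Computable.fst) Computable.snd), fun n => ?_⟩
  exact e (f n)

/-! ### The diagonal argument -/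

/-- the universal relation -/
def MU (j a b : ℕ) (ρ : List Bool) : Prop :=
  ∃ i < ρ.length + 1, Nat.Partrec.Code.evaln ρ.length (Denumerable.ofNat Nat.Partrec.Code j)
    (Encodable.encode ((j, a, b), ρ.take i)) = some 1

theorem MU_chO (j a b n : ℕ) : MU j a b (chO n) ↔ ∃ i ≤ n,
    Nat.Partrec.Code.evaln n (Denumerable.ofNat Nat.Partrec.Code j)
      (Encodable.encode ((j, a, b), chO i)) = some 1 := by
  have := ex_take (M := fun ρ => Nat.Partrec.Code.evaln n
    (Denumerable.ofNat Nat.Partrec.Code j) (Encodable.encode ((j, a, b), ρ)) = some 1) n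
  rw [← this, MU]
  simp only [length_chO]

theorem MU_mono {j a b n m : ℕ} (h : n ≤ m) (h' : MU j a b (chO n)) : MU j a b (chO m) := by
  rw [MU_chO] at h' ⊢
  obtain ⟨i, hi, h1⟩ := h'
  exact ⟨i, hi.trans h, evaln_mono' h h1⟩

theorem ex_MU (j a b : ℕ) : (∃ n, MU j a b (chO n)) ↔ ∃ i k,
    Nat.Partrec.Code.evaln k (Denumerable.ofNat Nat.Partrec.Code j)
      (Encodable.encode ((j, a, b), chO i)) = some 1 := by
  constructor
  · rintro ⟨n, h⟩
    rw [MU_chO] at h
    obtain ⟨i, -, h⟩ := h
    exact ⟨i, n, h⟩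
  · rintro ⟨i, k, h⟩
    refine ⟨max i k, ?_⟩
    rw [MU_chO]
    exact ⟨i, le_max_left _ _, evaln_mono' (le_max_right _ _) h⟩

/-- the diagonal set -/
def DIAG : Set ℕ := {j | ∃ a, ∀ b, ∃ n, MU j a b (chO n)}

theorem not_S3_diag : ¬ S3 DIAGᶜ := by
  rintro ⟨R, ⟨M, hM, e⟩, hR⟩
  obtain ⟨c, hc⟩ := e3_exists_code hM
  have h1 := hR (Encodable.encode c)
  have h2 : Encodable.encode c ∈ DIAG ↔ ∃ a, ∀ b, R (Encodable.encode c, a, b) := by
    apply exists_congr
    intro a
    apply forall_congr'
    intro b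
    rw [ex_MU, e, ex_prefO (M := fun ρ => M ((Encodable.encode c, a, b), ρ)),
      Denumerable.ofNat_encode]
    apply exists_congr
    intro i
    exact hc ((Encodable.encode c, a, b), chO i)
  rw [← h2] at h1
  simp only [Set.mem_compl_iff] at h1
  tauto

/-- decoding -/
def dk (k : ℕ) : ℕ × List Bool := (Encodable.decode (α := ℕ × List Bool) k).getD (0, [])

theorem dk_encode (x : ℕ × List Bool) : dk (Encodable.encode x) = x := by
  simp [dk]

/-- all instances up to `n` -/
def MM (j a n : ℕ) (ρ : List Bool) : Prop := ∀ b < n + 1, MU j a b ρ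

/-- minimality -/
def Mi (j a n : ℕ) (ρ : List Bool) : Prop :=
  MM j a n ρ ∧ ∀ i < ρ.length, ¬ MM j a n (ρ.take i)

theorem e3_cp_MU : ComputablePred (fun x : ((ℕ × ℕ) × ℕ) × List Bool =>
    MU x.1.1.1 x.1.1.2 x.1.2 x.2) := by
  have h1 : ComputablePred (fun x : (((ℕ × ℕ) × ℕ) × List Bool) × ℕ =>
      Nat.Partrec.Code.evaln x.1.2.length (Denumerable.ofNat Nat.Partrec.Code x.1.1.1.1)
        (Encodable.encode ((x.1.1.1.1, x.1.1.1.2, x.1.1.2), x.1.2.take x.2)) = some 1) := by
    apply e3_cp_eq _ (Computable.const _)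
    have hl : Computable (fun x : (((ℕ × ℕ) × ℕ) × List Bool) × ℕ => x.1.2) :=
      Computable.snd.comp Computable.fst
    have h0 : Computable (fun x : (((ℕ × ℕ) × ℕ) × List Bool) × ℕ => x.1.1) :=
      Computable.fst.comp Computable.fst
    have hj : Computable (fun x : (((ℕ × ℕ) × ℕ) × List Bool) × ℕ => x.1.1.1.1) :=
      Computable.fst.comp (Computable.fst.comp h0)
    have ha : Computable (fun x : (((ℕ × ℕ) × ℕ) × List Bool) × ℕ => x.1.1.1.2) :=
      Computable.snd.comp (Computable.fst.comp h0)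
    have hb : Computable (fun x : (((ℕ × ℕ) × ℕ) × List Bool) × ℕ => x.1.1.2) :=
      Computable.snd.comp h0
    have ht : Computable (fun x : (((ℕ × ℕ) × ℕ) × List Bool) × ℕ => x.1.2.take x.2) :=
      Primrec.list_take.to_comp.comp Computable.snd hl
    have he : Computable (fun x : (((ℕ × ℕ) × ℕ) × List Bool) × ℕ =>
        Encodable.encode ((x.1.1.1.1, x.1.1.1.2, x.1.1.2), x.1.2.take x.2)) :=
      Computable.encode.comp (Computable.pair (Computable.pair hj (Computable.pair ha hb)) ht)
    have hc : Computable (fun x : (((ℕ × ℕ) × ℕ) × List Bool) × ℕ =>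
        Denumerable.ofNat Nat.Partrec.Code x.1.1.1.1) := (Computable.ofNat _).comp hj
    have hn : Computable (fun x : (((ℕ × ℕ) × ℕ) × List Bool) × ℕ => x.1.2.length) :=
      Computable.list_length.comp hl
    have hp := Computable.pair (Computable.pair hn hc) he
    have hr := (Nat.Partrec.Code.primrec_evaln.to_comp).comp hp
    exact hr
  exact e3_cp_exists_lt h1 (f := fun x => x.2.length + 1)
    (Computable.succ.comp (Computable.list_length.comp Computable.snd))

theorem e3_cp_MM : ComputablePred (fun x : ((ℕ × ℕ) × ℕ) × List Bool =>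
    MM x.1.1.1 x.1.1.2 x.1.2 x.2) := by
  refine e3_cp_forall_lt (p := fun y : (((ℕ × ℕ) × ℕ) × List Bool) × ℕ =>
    MU y.1.1.1.1 y.1.1.1.2 y.2 y.1.2) ?_ (Computable.succ.comp
      (Computable.snd.comp Computable.fst))
  have hl : Computable (fun x : (((ℕ × ℕ) × ℕ) × List Bool) × ℕ => x.1.2) :=
    Computable.snd.comp Computable.fst
  have h0 : Computable (fun x : (((ℕ × ℕ) × ℕ) × List Bool) × ℕ => x.1.1.1) :=
    Computable.fst.comp (Computable.fst.comp Computable.fst)
  exact e3_cp_comp e3_cp_MU (f := fun y : (((ℕ × ℕ) × ℕ) × List Bool) × ℕ =>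
    ((y.1.1.1, y.2), y.1.2)) (Computable.pair (Computable.pair h0 Computable.snd) hl)

theorem e3_cp_Mi : ComputablePred (fun x : ((ℕ × ℕ) × ℕ) × List Bool =>
    Mi x.1.1.1 x.1.1.2 x.1.2 x.2) := by
  refine e3_cp_and e3_cp_MM (e3_cp_forall_lt (p := fun y : (((ℕ × ℕ) × ℕ) × List Bool) × ℕ =>
    ¬ MM y.1.1.1.1 y.1.1.1.2 y.1.1.2 (y.1.2.take y.2)) ?_
    (Computable.list_length.comp Computable.snd))
  refine ComputablePred.not ?_
  have hl : Computable (fun x : (((ℕ × ℕ) × ℕ) × List Bool) × ℕ => x.1.2) :=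
    Computable.snd.comp Computable.fst
  have h0 : Computable (fun x : (((ℕ × ℕ) × ℕ) × List Bool) × ℕ => x.1.1) :=
    Computable.fst.comp Computable.fst
  exact e3_cp_comp e3_cp_MM (f := fun y : (((ℕ × ℕ) × ℕ) × List Bool) × ℕ =>
    (y.1.1, y.1.2.take y.2)) (Computable.pair h0
      (Primrec.list_take.to_comp.comp Computable.snd hl))

theorem computable_dk : Computable dk :=
  Computable.option_getD Computable.decode (Computable.const _)

/-- for every `n` there is at most one good prefix -/
theorem Mi_unique {j a n m m' : ℕ} (h : Mi j a n (chO m)) (h' : Mi j a n (chO m')) : m = m' := by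
  by_contra hne
  rcases lt_or_gt_of_ne hne with hlt | hlt
  · apply h'.2 m (by rw [length_chO]; exact hlt)
    rw [take_chO hlt.le]
    exact h.1
  · apply h.2 m' (by rw [length_chO]; exact hlt)
    rw [take_chO hlt.le]
    exact h'.1

theorem MM_mono {j a n m m' : ℕ} (h : m ≤ m') (h' : MM j a n (chO m)) : MM j a n (chO m') :=
  fun b hb => MU_mono h (h' b hb)

theorem exists_MM {j a : ℕ} (h : ∀ b, ∃ n, MU j a b (chO n)) (n : ℕ) : ∃ m, MM j a n (chO m) := by
  induction n with
  | zero =>
    obtain ⟨m, hm⟩ := h 0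
    refine ⟨m, fun b hb => ?_⟩
    obtain rfl : b = 0 := by omega
    exact hm
  | succ n ih =>
    obtain ⟨m, hm⟩ := ih
    obtain ⟨m', hm'⟩ := h (n + 1)
    refine ⟨max m m', fun b hb => ?_⟩
    rcases Nat.lt_succ_iff_lt_or_eq.1 hb with h1 | rfl
    · exact MU_mono (le_max_left _ _) (hm b h1)
    · exact MU_mono (le_max_right _ _) hm'

theorem exists_Mi {j a : ℕ} (h : ∀ b, ∃ n, MU j a b (chO n)) (n : ℕ) : ∃ m, Mi j a n (chO m) := by
  classical
  have h1 := exists_MM h n
  refine ⟨Nat.find h1, Nat.find_spec h1, fun i hi => ?_⟩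
  rw [length_chO] at hi
  rw [take_chO hi.le]
  exact Nat.find_min h1 hi

/-- the diagonal argument, in the form needed for the cylinder algebra. -/
theorem exists_diag : ∃ P Q : ℕ → ℕ → ℕ → Prop,
    Sig (fun (p : ℕ × ℕ × ℕ) (_ : ℕ → ℕ) => P p.1 p.2.1 p.2.2) ∧
    Sig (fun (p : ℕ × ℕ × ℕ) (_ : ℕ → ℕ) => Q p.1 p.2.1 p.2.2) ∧
    ¬ S3 {j | ¬ ∃ a, (Valid P Q j a).Infinite} := by
  refine ⟨fun j a k => (Encodable.encode (dk k) = k ∧ Mi j a (dk k).1 (dk k).2) ∧
      ∀ i, ¬ (dk k).2[i]? = some false ∨ ¬ i ∈ O,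
    fun j a k => ∃ i, (dk k).2[i]? = some true ∧ ¬ i ∈ O, ?_, ?_, ?_⟩
  · have hk : Computable (fun x : ℕ × ℕ × ℕ => dk x.2.2) :=
      computable_dk.comp (Computable.snd.comp Computable.snd)
    refine Sig.and (Sig.of_computable (P := fun x : ℕ × ℕ × ℕ =>
      Encodable.encode (dk x.2.2) = x.2.2 ∧ Mi x.1 x.2.1 (dk x.2.2).1 (dk x.2.2).2) ?_) ?_
    · refine e3_cp_and (e3_cp_eq (Computable.encode.comp hk) (Computable.snd.comp Computable.snd)) ?_
      exact e3_cp_comp e3_cp_Mi (f := fun x : ℕ × ℕ × ℕ => (((x.1, x.2.1), (dk x.2.2).1), (dk x.2.2).2))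
        (Computable.pair (Computable.pair (Computable.pair Computable.fst
          (Computable.fst.comp Computable.snd)) (Computable.fst.comp hk))
          (Computable.snd.comp hk))
    · refine Sig.all (P := fun (x : ℕ × ℕ × ℕ) (i : ℕ) (_ : ℕ → ℕ) =>
        ¬ (dk x.2.2).2[i]? = some false ∨ ¬ i ∈ O) ?_
      refine Sig.or (Sig.of_computable (P := fun y : (ℕ × ℕ × ℕ) × ℕ =>
        ¬ (dk y.1.2.2).2[y.2]? = some false) ?_) ?_
      · exact (e3_cp_eq (Computable.list_getElem?.comp (Computable.snd.comp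
          (hk.comp Computable.fst)) Computable.snd) (Computable.const _)).not
      · exact Sig.comp (P := fun (i : ℕ) (_ : ℕ → ℕ) => ¬ i ∈ O) pih_O.not Computable.snd
  · have hk : Computable (fun x : ℕ × ℕ × ℕ => dk x.2.2) :=
      computable_dk.comp (Computable.snd.comp Computable.snd)
    refine Sig.ex (P := fun (x : ℕ × ℕ × ℕ) (i : ℕ) (_ : ℕ → ℕ) =>
      (dk x.2.2).2[i]? = some true ∧ ¬ i ∈ O) ?_
    refine Sig.and (Sig.of_computable (P := fun y : (ℕ × ℕ × ℕ) × ℕ =>
      (dk y.1.2.2).2[y.2]? = some true) ?_) ?_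
    · exact e3_cp_eq (Computable.list_getElem?.comp (Computable.snd.comp
        (hk.comp Computable.fst)) Computable.snd) (Computable.const _)
    · exact Sig.comp (P := fun (i : ℕ) (_ : ℕ → ℕ) => ¬ i ∈ O) pih_O.not Computable.snd
  · have key : ∀ j a k, k ∈ Valid (fun j a k => (Encodable.encode (dk k) = k ∧
        Mi j a (dk k).1 (dk k).2) ∧ ∀ i, ¬ (dk k).2[i]? = some false ∨ ¬ i ∈ O)
        (fun j a k => ∃ i, (dk k).2[i]? = some true ∧ ¬ i ∈ O) j a ↔
        ∃ n m, k = Encodable.encode (n, chO m) ∧ Mi j a n (chO m) := by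
      intro j a k
      constructor
      · rintro ⟨⟨⟨h1, h2⟩, h3⟩, h4⟩
        have hp : PrefO (dk k).2 := by
          intro i hi
          constructor
          · intro h5
            by_contra h6
            exact h4 ⟨i, by rw [List.getElem?_eq_getElem hi, h5], h6⟩
          · intro h5
            by_contra h6
            rcases h3 i with h7 | h7
            · apply h7
              rw [List.getElem?_eq_getElem hi, Bool.eq_false_of_not_eq_true h6]
            · exact h7 h5
        refine ⟨(dk k).1, (dk k).2.length, ?_, ?_⟩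
        · rw [← hp.eq]
          exact h1.symm
        · rw [← hp.eq]
          exact h2
      · rintro ⟨n, m, rfl, h⟩
        refine ⟨⟨⟨?_, ?_⟩, ?_⟩, ?_⟩
        · rw [dk_encode]
        · rw [dk_encode]
          exact h
        · intro i
          rw [dk_encode]
          by_cases h1 : (chO m)[i]? = some false
          · right
            have := (prefO_chO m).get h1
            simpa using this
          · exact Or.inl h1
        · rintro ⟨i, h1, h2⟩
          rw [dk_encode] at h1
          have := (prefO_chO m).get h1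
          simp at this
          exact h2 this
    have main : {j | ¬ ∃ a, (Valid (fun j a k => (Encodable.encode (dk k) = k ∧
        Mi j a (dk k).1 (dk k).2) ∧ ∀ i, ¬ (dk k).2[i]? = some false ∨ ¬ i ∈ O)
        (fun j a k => ∃ i, (dk k).2[i]? = some true ∧ ¬ i ∈ O) j a).Infinite} = DIAGᶜ := by
      ext j
      simp only [Set.mem_compl_iff, Set.mem_ofPred_eq, DIAG]
      rw [not_iff_not]
      apply exists_congr
      intro a
      constructor
      · intro hinf b
        -- there is a valid code with first component at least `b`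
        by_contra hno
        apply hinf
        -- all valid codes have first component below `b`
        have h1 : ∀ n m, Mi j a n (chO m) → n < b := by
          intro n m h
          by_contra hb
          exact hno ⟨m, h.1 b (by omega)⟩
        classical
        have h2 : ∀ n, ∃ k, ∀ m, Mi j a n (chO m) → Encodable.encode (n, chO m) = k := by
          intro n
          by_cases h : ∃ m, Mi j a n (chO m)
          · obtain ⟨m, hm⟩ := h
            refine ⟨Encodable.encode (n, chO m), fun m' hm' => ?_⟩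
            rw [Mi_unique hm hm']
          · exact ⟨0, fun m hm => absurd ⟨m, hm⟩ h⟩
        choose K hK using h2
        apply ((Finset.range b).image K).finite_toSet.subset
        intro k hk
        rw [key] at hk
        obtain ⟨n, m, rfl, h⟩ := hk
        rw [Finset.mem_coe, Finset.mem_image]
        exact ⟨n, Finset.mem_range.2 (h1 n m h), (hK n m h).symm⟩
      · intro h
        have h1 := exists_Mi h
        choose m hm using h1
        apply Set.infinite_of_injective_forall_mem
          (f := fun n => Encodable.encode (n, chO (m n)))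
        · intro n n' he
          have := Encodable.encode_injective he
          exact congrArg Prod.fst this
        · intro n
          rw [key]
          exact ⟨n, m n, rfl, hm n⟩
    rw [main]
    exact not_S3_diag

end Pool.Agent.Lib.MP_8c048d_lc
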