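import Mathlib
import Pool.Agent.Lib.MP_8c048d_lc.Eff
import Pool.Agent.Lib.MP_8c048d_lc.Comp

/-!
# AT1: the cylinder algebra of a `Σ¹₁` tree is a `Π¹₁`-algebra
-/

set_option autoImplicit false

namespace Pool.Agent.Lib.MP_8c048d_lc

theorem nuT_algebra (T : List ℕ → Prop) (hT : Sig (fun (w : List ℕ) (_ : ℕ → ℕ) => T w)) :
    IsPi11Algebra (nuT T) := by
  refine ⟨?_, ⟨tSup, tSup_comp, ?_⟩, ⟨tInf, tInf_comp, ?_⟩, ⟨tCompl, tCompl_comp, ?_⟩, ?_⟩
  · rintro ⟨S, n, rfl⟩
    exact ⟨n, rfl⟩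
  · intro m n
    apply Subtype.ext
    ext w
    simp [nuT, evT_sup]
  · intro m n
    apply Subtype.ext
    ext w
    simp [nuT, evT_inf]
  · intro n
    apply Subtype.ext
    ext w
    simp [nuT, evT_compl]
  · rw [isPi11_iff]
    have h1 : Pih (fun (p : ℕ) (_ : ℕ → ℕ) => ∀ w : List ℕ,
        (¬ T w) ∨ evT p.unpair.1 w = evT p.unpair.2 w) := by
      apply Pih.all (P := fun (p : ℕ) (w : List ℕ) (_ : ℕ → ℕ) =>
        (¬ T w) ∨ evT p.unpair.1 w = evT p.unpair.2 w)
      apply Pih.or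
      · exact (hT.comp (f := fun p : ℕ × List ℕ => p.2) Computable.snd).not
      · apply Pih.of_computable (P := fun p : ℕ × List ℕ =>
          evT p.1.unpair.1 p.2 = evT p.1.unpair.2 p.2)
        have e1 : Computable (fun p : ℕ × List ℕ => evT p.1.unpair.1 p.2) :=
          evT_comp.comp (Computable.fst.comp (Computable.unpair.comp Computable.fst)) Computable.snd
        have e2 : Computable (fun p : ℕ × List ℕ => evT p.1.unpair.2 p.2) :=
          evT_comp.comp (Computable.snd.comp (Computable.unpair.comp Computable.fst)) Computable.snd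
        have e3 : Computable (fun p : ℕ × List ℕ =>
            decide (evT p.1.unpair.1 p.2 = evT p.1.unpair.2 p.2)) :=
          (Primrec.eq (α := Bool)).decide.to_comp.comp e1 e2
        exact ⟨inferInstance, e3⟩
    apply h1.congr
    intro p _
    constructor
    · intro h
      change nuT T p.unpair.1 = nuT T p.unpair.2
      apply Subtype.ext
      ext w
      rcases h w.1 with h2 | h2
      · exact absurd w.2 h2
      · simp [nuT, h2]
    · intro h w
      by_cases hw : T w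
      · right
        have h2 : nuT T p.unpair.1 = nuT T p.unpair.2 := h
        have h3 := congrArg Subtype.val h2
        have h4 : (⟨w, hw⟩ : {w : List ℕ // T w}) ∈ ((nuT T p.unpair.1).1 : Set _) ↔
            (⟨w, hw⟩ : {w : List ℕ // T w}) ∈ ((nuT T p.unpair.2).1 : Set _) := by rw [h3]
        simp only [nuT, Set.mem_ofPred_eq] at h4
        exact Bool.eq_iff_iff.2 h4
      · exact Or.inl hw

/-- scanning automaton; states `(phase, (c, (c', count)))` -/
def scanStep (s : ℕ × ℕ × ℕ × ℕ) (x : ℕ) : ℕ × ℕ × ℕ × ℕ :=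
  if s.1 = 0 then (if x % 2 = 0 then s else (1, x, 0, 0))
  else if s.1 = 1 then (2, s.2.1, x, 1)
  else (2, s.2.1, s.2.2.1, s.2.2.2 + 1)

/-- the scan of a word -/
def scan (v : List ℕ) : ℕ × ℕ × ℕ × ℕ := v.foldl scanStep (0, 0, 0, 0)

theorem scan2 (v : List ℕ) : ∀ (c c' n : ℕ),
    v.foldl scanStep (2, c, c', n) = (2, c, c', n + v.length) := by
  induction v with
  | nil => intro c c' n; rfl
  | cons x v ih =>
    intro c c' n
    rw [List.foldl_cons]
    have : scanStep (2, c, c', n) x = (2, c, c', n + 1) := rfl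
    rw [this, ih, List.length_cons]
    congr 3
    omega

theorem scanStep_primrec : Primrec₂ scanStep := by
  unfold scanStep
  have hs : Primrec (fun p : (ℕ × ℕ × ℕ × ℕ) × ℕ => p.1) := Primrec.fst
  have hx : Primrec (fun p : (ℕ × ℕ × ℕ × ℕ) × ℕ => p.2) := Primrec.snd
  have h1 : Primrec (fun p : (ℕ × ℕ × ℕ × ℕ) × ℕ => p.1.1) := Primrec.fst.comp hs
  have h2 : Primrec (fun p : (ℕ × ℕ × ℕ × ℕ) × ℕ => p.1.2.1) :=
    Primrec.fst.comp (Primrec.snd.comp hs)
  have h3 : Primrec (fun p : (ℕ × ℕ × ℕ × ℕ) × ℕ => p.1.2.2.1) :=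
    Primrec.fst.comp (Primrec.snd.comp (Primrec.snd.comp hs))
  have h4 : Primrec (fun p : (ℕ × ℕ × ℕ × ℕ) × ℕ => p.1.2.2.2) :=
    Primrec.snd.comp (Primrec.snd.comp (Primrec.snd.comp hs))
  refine Primrec.ite (Primrec.eq.comp h1 (Primrec.const 0)) ?_ ?_
  · refine Primrec.ite ?_ hs ?_
    · exact Primrec.eq.comp (Primrec.nat_mod.comp hx (Primrec.const 2)) (Primrec.const 0)
    · exact Primrec.pair (Primrec.const 1) (Primrec.pair hx (Primrec.const (0, 0)))
  · refine Primrec.ite (Primrec.eq.comp h1 (Primrec.const 1)) ?_ ?_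
    · exact Primrec.pair (Primrec.const 2) (Primrec.pair h2 (Primrec.pair hx (Primrec.const 1)))
    · exact Primrec.pair (Primrec.const 2) (Primrec.pair h2 (Primrec.pair h3
        (Primrec.succ.comp h4)))

theorem scan_primrec : Primrec scan := by
  unfold scan
  exact Primrec.list_foldl (f := fun v : List ℕ => v) (g := fun _ => (0, 0, 0, 0))
    (h := fun _ p => scanStep p.1 p.2) Primrec.id (Primrec.const _)
    (scanStep_primrec.comp (Primrec.fst.comp Primrec.snd) (Primrec.snd.comp Primrec.snd))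

/-- the condition on the scan -/
def KC (P Q : ℕ → ℕ → ℕ → Prop) (j : ℕ) (s : ℕ × ℕ × ℕ × ℕ) : Prop :=
  s.1 = 0 ∨ (s.2.1 % 4 = 1 ∧ s.2.2.2 ≤ 2 * j) ∨
    (s.2.1 % 4 = 3 ∧ (s.1 = 1 ∨ s.2.2.1 % 2 = 1 ∨
      (P j (s.2.1 / 4) (s.2.2.1 / 2) ∧ (s.2.2.2 ≤ 2 * j + 1 ∨ Q j (s.2.1 / 4) (s.2.2.1 / 2)))))

theorem kernT_iff (P Q : ℕ → ℕ → ℕ → Prop) (j : ℕ) (v : List ℕ) :
    KernT P Q j v ↔ KC P Q j (scan v) := by
  unfold scan
  induction v with
  | nil => simp [KernT, KC]
  | cons c v ih =>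
    rw [List.foldl_cons]
    by_cases hc : c % 2 = 0
    · have h1 : scanStep (0, 0, 0, 0) c = (0, 0, 0, 0) := by simp [scanStep, hc]
      rw [h1, ← ih, KernT]
      have h2 : ¬ c % 4 = 1 := by omega
      have h3 : ¬ c % 4 = 3 := by omega
      simp [hc, h2, h3]
    · have h1 : scanStep (0, 0, 0, 0) c = (1, c, 0, 0) := by simp [scanStep, hc]
      rw [h1, KernT]
      cases v with
      | nil =>
        simp only [List.foldl_nil, List.length_nil, PieceT, KC]
        have : ¬ (1 : ℕ) = 0 := by omega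
        simp [hc]
      | cons c' v =>
        rw [List.foldl_cons]
        have h2 : scanStep (1, c, 0, 0) c' = (2, c, c', 1) := rfl
        rw [h2, scan2]
        simp only [List.length_cons, PieceT, KC]
        have e1 : (v.length + 1 ≤ 2 * j) ↔ (1 + v.length ≤ 2 * j) := by omega
        have e2 : (v.length ≤ 2 * j) ↔ (1 + v.length ≤ 2 * j + 1) := by omega
        rw [e1, e2]
        simp [hc]

theorem treeT_sig (P Q : ℕ → ℕ → ℕ → Prop)
    (hP : Sig (fun (p : ℕ × ℕ × ℕ) (_ : ℕ → ℕ) => P p.1 p.2.1 p.2.2))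
    (hQ : Sig (fun (p : ℕ × ℕ × ℕ) (_ : ℕ → ℕ) => Q p.1 p.2.1 p.2.2)) :
    Sig (fun (w : List ℕ) (_ : ℕ → ℕ) => TreeT P Q w) := by
  have hh : Primrec (fun w : List ℕ => w.headD 0) :=
    (Primrec.option_getD.comp Primrec.list_head? (Primrec.const 0)).of_eq
      (fun w => by cases w <;> rfl)
  have ht : Primrec (fun w : List ℕ => scan w.tail) := scan_primrec.comp Primrec.list_tail
  have t1 : Primrec (fun w : List ℕ => (scan w.tail).1) := Primrec.fst.comp ht
  have t2 : Primrec (fun w : List ℕ => (scan w.tail).2.1) := Primrec.fst.comp (Primrec.snd.comp ht)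
  have t3 : Primrec (fun w : List ℕ => (scan w.tail).2.2.1) :=
    Primrec.fst.comp (Primrec.snd.comp (Primrec.snd.comp ht))
  have t4 : Primrec (fun w : List ℕ => (scan w.tail).2.2.2) :=
    Primrec.snd.comp (Primrec.snd.comp (Primrec.snd.comp ht))
  have hf : Computable (fun w : List ℕ => (w.headD 0, (scan w.tail).2.1 / 4,
      (scan w.tail).2.2.1 / 2)) :=
    (Primrec.pair hh (Primrec.pair (Primrec.nat_div.comp t2 (Primrec.const 4))
      (Primrec.nat_div.comp t3 (Primrec.const 2)))).to_comp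
  have d1 : PrimrecPred (fun w : List ℕ => (scan w.tail).1 = 0) :=
    Primrec.eq.comp t1 (Primrec.const 0)
  have d2 : PrimrecPred (fun w : List ℕ => (scan w.tail).2.1 % 4 = 1) :=
    Primrec.eq.comp (Primrec.nat_mod.comp t2 (Primrec.const 4)) (Primrec.const 1)
  have d3 : PrimrecPred (fun w : List ℕ => (scan w.tail).2.1 % 4 = 3) :=
    Primrec.eq.comp (Primrec.nat_mod.comp t2 (Primrec.const 4)) (Primrec.const 3)
  have d4 : PrimrecPred (fun w : List ℕ => (scan w.tail).1 = 1) :=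
    Primrec.eq.comp t1 (Primrec.const 1)
  have d5 : PrimrecPred (fun w : List ℕ => (scan w.tail).2.2.1 % 2 = 1) :=
    Primrec.eq.comp (Primrec.nat_mod.comp t3 (Primrec.const 2)) (Primrec.const 1)
  have d6 : PrimrecPred (fun w : List ℕ => (scan w.tail).2.2.2 ≤ 2 * w.headD 0) :=
    Primrec.nat_le.comp t4 (Primrec.nat_mul.comp (Primrec.const 2) hh)
  have d7 : PrimrecPred (fun w : List ℕ => (scan w.tail).2.2.2 ≤ 2 * w.headD 0 + 1) :=
    Primrec.nat_le.comp t4 (Primrec.succ.comp (Primrec.nat_mul.comp (Primrec.const 2) hh))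
  have d0 : PrimrecPred (fun w : List ℕ => w = []) := Primrec.eq.comp Primrec.id (Primrec.const [])
  have toS : ∀ {p : List ℕ → Prop}, PrimrecPred p → Sig (fun (w : List ℕ) (_ : ℕ → ℕ) => p w) := by
    intro p hp
    apply Sig.of_computable
    exact hp.computablePred
  have sP : Sig (fun (w : List ℕ) (_ : ℕ → ℕ) => P (w.headD 0) ((scan w.tail).2.1 / 4)
      ((scan w.tail).2.2.1 / 2)) := hP.comp hf
  have sQ : Sig (fun (w : List ℕ) (_ : ℕ → ℕ) => Q (w.headD 0) ((scan w.tail).2.1 / 4)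
      ((scan w.tail).2.2.1 / 2)) := hQ.comp hf
  have key : Sig (fun (w : List ℕ) (_ : ℕ → ℕ) => w = [] ∨ KC P Q (w.headD 0) (scan w.tail)) := by
    apply Sig.or (toS d0)
    apply Sig.or (toS d1)
    apply Sig.or (Sig.and (toS d2) (toS d6))
    apply Sig.and (toS d3)
    apply Sig.or (toS d4)
    apply Sig.or (toS d5)
    exact Sig.and sP (Sig.or (toS d7) sQ)
  apply key.congr
  intro w _
  cases w with
  | nil => simp [TreeT]
  | cons j v =>
    simp only [TreeT, List.headD_cons, List.tail_cons]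
    rw [kernT_iff]
    simp

end Pool.Agent.Lib.MP_8c048d_lc
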