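import Mathlib
import Pool.Agent.Lib.MP_8c048d_lc.Base

/-!
# AT2: the invariant of the cylinder algebra
-/

set_option autoImplicit false

namespace Pool.Agent.Lib.MP_8c048d_lc

namespace Cyl2

theorem top_nle (n : ℕ) : ¬ (⊤ : ℕ∞) ≤ (n : ℕ∞) := by
  rw [not_le]
  exact lt_top_iff_ne_top.2 (ENat.natCast_ne_top n)

/-! ### Boolean terms depend on finitely many words -/

/-- `w` and `w'` have the same prefixes in `D`. -/
def Agree (D : Finset (List ℕ)) (w w' : List ℕ) : Prop := ∀ σ ∈ D, (σ <+: w ↔ σ <+: w')

theorem exists_supp0 (n : ℕ) : ∃ D : Finset (List ℕ),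
    ∀ w w', Agree D w w' → evT n w = evT n w' := by
  induction n using Nat.strong_induction_on with
  | _ n ih =>
    by_cases h0 : n = 0
    · refine ⟨∅, fun w w' _ => ?_⟩
      subst h0
      rw [evT_zero, evT_zero]
    have hl : (n / 4).unpair.1 < n := by
      have := Nat.unpair_left_le (n / 4)
      omega
    have hr : (n / 4).unpair.2 < n := by
      have := Nat.unpair_right_le (n / 4)
      omega
    by_cases h1 : n % 4 = 0
    · have e : ∀ w, evT n w = (Denumerable.ofNat (List ℕ) (n / 4 - 1)).isPrefixOf w := by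
        intro w
        rw [evT, dif_neg h0, if_pos h1]
      refine ⟨{Denumerable.ofNat (List ℕ) (n / 4 - 1)}, fun w w' h => ?_⟩
      rw [e, e, Bool.eq_iff_iff, List.isPrefixOf_iff_prefix, List.isPrefixOf_iff_prefix]
      exact h _ (Finset.mem_singleton_self _)
    by_cases h2 : n % 4 = 1
    · have e : ∀ w, evT n w = !(evT (n / 4) w) := by
        intro w
        rw [evT, dif_neg h0, if_neg h1, if_pos h2]
      obtain ⟨D, hD⟩ := ih (n / 4) (by omega)
      exact ⟨D, fun w w' h => by rw [e, e, hD w w' h]⟩
    obtain ⟨D1, hD1⟩ := ih _ hl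
    obtain ⟨D2, hD2⟩ := ih _ hr
    refine ⟨D1 ∪ D2, fun w w' h => ?_⟩
    have a1 := hD1 w w' (fun σ hσ => h σ (Finset.mem_union_left _ hσ))
    have a2 := hD2 w w' (fun σ hσ => h σ (Finset.mem_union_right _ hσ))
    by_cases h3 : n % 4 = 2
    · have e : ∀ w, evT n w = (evT (n / 4).unpair.1 w || evT (n / 4).unpair.2 w) := by
        intro w
        rw [evT, dif_neg h0, if_neg h1, if_neg h2, if_pos h3]
      rw [e, e, a1, a2]
    · have e : ∀ w, evT n w = (evT (n / 4).unpair.1 w && evT (n / 4).unpair.2 w) := by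
        intro w
        rw [evT, dif_neg h0, if_neg h1, if_neg h2, if_neg h3]
      rw [e, e, a1, a2]

theorem exists_supp (n : ℕ) : ∃ D : Finset (List ℕ), [] ∈ D ∧
    (∀ σ ∈ D, ∀ τ, τ <+: σ → τ ∈ D) ∧ ∀ w w', Agree D w w' → evT n w = evT n w' := by
  classical
  obtain ⟨D, hD⟩ := exists_supp0 n
  refine ⟨insert [] (D.biUnion fun σ => σ.inits.toFinset), Finset.mem_insert_self _ _, ?_, ?_⟩
  · intro σ hσ τ hτ
    rw [Finset.mem_insert, Finset.mem_biUnion] at hσ ⊢
    rcases hσ with rfl | ⟨ρ, hρ, h⟩
    · left
      exact List.prefix_nil.1 hτ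
    · right
      refine ⟨ρ, hρ, ?_⟩
      rw [List.mem_toFinset, List.mem_inits] at h ⊢
      exact hτ.trans h
  · intro w w' h
    refine hD w w' (fun σ hσ => h σ ?_)
    rw [Finset.mem_insert, Finset.mem_biUnion]
    right
    refine ⟨σ, hσ, ?_⟩
    rw [List.mem_toFinset, List.mem_inits]

theorem exists_longest {D : Finset (List ℕ)} (h0 : [] ∈ D) (w : List ℕ) :
    ∃ w' ∈ D, w' <+: w ∧ ∀ σ ∈ D, σ <+: w → σ <+: w' := by
  classical
  obtain ⟨w', hw', hmax⟩ := Finset.exists_max_image (D.filter fun σ => σ <+: w) List.length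
    ⟨[], Finset.mem_filter.2 ⟨h0, List.nil_prefix⟩⟩
  rw [Finset.mem_filter] at hw'
  refine ⟨w', hw'.1, hw'.2, fun σ hσ h => ?_⟩
  exact List.prefix_of_prefix_length_le h hw'.2 (hmax σ (Finset.mem_filter.2 ⟨hσ, h⟩))

theorem agree_between {D : Finset (List ℕ)} {w w' x : List ℕ}
    (hmax : ∀ σ ∈ D, σ <+: w → σ <+: w') (h1 : w' <+: x) (h2 : x <+: w) : Agree D x w :=
  fun σ hσ => ⟨fun h => h.trans h2, fun h => (hmax σ hσ h).trans h1⟩

theorem agree_child {D : Finset (List ℕ)} (hD : ∀ σ ∈ D, ∀ τ, τ <+: σ → τ ∈ D) {w : List ℕ}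
    {i : ℕ} (hi : w ++ [i] ∉ D) (v : List ℕ) : Agree D w (w ++ i :: v) := by
  intro σ hσ
  refine ⟨fun h => h.trans (List.prefix_append _ _), fun h => ?_⟩
  rcases Nat.lt_or_ge w.length σ.length with hl | hl
  · exfalso
    apply hi
    refine hD σ hσ _ ?_
    refine List.prefix_of_prefix_length_le (l₃ := w ++ i :: v) ?_ h ?_
    · exact ⟨v, by simp⟩
    · simp
      omega
  · exact List.prefix_of_prefix_length_le h (List.prefix_append _ _) hl

theorem finite_children (D : Finset (List ℕ)) (w : List ℕ) : {i | w ++ [i] ∈ D}.Finite := by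
  refine Set.Finite.preimage (f := fun i : ℕ => w ++ [i]) ?_ D.finite_toSet
  intro a _ b _ h
  simpa using h

/-! ### Membership in the cylinder algebra -/

variable {T : List ℕ → Prop}

/-- The word `w` belongs to the element `U` of the cylinder algebra. -/
def inU (U : AT T) (w : List ℕ) : Prop := ∃ h : T w, (⟨w, h⟩ : {w : List ℕ // T w}) ∈ U.1

theorem le_iff (U V : AT T) : U ≤ V ↔ ∀ w, inU U w → inU V w := by
  constructor
  · rintro h w ⟨h1, h2⟩
    exact ⟨h1, h h2⟩
  · intro h w hw
    obtain ⟨h1, h2⟩ := h w.1 ⟨w.2, hw⟩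
    exact h2

theorem not_bot (w : List ℕ) : ¬ inU (⊥ : AT T) w := by
  rintro ⟨h1, h2⟩
  exact h2

theorem eq_bot {U : AT T} (h : ∀ w, ¬ inU U w) : U = ⊥ := by
  rw [eq_bot_iff, le_iff]
  intro w hw
  exact absurd hw (h w)

theorem disj {U V : AT T} (h : Disjoint U V) (w : List ℕ) (h1 : inU U w) (h2 : inU V w) :
    False := by
  obtain ⟨a1, a2⟩ := h1
  obtain ⟨b1, b2⟩ := h2
  have h3 : U ⊓ V ≤ ⊥ := h.le_bot
  exact not_bot w ⟨a1, h3 ⟨a2, b2⟩⟩

/-- The cylinder of `σ`. -/
def cyl (T : List ℕ → Prop) (σ : List ℕ) : AT T := nuT T (tCyl σ)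

theorem in_cyl (σ w : List ℕ) : inU (cyl T σ) w ↔ T w ∧ σ <+: w := by
  constructor
  · rintro ⟨h1, h2⟩
    refine ⟨h1, ?_⟩
    have h3 : evT (tCyl σ) w = true := h2
    rw [evT_cyl] at h3
    exact List.isPrefixOf_iff_prefix.1 h3
  · rintro ⟨h1, h2⟩
    refine ⟨h1, ?_⟩
    change evT (tCyl σ) w = true
    rw [evT_cyl]
    exact List.isPrefixOf_iff_prefix.2 h2

theorem supp (U : AT T) : ∃ D : Finset (List ℕ), [] ∈ D ∧
    (∀ σ ∈ D, ∀ τ, τ <+: σ → τ ∈ D) ∧
    ∀ w w', Agree D w w' → T w' → inU U w → inU U w' := by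
  obtain ⟨S, n, rfl⟩ := U
  obtain ⟨D, h0, h1, h2⟩ := exists_supp n
  refine ⟨D, h0, h1, fun w w' ha hT hw => ?_⟩
  obtain ⟨a1, a2⟩ := hw
  refine ⟨hT, ?_⟩
  have a3 : evT n w = true := a2
  change evT n w' = true
  rw [← h2 w w' ha, a3]

/-- All but finitely many children cylinders of a node of `U` are contained in `U`. -/
theorem children (U : AT T) {w : List ℕ} (hw : inU U w) :
    {i | ¬ cyl T (w ++ [i]) ≤ U}.Finite := by
  obtain ⟨D, _, h1, h2⟩ := supp U
  refine (finite_children D w).subset ?_
  intro i hi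
  by_contra hc
  apply hi
  rw [le_iff]
  intro x hx
  rw [in_cyl] at hx
  obtain ⟨v, rfl⟩ := hx.2
  have e : w ++ [i] ++ v = w ++ i :: v := by simp
  rw [e] at hx ⊢
  exact h2 w _ (agree_child h1 hc v) hx.1 hw

/-! ### Ranked trees -/

/-- The properties of the rank function which are used for the computation of the ideals. -/
structure Ranked (T : List ℕ → Prop) (ρ : List ℕ → ℕ∞) : Prop where
  pre : ∀ w v, T (w ++ v) → T w
  a0 : ∀ w, T w → ρ w = 0 → {i | T (w ++ [i])}.Infinite
  a2 : ∀ w (m : ℕ), T w → ((m + 2 : ℕ) : ℕ∞) ≤ ρ w →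
    {i | T (w ++ [i]) ∧ ((m + 1 : ℕ) : ℕ∞) ≤ ρ (w ++ [i])}.Infinite
  a4 : ∀ w', T w' → ∀ m : ℕ, 1 ≤ m →
    {w | T w ∧ w' <+: w ∧ ρ w = m ∧ ∀ x, w' <+: x → x <+: w → ρ x ≤ m}.Finite
  a6 : ∀ w, T w → 1 ≤ ρ w → (∀ i, ¬ T (w ++ [i])) ∨
    {i | ∃ v, T (w ++ i :: v) ∧ ∀ k, ¬ T (w ++ i :: v ++ [k])}.Infinite
  a7 : ∀ w', T w' → ρ w' ≠ ⊤ → ∃ M : ℕ, ∀ w, T w → w' <+: w → ρ w ≤ M

variable {ρ : List ℕ → ℕ∞}

theorem infinite_inter {A B : Set ℕ} (hA : A.Infinite) (hB : {i | ¬ i ∈ B}.Finite) :
    (A ∩ B).Infinite := by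
  intro hf
  apply hA
  refine (hf.union hB).subset ?_
  intro i hi
  by_cases h : i ∈ B
  · exact Or.inl ⟨hi, h⟩
  · exact Or.inr h

theorem leaf_atom (h : Ranked T ρ) {w : List ℕ} (hw : T w) (hl : ∀ k, ¬ T (w ++ [k])) :
    IsAtom (cyl T w) := by
  have huniq : ∀ x, inU (cyl T w) x → x = w := by
    intro x hx
    rw [in_cyl] at hx
    obtain ⟨v, rfl⟩ := hx.2
    cases v with
    | nil => simp
    | cons k v =>
      exfalso
      apply hl k
      apply h.pre (w ++ [k]) v
      have : w ++ [k] ++ v = w ++ k :: v := by simp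
      rw [this]
      exact hx.1
  have hin : inU (cyl T w) w := (in_cyl _ _).2 ⟨hw, List.prefix_rfl⟩
  constructor
  · intro hb
    rw [hb] at hin
    exact not_bot w hin
  · intro V hV
    apply eq_bot
    intro x hx
    have hle := (le_iff _ _).1 hV.le
    have hx' := huniq x (hle x hx)
    subst hx'
    apply hV.not_ge
    rw [le_iff]
    intro y hy
    rw [huniq y hy]
    exact hx

theorem NI_zero (h : Ranked T ρ) (U : AT T) : NI 0 U ↔ ∀ w, inU U w → ρ w ≤ (0 : ℕ) := by
  constructor
  · intro hU w hw
    by_contra hc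
    have h1 : 1 ≤ ρ w := by
      rw [Order.one_le_iff_ne_zero]
      intro h0
      apply hc
      rw [h0]
      simp
    have hT := hw.1
    rcases h.a6 w hT h1 with hl | hinf
    · refine hU (cyl T w) ?_ (leaf_atom h hT hl)
      rw [le_iff]
      intro x hx
      rw [in_cyl] at hx
      obtain ⟨v, rfl⟩ := hx.2
      cases v with
      | nil => simpa using hw
      | cons k v =>
        exfalso
        apply hl k
        apply h.pre (w ++ [k]) v
        have : w ++ [k] ++ v = w ++ k :: v := by simp
        rw [this]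
        exact hx.1
    · obtain ⟨i, hi1, hi2⟩ := (infinite_inter (B := {i | cyl T (w ++ [i]) ≤ U}) hinf
        (children U hw)).nonempty
      obtain ⟨v, hv1, hv2⟩ := hi1
      refine hU (cyl T (w ++ i :: v)) ?_ (leaf_atom h hv1 hv2)
      refine le_trans ?_ (show cyl T (w ++ [i]) ≤ U from hi2)
      rw [le_iff]
      intro x hx
      rw [in_cyl] at hx ⊢
      refine ⟨hx.1, List.IsPrefix.trans ?_ hx.2⟩
      exact ⟨v, by simp⟩
  · intro hU A hA hat
    have hne : ∃ w, inU A w := by
      by_contra hc
      push Not at hc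
      exact hat.1 (eq_bot hc)
    obtain ⟨w, hw⟩ := hne
    have h0 : ρ w = 0 := by
      have := hU w ((le_iff _ _).1 hA w hw)
      simpa using this
    obtain ⟨i, hi1, hi2⟩ := (infinite_inter (B := {i | cyl T (w ++ [i]) ≤ A})
      (h.a0 w hw.1 h0) (children A hw)).nonempty
    have hlt : cyl T (w ++ [i]) < A := by
      refine lt_of_le_not_ge hi2 ?_
      intro hge
      have := (le_iff _ _).1 hge w hw
      rw [in_cyl] at this
      have hlen := this.2.length_le
      simp at hlen
    have hbot := hat.2 _ hlt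
    have : inU (cyl T (w ++ [i])) (w ++ [i]) := (in_cyl _ _).2 ⟨hi1, List.prefix_rfl⟩
    rw [hbot] at this
    exact not_bot _ this

theorem finite_top (h : Ranked T ρ) (U : AT T) {m : ℕ} (hm : 1 ≤ m)
    (hU : ∀ w, inU U w → ρ w ≤ m) : {w | inU U w ∧ ρ w = m}.Finite := by
  obtain ⟨D, h0, _, h2⟩ := supp U
  have hfin : (⋃ w' ∈ D, {w | T w' ∧ T w ∧ w' <+: w ∧ ρ w = m ∧
      ∀ x, w' <+: x → x <+: w → ρ x ≤ m}).Finite := by
    refine Set.Finite.biUnion D.finite_toSet ?_
    intro w' _
    by_cases hT : T w'
    · refine (h.a4 w' hT m hm).subset ?_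
      rintro w ⟨_, hw⟩
      exact hw
    · refine Set.finite_empty.subset ?_
      rintro w ⟨hw, _⟩
      exact absurd hw hT
  refine hfin.subset ?_
  rintro w ⟨hw1, hw2⟩
  obtain ⟨w', hw', hpre, hmax⟩ := exists_longest h0 w
  have hpreT : ∀ x, x <+: w → T x := by
    rintro x ⟨v, rfl⟩
    exact h.pre x v hw1.1
  refine Set.mem_biUnion hw' ⟨hpreT w' hpre, hw1.1, hpre, hw2, ?_⟩
  intro x hx1 hx2
  apply hU
  refine h2 w x ?_ (hpreT x hx2) hw1
  intro σ hσ
  exact (agree_between hmax hx1 hx2 σ hσ).symm

theorem NI_iff (h : Ranked T ρ) (r : ℕ) : ∀ U : AT T, NI r U ↔ ∀ w, inU U w → ρ w ≤ r := by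
  induction r with
  | zero => exact NI_zero h
  | succ r ih =>
    intro U
    constructor
    · rintro ⟨n, hn⟩ w hw
      by_contra hc
      have h2 : ((r + 2 : ℕ) : ℕ∞) ≤ ρ w := by
        rw [not_le] at hc
        have := Order.add_one_le_of_lt hc
        refine le_trans (le_of_eq ?_) this
        push_cast
        ring
      have hinf := infinite_inter (B := {i | cyl T (w ++ [i]) ≤ U}) (h.a2 w r hw.1 h2)
        (children U hw)
      obtain ⟨f, hf⟩ := hinf.exists_subset_card_eq (n + 1)
      let e := f.orderEmbOfFin hf.2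
      obtain ⟨i, hi⟩ := hn (fun i => cyl T (w ++ [e i])) (fun i => (hf.1 (f.orderEmbOfFin_mem
        hf.2 i)).2) (by
          intro i j hij
          rw [disjoint_iff]
          apply eq_bot
          rintro x ⟨hx1, hx2⟩
          have hx3 : inU (cyl T (w ++ [e i])) x := ⟨hx1, hx2.1⟩
          have hx4 : inU (cyl T (w ++ [e j])) x := ⟨hx1, hx2.2⟩
          rw [in_cyl] at hx3 hx4
          have h5 : w ++ [e i] <+: w ++ [e j] :=
            List.prefix_of_prefix_length_le hx3.2 hx4.2 (by simp)
          have h6 := h5.eq_of_length (by simp)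
          have h7 : e i = e j := by simpa using h6
          exact hij (e.injective h7))
      rw [ih] at hi
      have hmem := (hf.1 (f.orderEmbOfFin_mem hf.2 i)).1
      have h8 := hi (w ++ [e i]) ((in_cyl _ _).2 ⟨hmem.1, List.prefix_rfl⟩)
      have h9 := le_trans hmem.2 h8
      have h10 : r + 1 ≤ r := by exact_mod_cast h9
      omega
    · intro hU
      have hfin := finite_top h U (m := r + 1) (by omega) hU
      refine ⟨hfin.toFinset.card, fun F hF hdis => ?_⟩
      by_contra hc
      push Not at hc
      have hw : ∀ i, ∃ w, inU (F i) w ∧ ρ w = (r + 1 : ℕ) := by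
        intro i
        have h1 := hc i
        rw [ih] at h1
        push Not at h1
        obtain ⟨w, hw1, hw2⟩ := h1
        refine ⟨w, hw1, le_antisymm (hU w ((le_iff _ _).1 (hF i) w hw1)) ?_⟩
        have := Order.add_one_le_of_lt hw2
        refine le_trans (le_of_eq ?_) this
        push_cast
        ring
      choose g hg1 hg2 using hw
      have hinj : Function.Injective g := by
        intro i j hij
        by_contra hne
        have := hg1 j
        rw [← hij] at this
        exact disj (hdis hne) _ (hg1 i) this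
      have hcard := Finset.card_le_card_of_injOn (s := Finset.univ) (t := hfin.toFinset) g
        (by
          intro i _
          rw [Finset.mem_coe, Set.Finite.mem_toFinset]
          exact ⟨(le_iff _ _).1 (hF i) _ (hg1 i), hg2 i⟩) (hinj.injOn)
      rw [Finset.card_univ, Fintype.card_fin] at hcard
      omega

theorem NW_iff (h : Ranked T ρ) (U : AT T) : NW U ↔ ∀ w, inU U w → ρ w ≠ ⊤ := by
  constructor
  · rintro ⟨r, hr⟩ w hw htop
    have := (NI_iff h r U).1 hr w hw
    rw [htop] at this
    simp at this
  · intro hU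
    obtain ⟨D, h0, _, h2⟩ := supp U
    have hM : ∀ w' : List ℕ, ∃ M : ℕ, T w' → ρ w' ≠ ⊤ → ∀ w, T w → w' <+: w → ρ w ≤ M := by
      intro w'
      by_cases hT : T w'
      · by_cases ht : ρ w' = ⊤
        · exact ⟨0, fun _ h => absurd ht h⟩
        · obtain ⟨M, hM⟩ := h.a7 w' hT ht
          exact ⟨M, fun _ _ => hM⟩
      · exact ⟨0, fun h => absurd h hT⟩
    choose M hM using hM
    refine ⟨D.sup M, ?_⟩
    rw [NI_iff h]
    intro w hw
    obtain ⟨w', hw', hpre, hmax⟩ := exists_longest h0 w
    have hT' : T w' := by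
      obtain ⟨v, rfl⟩ := hpre
      exact h.pre w' v hw.1
    have hin : inU U w' := by
      refine h2 w w' ?_ hT' hw
      intro σ hσ
      exact (agree_between hmax List.prefix_rfl hpre σ hσ).symm
    refine (hM w' hT' (hU w' hin) w hw.1 hpre).trans ?_
    exact_mod_cast Finset.le_sup hw'

/-! ### The rank function of the tree -/

open Classical in
/-- The rank (plus one) below `j :: u :: (4a+3)`. -/
noncomputable def rhoP (P Q : ℕ → ℕ → ℕ → Prop) (j a : ℕ) : List ℕ → ℕ∞
  | [] => if (Valid P Q j a).Infinite then ((2 * j + 2 : ℕ) : ℕ∞) else 0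
  | c :: v => if c % 2 = 1 ∨ Q j a (c / 2) then 0 else ((2 * j + 1 - v.length : ℕ) : ℕ∞)

/-- The rank (plus one) below `j`. -/
noncomputable def rhoK (P Q : ℕ → ℕ → ℕ → Prop) (j : ℕ) : List ℕ → ℕ∞
  | [] => ⊤
  | c :: v => if c % 2 = 0 then rhoK P Q j v else
      if c % 4 = 1 then ((2 * j + 1 - v.length : ℕ) : ℕ∞) else rhoP P Q j (c / 4) v

/-- The rank (plus one). -/
noncomputable def rho (P Q : ℕ → ℕ → ℕ → Prop) : List ℕ → ℕ∞
  | [] => ⊤
  | j :: v => rhoK P Q j v

section tree

variable {P Q : ℕ → ℕ → ℕ → Prop}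

theorem K_even {j c : ℕ} {v : List ℕ} (hc : c % 2 = 0) : KernT P Q j (c :: v) ↔ KernT P Q j v := by
  rw [KernT]
  constructor
  · rintro (h | h | h)
    · exact h.2
    · omega
    · omega
  · intro h
    exact Or.inl ⟨hc, h⟩

theorem K_one {j c : ℕ} {v : List ℕ} (hc : c % 4 = 1) : KernT P Q j (c :: v) ↔ v.length ≤ 2 * j := by
  rw [KernT]
  constructor
  · rintro (h | h | h)
    · omega
    · exact h.2
    · omega
  · intro h
    exact Or.inr (Or.inl ⟨hc, h⟩)

theorem K_three {j c : ℕ} {v : List ℕ} (hc : c % 4 = 3) :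
    KernT P Q j (c :: v) ↔ PieceT P Q j (c / 4) v := by
  rw [KernT]
  constructor
  · rintro (h | h | h)
    · omega
    · omega
    · exact h.2
  · intro h
    exact Or.inr (Or.inr ⟨hc, h⟩)

theorem rK_even {j c : ℕ} {v : List ℕ} (hc : c % 2 = 0) :
    rhoK P Q j (c :: v) = rhoK P Q j v := by
  rw [rhoK, if_pos hc]

theorem rK_one {j c : ℕ} {v : List ℕ} (hc : c % 4 = 1) :
    rhoK P Q j (c :: v) = ((2 * j + 1 - v.length : ℕ) : ℕ∞) := by
  rw [rhoK, if_neg (by omega), if_pos hc]

theorem rK_three {j c : ℕ} {v : List ℕ} (hc : c % 4 = 3) :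
    rhoK P Q j (c :: v) = rhoP P Q j (c / 4) v := by
  rw [rhoK, if_neg (by omega), if_neg (by omega)]

theorem cases4 (c : ℕ) : c % 2 = 0 ∨ c % 4 = 1 ∨ c % 4 = 3 := by omega

/-- Words below a valid number. -/
theorem Pc_valid {j a c : ℕ} {v : List ℕ} (h : ¬ (c % 2 = 1 ∨ Q j a (c / 2)))
    (hP : P j a (c / 2)) : PieceT P Q j a (c :: v) ↔ v.length ≤ 2 * j := by
  rw [PieceT]
  push Not at h
  constructor
  · rintro (h1 | ⟨_, h1 | h1⟩)
    · exact absurd h1 h.1
    · exact h1
    · exact absurd h1 h.2
  · intro h1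
    exact Or.inr ⟨hP, Or.inl h1⟩

theorem Pc_P {j a c : ℕ} {v : List ℕ} (h : ¬ (c % 2 = 1 ∨ Q j a (c / 2)))
    (hP : PieceT P Q j a (c :: v)) : P j a (c / 2) := by
  rw [PieceT] at hP
  push Not at h
  rcases hP with h1 | ⟨h1, _⟩
  · exact absurd h1 h.1
  · exact h1

theorem Pc_full {j a c : ℕ} {v : List ℕ} (h : c % 2 = 1 ∨ Q j a (c / 2))
    (hP : PieceT P Q j a (c :: v)) (v' : List ℕ) : PieceT P Q j a (c :: v') := by
  rw [PieceT] at hP ⊢
  rcases hP with h1 | ⟨h1, h2⟩
  · exact Or.inl h1
  · rcases h with h | h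
    · exact Or.inl h
    · exact Or.inr ⟨h1, Or.inr h⟩

theorem Pc_pre {j a : ℕ} (v t : List ℕ) (h : PieceT P Q j a (v ++ t)) : PieceT P Q j a v := by
  cases v with
  | nil => rw [PieceT]; trivial
  | cons c v =>
    rw [List.cons_append, PieceT] at h
    rw [PieceT]
    rcases h with h | ⟨h1, h | h⟩
    · exact Or.inl h
    · refine Or.inr ⟨h1, Or.inl ?_⟩
      rw [List.length_append] at h
      omega
    · exact Or.inr ⟨h1, Or.inr h⟩

theorem K_nil {j : ℕ} : KernT P Q j [] := by rw [KernT]; trivial

theorem K_pre {j : ℕ} (v t : List ℕ) (h : KernT P Q j (v ++ t)) : KernT P Q j v := by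
  induction v with
  | nil => exact K_nil
  | cons c v ih =>
    rw [List.cons_append] at h
    rcases cases4 c with hc | hc | hc
    · rw [K_even hc] at h ⊢
      exact ih h
    · rw [K_one hc] at h ⊢
      rw [List.length_append] at h
      omega
    · rw [K_three hc] at h ⊢
      exact Pc_pre _ _ h

theorem T_nil : TreeT P Q [] := by rw [TreeT]; trivial

theorem T_cons {j : ℕ} {v : List ℕ} : TreeT P Q (j :: v) ↔ KernT P Q j v := by rw [TreeT]

theorem T_pre (w t : List ℕ) (h : TreeT P Q (w ++ t)) : TreeT P Q w := by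
  cases w with
  | nil => exact T_nil
  | cons j v =>
    rw [List.cons_append, T_cons] at h
    rw [T_cons]
    exact K_pre _ _ h

theorem odd_infinite : {i : ℕ | i % 2 = 1}.Infinite := by
  refine Set.infinite_of_injective_forall_mem (f := fun k : ℕ => 2 * k + 1) ?_ ?_
  · intro a b h
    simpa using h
  · intro k
    change (2 * k + 1) % 2 = 1
    omega

theorem even_infinite : {i : ℕ | i % 2 = 0}.Infinite := by
  refine Set.infinite_of_injective_forall_mem (f := fun k : ℕ => 2 * k) ?_ ?_
  · intro a b h
    simpa using h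
  · intro k
    change (2 * k) % 2 = 0
    omega

theorem one_infinite : {i : ℕ | i % 4 = 1}.Infinite := by
  refine Set.infinite_of_injective_forall_mem (f := fun k : ℕ => 4 * k + 1) ?_ ?_
  · intro a b h
    simpa using h
  · intro k
    change (4 * k + 1) % 4 = 1
    omega

theorem univ_infinite {A : Set ℕ} (h : ∀ i, i ∈ A) : A.Infinite := by
  have : A = Set.univ := Set.eq_univ_of_forall h
  rw [this]
  exact Set.infinite_univ

theorem K_a0 {j : ℕ} (v : List ℕ) (h : KernT P Q j v) (h0 : rhoK P Q j v = 0) :
    {i | KernT P Q j (v ++ [i])}.Infinite := by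
  induction v with
  | nil => rw [rhoK] at h0; exact absurd h0 (by simp)
  | cons c v ih =>
    rcases cases4 c with hc | hc | hc
    · rw [K_even hc] at h
      rw [rK_even hc] at h0
      refine (ih h h0).mono ?_
      intro i hi
      change KernT P Q j (c :: (v ++ [i]))
      rw [K_even hc]
      exact hi
    · rw [K_one hc] at h
      rw [rK_one hc] at h0
      have : 2 * j + 1 - v.length = 0 := by exact_mod_cast h0
      omega
    · rw [K_three hc] at h
      rw [rK_three hc] at h0
      have key : ∀ i, PieceT P Q j (c / 4) (v ++ [i]) → KernT P Q j (c :: v ++ [i]) := by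
        intro i hi
        change KernT P Q j (c :: (v ++ [i]))
        rw [K_three hc]
        exact hi
      cases v with
      | nil =>
        refine odd_infinite.mono ?_
        intro i hi
        apply key
        change PieceT P Q j (c / 4) (i :: [])
        rw [PieceT]
        exact Or.inl hi
      | cons c' v' =>
        rw [rhoP] at h0
        by_cases hQ : c' % 2 = 1 ∨ Q j (c / 4) (c' / 2)
        · refine univ_infinite (fun i => key i ?_)
          exact Pc_full hQ h _
        · rw [if_neg hQ] at h0
          have h1 := (Pc_valid hQ (Pc_P hQ h)).1 h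
          have : 2 * j + 1 - v'.length = 0 := by exact_mod_cast h0
          omega

theorem K_a2 {j : ℕ} (m : ℕ) (v : List ℕ) (h : KernT P Q j v)
    (h0 : ((m + 2 : ℕ) : ℕ∞) ≤ rhoK P Q j v) :
    {i | KernT P Q j (v ++ [i]) ∧ ((m + 1 : ℕ) : ℕ∞) ≤ rhoK P Q j (v ++ [i])}.Infinite := by
  induction v with
  | nil =>
    refine even_infinite.mono ?_
    intro i hi
    change KernT P Q j (i :: []) ∧ ((m + 1 : ℕ) : ℕ∞) ≤ rhoK P Q j (i :: [])
    rw [K_even hi, rK_even hi, rhoK]
    exact ⟨K_nil, le_top⟩
  | cons c v ih =>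
    rcases cases4 c with hc | hc | hc
    · rw [K_even hc] at h
      rw [rK_even hc] at h0
      refine (ih h h0).mono ?_
      rintro i ⟨hi1, hi2⟩
      change KernT P Q j (c :: (v ++ [i])) ∧ ((m + 1 : ℕ) : ℕ∞) ≤ rhoK P Q j (c :: (v ++ [i]))
      rw [K_even hc, rK_even hc]
      exact ⟨hi1, hi2⟩
    · rw [rK_one hc] at h0
      have h1 : m + 2 ≤ 2 * j + 1 - v.length := by exact_mod_cast h0
      refine univ_infinite (fun i => ?_)
      change KernT P Q j (c :: (v ++ [i])) ∧ ((m + 1 : ℕ) : ℕ∞) ≤ rhoK P Q j (c :: (v ++ [i]))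
      rw [K_one hc, rK_one hc, List.length_append, List.length_singleton]
      refine ⟨by omega, ?_⟩
      have : m + 1 ≤ 2 * j + 1 - (v.length + 1) := by omega
      exact_mod_cast this
    · rw [K_three hc] at h
      rw [rK_three hc] at h0
      have key : ∀ i, PieceT P Q j (c / 4) (v ++ [i]) →
          ((m + 1 : ℕ) : ℕ∞) ≤ rhoP P Q j (c / 4) (v ++ [i]) →
          KernT P Q j (c :: v ++ [i]) ∧ ((m + 1 : ℕ) : ℕ∞) ≤ rhoK P Q j (c :: v ++ [i]) := by
        intro i hi1 hi2
        change KernT P Q j (c :: (v ++ [i])) ∧ ((m + 1 : ℕ) : ℕ∞) ≤ rhoK P Q j (c :: (v ++ [i]))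
        rw [K_three hc, rK_three hc]
        exact ⟨hi1, hi2⟩
      cases v with
      | nil =>
        rw [rhoP] at h0
        by_cases hV : (Valid P Q j (c / 4)).Infinite
        · rw [if_pos hV] at h0
          have h1 : m + 2 ≤ 2 * j + 2 := by exact_mod_cast h0
          have himg := hV.image (f := fun k : ℕ => 2 * k) (by
            intro a _ b _ hab
            simpa using hab)
          refine himg.mono ?_
          rintro i ⟨k, hk, rfl⟩
          have hQ : ¬ ((2 * k) % 2 = 1 ∨ Q j (c / 4) (2 * k / 2)) := by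
            have e : 2 * k / 2 = k := by omega
            rw [e]
            rintro (h | h)
            · omega
            · exact hk.2 h
          have hPk : P j (c / 4) (2 * k / 2) := by
            have e : 2 * k / 2 = k := by omega
            rw [e]
            exact hk.1
          refine key _ ?_ ?_
          · change PieceT P Q j (c / 4) ((2 * k) :: [])
            rw [Pc_valid hQ hPk]
            simp
          · change ((m + 1 : ℕ) : ℕ∞) ≤ rhoP P Q j (c / 4) ((2 * k) :: [])
            rw [rhoP, if_neg hQ]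
            have : m + 1 ≤ 2 * j + 1 - ([] : List ℕ).length := by simp; omega
            exact_mod_cast this
        · rw [if_neg hV] at h0
          have : m + 2 ≤ 0 := by exact_mod_cast h0
          omega
      | cons c' v' =>
        rw [rhoP] at h0
        by_cases hQ : c' % 2 = 1 ∨ Q j (c / 4) (c' / 2)
        · rw [if_pos hQ] at h0
          have : m + 2 ≤ 0 := by exact_mod_cast h0
          omega
        · rw [if_neg hQ] at h0
          have hP := Pc_P hQ h
          have h1 : m + 2 ≤ 2 * j + 1 - v'.length := by exact_mod_cast h0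
          refine univ_infinite (fun i => key i ?_ ?_)
          · change PieceT P Q j (c / 4) (c' :: (v' ++ [i]))
            rw [Pc_valid hQ hP, List.length_append, List.length_singleton]
            omega
          · change ((m + 1 : ℕ) : ℕ∞) ≤ rhoP P Q j (c / 4) (c' :: (v' ++ [i]))
            rw [rhoP, if_neg hQ, List.length_append, List.length_singleton]
            have : m + 1 ≤ 2 * j + 1 - (v'.length + 1) := by omega
            exact_mod_cast this

theorem K_a4 {j m : ℕ} (hm : 1 ≤ m) (v : List ℕ) :
    {t | KernT P Q j (v ++ t) ∧ rhoK P Q j (v ++ t) = m ∧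
      ∀ t', t' <+: t → rhoK P Q j (v ++ t') ≤ m}.Finite := by
  induction v with
  | nil =>
    refine Set.finite_empty.subset ?_
    rintro t ⟨_, _, h⟩
    have := h [] List.nil_prefix
    rw [List.nil_append, rhoK] at this
    simp at this
  | cons c v ih =>
    rcases cases4 c with hc | hc | hc
    · refine ih.subset ?_
      rintro t ⟨h1, h2, h3⟩
      rw [List.cons_append, K_even hc] at h1
      rw [List.cons_append, rK_even hc] at h2
      refine ⟨h1, h2, fun t' ht' => ?_⟩
      have := h3 t' ht'
      rw [List.cons_append, rK_even hc] at this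
      exact this
    · refine (Set.finite_singleton []).subset ?_
      rintro t ⟨h1, h2, h3⟩
      rw [List.cons_append, rK_one hc, List.length_append] at h2
      have h4 := h3 [] List.nil_prefix
      rw [List.append_nil, rK_one hc] at h4
      have h5 : 2 * j + 1 - (v.length + t.length) = m := by exact_mod_cast h2
      have h6 : 2 * j + 1 - v.length ≤ m := by exact_mod_cast h4
      have h7 : t.length = 0 := by omega
      exact List.eq_nil_of_length_eq_zero h7
    · cases v with
      | nil =>
        by_cases hV : (Valid P Q j (c / 4)).Infinite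
        · refine (Set.finite_singleton []).subset ?_
          rintro t ⟨h1, h2, h3⟩
          rw [List.cons_append, List.nil_append, rK_three hc] at h2
          have h4 := h3 [] List.nil_prefix
          rw [List.append_nil, rK_three hc, rhoP, if_pos hV] at h4
          have h5 : 2 * j + 2 ≤ m := by exact_mod_cast h4
          cases t with
          | nil => rfl
          | cons c' t =>
            exfalso
            rw [rhoP] at h2
            split_ifs at h2 with hQ
            · have : 0 = m := by exact_mod_cast h2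
              omega
            · have : 2 * j + 1 - t.length = m := by exact_mod_cast h2
              omega
        · rw [Set.not_infinite] at hV
          have hfin : ((fun k : ℕ => [2 * k]) '' (Valid P Q j (c / 4))).Finite := hV.image _
          refine ((Set.finite_singleton []).union hfin).subset ?_
          rintro t ⟨h1, h2, h3⟩
          rw [List.cons_append, List.nil_append, K_three hc] at h1
          rw [List.cons_append, List.nil_append, rK_three hc] at h2
          cases t with
          | nil => exact Or.inl rfl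
          | cons c' t =>
            right
            have h4 := h3 [c'] ⟨t, by simp⟩
            rw [List.cons_append, List.nil_append, rK_three hc, rhoP] at h4
            rw [rhoP] at h2
            by_cases hQ : c' % 2 = 1 ∨ Q j (c / 4) (c' / 2)
            · rw [if_pos hQ] at h2
              have : 0 = m := by exact_mod_cast h2
              omega
            · rw [if_neg hQ] at h2 h4
              have h5 : 2 * j + 1 - t.length = m := by exact_mod_cast h2
              have h6 : 2 * j + 1 - ([] : List ℕ).length ≤ m := by exact_mod_cast h4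
              rw [List.length_nil] at h6
              have h7 : t.length = 0 := by omega
              have h8 : t = [] := List.eq_nil_of_length_eq_zero h7
              have hP := Pc_P hQ h1
              push Not at hQ
              refine ⟨c' / 2, ⟨hP, hQ.2⟩, ?_⟩
              change [2 * (c' / 2)] = c' :: t
              rw [h8]
              have : 2 * (c' / 2) = c' := by omega
              rw [this]
      | cons c' v' =>
        refine (Set.finite_singleton []).subset ?_
        rintro t ⟨h1, h2, h3⟩
        have h4 := h3 [] List.nil_prefix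
        rw [List.append_nil, rK_three hc, rhoP] at h4
        rw [List.cons_append, rK_three hc, List.cons_append, rhoP] at h2
        by_cases hQ : c' % 2 = 1 ∨ Q j (c / 4) (c' / 2)
        · rw [if_pos hQ] at h2
          have : 0 = m := by exact_mod_cast h2
          omega
        · rw [if_neg hQ, List.length_append] at h2
          rw [if_neg hQ] at h4
          have h5 : 2 * j + 1 - (v'.length + t.length) = m := by exact_mod_cast h2
          have h6 : 2 * j + 1 - v'.length ≤ m := by exact_mod_cast h4
          have h7 : t.length = 0 := by omega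
          exact List.eq_nil_of_length_eq_zero h7

theorem K_a6 {j : ℕ} (v : List ℕ) (h : KernT P Q j v) (h1 : 1 ≤ rhoK P Q j v) :
    (∀ i, ¬ KernT P Q j (v ++ [i])) ∨
      {i | ∃ t, KernT P Q j (v ++ i :: t) ∧ ∀ k, ¬ KernT P Q j (v ++ i :: t ++ [k])}.Infinite := by
  induction v with
  | nil =>
    right
    refine one_infinite.mono ?_
    intro i hi
    have hi' : i % 4 = 1 := hi
    refine ⟨List.replicate (2 * j) 0, ?_, fun k => ?_⟩
    · rw [List.nil_append, K_one hi']
      simp
    · rw [List.nil_append, List.cons_append, K_one hi']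
      simp
  | cons c v ih =>
    rcases cases4 c with hc | hc | hc
    · rw [K_even hc] at h
      rw [rK_even hc] at h1
      rcases ih h h1 with h2 | h2
      · left
        intro i
        rw [List.cons_append, K_even hc]
        exact h2 i
      · right
        refine h2.mono ?_
        rintro i ⟨t, ht1, ht2⟩
        refine ⟨t, ?_, fun k => ?_⟩
        · rw [List.cons_append, K_even hc]
          exact ht1
        · rw [List.cons_append, List.cons_append, K_even hc]
          exact ht2 k
    · rw [K_one hc] at h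
      by_cases hl : v.length = 2 * j
      · left
        intro i
        rw [List.cons_append, K_one hc]
        simp
        omega
      · right
        refine univ_infinite (fun i => ⟨List.replicate (2 * j - v.length - 1) 0, ?_, fun k => ?_⟩)
        · rw [List.cons_append, K_one hc]
          simp
          omega
        · rw [List.cons_append, List.cons_append, K_one hc]
          simp
          omega
    · rw [K_three hc] at h
      rw [rK_three hc] at h1
      cases v with
      | nil =>
        right
        rw [rhoP] at h1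
        by_cases hV : (Valid P Q j (c / 4)).Infinite
        · have himg := hV.image (f := fun k : ℕ => 2 * k) (by
            intro a _ b _ hab
            simpa using hab)
          refine himg.mono ?_
          rintro i ⟨k, hk, rfl⟩
          have hQ : ¬ ((2 * k) % 2 = 1 ∨ Q j (c / 4) (2 * k / 2)) := by
            have e : 2 * k / 2 = k := by omega
            rw [e]
            rintro (h | h)
            · omega
            · exact hk.2 h
          have hPk : P j (c / 4) (2 * k / 2) := by
            have e : 2 * k / 2 = k := by omega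
            rw [e]
            exact hk.1
          refine ⟨List.replicate (2 * j) 0, ?_, fun k' => ?_⟩
          · change KernT P Q j (c :: ((2 * k) :: List.replicate (2 * j) 0))
            rw [K_three hc, Pc_valid hQ hPk]
            simp
          · change ¬ KernT P Q j (c :: ((2 * k) :: (List.replicate (2 * j) 0 ++ [k'])))
            rw [K_three hc, Pc_valid hQ hPk]
            simp
        · rw [if_neg hV] at h1
          have : 1 ≤ 0 := by exact_mod_cast h1
          omega
      | cons c' v' =>
        rw [rhoP] at h1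
        by_cases hQ : c' % 2 = 1 ∨ Q j (c / 4) (c' / 2)
        · rw [if_pos hQ] at h1
          have : 1 ≤ 0 := by exact_mod_cast h1
          omega
        · have hP := Pc_P hQ h
          have hle := (Pc_valid hQ hP).1 h
          by_cases hl : v'.length = 2 * j
          · left
            intro i
            change ¬ KernT P Q j (c :: (c' :: (v' ++ [i])))
            rw [K_three hc, Pc_valid hQ hP]
            simp
            omega
          · right
            refine univ_infinite (fun i => ⟨List.replicate (2 * j - v'.length - 1) 0, ?_,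
              fun k => ?_⟩)
            · change KernT P Q j (c :: (c' :: (v' ++ i :: List.replicate (2 * j - v'.length - 1) 0)))
              rw [K_three hc, Pc_valid hQ hP]
              simp
              omega
            · change ¬ KernT P Q j (c :: (c' :: (v' ++
                i :: List.replicate (2 * j - v'.length - 1) 0 ++ [k])))
              rw [K_three hc, Pc_valid hQ hP]
              simp
              omega

theorem rP_le {j a : ℕ} (v : List ℕ) : rhoP P Q j a v ≤ ((2 * j + 2 : ℕ) : ℕ∞) := by
  cases v with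
  | nil =>
    rw [rhoP]
    split_ifs
    · exact le_rfl
    · exact zero_le
  | cons c v =>
    rw [rhoP]
    split_ifs
    · exact zero_le
    · have : 2 * j + 1 - v.length ≤ 2 * j + 2 := by omega
      exact_mod_cast this

theorem K_a7 {j : ℕ} (v t : List ℕ) (h : rhoK P Q j v ≠ ⊤) :
    rhoK P Q j (v ++ t) ≤ ((2 * j + 2 : ℕ) : ℕ∞) := by
  induction v with
  | nil => rw [rhoK] at h; exact absurd rfl h
  | cons c v ih =>
    rw [List.cons_append]
    rcases cases4 c with hc | hc | hc
    · rw [rK_even hc] at h ⊢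
      exact ih h
    · rw [rK_one hc]
      have : 2 * j + 1 - (v ++ t).length ≤ 2 * j + 2 := by omega
      exact_mod_cast this
    · rw [rK_three hc]
      exact rP_le _

theorem ranked : Ranked (TreeT P Q) (rho P Q) where
  pre := T_pre
  a0 := by
    intro w hw h0
    cases w with
    | nil => rw [rho] at h0; exact absurd h0 (by simp)
    | cons j v =>
      rw [T_cons] at hw
      refine (K_a0 v hw h0).mono ?_
      intro i hi
      change TreeT P Q (j :: (v ++ [i]))
      rw [T_cons]
      exact hi
  a2 := by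
    intro w m hw h0
    cases w with
    | nil =>
      refine univ_infinite (fun i => ?_)
      change TreeT P Q (i :: []) ∧ _ ≤ rho P Q (i :: [])
      rw [T_cons, rho, rhoK]
      exact ⟨K_nil, le_top⟩
    | cons j v =>
      rw [T_cons] at hw
      refine (K_a2 m v hw h0).mono ?_
      intro i hi
      change TreeT P Q (j :: (v ++ [i])) ∧ _ ≤ rho P Q (j :: (v ++ [i]))
      rw [T_cons]
      exact hi
  a4 := by
    intro w' hw' m hm
    cases w' with
    | nil =>
      refine Set.finite_empty.subset ?_
      rintro t ⟨_, _, _, h⟩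
      have := h [] List.prefix_rfl List.nil_prefix
      rw [rho] at this
      simp at this
    | cons j v =>
      refine ((K_a4 (P := P) (Q := Q) (j := j) hm v).image fun t => (j :: v) ++ t).subset ?_
      rintro w ⟨h1, ⟨t, rfl⟩, h3, h4⟩
      refine ⟨t, ⟨?_, ?_, ?_⟩, rfl⟩
      · rw [List.cons_append, T_cons] at h1
        exact h1
      · exact h3
      · intro t' ht'
        refine h4 (j :: v ++ t') (List.prefix_append _ _) ?_
        exact (List.prefix_append_right_inj _).2 ht'
  a6 := by
    intro w hw h1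
    cases w with
    | nil =>
      right
      refine univ_infinite (fun i => ⟨1 :: List.replicate (2 * i) 0, ?_, fun k => ?_⟩)
      · rw [List.nil_append, T_cons, K_one (by norm_num)]
        simp
      · rw [List.nil_append, List.cons_append, T_cons, List.cons_append, K_one (by norm_num)]
        simp
    | cons j v =>
      rw [T_cons] at hw
      rcases K_a6 v hw h1 with h2 | h2
      · left
        intro i
        rw [List.cons_append, T_cons]
        exact h2 i
      · right
        refine h2.mono ?_
        rintro i ⟨t, ht1, ht2⟩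
        refine ⟨t, ?_, fun k => ?_⟩
        · rw [List.cons_append, T_cons]
          exact ht1
        · rw [List.cons_append, List.cons_append, T_cons]
          exact ht2 k
  a7 := by
    intro w' hw' h
    cases w' with
    | nil => rw [rho] at h; exact absurd rfl h
    | cons j v =>
      refine ⟨2 * j + 2, ?_⟩
      rintro w _ ⟨t, rfl⟩
      rw [List.cons_append]
      exact K_a7 v t h

/-! ### The invariant -/

open Classical in
/-- The number belonging to `j`. -/
noncomputable def rj (P Q : ℕ → ℕ → ℕ → Prop) (j : ℕ) : ℕ :=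
  if ∃ a, (Valid P Q j a).Infinite then 2 * j + 1 else 2 * j

theorem rK_le_rj {j : ℕ} (v : List ℕ) (h : rhoK P Q j v ≠ ⊤) :
    rhoK P Q j v ≤ ((rj P Q j + 1 : ℕ) : ℕ∞) := by
  have h2 : 2 * j ≤ rj P Q j := by
    unfold rj
    split_ifs <;> omega
  induction v with
  | nil => rw [rhoK] at h; exact absurd rfl h
  | cons c v ih =>
    rcases cases4 c with hc | hc | hc
    · rw [rK_even hc] at h ⊢
      exact ih h
    · rw [rK_one hc]
      have : 2 * j + 1 - v.length ≤ rj P Q j + 1 := by omega
      exact_mod_cast this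
    · rw [rK_three hc]
      cases v with
      | nil =>
        rw [rhoP]
        split_ifs with hV
        · have : rj P Q j = 2 * j + 1 := by
            unfold rj
            rw [if_pos ⟨_, hV⟩]
          rw [this]
        · exact zero_le
      | cons c' v' =>
        rw [rhoP]
        split_ifs
        · exact zero_le
        · have : 2 * j + 1 - v'.length ≤ rj P Q j + 1 := by omega
          exact_mod_cast this

theorem K_ker {j : ℕ} (v : List ℕ) (h : rhoK P Q j v = ⊤) (x : List ℕ) :
    (KernT P Q j (v ++ x) ↔ KernT P Q j x) ∧ rhoK P Q j (v ++ x) = rhoK P Q j x := by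
  induction v with
  | nil => exact ⟨Iff.rfl, rfl⟩
  | cons c v ih =>
    rcases cases4 c with hc | hc | hc
    · rw [rK_even hc] at h
      rw [List.cons_append, K_even hc, rK_even hc]
      exact ih h
    · rw [rK_one hc] at h
      exact absurd h (ENat.natCast_ne_top _)
    · rw [rK_three hc] at h
      have := rP_le (P := P) (Q := Q) (j := j) (a := c / 4) v
      rw [h] at this
      exact absurd this (top_nle _)

/-- Below a kernel node there are nodes with rank exactly `rj` (plus one). -/
theorem exists_top {j : ℕ} (v : List ℕ) (h : rhoK P Q j v = ⊤) :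
    ∃ c, TreeT P Q (j :: (v ++ [c])) ∧ rho P Q (j :: (v ++ [c])) = ((rj P Q j + 1 : ℕ) : ℕ∞) := by
  by_cases hV : ∃ a, (Valid P Q j a).Infinite
  · obtain ⟨a, ha⟩ := hV
    refine ⟨4 * a + 3, ?_, ?_⟩
    · rw [T_cons, (K_ker v h _).1, K_three (by omega), PieceT]
      trivial
    · have e : (4 * a + 3) / 4 = a := by omega
      have e2 : rj P Q j = 2 * j + 1 := by
        unfold rj
        rw [if_pos ⟨a, ha⟩]
      change rhoK P Q j (v ++ [4 * a + 3]) = _
      rw [(K_ker v h _).2, rK_three (by omega), e, rhoP, if_pos ha, e2]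
  · refine ⟨1, ?_, ?_⟩
    · rw [T_cons, (K_ker v h _).1, K_one (by norm_num)]
      simp
    · have e2 : rj P Q j = 2 * j := by
        unfold rj
        rw [if_neg hV]
      change rhoK P Q j (v ++ [1]) = _
      rw [(K_ker v h _).2, rK_one (by norm_num), e2]
      simp

theorem T_ker_child {j : ℕ} (v : List ℕ) (h : rhoK P Q j v = ⊤) (c : ℕ) (hc : c % 2 = 0) :
    TreeT P Q (j :: (v ++ [c])) ∧ rhoK P Q j (v ++ [c]) = ⊤ := by
  rw [T_cons, (K_ker v h _).1, (K_ker v h _).2, K_even hc, rK_even hc, rhoK]
  exact ⟨K_nil, rfl⟩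

/-- The cylinder of a node of finite rank `rj`. -/
theorem cyl_top {j : ℕ} {x : List ℕ} (hT : TreeT P Q (j :: x))
    (hx : rho P Q (j :: x) = ((rj P Q j + 1 : ℕ) : ℕ∞)) :
    NI (rj P Q j + 1) (cyl (TreeT P Q) (j :: x)) ∧ ¬ NI (rj P Q j) (cyl (TreeT P Q) (j :: x)) := by
  constructor
  · rw [NI_iff ranked]
    intro w hw
    rw [in_cyl] at hw
    obtain ⟨t, rfl⟩ := hw.2
    have hne : rhoK P Q j x ≠ ⊤ := by
      change rhoK P Q j x = _ at hx
      rw [hx]
      exact ENat.natCast_ne_top _
    have h2 := K_a7 x t hne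
    rw [List.cons_append]
    refine rK_le_rj (x ++ t) ?_
    intro h3
    rw [h3] at h2
    exact absurd h2 (top_nle _)
  · rw [NI_iff ranked]
    intro h
    have := h (j :: x) ((in_cyl _ _).2 ⟨hT, List.prefix_rfl⟩)
    rw [hx] at this
    have h2 : rj P Q j + 1 ≤ rj P Q j := by exact_mod_cast this
    omega

theorem code_sub (j : ℕ) : rj P Q j ∈ CodeB (AT (TreeT P Q)) := by
  have hj : TreeT P Q [j] := by rw [T_cons]; exact K_nil
  refine ⟨cyl (TreeT P Q) [j], ?_, ?_⟩
  · rw [NW_iff ranked]
    intro h
    refine h [j] ((in_cyl _ _).2 ⟨hj, List.prefix_rfl⟩) ?_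
    rw [rho, rhoK]
  · intro c hc
    by_cases hW : NW c
    · left
      rw [NI_iff ranked]
      intro w hw
      have h1 := (NW_iff ranked c).1 hW w hw
      have h2 := (le_iff _ _).1 hc w hw
      rw [in_cyl] at h2
      obtain ⟨t, rfl⟩ := h2.2
      exact rK_le_rj t h1
    · right
      refine ⟨hW, ?_⟩
      rw [NW_iff ranked] at hW
      push Not at hW
      obtain ⟨w, hw, htop⟩ := hW
      have h2 := (le_iff _ _).1 hc w hw
      rw [in_cyl] at h2
      obtain ⟨v, rfl⟩ := h2.2
      change rhoK P Q j v = ⊤ at htop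
      obtain ⟨i, hi1, hi2⟩ := (infinite_inter
        (B := {i | cyl (TreeT P Q) ([j] ++ v ++ [i]) ≤ c}) even_infinite (children c hw)).nonempty
      obtain ⟨hT, htop'⟩ := T_ker_child v htop i hi1
      obtain ⟨d, hd1, hd2⟩ := exists_top (v ++ [i]) htop'
      refine ⟨cyl (TreeT P Q) (j :: (v ++ [i] ++ [d])), ?_, cyl_top hd1 hd2⟩
      refine le_trans ?_ (show cyl (TreeT P Q) ([j] ++ v ++ [i]) ≤ c from hi2)
      rw [le_iff]
      intro x hx
      rw [in_cyl] at hx ⊢
      refine ⟨hx.1, List.IsPrefix.trans ?_ hx.2⟩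
      exact ⟨[d], by simp⟩

theorem code_sup {r : ℕ} (hr : r ∈ CodeB (AT (TreeT P Q))) : ∃ j, r = rj P Q j := by
  obtain ⟨b, hb, hr⟩ := hr
  rw [NW_iff ranked] at hb
  push Not at hb
  obtain ⟨w, hw, htop⟩ := hb
  cases w with
  | nil =>
    exfalso
    have hinf : {j : ℕ | r < 2 * j}.Infinite := by
      refine Set.infinite_of_injective_forall_mem (f := fun k : ℕ => k + r + 1) ?_ ?_
      · intro a b h
        simpa using h
      · intro k
        change r < 2 * (k + r + 1)
        omega
    obtain ⟨j, hj1, hj2⟩ := (infinite_inter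
      (B := {i | cyl (TreeT P Q) ([] ++ [i]) ≤ b}) hinf (children b hw)).nonempty
    have hj1' : r < 2 * j := hj1
    have hT : TreeT P Q (j :: [1]) := by
      rw [T_cons, K_one (by norm_num)]
      simp
    have hle : cyl (TreeT P Q) (j :: [1]) ≤ b := by
      refine le_trans ?_ (show cyl (TreeT P Q) ([] ++ [j]) ≤ b from hj2)
      rw [le_iff]
      intro x hx
      rw [in_cyl] at hx ⊢
      exact ⟨hx.1, List.IsPrefix.trans ⟨[1], by simp⟩ hx.2⟩
    have hrho : rhoK P Q j [1] = ((2 * j + 1 : ℕ) : ℕ∞) := by
      rw [rK_one (by norm_num)]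
      simp
    have hNW : NW (cyl (TreeT P Q) (j :: [1])) := by
      rw [NW_iff ranked]
      intro x hx
      rw [in_cyl] at hx
      obtain ⟨t, rfl⟩ := hx.2
      have h2 := K_a7 (P := P) (Q := Q) (j := j) [1] t (by rw [hrho]; exact ENat.natCast_ne_top _)
      intro h3
      rw [List.cons_append, rho] at h3
      rw [h3] at h2
      exact absurd h2 (top_nle _)
    rcases hr _ hle with h1 | h1
    · rw [NI_iff ranked] at h1
      have h2 := h1 (j :: [1]) ((in_cyl _ _).2 ⟨hT, List.prefix_rfl⟩)
      rw [rho, hrho] at h2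
      have h3 : 2 * j + 1 ≤ r + 1 := by exact_mod_cast h2
      omega
    · exact h1.1 hNW
  | cons j v =>
    refine ⟨j, ?_⟩
    change rhoK P Q j v = ⊤ at htop
    obtain ⟨i, hi1, hi2⟩ := (infinite_inter
      (B := {i | cyl (TreeT P Q) (j :: v ++ [i]) ≤ b}) even_infinite (children b hw)).nonempty
    obtain ⟨hT, htop'⟩ := T_ker_child v htop i hi1
    have hi2' : cyl (TreeT P Q) (j :: (v ++ [i])) ≤ b := hi2
    apply le_antisymm
    · -- the kernel cylinder itself
      rcases hr _ hi2' with h1 | h1
      · exfalso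
        rw [NI_iff ranked] at h1
        have h2 := h1 (j :: (v ++ [i])) ((in_cyl _ _).2 ⟨hT, List.prefix_rfl⟩)
        rw [rho, htop'] at h2
        simp at h2
      · obtain ⟨_, a, ha, ha1, ha2⟩ := h1
        rw [NI_iff ranked] at ha1 ha2
        push Not at ha2
        obtain ⟨x, hx1, hx2⟩ := ha2
        have h3 := ha1 x hx1
        have h4 := (le_iff _ _).1 ha x hx1
        rw [in_cyl] at h4
        obtain ⟨t, rfl⟩ := h4.2
        have hne : rhoK P Q j (v ++ [i] ++ t) ≠ ⊤ := by
          intro h5
          rw [List.cons_append, rho, h5] at h3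
          simp at h3
        have h6 := rK_le_rj _ hne
        have h7 : ((r : ℕ) : ℕ∞) < ((rj P Q j + 1 : ℕ) : ℕ∞) := lt_of_lt_of_le hx2 h6
        have h8 : r < rj P Q j + 1 := by exact_mod_cast h7
        omega
    · obtain ⟨d, hd1, hd2⟩ := exists_top (v ++ [i]) htop'
      have hle : cyl (TreeT P Q) (j :: (v ++ [i] ++ [d])) ≤ b := by
        refine le_trans ?_ hi2'
        rw [le_iff]
        intro x hx
        rw [in_cyl] at hx ⊢
        refine ⟨hx.1, List.IsPrefix.trans ?_ hx.2⟩
        exact ⟨[d], by simp⟩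
      have hNI := (cyl_top hd1 hd2).1
      rcases hr _ hle with h1 | h1
      · rw [NI_iff ranked] at h1
        have h2 := h1 _ ((in_cyl _ _).2 ⟨hd1, List.prefix_rfl⟩)
        rw [hd2] at h2
        have h3 : rj P Q j + 1 ≤ r + 1 := by exact_mod_cast h2
        omega
      · exact absurd ⟨_, hNI⟩ h1.1

end tree

end Cyl2

open Classical in
theorem code_AT (P Q : ℕ → ℕ → ℕ → Prop) :
    CodeB (AT (TreeT P Q)) =
      {r | ∃ j, r = if ∃ a, (Valid P Q j a).Infinite then 2 * j + 1 else 2 * j} := by
  ext r
  constructor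
  · intro hr
    exact Cyl2.code_sup hr
  · rintro ⟨j, hj⟩
    rw [hj]
    exact Cyl2.code_sub j

end Pool.Agent.Lib.MP_8c048d_lc
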