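import Mathlib
import Pool.Agent.Lib.MP_8c048d_lc.Eff
import Pool.Agent.Lib.MP_8c048d_lc.Comp
import Pool.Agent.Lib.MP_8c048d_lc.CE

/-!
# A `Π¹₁`-universal numerated Boolean algebra exists
-/

set_option autoImplicit false

namespace Pool.Agent.Lib.MP_8c048d_lc

open Nat.Partrec (Code)

/-! ### Evaluation of Boolean terms -/

/-- Evaluation of a coded Boolean term: `z` is the bottom element, `g` gives the values of the
variables, `c`, `u`, `i` are complement, join and meet. -/
def evX {σ : Type} (z : σ) (g : ℕ → σ) (c : σ → σ) (u i : σ → σ → σ) (n : ℕ) : σ :=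
  if h : n = 0 then z
  else if n % 4 = 0 then g (n / 4 - 1)
  else if n % 4 = 1 then c (evX z g c u i (n / 4))
  else if n % 4 = 2 then
    u (evX z g c u i (n / 4).unpair.1) (evX z g c u i (n / 4).unpair.2)
  else i (evX z g c u i (n / 4).unpair.1) (evX z g c u i (n / 4).unpair.2)
termination_by n
decreasing_by
  all_goals
    have h1 := Nat.unpair_left_le (n / 4)
    have h2 := Nat.unpair_right_le (n / 4)
    omega

/-- The code of a variable. -/
def tLeaf (k : ℕ) : ℕ := 4 * (k + 1)

section EvX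

variable {σ τ : Type} (z : σ) (g : ℕ → σ) (c : σ → σ) (u i : σ → σ → σ)

theorem evX_unfold (n : ℕ) : evX z g c u i n =
    if n = 0 then z
    else if n % 4 = 0 then g (n / 4 - 1)
    else if n % 4 = 1 then c (evX z g c u i (n / 4))
    else if n % 4 = 2 then
      u (evX z g c u i (n / 4).unpair.1) (evX z g c u i (n / 4).unpair.2)
    else i (evX z g c u i (n / 4).unpair.1) (evX z g c u i (n / 4).unpair.2) := by
  rw [evX]
  rfl

theorem evX_zero : evX z g c u i 0 = z := by rw [evX]; simp

theorem evX_leaf (k : ℕ) : evX z g c u i (tLeaf k) = g k := by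
  unfold tLeaf
  rw [evX, dif_neg (by omega), if_pos (by omega)]
  congr 1
  omega

theorem evX_compl (n : ℕ) : evX z g c u i (tCompl n) = c (evX z g c u i n) := by
  unfold tCompl
  rw [evX, dif_neg (by omega), if_neg (by omega), if_pos (by omega)]
  have h : (4 * n + 1) / 4 = n := by omega
  rw [h]

theorem evX_sup (m n : ℕ) :
    evX z g c u i (tSup m n) = u (evX z g c u i m) (evX z g c u i n) := by
  unfold tSup
  rw [evX, dif_neg (by omega), if_neg (by omega), if_neg (by omega), if_pos (by omega)]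
  have h : (4 * Nat.pair m n + 2) / 4 = Nat.pair m n := by omega
  rw [h, Nat.unpair_pair]

theorem evX_inf (m n : ℕ) :
    evX z g c u i (tInf m n) = i (evX z g c u i m) (evX z g c u i n) := by
  unfold tInf
  rw [evX, dif_neg (by omega), if_neg (by omega), if_neg (by omega), if_neg (by omega)]
  have h : (4 * Nat.pair m n + 3) / 4 = Nat.pair m n := by omega
  rw [h, Nat.unpair_pair]

variable {z g c u i}

theorem evX_hom {z' : τ} {g' : ℕ → τ} {c' : τ → τ} {u' i' : τ → τ → τ} (φ : σ → τ)
    (hz : φ z = z') (hg : ∀ k, φ (g k) = g' k) (hc : ∀ x, φ (c x) = c' (φ x))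
    (hu : ∀ x y, φ (u x y) = u' (φ x) (φ y)) (hi : ∀ x y, φ (i x y) = i' (φ x) (φ y)) (n : ℕ) :
    φ (evX z g c u i n) = evX z' g' c' u' i' n := by
  induction n using Nat.strong_induction_on with
  | _ n ih =>
    have h1 := Nat.unpair_left_le (n / 4)
    have h2 := Nat.unpair_right_le (n / 4)
    rw [evX_unfold z g c u i n, evX_unfold z' g' c' u' i' n]
    split_ifs with h3 h4 h5 h6
    · exact hz
    · exact hg _
    · rw [hc, ih _ (by omega)]
    · rw [hu, ih _ (by omega), ih _ (by omega)]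
    · rw [hi, ih _ (by omega), ih _ (by omega)]

theorem evX_congr {g' : ℕ → σ} (n : ℕ) (h : ∀ k < n, g k = g' k) :
    evX z g c u i n = evX z g' c u i n := by
  induction n using Nat.strong_induction_on with
  | _ n ih =>
    have h1 := Nat.unpair_left_le (n / 4)
    have h2 := Nat.unpair_right_le (n / 4)
    rw [evX_unfold z g c u i n, evX_unfold z g' c u i n]
    split_ifs with h3 h4 h5 h6
    · rfl
    · exact h _ (by omega)
    · rw [ih _ (by omega) fun k hk => h k (by omega)]
    · rw [ih _ (by omega) fun k hk => h k (by omega), ih _ (by omega) fun k hk => h k (by omega)]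
    · rw [ih _ (by omega) fun k hk => h k (by omega), ih _ (by omega) fun k hk => h k (by omega)]

/-- One step of the evaluation. -/
private def stX (z : σ) (g : ℕ → σ) (c : σ → σ) (u i : σ → σ → σ) (L : List σ) : σ :=
  bif decide (L.length = 0) then z
  else bif decide (L.length % 4 = 0) then g (L.length / 4 - 1)
  else bif decide (L.length % 4 = 1) then c (L.getD (L.length / 4) z)
  else bif decide (L.length % 4 = 2) then
    u (L.getD (L.length / 4).unpair.1 z) (L.getD (L.length / 4).unpair.2 z)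
  else i (L.getD (L.length / 4).unpair.1 z) (L.getD (L.length / 4).unpair.2 z)

private theorem stX_eq (n : ℕ) :
    stX z g c u i ((List.range n).map (evX z g c u i)) = evX z g c u i n := by
  have hget : ∀ j, j < n → ((List.range n).map (evX z g c u i)).getD j z = evX z g c u i j := by
    intro j hj
    rw [List.getD_eq_getElem?_getD, List.getElem?_map, List.getElem?_range hj]
    rfl
  have h1 := Nat.unpair_left_le (n / 4)
  have h2 := Nat.unpair_right_le (n / 4)
  unfold stX
  rw [List.length_map, List.length_range, evX_unfold z g c u i n]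
  by_cases h3 : n = 0
  · simp [h3]
  rw [if_neg h3, decide_eq_false h3, cond_false]
  by_cases h4 : n % 4 = 0
  · rw [if_pos h4, decide_eq_true h4, cond_true]
  rw [if_neg h4, decide_eq_false h4, cond_false]
  by_cases h5 : n % 4 = 1
  · rw [if_pos h5, decide_eq_true h5, cond_true, hget _ (by omega)]
  rw [if_neg h5, decide_eq_false h5, cond_false]
  by_cases h6 : n % 4 = 2
  · rw [if_pos h6, decide_eq_true h6, cond_true, hget _ (by omega), hget _ (by omega)]
  rw [if_neg h6, decide_eq_false h6, cond_false, hget _ (by omega), hget _ (by omega)]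

end EvX

theorem evX_comp {α σ : Type} [Primcodable α] [Primcodable σ] {z : σ} {g : α → ℕ → σ}
    {c : σ → σ} {u i : σ → σ → σ} (hg : Computable₂ g) (hc : Computable c) (hu : Computable₂ u)
    (hi : Computable₂ i) : Computable₂ (fun a n => evX z (g a) c u i n) := by
  refine Computable.nat_strong_rec (fun a n => evX z (g a) c u i n)
    (g := fun a L => some (stX z (g a) c u i L)) ?_ ?_
  · have hL : Primrec (fun p : α × List σ => p.2.length) :=
      Primrec.list_length.comp Primrec.snd
    have hq : Primrec (fun p : α × List σ => p.2.length / 4) :=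
      Primrec.nat_div.comp hL (Primrec.const 4)
    have hm : Primrec (fun p : α × List σ => p.2.length % 4) :=
      Primrec.nat_mod.comp hL (Primrec.const 4)
    have hu' : Primrec (fun p : α × List σ => (p.2.length / 4).unpair) :=
      Primrec.unpair.comp hq
    have hget : ∀ f : α × List σ → ℕ, Primrec f →
        Computable (fun p : α × List σ => p.2.getD (f p) z) := fun f hf =>
      ((Primrec.list_getD z).comp Primrec.snd hf).to_comp
    have hdec : ∀ k : ℕ, Computable (fun p : α × List σ => decide (p.2.length % 4 = k)) :=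
      fun k => (PrimrecPred.decide (Primrec.eq.comp hm (Primrec.const k))).to_comp
    have hdec0 : Computable (fun p : α × List σ => decide (p.2.length = 0)) :=
      (PrimrecPred.decide (Primrec.eq.comp hL (Primrec.const 0))).to_comp
    have h : Computable (fun p : α × List σ => stX z (g p.1) c u i p.2) := by
      unfold stX
      refine Computable.cond hdec0 (Computable.const z) ?_
      refine Computable.cond (hdec 0) (hg.comp Computable.fst
        (Primrec.nat_sub.comp hq (Primrec.const 1)).to_comp) ?_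
      refine Computable.cond (hdec 1) (hc.comp (hget _ hq)) ?_
      refine Computable.cond (hdec 2) ?_ ?_
      · exact hu.comp (hget _ (Primrec.fst.comp hu')) (hget _ (Primrec.snd.comp hu'))
      · exact hi.comp (hget _ (Primrec.fst.comp hu')) (hget _ (Primrec.snd.comp hu'))
    exact Computable.option_some.comp h
  · intro a n
    rw [stX_eq]

/-! ### Evaluation in the two element algebra -/

/-- Truth value of a term. -/
abbrev evB (v : ℕ → Bool) (n : ℕ) : Bool := evX false v not or and n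

theorem evB_zero (v : ℕ → Bool) : evB v 0 = false := evX_zero _ _ _ _ _

theorem evB_leaf (v : ℕ → Bool) (k : ℕ) : evB v (tLeaf k) = v k := evX_leaf _ _ _ _ _ _

theorem evB_compl (v : ℕ → Bool) (n : ℕ) : evB v (tCompl n) = !evB v n := evX_compl _ _ _ _ _ _

theorem evB_sup (v : ℕ → Bool) (m n : ℕ) : evB v (tSup m n) = (evB v m || evB v n) :=
  evX_sup _ _ _ _ _ _ _

theorem evB_inf (v : ℕ → Bool) (m n : ℕ) : evB v (tInf m n) = (evB v m && evB v n) :=
  evX_inf _ _ _ _ _ _ _

/-- The valuation given by a function. -/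
def vG (G : ℕ → ℕ) (k : ℕ) : Bool := decide (G k = 1)

theorem vG_toNat (v : ℕ → Bool) : vG (fun i => (v i).toNat) = v := by
  funext i
  show decide ((v i).toNat = 1) = v i
  cases v i <;> rfl

theorem evB_recF : RecF (fun (t : ℕ) (F : ℕ → ℕ) => evB (vG F) t) := by
  have h1 : Computable₂ (fun (s : List ℕ) (n : ℕ) => evB (vG fun k => s.getD k 0) n) := by
    refine evX_comp (g := fun (s : List ℕ) (k : ℕ) => vG (fun k => s.getD k 0) k) ?_
      Primrec.not.to_comp Primrec.or.to_comp Primrec.and.to_comp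
    exact (PrimrecPred.decide (Primrec.eq.comp (Primrec.list_getD 0)
      (Primrec.const 1))).to_comp
  have h2 := RecF.comp (α := ℕ) (g := fun p : List ℕ × ℕ => evB (vG fun k => p.1.getD k 0) p.2)
    h1 (RecF.pair RecF.pre (RecF.of_computable (f := fun n : ℕ => n) Computable.id))
  refine h2.congr fun t F => ?_
  apply evX_congr
  intro k hk
  unfold vG
  congr 2
  show (MP_8c048d_lc.pre F t).getD k 0 = F k
  rw [List.getD_eq_getElem?_getD, pre_getElem?, if_pos hk]
  rfl

/-! ### An index for every `Π¹₁` set -/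

private theorem O_index {A : Set ℕ} (h : IsPi11 A) : ∃ e, ∀ t, t ∈ A ↔ Nat.pair e t ∈ O := by
  obtain ⟨R, ⟨hd, hR⟩, h1⟩ := h
  have hf : Computable (fun p : ℕ × List ℕ => bif decide (R p) then 1 else 0) :=
    Computable.cond hR (Computable.const 1) (Computable.const 0)
  obtain ⟨c, hc⟩ := Code.exists_code.1 (Partrec.nat_iff.1 (Computable.partrec
    (Computable.comp (f := fun p : ℕ × List ℕ => bif decide (R p) then 1 else 0)
      (g := fun n : ℕ => (Denumerable.ofNat (ℕ × List ℕ) n)) hf (Computable.ofNat _))))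
  have hc1 : ∀ n τ, (1 ∈ c.eval (Encodable.encode ((n, τ) : ℕ × List ℕ))) ↔ R (n, τ) := by
    intro n τ
    rw [hc]
    simp only [PFun.coe_val, Part.mem_some_iff, Denumerable.ofNat_encode]
    by_cases h2 : R (n, τ)
    · simp [h2]
    · simp [h2]
  refine ⟨Encodable.encode c, fun t => ?_⟩
  rw [h1]
  show _ ↔ ∀ f : ℕ → ℕ, ∃ k, UR (Nat.pair (Encodable.encode c) t).unpair.1
    (Nat.pair (Encodable.encode c) t).unpair.2 (pre f k)
  rw [Nat.unpair_pair]
  refine forall_congr' fun f => ⟨?_, ?_⟩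
  · rintro ⟨k, hk⟩
    obtain ⟨K, hK⟩ := Code.evaln_complete.1 ((hc1 t (pre f k)).2 hk)
    refine ⟨max K k, k, ?_, ?_⟩
    · rw [length_pre]; exact le_max_right _ _
    · rw [length_pre, pre_take, min_eq_left (le_max_right K k), Denumerable.ofNat_encode]
      exact Code.evaln_mono (le_max_left K k) hK
  · rintro ⟨k, j, hj, hk⟩
    rw [length_pre] at hj
    rw [length_pre, pre_take, min_eq_left hj, Denumerable.ofNat_encode] at hk
    exact ⟨j, (hc1 t (pre f j)).1 (Code.evaln_sound hk)⟩

/-! ### The universal algebra -/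

/-- The points: pairs `(e, v)` where the valuation `v` makes every term in the `e`-th `Π¹₁` set
false. -/
def UPt : Type := {p : ℕ × (ℕ → Bool) // ∀ t, Nat.pair p.1 t ∈ O → evB p.2 t = false}

/-- The values of the generators at a pair. -/
def gU (e : ℕ) (v : ℕ → Bool) (k : ℕ) : Bool :=
  bif decide (k % 2 = 0) then decide (e = k / 2)
  else (decide (e = (k / 2).unpair.1) && v (k / 2).unpair.2)

theorem gU_even (e : ℕ) (v : ℕ → Bool) (k : ℕ) : gU e v (2 * k) = decide (e = k) := by
  unfold gU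
  rw [decide_eq_true (by omega), cond_true]
  congr 2
  omega

theorem gU_odd (e : ℕ) (v : ℕ → Bool) (k n : ℕ) :
    gU e v (2 * Nat.pair k n + 1) = (decide (e = k) && v n) := by
  unfold gU
  rw [decide_eq_false (by omega), cond_false]
  have h : (2 * Nat.pair k n + 1) / 2 = Nat.pair k n := by omega
  rw [h, Nat.unpair_pair]

/-- The algebra of sets of points generated by the generators. -/
def UB : BooleanSubalgebra (Set UPt) where
  carrier := {S | ∃ n, S = {p : UPt | evB (gU p.1.1 p.1.2) n = true}}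
  supClosed' := by
    rintro _ ⟨m, rfl⟩ _ ⟨n, rfl⟩
    refine ⟨tSup m n, ?_⟩
    ext w
    simp [evX_sup]
  infClosed' := by
    rintro _ ⟨m, rfl⟩ _ ⟨n, rfl⟩
    refine ⟨tInf m n, ?_⟩
    ext w
    simp [evX_inf]
  compl_mem' := by
    rintro _ ⟨m, rfl⟩
    refine ⟨tCompl m, ?_⟩
    ext w
    simp [evX_compl]
  bot_mem' := by
    refine ⟨0, ?_⟩
    ext w
    simp [evX_zero]

/-- Its numeration. -/
def nuU (n : ℕ) : UB := ⟨{p : UPt | evB (gU p.1.1 p.1.2) n = true}, n, rfl⟩

theorem mem_nuU (n : ℕ) (p : UPt) : p ∈ (nuU n : Set UPt) ↔ evB (gU p.1.1 p.1.2) n = true :=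
  Iff.rfl

theorem nuU_eq (m n : ℕ) : nuU m = nuU n ↔
    ∀ p : UPt, evB (gU p.1.1 p.1.2) m = evB (gU p.1.1 p.1.2) n := by
  constructor
  · intro h p
    rw [Bool.eq_iff_iff, ← mem_nuU, ← mem_nuU, h]
  · intro h
    apply Subtype.ext
    ext p
    rw [mem_nuU, mem_nuU, h]

theorem nuU_le (m n : ℕ) : nuU m ≤ nuU n ↔
    ∀ p : UPt, evB (gU p.1.1 p.1.2) m = true → evB (gU p.1.1 p.1.2) n = true := Iff.rfl

theorem nuU_algebra : IsPi11Algebra nuU := by
  refine ⟨?_, ⟨tSup, tSup_comp, ?_⟩, ⟨tInf, tInf_comp, ?_⟩, ⟨tCompl, tCompl_comp, ?_⟩, ?_⟩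
  · rintro ⟨S, n, rfl⟩
    exact ⟨n, rfl⟩
  · intro m n
    apply Subtype.ext
    ext w
    simp [nuU, evX_sup]
  · intro m n
    apply Subtype.ext
    ext w
    simp [nuU, evX_inf]
  · intro n
    apply Subtype.ext
    ext w
    simp [nuU, evX_compl]
  · rw [isPi11_iff]
    -- the valuation of the generators, as a function
    have r0 : RecF (fun (p : (ℕ × ℕ) × ℕ) (E : ℕ → ℕ) =>
        (fun i => (gU p.1.2 (vG fun j => E (2 * j + 1)) i).toNat) p.2) := by
      have c1 : Computable (fun x : ((ℕ × ℕ) × ℕ) × ℕ =>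
          (bif decide (x.1.2 % 2 = 0) then decide (x.1.1.2 = x.1.2 / 2)
          else (decide (x.1.1.2 = (x.1.2 / 2).unpair.1) && decide (x.2 = 1))).toNat) := by
        have k1 : Primrec (fun x : ((ℕ × ℕ) × ℕ) × ℕ => x.1.2) := Primrec.snd.comp Primrec.fst
        have k2 : Primrec (fun x : ((ℕ × ℕ) × ℕ) × ℕ => x.1.1.2) :=
          Primrec.snd.comp (Primrec.fst.comp Primrec.fst)
        have k3 : Primrec (fun x : ((ℕ × ℕ) × ℕ) × ℕ => x.1.2 / 2) :=
          Primrec.nat_div.comp k1 (Primrec.const 2)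
        have k4 : Primrec (fun x : ((ℕ × ℕ) × ℕ) × ℕ => x.1.2 % 2) :=
          Primrec.nat_mod.comp k1 (Primrec.const 2)
        have d1 : Primrec (fun x : ((ℕ × ℕ) × ℕ) × ℕ => decide (x.1.2 % 2 = 0)) :=
          PrimrecPred.decide (Primrec.eq.comp k4 (Primrec.const 0))
        have d2 : Primrec (fun x : ((ℕ × ℕ) × ℕ) × ℕ => decide (x.1.1.2 = x.1.2 / 2)) :=
          PrimrecPred.decide (Primrec.eq.comp k2 k3)
        have d3 : Primrec (fun x : ((ℕ × ℕ) × ℕ) × ℕ => decide (x.1.1.2 = (x.1.2 / 2).unpair.1)) :=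
          PrimrecPred.decide (Primrec.eq.comp k2 (Primrec.fst.comp (Primrec.unpair.comp k3)))
        have d4 : Primrec (fun x : ((ℕ × ℕ) × ℕ) × ℕ => decide (x.2 = 1)) :=
          PrimrecPred.decide (Primrec.eq.comp Primrec.snd (Primrec.const 1))
        have d5 : Primrec (fun x : ((ℕ × ℕ) × ℕ) × ℕ =>
          (bif decide (x.1.2 % 2 = 0) then decide (x.1.1.2 = x.1.2 / 2)
          else (decide (x.1.1.2 = (x.1.2 / 2).unpair.1) && decide (x.2 = 1)))) :=
          Primrec.cond d1 d2 (Primrec.and.comp d3 d4)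
        exact ((Primrec.dom_bool Bool.toNat).comp d5).to_comp
      have c2 : Computable (fun x : (ℕ × ℕ) × ℕ => 2 * (x.2 / 2).unpair.2 + 1) :=
        (Primrec.succ.comp (Primrec.nat_mul.comp (Primrec.const 2) (Primrec.snd.comp
          (Primrec.unpair.comp (Primrec.nat_div.comp Primrec.snd (Primrec.const 2)))))).to_comp
      exact RecF.comp (g := fun x : ((ℕ × ℕ) × ℕ) × ℕ =>
          (bif decide (x.1.2 % 2 = 0) then decide (x.1.1.2 = x.1.2 / 2)
          else (decide (x.1.1.2 = (x.1.2 / 2).unpair.1) && decide (x.2 = 1))).toNat) c1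
        (RecF.pair (RecF.of_computable (f := fun p : (ℕ × ℕ) × ℕ => p) Computable.id)
          (RecF.at c2))
    have hv : ∀ (e : ℕ) (v : ℕ → Bool), vG (fun i => (gU e v i).toNat) = gU e v :=
      fun e v => vG_toNat _
    have hf1 : Computable (fun p : ℕ × ℕ => p.1.unpair.1) :=
      Computable.fst.comp (Computable.unpair.comp Computable.fst)
    have hf2 : Computable (fun p : ℕ × ℕ => p.1.unpair.2) :=
      Computable.snd.comp (Computable.unpair.comp Computable.fst)
    -- the two sides
    have r1 : RecF (fun (p : ℕ × ℕ) (E : ℕ → ℕ) =>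
        evB (gU p.2 (vG fun j => E (2 * j + 1))) p.1.unpair.1) :=
      (evB_recF.subst (RecF.of_computable hf1) (Ψ := fun (p : ℕ × ℕ) (E : ℕ → ℕ) (i : ℕ) =>
        (gU p.2 (vG fun j => E (2 * j + 1)) i).toNat) r0).congr fun p E => by rw [hv]
    have r2 : RecF (fun (p : ℕ × ℕ) (E : ℕ → ℕ) =>
        evB (gU p.2 (vG fun j => E (2 * j + 1))) p.1.unpair.2) :=
      (evB_recF.subst (RecF.of_computable hf2) (Ψ := fun (p : ℕ × ℕ) (E : ℕ → ℕ) (i : ℕ) =>
        (gU p.2 (vG fun j => E (2 * j + 1)) i).toNat) r0).congr fun p E => by rw [hv]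
    have s1 : Sig (fun (p : ℕ × ℕ) (E : ℕ → ℕ) =>
        evB (gU p.2 (vG fun j => E (2 * j + 1))) p.1.unpair.1 ≠
        evB (gU p.2 (vG fun j => E (2 * j + 1))) p.1.unpair.2) := by
      have := RecF.comp (g := fun x : Bool × Bool => decide (x.1 ≠ x.2))
        ((Primrec.dom_finite fun x : Bool × Bool => decide (x.1 ≠ x.2)).to_comp) (r1.pair r2)
      exact (Sig.of_recF this).congr fun a F => by simp
    have s2 : Sig (fun (p : ℕ × ℕ) (E : ℕ → ℕ) => ∀ t, ¬ (Nat.pair p.2 t ∈ O) ∨
        evB (vG fun j => E (2 * j + 1)) t = false) := by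
      refine Sig.all (P := fun (p : ℕ × ℕ) (t : ℕ) (E : ℕ → ℕ) => ¬ (Nat.pair p.2 t ∈ O) ∨
        evB (vG fun j => E (2 * j + 1)) t = false) ?_
      apply Sig.or
      · exact Sig.comp (P := fun (n : ℕ) (_ : ℕ → ℕ) => ¬ (n ∈ O)) pih_O
          (f := fun p : (ℕ × ℕ) × ℕ => Nat.pair p.1.2 p.2)
          (Primrec₂.natPair.comp (Primrec.snd.comp Primrec.fst) Primrec.snd).to_comp
      · have r3 : RecF (fun (p : (ℕ × ℕ) × ℕ) (E : ℕ → ℕ) =>
            evB (vG fun j => E (2 * j + 1)) p.2) :=
          evB_recF.subst (RecF.of_computable Computable.snd)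
            (Ψ := fun (p : (ℕ × ℕ) × ℕ) (E : ℕ → ℕ) (i : ℕ) => E (2 * i + 1))
            (RecF.at (Primrec.succ.comp (Primrec.nat_mul.comp (Primrec.const 2)
              Primrec.snd)).to_comp)
        exact (Sig.of_recF r3.notB).congr fun a F => by simp
    have s3 : Pih (fun (p : ℕ) (F : ℕ → ℕ) => ¬ ∃ e : ℕ, ∃ G : ℕ → ℕ,
        (∀ t, ¬ (Nat.pair e t ∈ O) ∨ evB (vG fun j => join F G (2 * j + 1)) t = false) ∧
        evB (gU e (vG fun j => join F G (2 * j + 1))) p.unpair.1 ≠
        evB (gU e (vG fun j => join F G (2 * j + 1))) p.unpair.2) :=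
      Sig.not (Sig.ex (P := fun (p : ℕ) (e : ℕ) (F : ℕ → ℕ) => ∃ G : ℕ → ℕ,
        (∀ t, ¬ (Nat.pair e t ∈ O) ∨ evB (vG fun j => join F G (2 * j + 1)) t = false) ∧
        evB (gU e (vG fun j => join F G (2 * j + 1))) p.unpair.1 ≠
        evB (gU e (vG fun j => join F G (2 * j + 1))) p.unpair.2) (Sig.exF (s2.and s1)))
    refine s3.congr fun p F => ?_
    simp only [join_odd]
    constructor
    · intro h
      show nuU p.unpair.1 = nuU p.unpair.2
      rw [nuU_eq]
      rintro ⟨⟨e, v⟩, hq⟩
      by_contra h1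
      have hv2 : vG (fun j => (v j).toNat) = v := vG_toNat v
      refine h ⟨e, fun j => (v j).toNat, fun t => ?_, ?_⟩
      · rw [hv2]
        by_cases h2 : Nat.pair e t ∈ O
        · exact Or.inr (hq t h2)
        · exact Or.inl h2
      · rw [hv2]; exact h1
    · intro h
      rintro ⟨e, G, h1, h2⟩
      have h3 : nuU p.unpair.1 = nuU p.unpair.2 := h
      rw [nuU_eq] at h3
      refine h2 (h3 ⟨(e, vG G), fun t ht => ?_⟩)
      rcases h1 t with h4 | h4
      · exact absurd ht h4
      · exact h4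

/-- The prime ideal theorem, in terms of homomorphisms to the two element algebra. -/
private theorem exists_hom {A : Type} [BooleanAlgebra A] (c : A) (hc : c ≠ ⊥) :
    ∃ h : A → Bool, h c = true ∧ h ⊥ = false ∧ (∀ a, h aᶜ = !h a) ∧
      (∀ a b, h (a ⊔ b) = (h a || h b)) ∧ ∀ a b, h (a ⊓ b) = (h a && h b) := by
  classical
  have hd : Disjoint (Order.PFilter.principal c : Set A) (Order.Ideal.principal (⊥ : A) : Set A) := by
    rw [Set.disjoint_left]
    intro x hx hx'
    have h1 : c ≤ x := Order.PFilter.mem_principal.1 hx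
    have h2 : x ≤ ⊥ := Order.Ideal.mem_principal.1 hx'
    exact hc (le_bot_iff.1 (h1.trans h2))
  obtain ⟨J, hJ, -, hJ2⟩ := DistribLattice.prime_ideal_of_disjoint_filter_ideal hd
  have hcJ : c ∉ J := fun h => Set.disjoint_left.1 hJ2 (Order.PFilter.mem_principal.2 le_rfl) h
  have hor : ∀ a, a ∈ J ∨ aᶜ ∈ J := fun a => hJ.mem_or_compl_mem
  have hand : ∀ a, ¬ (a ∈ J ∧ aᶜ ∈ J) := by
    rintro a ⟨h1, h2⟩
    have h3 : a ⊔ aᶜ ∈ J := Order.Ideal.sup_mem h1 h2
    rw [sup_compl_eq_top] at h3
    exact hcJ (J.lower le_top h3)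
  refine ⟨fun a => decide (a ∉ J), by simpa using hcJ, by simp, ?_, ?_, ?_⟩
  · intro a
    by_cases h1 : a ∈ J
    · have h2 : aᶜ ∉ J := fun h => hand a ⟨h1, h⟩
      simp [h1, h2]
    · have h2 : aᶜ ∈ J := (hor a).resolve_left h1
      simp [h1, h2]
  · intro a b
    by_cases h1 : a ∈ J <;> by_cases h2 : b ∈ J <;> simp [h1, h2, Order.Ideal.sup_mem_iff]
  · intro a b
    by_cases h1 : a ∈ J
    · have h3 : a ⊓ b ∈ J := J.lower inf_le_left h1
      simp [h1, h3]
    · by_cases h2 : b ∈ J
      · have h3 : a ⊓ b ∈ J := J.lower inf_le_right h2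
        simp [h2, h3]
      · have h3 : a ⊓ b ∉ J := fun h => (hJ.mem_or_mem h).elim h1 h2
        simp [h1, h2, h3]

private theorem b1 (a b : Bool) (h1 : (a && b) = false) (h2 : (!(a || b)) = false) :
    b = !a := by
  revert a b; decide

private theorem b2 (a b c : Bool) (h1 : a = true → c = true) (h2 : b = true → c = true)
    (h3 : (c && !(a || b)) = false) : c = (a || b) := by
  revert a b c; decide

private theorem b3 (a b c : Bool) (h1 : c = true → a = true) (h2 : c = true → b = true)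
    (h3 : ((a && b) && !c) = false) : c = (a && b) := by
  revert a b c; decide

theorem nuU_universal : IsPi11Universal nuU := by
  refine ⟨nuU_algebra, ?_⟩
  intro A _ μ hμ
  obtain ⟨hs, ⟨u, hu, hu'⟩, ⟨i, hi, hi'⟩, ⟨c, hc, hc'⟩, heq⟩ := hμ
  obtain ⟨z, hz⟩ := hs ⊥
  obtain ⟨o, ho⟩ := hs ⊤
  have hval : ∀ t, μ (evX z id c u i t) = evX ⊥ μ compl (· ⊔ ·) (· ⊓ ·) t :=
    evX_hom μ hz (fun k => rfl) hc' hu' hi'
  have ct : ∀ {g : ℕ → ℕ}, Computable g → Computable (evX z g c u i) := by
    intro g hg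
    have h := evX_comp (α := Unit) (z := z) (g := fun _ => g) (c := c) (u := u) (i := i)
      (hg.comp Computable.snd) hc hu hi
    exact h.comp (Computable.const ()) Computable.id
  have hW : IsPi11 {t | μ (evX z id c u i t) = ⊥} := by
    rw [isPi11_iff] at heq ⊢
    have h1 := heq.comp (f := fun t : ℕ => Nat.pair (evX z id c u i t) z)
      (Primrec₂.natPair.to_comp.comp (ct Computable.id) (Computable.const z))
    refine h1.congr fun t F => ?_
    show μ (Nat.pair (evX z id c u i t) z).unpair.1 = μ (Nat.pair (evX z id c u i t) z).unpair.2 ↔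
      μ (evX z id c u i t) = ⊥
    rw [Nat.unpair_pair, hz]
  obtain ⟨e, he⟩ := O_index hW
  -- properties of the valuations over `e`
  have hT : ∀ v : ℕ → Bool, (∀ t, Nat.pair e t ∈ O → evB v t = false) →
      ∀ t, evX ⊥ μ compl (· ⊔ ·) (· ⊓ ·) t = ⊥ → evB v t = false := by
    intro v hv t ht
    apply hv t ((he t).1 _)
    show μ (evX z id c u i t) = ⊥
    rw [hval, ht]
  have hle : ∀ v : ℕ → Bool, (∀ t, Nat.pair e t ∈ O → evB v t = false) →
      ∀ m n, μ m ≤ μ n → v m = true → v n = true := by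
    intro v hv m n hmn hm
    have h1 := hT v hv (tInf (tLeaf m) (tCompl (tLeaf n))) (by
      rw [evX_inf, evX_leaf, evX_compl, evX_leaf]
      exact (disjoint_compl_right.mono_left hmn).eq_bot)
    rw [evB_inf, evB_leaf, evB_compl, evB_leaf, hm] at h1
    simpa using h1
  have hcv : ∀ v : ℕ → Bool, (∀ t, Nat.pair e t ∈ O → evB v t = false) →
      ∀ n, v (c n) = !v n := by
    intro v hv n
    have h1 := hT v hv (tInf (tLeaf n) (tLeaf (c n))) (by
      rw [evX_inf, evX_leaf, evX_leaf, hc']
      exact inf_compl_eq_bot)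
    have h2 := hT v hv (tCompl (tSup (tLeaf n) (tLeaf (c n)))) (by
      rw [evX_compl, evX_sup, evX_leaf, evX_leaf, hc']
      show (μ n ⊔ (μ n)ᶜ)ᶜ = ⊥
      rw [sup_compl_eq_top, compl_top])
    rw [evB_inf, evB_leaf, evB_leaf] at h1
    rw [evB_compl, evB_sup, evB_leaf, evB_leaf] at h2
    exact b1 _ _ h1 h2
  have huv : ∀ v : ℕ → Bool, (∀ t, Nat.pair e t ∈ O → evB v t = false) →
      ∀ m n, v (u m n) = (v m || v n) := by
    intro v hv m n
    have h1 := hle v hv m (u m n) (by rw [hu']; exact le_sup_left)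
    have h2 := hle v hv n (u m n) (by rw [hu']; exact le_sup_right)
    have h3 := hT v hv (tInf (tLeaf (u m n)) (tCompl (tSup (tLeaf m) (tLeaf n)))) (by
      rw [evX_inf, evX_leaf, evX_compl, evX_sup, evX_leaf, evX_leaf, hu']
      exact inf_compl_eq_bot)
    rw [evB_inf, evB_leaf, evB_compl, evB_sup, evB_leaf, evB_leaf] at h3
    exact b2 _ _ _ h1 h2 h3
  have hiv : ∀ v : ℕ → Bool, (∀ t, Nat.pair e t ∈ O → evB v t = false) →
      ∀ m n, v (i m n) = (v m && v n) := by
    intro v hv m n
    have h1 := hle v hv (i m n) m (by rw [hi']; exact inf_le_left)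
    have h2 := hle v hv (i m n) n (by rw [hi']; exact inf_le_right)
    have h3 := hT v hv (tInf (tInf (tLeaf m) (tLeaf n)) (tCompl (tLeaf (i m n)))) (by
      rw [evX_inf, evX_inf, evX_leaf, evX_leaf, evX_compl, evX_leaf, hi']
      exact inf_compl_eq_bot)
    rw [evB_inf, evB_inf, evB_leaf, evB_leaf, evB_compl, evB_leaf] at h3
    exact b3 _ _ _ h1 h2 h3
  have hzv : ∀ v : ℕ → Bool, (∀ t, Nat.pair e t ∈ O → evB v t = false) → v z = false := by
    intro v hv
    have h1 := hT v hv (tLeaf z) (by rw [evX_leaf, hz])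
    rwa [evB_leaf] at h1
  have hov : ∀ v : ℕ → Bool, (∀ t, Nat.pair e t ∈ O → evB v t = false) → v o = true := by
    intro v hv
    have h1 := hT v hv (tCompl (tLeaf o)) (by rw [evX_compl, evX_leaf, ho, compl_top])
    rw [evB_compl, evB_leaf] at h1
    simpa using h1
  -- translation of terms
  let gA : ℕ → ℕ := fun k => bif decide (k % 2 = 0) then (bif decide (e = k / 2) then o else z)
    else (bif decide (e = (k / 2).unpair.1) then (k / 2).unpair.2 else z)
  have cgA : Computable gA := by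
    have k2 : Primrec (fun k : ℕ => k / 2) := Primrec.nat_div.comp Primrec.id (Primrec.const 2)
    have k4 : Primrec (fun k : ℕ => k % 2) := Primrec.nat_mod.comp Primrec.id (Primrec.const 2)
    have d1 : Primrec (fun k : ℕ => decide (k % 2 = 0)) :=
      PrimrecPred.decide (Primrec.eq.comp k4 (Primrec.const 0))
    have d2 : Primrec (fun k : ℕ => decide (e = k / 2)) :=
      PrimrecPred.decide (Primrec.eq.comp (Primrec.const e) k2)
    have d3 : Primrec (fun k : ℕ => decide (e = (k / 2).unpair.1)) :=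
      PrimrecPred.decide (Primrec.eq.comp (Primrec.const e)
        (Primrec.fst.comp (Primrec.unpair.comp k2)))
    exact (Primrec.cond d1 (Primrec.cond d2 (Primrec.const o) (Primrec.const z))
      (Primrec.cond d3 (Primrec.snd.comp (Primrec.unpair.comp k2)) (Primrec.const z))).to_comp
  have hgA : ∀ v : ℕ → Bool, (∀ t, Nat.pair e t ∈ O → evB v t = false) →
      ∀ k, v (gA k) = gU e v k := by
    intro v hv k
    show v (bif decide (k % 2 = 0) then (bif decide (e = k / 2) then o else z)
      else (bif decide (e = (k / 2).unpair.1) then (k / 2).unpair.2 else z)) = _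
    unfold gU
    cases decide (k % 2 = 0)
    · rw [cond_false, cond_false]
      cases decide (e = (k / 2).unpair.1)
      · rw [cond_false, hzv v hv]; rfl
      · rw [cond_true]; rfl
    · rw [cond_true, cond_true]
      cases decide (e = k / 2)
      · rw [cond_false, hzv v hv]
      · rw [cond_true, hov v hv]
  have htr : ∀ v : ℕ → Bool, (∀ t, Nat.pair e t ∈ O → evB v t = false) →
      ∀ t, v (evX z gA c u i t) = evB (gU e v) t := fun v hv t =>
    evX_hom v (hzv v hv) (hgA v hv) (hcv v hv) (huv v hv) (hiv v hv) t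
  -- the element and the isomorphism
  let S : ℕ → UB := fun n => nuU (tLeaf (2 * Nat.pair e n + 1))
  let a : UB := nuU (tLeaf (2 * e))
  have ha : ∀ p : UPt, evB (gU p.1.1 p.1.2) (tLeaf (2 * e)) = true ↔ p.1.1 = e := by
    intro p
    rw [evB_leaf, gU_even]
    simp
  have hS : ∀ (p : UPt) n, evB (gU p.1.1 p.1.2) (tLeaf (2 * Nat.pair e n + 1)) = true ↔
      p.1.1 = e ∧ p.1.2 n = true := by
    intro p n
    rw [evB_leaf, gU_odd]
    simp
  have hSa : ∀ n, S n ≤ a := by
    intro n
    show nuU _ ≤ nuU _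
    rw [nuU_le]
    intro p hp
    rw [hS] at hp
    rw [ha]
    exact hp.1
  have hSle : ∀ m n, S m ≤ S n ↔ μ m ≤ μ n := by
    intro m n
    show nuU _ ≤ nuU _ ↔ _
    rw [nuU_le]
    constructor
    · intro h
      by_contra hmn
      have h1 : μ m ⊓ (μ n)ᶜ ≠ ⊥ := fun h2 => hmn (by
        rw [← sdiff_eq, sdiff_eq_bot_iff] at h2
        exact h2)
      obtain ⟨φ, f1, f2, f3, f4, f5⟩ := exists_hom _ h1
      have hφ : ∀ t, Nat.pair e t ∈ O → evB (fun k => φ (μ k)) t = false := by
        intro t ht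
        have h2 : μ (evX z id c u i t) = ⊥ := (he t).2 ht
        have h3 : φ (evX ⊥ μ compl (· ⊔ ·) (· ⊓ ·) t) = evB (fun k => φ (μ k)) t :=
          evX_hom φ f2 (fun k => rfl) f3 f4 f5 t
        rw [← h3, ← hval, h2, f2]
      rw [f5, f3] at f1
      have h4 := h ⟨(e, fun k => φ (μ k)), hφ⟩ ((hS _ _).2 ⟨rfl, by
        cases h5 : φ (μ m)
        · rw [h5] at f1; simp at f1
        · exact h5⟩)
      have h5 := ((hS _ _).1 h4).2
      have h6 : φ (μ n) = true := h5
      rw [h6] at f1
      simp at f1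
    · intro h p hp
      rw [hS] at hp ⊢
      refine ⟨hp.1, hle p.1.2 ?_ m n h hp.2⟩
      intro t ht
      exact p.2 t (by rw [hp.1]; exact ht)
  have htrS : ∀ t, nuU t ⊓ a = S (evX z gA c u i t) := by
    intro t
    have h0 : nuU t ⊓ a = nuU (tInf t (tLeaf (2 * e))) := by
      apply Subtype.ext
      ext w
      simp [nuU, a, evX_inf]
    rw [h0]
    show nuU _ = nuU _
    rw [nuU_eq]
    intro p
    rw [Bool.eq_iff_iff, hS, evB_inf, Bool.and_eq_true, ha]
    constructor
    · rintro ⟨h1, h2⟩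
      refine ⟨h2, ?_⟩
      rw [htr p.1.2 fun t ht => p.2 t (by rw [h2]; exact ht)]
      rw [← h2]
      exact h1
    · rintro ⟨h2, h1⟩
      refine ⟨?_, h2⟩
      rw [htr p.1.2 fun t ht => p.2 t (by rw [h2]; exact ht)] at h1
      rw [h2]
      exact h1
  have hSe : ∀ m n, μ m = μ n → S m = S n := fun m n h =>
    le_antisymm ((hSle m n).2 h.le) ((hSle n m).2 h.ge)
  let f : A → Set.Iic a := fun x => ⟨S (Classical.choose (hs x)), hSa _⟩
  have hf1 : ∀ n, f (μ n) = ⟨S n, hSa n⟩ := fun n =>
    Subtype.ext (hSe _ _ (Classical.choose_spec (hs (μ n))))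
  have hf2 : ∀ x y, f x ≤ f y ↔ x ≤ y := by
    intro x y
    obtain ⟨m, rfl⟩ := hs x
    obtain ⟨n, rfl⟩ := hs y
    rw [hf1, hf1]
    exact hSle m n
  have hf3 : Function.Surjective f := by
    rintro ⟨⟨b, t, rfl⟩, hb⟩
    refine ⟨μ (evX z gA c u i t), ?_⟩
    rw [hf1]
    apply Subtype.ext
    show S _ = nuU t
    rw [← htrS]
    exact inf_eq_left.2 hb
  refine ⟨a, RelIso.ofSurjective (OrderEmbedding.ofMapLEIff f hf2) hf3, ⟨fun n =>
    tLeaf (2 * Nat.pair e n + 1), ?_, ?_⟩, ⟨evX z gA c u i, ct cgA, ?_⟩⟩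
  · have h : Primrec (fun n : ℕ => 4 * ((2 * Nat.pair e n + 1) + 1)) :=
      Primrec.nat_mul.comp (Primrec.const 4) (Primrec.succ.comp (Primrec.succ.comp
        (Primrec.nat_mul.comp (Primrec.const 2)
          (Primrec₂.natPair.comp (Primrec.const e) Primrec.id))))
    exact h.to_comp
  · intro n
    show f (μ n) = _
    rw [hf1]
    apply Subtype.ext
    show S n = S n ⊓ a
    exact (inf_eq_left.2 (hSa n)).symm
  · intro n
    rw [OrderIso.symm_apply_eq]
    show _ = f (μ _)
    rw [hf1]
    apply Subtype.ext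
    exact htrS n

/-- A `Π¹₁`-universal numerated Boolean algebra exists. -/
theorem exists_universal : ∃ (B : Type) (_ : BooleanAlgebra B) (ν : ℕ → B), IsPi11Universal ν :=
  ⟨UB, inferInstance, nuU, nuU_universal⟩

end Pool.Agent.Lib.MP_8c048d_lc
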