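import Mathlib
import Pool.Agent.Lib.MP_8c048d_lc.CE

/-!
# BA: the invariant `CodeB`
-/

set_option autoImplicit false

namespace Pool.Agent.Lib.MP_8c048d_lc

/-! ### The order theoretic part -/

private theorem NI_iso {α β : Type} [PartialOrder α] [OrderBot α] [PartialOrder β] [OrderBot β]
    (e : α ≃o β) : ∀ (r : ℕ) (x : α), NI r (e x) ↔ NI r x := by
  have disj : ∀ x y : α, Disjoint (e x) (e y) ↔ Disjoint x y := by
    intro x y
    constructor
    · intro h z hx hy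
      have h1 := h (e.le_iff_le.2 hx) (e.le_iff_le.2 hy)
      rw [← e.map_bot] at h1
      exact e.le_iff_le.1 h1
    · intro h z hx hy
      have h1 : e.symm z ≤ x := by
        rw [← e.le_iff_le, e.apply_symm_apply]
        exact hx
      have h2 : e.symm z ≤ y := by
        rw [← e.le_iff_le, e.apply_symm_apply]
        exact hy
      have h3 := h h1 h2
      rw [← e.le_iff_le, e.apply_symm_apply, e.map_bot] at h3
      exact h3
  intro r
  induction r with
  | zero =>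
    intro x
    constructor
    · intro h a ha hat
      exact h (e a) (e.le_iff_le.2 ha) ((e.isAtom_iff a).2 hat)
    · intro h b hb hat
      have h1 : e.symm b ≤ x := by
        rw [← e.le_iff_le, e.apply_symm_apply]
        exact hb
      exact h (e.symm b) h1 ((e.symm.isAtom_iff b).2 hat)
  | succ r ih =>
    intro x
    constructor
    · rintro ⟨n, hn⟩
      refine ⟨n, fun F hF hd => ?_⟩
      obtain ⟨i, hi⟩ := hn (fun i => e (F i)) (fun i => e.le_iff_le.2 (hF i))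
        (fun i j hij => (disj _ _).2 (hd hij))
      exact ⟨i, (ih _).1 hi⟩
    · rintro ⟨n, hn⟩
      refine ⟨n, fun F hF hd => ?_⟩
      obtain ⟨i, hi⟩ := hn (fun i => e.symm (F i))
        (fun i => by
          rw [← e.le_iff_le, e.apply_symm_apply]
          exact hF i)
        (fun i j hij => by
          have h1 := (disj (e.symm (F i)) (e.symm (F j))).1
          rw [e.apply_symm_apply, e.apply_symm_apply] at h1
          exact h1 (hd hij))
      refine ⟨i, ?_⟩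
      have h2 := (ih _).2 hi
      rwa [e.apply_symm_apply] at h2

private theorem code_iso_sub {α β : Type} [PartialOrder α] [OrderBot α] [PartialOrder β]
    [OrderBot β] (e : α ≃o β) : CodeB α ⊆ CodeB β := by
  rintro r ⟨b, hb, h⟩
  have hNW : ∀ x, NW (e x) ↔ NW x := fun x => exists_congr fun r => NI_iso e r x
  refine ⟨e b, fun h' => hb ((hNW b).1 h'), fun c hc => ?_⟩
  have h1 : e.symm c ≤ b := by
    rw [← e.le_iff_le, e.apply_symm_apply]
    exact hc
  have e1 : c = e (e.symm c) := (e.apply_symm_apply c).symm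
  rcases h _ h1 with h2 | ⟨h2, a, ha, h3, h4⟩
  · left
    rw [e1]
    exact (NI_iso e _ _).2 h2
  · right
    refine ⟨fun h' => h2 ?_, e a, ?_, (NI_iso e _ _).2 h3, fun h' => h4 ((NI_iso e _ _).1 h')⟩
    · rw [e1] at h'
      exact (hNW _).1 h'
    · rw [e1]
      exact e.le_iff_le.2 ha

theorem code_iso {α β : Type} [PartialOrder α] [OrderBot α] [PartialOrder β] [OrderBot β]
    (e : α ≃o β) : CodeB α = CodeB β :=
  Set.Subset.antisymm (code_iso_sub e) (code_iso_sub e.symm)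

section relative

variable {B : Type} [BooleanAlgebra B] (a : B)

private theorem disj_Iic (x y : Set.Iic a) : Disjoint x y ↔ Disjoint (x : B) (y : B) := by
  constructor
  · intro h z hx hy
    exact h (x := ⟨z, hx.trans x.2⟩) hx hy
  · intro h z hx hy
    exact h (x := (z : B)) hx hy

private theorem isAtom_Iic (x : Set.Iic a) : IsAtom x ↔ IsAtom (x : B) := by
  constructor
  · rintro ⟨h1, h2⟩
    refine ⟨fun h => h1 (Subtype.ext h), fun y hy => ?_⟩
    have h3 : y ≤ a := hy.le.trans x.2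
    have h4 := h2 ⟨y, h3⟩ (by
      rw [← Subtype.coe_lt_coe]
      exact hy)
    exact congrArg Subtype.val h4
  · rintro ⟨h1, h2⟩
    refine ⟨fun h => h1 (congrArg Subtype.val h), fun y hy => ?_⟩
    exact Subtype.ext (h2 y hy)

private theorem NI_Iic : ∀ (r : ℕ) (x : Set.Iic a), NI r x ↔ NI r (x : B) := by
  intro r
  induction r with
  | zero =>
    intro x
    constructor
    · intro h y hy hat
      exact h ⟨y, hy.trans x.2⟩ hy ((isAtom_Iic a _).2 hat)
    · intro h y hy hat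
      exact h y hy ((isAtom_Iic a _).1 hat)
  | succ r ih =>
    intro x
    constructor
    · rintro ⟨n, hn⟩
      refine ⟨n, fun F hF hd => ?_⟩
      obtain ⟨i, hi⟩ := hn (fun i => ⟨F i, (hF i).trans x.2⟩) hF
        (fun i j hij => (disj_Iic a _ _).2 (hd hij))
      exact ⟨i, (ih _).1 hi⟩
    · rintro ⟨n, hn⟩
      refine ⟨n, fun F hF hd => ?_⟩
      obtain ⟨i, hi⟩ := hn (fun i => (F i : B)) hF
        (fun i j hij => (disj_Iic a _ _).1 (hd hij))
      exact ⟨i, (ih _).2 hi⟩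

private theorem NW_Iic (x : Set.Iic a) : NW x ↔ NW (x : B) :=
  exists_congr fun r => NI_Iic a r x

private theorem code_Iic (r : ℕ) : r ∈ CodeB (Set.Iic a) ↔ ∃ t : B, ∀ u : B,
    ¬ NW (t ⊓ a) ∧ (NI (r + 1) (t ⊓ a ⊓ u) ∨ (¬ NW (t ⊓ a ⊓ u) ∧
      ∃ v : B, NI (r + 1) (t ⊓ a ⊓ u ⊓ v) ∧ ¬ NI r (t ⊓ a ⊓ u ⊓ v))) := by
  constructor
  · rintro ⟨b, hb, h⟩
    have hba : (b : B) ⊓ a = b := inf_eq_left.2 b.2
    refine ⟨b, fun u => ?_⟩
    rw [hba]
    refine ⟨fun h' => hb ((NW_Iic a b).2 h'), ?_⟩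
    rcases h ⟨(b : B) ⊓ u, inf_le_left.trans b.2⟩ inf_le_left with h2 | ⟨h2, x, hx, h3, h4⟩
    · left
      exact (NI_Iic a _ _).1 h2
    · right
      refine ⟨fun h' => h2 ((NW_Iic a _).2 h'), x, ?_⟩
      have hx' : (x : B) ≤ (b : B) ⊓ u := hx
      rw [inf_eq_right.2 hx']
      exact ⟨(NI_Iic a _ _).1 h3, fun h' => h4 ((NI_Iic a _ _).2 h')⟩
  · rintro ⟨t, h⟩
    refine ⟨⟨t ⊓ a, inf_le_right⟩, fun h' => (h ⊥).1 ((NW_Iic a _).1 h'), fun c hc => ?_⟩
    have hc' : (c : B) ≤ t ⊓ a := hc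
    have h1 := (h c).2
    rw [inf_eq_right.2 hc'] at h1
    rcases h1 with h2 | ⟨h2, v, h3, h4⟩
    · left
      exact (NI_Iic a _ _).2 h2
    · right
      refine ⟨fun h' => h2 ((NW_Iic a _).1 h'), ⟨(c : B) ⊓ v, inf_le_left.trans c.2⟩,
        inf_le_left, (NI_Iic a _ _).2 h3, fun h' => h4 ((NI_Iic a _ _).1 h')⟩

/-- The pieces of `b` cut out by a list. -/
private def acc (x : ℕ → B) (b : B) : ℕ → B
  | 0 => b
  | i + 1 => acc x b i ⊓ (x i)ᶜ

private theorem acc_anti (x : ℕ → B) (b : B) {i j : ℕ} (h : i ≤ j) : acc x b j ≤ acc x b i := by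
  induction h with
  | refl => exact le_rfl
  | step _ ih => exact inf_le_left.trans ih

private theorem acc_le (x : ℕ → B) (b : B) (i : ℕ) : acc x b i ≤ b := acc_anti x b (Nat.zero_le i)

private theorem acc_disj (x : ℕ → B) (b : B) {i j : ℕ} (h : i < j) :
    Disjoint (acc x b i ⊓ x i) (acc x b j ⊓ x j) := by
  have h1 : acc x b j ≤ (x i)ᶜ := (acc_anti x b h).trans inf_le_right
  exact (disjoint_compl_right (a := x i)).mono inf_le_right (inf_le_left.trans h1)

private theorem acc_eq (x : ℕ → B) (b : B) (k : ℕ) (hx : ∀ i ≤ k, x i ≤ b)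
    (hd : ∀ i j, i ≤ k → j ≤ k → i ≠ j → Disjoint (x i) (x j)) :
    ∀ i ≤ k, acc x b i ⊓ x i = x i := by
  have h : ∀ i ≤ k, ∀ j, i ≤ j → j ≤ k → x j ≤ acc x b i := by
    intro i
    induction i with
    | zero => exact fun _ j _ hj => hx j hj
    | succ i ih =>
      intro hi j hij hj
      refine le_inf (ih (by omega) j (by omega) hj) ?_
      exact (hd j i hj (by omega) (by omega)).le_compl_right
  intro i hi
  exact inf_eq_right.2 (h i hi i le_rfl hi)

private theorem NI_succ_iff (r : ℕ) (b : B) : NI (r + 1) b ↔ ∃ k : ℕ, ∀ x : ℕ → B,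
    ∃ i, i ≤ k ∧ NI r (acc x b i ⊓ x i) := by
  constructor
  · rintro ⟨k, hk⟩
    refine ⟨k, fun x => ?_⟩
    obtain ⟨i, hi⟩ := hk (fun i : Fin (k + 1) => acc x b i ⊓ x i)
      (fun i => inf_le_left.trans (acc_le x b i)) (by
        intro i j hij
        rcases lt_or_gt_of_ne (fun h : (i : ℕ) = j => hij (Fin.ext h)) with h | h
        · exact acc_disj x b h
        · exact (acc_disj x b h).symm)
    exact ⟨i, Nat.lt_succ_iff.1 i.2, hi⟩
  · rintro ⟨k, hk⟩
    refine ⟨k, fun F hF hd => ?_⟩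
    set x : ℕ → B := fun i => if h : i < k + 1 then F ⟨i, h⟩ else ⊥ with hx
    have hxi : ∀ i (h : i < k + 1), x i = F ⟨i, h⟩ := fun i h => by rw [hx]; simp [h]
    obtain ⟨i, hi, hN⟩ := hk x
    rw [acc_eq x b k (fun i hi => by
      rw [hxi i (by omega)]
      exact hF _) (fun i j hi hj hij => by
      rw [hxi i (by omega), hxi j (by omega)]
      exact hd (fun h => hij (congrArg Fin.val h))) i hi, hxi i (by omega)] at hN
    exact ⟨_, hN⟩

end relative

/-! ### Complexity -/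

section complexity

variable {B : Type} [BooleanAlgebra B] {ν : ℕ → B} {inf : ℕ → ℕ → ℕ} {c : ℕ → ℕ}

/-- The index of `acc`. -/
private def accN (inf : ℕ → ℕ → ℕ) (c : ℕ → ℕ) (n : ℕ) (l : List ℕ) : ℕ → ℕ
  | 0 => n
  | i + 1 => inf (accN inf c n l i) (c (l.getD i 0))

/-- The index of the piece. -/
private def partN (inf : ℕ → ℕ → ℕ) (c : ℕ → ℕ) (n : ℕ) (l : List ℕ) (i : ℕ) : ℕ :=
  inf (accN inf c n l i) (l.getD i 0)

private theorem accN_spec (hinf : ∀ m n, ν (inf m n) = ν m ⊓ ν n) (hc : ∀ n, ν (c n) = (ν n)ᶜ)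
    (n : ℕ) (l : List ℕ) (i : ℕ) :
    ν (accN inf c n l i) = acc (fun j => ν (l.getD j 0)) (ν n) i := by
  induction i with
  | zero => rfl
  | succ i ih => rw [accN, hinf, hc, ih, acc]

private theorem partN_spec (hinf : ∀ m n, ν (inf m n) = ν m ⊓ ν n) (hc : ∀ n, ν (c n) = (ν n)ᶜ)
    (n : ℕ) (l : List ℕ) (i : ℕ) :
    ν (partN inf c n l i) = acc (fun j => ν (l.getD j 0)) (ν n) i ⊓ ν (l.getD i 0) := by
  rw [partN, hinf, accN_spec hinf hc]

private theorem accN_comp (hinf : Computable₂ inf) (hc : Computable c) :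
    Computable (fun p : (ℕ × List ℕ) × ℕ => accN inf c p.1.1 p.1.2 p.2) := by
  have h : (fun p : (ℕ × List ℕ) × ℕ => accN inf c p.1.1 p.1.2 p.2) =
      fun p => Nat.rec (motive := fun _ => ℕ) p.1.1
        (fun i y => inf y (c (p.1.2.getD i 0))) p.2 := by
    funext p
    obtain ⟨⟨n, l⟩, i⟩ := p
    induction i with
    | zero => rfl
    | succ i ih =>
      simp only [accN] at ih ⊢
      rw [ih]
  rw [h]
  have h0 : Computable (fun p : (ℕ × List ℕ) × ℕ => p.1.1) := Computable.fst.comp Computable.fst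
  refine Computable.nat_rec (h := fun (p : (ℕ × List ℕ) × ℕ) (q : ℕ × ℕ) =>
    inf q.2 (c (p.1.2.getD q.1 0))) Computable.snd h0 ?_
  have h1 : Computable (fun q : ((ℕ × List ℕ) × ℕ) × (ℕ × ℕ) => q.1.1.2.getD q.2.1 0) := by
    have h2 : Primrec₂ (fun (l : List ℕ) (i : ℕ) => l.getD i 0) := Primrec.list_getD 0
    have h3 : Computable (fun q : ((ℕ × List ℕ) × ℕ) × (ℕ × ℕ) => q.1.1.2) :=
      Computable.snd.comp (Computable.fst.comp Computable.fst)
    have h4 : Computable (fun q : ((ℕ × List ℕ) × ℕ) × (ℕ × ℕ) => q.2.1) :=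
      Computable.fst.comp Computable.snd
    exact h2.to_comp.comp h3 h4
  exact hinf.comp (Computable.snd.comp Computable.snd) (hc.comp h1)

private theorem partN_comp (hinf : Computable₂ inf) (hc : Computable c) :
    Computable (fun p : (ℕ × List ℕ) × ℕ => partN inf c p.1.1 p.1.2 p.2) := by
  have h2 : Primrec₂ (fun (l : List ℕ) (i : ℕ) => l.getD i 0) := Primrec.list_getD 0
  have h3 : Computable (fun p : (ℕ × List ℕ) × ℕ => p.1.2) := Computable.snd.comp Computable.fst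
  exact hinf.comp (accN_comp hinf hc) (h2.to_comp.comp h3 Computable.snd)

private theorem NI_succ_num (hs : Function.Surjective ν)
    (hinf : ∀ m n, ν (inf m n) = ν m ⊓ ν n) (hc : ∀ n, ν (c n) = (ν n)ᶜ) (r n : ℕ) :
    NI (r + 1) (ν n) ↔ ∃ k : ℕ, ∀ l : List ℕ, ∃ i, i ≤ k ∧ NI r (ν (partN inf c n l i)) := by
  rw [NI_succ_iff]
  constructor
  · rintro ⟨k, hk⟩
    refine ⟨k, fun l => ?_⟩
    obtain ⟨i, hi, h⟩ := hk (fun j => ν (l.getD j 0))
    exact ⟨i, hi, by rwa [partN_spec hinf hc]⟩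
  · rintro ⟨k, hk⟩
    refine ⟨k, fun x => ?_⟩
    choose g hg using fun j => hs (x j)
    obtain ⟨i, hi, h⟩ := hk ((List.range (k + 1)).map g)
    refine ⟨i, hi, ?_⟩
    rw [partN_spec hinf hc] at h
    have h1 : ∀ j, j ≤ k → ν (((List.range (k + 1)).map g).getD j 0) = x j := by
      intro j hj
      rw [List.getD_eq_getElem _ _ (by simp; omega)]
      simp [hg]
    have h2 : ∀ j, j ≤ k → acc (fun j => ν (((List.range (k + 1)).map g).getD j 0)) (ν n) j =
        acc x (ν n) j := by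
      intro j
      induction j with
      | zero => exact fun _ => rfl
      | succ j ih =>
        intro hj
        rw [acc, acc, ih (by omega), h1 j (by omega)]
    rwa [h2 i hi, h1 i hi] at h

private theorem NI_zero_sig (hs : Function.Surjective ν) (hi : Computable₂ inf)
    (hinf : ∀ m n, ν (inf m n) = ν m ⊓ ν n) (hat : IsPi11 {n | IsAtom (ν n)}) :
    Sig (fun (n : ℕ) (_ : ℕ → ℕ) => NI 0 (ν n)) := by
  have h1 := ((isPi11_iff _).1 hat).not
  have h2 : Sig (fun (p : ℕ × ℕ) (_ : ℕ → ℕ) => ¬ inf p.1 p.2 ∈ {n | IsAtom (ν n)}) :=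
    Sig.comp (P := fun (n : ℕ) (_ : ℕ → ℕ) => ¬ n ∈ {n | IsAtom (ν n)}) h1
      (f := fun p : ℕ × ℕ => inf p.1 p.2) hi
  refine (Sig.all (P := fun (n u : ℕ) (_ : ℕ → ℕ) => ¬ inf n u ∈ {n | IsAtom (ν n)}) h2).congr ?_
  intro n _
  simp only [Set.mem_ofPred_eq, hinf]
  constructor
  · intro h x hx
    obtain ⟨m, rfl⟩ := hs x
    have := h m
    rwa [inf_eq_right.2 hx] at this
  · intro h u
    exact h _ inf_le_left

private theorem NI_sig (hs : Function.Surjective ν) (hi : Computable₂ inf)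
    (hinf : ∀ m n, ν (inf m n) = ν m ⊓ ν n) (hcc : Computable c)
    (hc : ∀ n, ν (c n) = (ν n)ᶜ) (hat : IsPi11 {n | IsAtom (ν n)}) :
    Sig (fun (p : ℕ × ℕ) (_ : ℕ → ℕ) => NI p.1 (ν p.2)) := by
  have h0 := NI_zero_sig hs hi hinf hat
  -- the clopen conditions
  have cop : ∀ {γ : Type} [Primcodable γ] (f : γ → ℕ × ℕ), Computable f →
      Cop (fun (q : γ) H => H (2 * Nat.pair (f q).1 (f q).2 + 1) = 1) := by
    intro γ _ f hf
    refine Cop.app_eq (f := fun q => 2 * Nat.pair (f q).1 (f q).2 + 1) ?_ (Computable.const 1)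
    have hp : Primrec (fun p : ℕ × ℕ => 2 * Nat.pair p.1 p.2 + 1) :=
      Primrec.succ.comp (Primrec.nat_mul.comp (Primrec.const 2)
        (Primrec₂.natPair.comp Primrec.fst Primrec.snd))
    exact hp.to_comp.comp hf
  -- the three parts
  have s1 : Sig (fun (p : ℕ × ℕ) H => H (2 * Nat.pair p.1 p.2 + 1) = 1) :=
    (cop (fun p : ℕ × ℕ => p) Computable.id).del.1
  have s2 : Sig (fun (_ : ℕ × ℕ) (H : ℕ → ℕ) => ∀ m : ℕ,
      (¬ H (2 * Nat.pair 0 m + 1) = 1 ∨ NI 0 (ν m))) := by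
    refine Sig.all (P := fun (_ : ℕ × ℕ) (m : ℕ) (H : ℕ → ℕ) =>
      (¬ H (2 * Nat.pair 0 m + 1) = 1 ∨ NI 0 (ν m))) ?_
    refine Sig.or ?_ ?_
    · exact (cop (fun q : (ℕ × ℕ) × ℕ => ((0 : ℕ), q.2))
        ((Computable.const 0).pair Computable.snd)).not.del.1
    · exact Sig.comp (P := fun (n : ℕ) (_ : ℕ → ℕ) => NI 0 (ν n)) h0
        (f := fun q : (ℕ × ℕ) × ℕ => q.2) Computable.snd
  have s3 : Sig (fun (_ : ℕ × ℕ) (H : ℕ → ℕ) => ∀ q : ℕ × ℕ,
      (¬ H (2 * Nat.pair (q.1 + 1) q.2 + 1) = 1 ∨ ∃ k : ℕ, ∀ l : List ℕ, ∃ i : ℕ,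
        i ≤ k ∧ H (2 * Nat.pair q.1 (partN inf c q.2 l i) + 1) = 1)) := by
    refine Sig.all (P := fun (_ : ℕ × ℕ) (q : ℕ × ℕ) (H : ℕ → ℕ) =>
      (¬ H (2 * Nat.pair (q.1 + 1) q.2 + 1) = 1 ∨ ∃ k : ℕ, ∀ l : List ℕ, ∃ i : ℕ,
        i ≤ k ∧ H (2 * Nat.pair q.1 (partN inf c q.2 l i) + 1) = 1)) ?_
    refine Sig.or ?_ ?_
    · exact (cop (fun q : (ℕ × ℕ) × (ℕ × ℕ) => (q.2.1 + 1, q.2.2))
        ((Computable.succ.comp (Computable.fst.comp Computable.snd)).pair
          (Computable.snd.comp Computable.snd))).not.del.1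
    · refine Sig.ex (P := fun (p : (ℕ × ℕ) × (ℕ × ℕ)) (k : ℕ) (H : ℕ → ℕ) =>
        ∀ l : List ℕ, ∃ i : ℕ, i ≤ k ∧
          H (2 * Nat.pair p.2.1 (partN inf c p.2.2 l i) + 1) = 1) ?_
      refine Sig.all (P := fun (p : ((ℕ × ℕ) × (ℕ × ℕ)) × ℕ) (l : List ℕ) (H : ℕ → ℕ) =>
        ∃ i : ℕ, i ≤ p.2 ∧ H (2 * Nat.pair p.1.2.1 (partN inf c p.1.2.2 l i) + 1) = 1) ?_
      refine Sig.ex (P := fun (p : (((ℕ × ℕ) × (ℕ × ℕ)) × ℕ) × List ℕ) (i : ℕ) (H : ℕ → ℕ) =>
        i ≤ p.1.2 ∧ H (2 * Nat.pair p.1.1.2.1 (partN inf c p.1.1.2.2 p.2 i) + 1) = 1) ?_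
      refine Sig.and ?_ ?_
      · have hle : PrimrecPred
            (fun p : ((((ℕ × ℕ) × (ℕ × ℕ)) × ℕ) × List ℕ) × ℕ => p.2 ≤ p.1.1.2) :=
          Primrec.nat_le.comp Primrec.snd
            (Primrec.snd.comp (Primrec.fst.comp Primrec.fst))
        exact Sig.of_computable hle.computablePred
      · refine (cop (fun p : ((((ℕ × ℕ) × (ℕ × ℕ)) × ℕ) × List ℕ) × ℕ =>
          (p.1.1.1.2.1, partN inf c p.1.1.1.2.2 p.1.2 p.2)) ?_).del.1
        refine Computable.pair ?_ ?_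
        · exact Computable.fst.comp (Computable.snd.comp (Computable.fst.comp
            (Computable.fst.comp Computable.fst)))
        · exact (partN_comp hi hcc).comp
            (f := fun p : (ℕ × List ℕ) × ℕ => partN inf c p.1.1 p.1.2 p.2)
            (g := fun p : ((((ℕ × ℕ) × (ℕ × ℕ)) × ℕ) × List ℕ) × ℕ =>
              ((p.1.1.1.2.2, p.1.2), p.2))
            (((Computable.snd.comp (Computable.snd.comp (Computable.fst.comp
              (Computable.fst.comp Computable.fst)))).pair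
                (Computable.snd.comp Computable.fst)).pair Computable.snd)
  refine (Sig.exF (s1.and (s2.and s3))).congr ?_
  rintro ⟨r, n⟩ F
  have hj : ∀ (G : ℕ → ℕ) (m : ℕ), join F G (2 * m + 1) = G m := by
    intro G m
    unfold join
    rw [if_neg (by omega)]
    congr 1
    omega
  simp only [hj]
  constructor
  · rintro ⟨G, g1, g2, g3⟩
    have key : ∀ r n, G (Nat.pair r n) = 1 → NI r (ν n) := by
      intro r
      induction r with
      | zero =>
        intro n h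
        rcases g2 n with h' | h'
        · exact absurd h h'
        · exact h'
      | succ r ih =>
        intro n h
        rcases g3 (r, n) with h' | ⟨k, hk⟩
        · exact absurd h h'
        · rw [NI_succ_num hs hinf hc]
          refine ⟨k, fun l => ?_⟩
          obtain ⟨i, hi, hG⟩ := hk l
          exact ⟨i, hi, ih _ hG⟩
    exact key r n g1
  · intro h
    classical
    refine ⟨fun m => if NI m.unpair.1 (ν m.unpair.2) then 1 else 0, ?_, ?_, ?_⟩
    · simp [h]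
    · intro m
      by_cases hm : NI 0 (ν m)
      · exact Or.inr hm
      · left
        simp [hm]
    · rintro ⟨s, m⟩
      by_cases hm : NI (s + 1) (ν m)
      · right
        obtain ⟨k, hk⟩ := (NI_succ_num hs hinf hc s m).1 hm
        refine ⟨k, fun l => ?_⟩
        obtain ⟨i, hi, hN⟩ := hk l
        exact ⟨i, hi, by simp [hN]⟩
      · left
        simp [hm]

/-- Theorem A. If the atoms are `Π¹₁`, the invariant of every relative algebra is `Σ⁰₃(O)`. -/
theorem code_S3 {B : Type} [BooleanAlgebra B] (ν : ℕ → B) (hs : Function.Surjective ν)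
    (hinf : ∃ i : ℕ → ℕ → ℕ, Computable₂ i ∧ ∀ m n, ν (i m n) = ν m ⊓ ν n)
    (hc : ∃ c : ℕ → ℕ, Computable c ∧ ∀ n, ν (c n) = (ν n)ᶜ)
    (hat : IsPi11 {n | IsAtom (ν n)}) (a : B) : S3 (CodeB (Set.Iic a)) := by
  obtain ⟨inf, hi, hinf⟩ := hinf
  obtain ⟨c, hcc, hc⟩ := hc
  obtain ⟨a0, rfl⟩ := hs a
  have hN := NI_sig hs hi hinf hcc hc hat
  -- the basic relations
  have nP : ∀ {γ : Type} [Primcodable γ] (f : γ → ℕ × ℕ), Computable f →
      CEO (fun q : γ => NI (f q).1 (ν (f q).2)) ∧ CEO (fun q : γ => ¬ NI (f q).1 (ν (f q).2)) := by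
    intro γ _ f hf
    have h1 : Sig (fun (q : γ) (_ : ℕ → ℕ) => NI (f q).1 (ν (f q).2)) :=
      Sig.comp (P := fun (p : ℕ × ℕ) (_ : ℕ → ℕ) => NI p.1 (ν p.2)) hN hf
    exact ⟨CEO.of_sig h1, CEO.of_pih h1.not⟩
  have hW : Sig (fun (n : ℕ) (_ : ℕ → ℕ) => NW (ν n)) := by
    refine Sig.ex (P := fun (n r : ℕ) (_ : ℕ → ℕ) => NI r (ν n)) ?_
    exact Sig.comp (P := fun (p : ℕ × ℕ) (_ : ℕ → ℕ) => NI p.1 (ν p.2)) hN
      (f := fun p : ℕ × ℕ => (p.2, p.1)) (Computable.snd.pair Computable.fst)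
  have nW : ∀ {γ : Type} [Primcodable γ] (f : γ → ℕ), Computable f →
      CEO (fun q : γ => ¬ NW (ν (f q))) := by
    intro γ _ f hf
    have h1 : Sig (fun (q : γ) (_ : ℕ → ℕ) => NW (ν (f q))) :=
      Sig.comp (P := fun (n : ℕ) (_ : ℕ → ℕ) => NW (ν n)) hW hf
    exact CEO.of_pih h1.not
  -- the computable index functions
  have ct : Computable (fun q : ℕ × ℕ × ℕ => inf q.2.1 a0) :=
    hi.comp (Computable.fst.comp Computable.snd) (Computable.const a0)
  have cu : Computable (fun q : ℕ × ℕ × ℕ => inf (inf q.2.1 a0) q.2.2) :=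
    hi.comp ct (Computable.snd.comp Computable.snd)
  have cv : Computable (fun q : (ℕ × ℕ × ℕ) × ℕ => inf (inf (inf q.1.2.1 a0) q.1.2.2) q.2) :=
    hi.comp (cu.comp Computable.fst) Computable.snd
  refine ⟨fun q => ¬ NW (ν (inf q.2.1 a0)) ∧
    (NI (q.1 + 1) (ν (inf (inf q.2.1 a0) q.2.2)) ∨ (¬ NW (ν (inf (inf q.2.1 a0) q.2.2)) ∧
      ∃ v : ℕ, NI (q.1 + 1) (ν (inf (inf (inf q.2.1 a0) q.2.2) v)) ∧
        ¬ NI q.1 (ν (inf (inf (inf q.2.1 a0) q.2.2) v)))), ?_, ?_⟩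
  · refine CEO.and (nW _ ct) (CEO.or ?_ (CEO.and (nW _ cu) ?_))
    · exact (nP (fun q : ℕ × ℕ × ℕ => (q.1 + 1, inf (inf q.2.1 a0) q.2.2))
        ((Computable.succ.comp Computable.fst).pair cu)).1
    · refine CEO.ex (P := fun (q : ℕ × ℕ × ℕ) (v : ℕ) =>
        NI (q.1 + 1) (ν (inf (inf (inf q.2.1 a0) q.2.2) v)) ∧
        ¬ NI q.1 (ν (inf (inf (inf q.2.1 a0) q.2.2) v))) ?_
      refine CEO.and ?_ ?_
      · exact (nP (fun q : (ℕ × ℕ × ℕ) × ℕ =>
          (q.1.1 + 1, inf (inf (inf q.1.2.1 a0) q.1.2.2) q.2))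
          ((Computable.succ.comp (Computable.fst.comp Computable.fst)).pair cv)).1
      · exact (nP (fun q : (ℕ × ℕ × ℕ) × ℕ =>
          (q.1.1, inf (inf (inf q.1.2.1 a0) q.1.2.2) q.2))
          ((Computable.fst.comp Computable.fst).pair cv)).2
  · intro r
    rw [code_Iic]
    simp only [hinf]
    constructor
    · rintro ⟨t, h⟩
      obtain ⟨t, rfl⟩ := hs t
      refine ⟨t, fun u => ?_⟩
      obtain ⟨h1, h2⟩ := h (ν u)
      refine ⟨h1, ?_⟩
      rcases h2 with h2 | ⟨h2, v, h3⟩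
      · exact Or.inl h2
      · obtain ⟨v, rfl⟩ := hs v
        exact Or.inr ⟨h2, v, h3⟩
    · rintro ⟨t, h⟩
      refine ⟨ν t, fun u => ?_⟩
      obtain ⟨u, rfl⟩ := hs u
      obtain ⟨h1, h2⟩ := h u
      refine ⟨h1, ?_⟩
      rcases h2 with h2 | ⟨h2, v, h3⟩
      · exact Or.inl h2
      · exact Or.inr ⟨h2, ν v, h3⟩

end complexity

end Pool.Agent.Lib.MP_8c048d_lc
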