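import Mathlib
import Pool.Agent.Lib.MP_8c048d_lc.Atoms

/-!
# L5: the numeration of the Lindenbaum algebra
-/

set_option autoImplicit false

namespace Pool.Agent.Lib.MP_8c048d_lc

open FirstOrder

/-- `[φ] ≤ [ψ]` iff every prime model of `φ` is a model of `ψ`. -/
theorem lindPre_le_iff (L : FirstOrder.Language.{0, 0}) (φ ψ : LindPre (thP L)) :
    φ ≤ ψ ↔
      ∀ (M : Type) [L.Structure M], IsPrimeModel L M →
        M ⊨ (φ : L.Sentence) → M ⊨ (ψ : L.Sentence) := by
  constructor
  · intro h M _ hM hφ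
    have : Nonempty M := hM.1
    have hT : M ⊨ thP L := by
      rw [Language.Theory.model_iff]
      intro χ hχ
      exact hχ M hM
    have h' : (thP L) ⊨ᵇ Language.BoundedFormula.imp (φ : L.Sentence) (ψ : L.Sentence) := h
    have h2 := h'.realize_sentence M
    exact h2 hφ
  · intro h
    show (thP L) ⊨ᵇ Language.BoundedFormula.imp (φ : L.Sentence) (ψ : L.Sentence)
    have hmem : (Language.BoundedFormula.imp (φ : L.Sentence) (ψ : L.Sentence) : L.Sentence) ∈
        thP L := by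
      intro M _ hM
      exact fun hφ => h M hM hφ
    exact Language.Theory.models_sentence_of_mem hmem

variable {L : FirstOrder.Language.{0, 0}}

/-- A sentence as an element of the preorder. -/
def toPre (T : L.Theory) (φ : L.Sentence) : LindPre T := φ

/-- The class of a sentence. -/
def cls (T : L.Theory) (φ : L.Sentence) : Lind T :=
  toAntisymmetrization (· ≤ ·) (toPre T φ)

theorem cls_le_iff (φ ψ : L.Sentence) : cls (thP L) φ ≤ cls (thP L) ψ ↔
    ∀ (M : Type) [L.Structure M], IsPrimeModel L M → M ⊨ φ → M ⊨ ψ := by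
  unfold cls
  rw [toAntisymmetrization_le_toAntisymmetrization_iff]
  exact lindPre_le_iff L (toPre _ φ) (toPre _ ψ)

theorem cls_surj (T : L.Theory) (z : Lind T) : ∃ φ : L.Sentence, cls T φ = z := by
  obtain ⟨φ, hφ⟩ := Quotient.exists_rep z
  exact ⟨φ, hφ⟩

theorem mem_ThC_cAnd (b : Lab L) (M : Type) [L.Structure M] (m n : ℕ) :
    cAnd m n ∈ ThC b M ↔ m ∈ ThC b M ∧ n ∈ ThC b M := by
  unfold ThC cAnd cNot
  simp only [Set.mem_ofPred_eq, dec_cImp, Sat, dec_bot cBot rfl]
  constructor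
  · intro h
    refine ⟨fun a => ?_, fun a => ?_⟩
    · have := h a
      tauto
    · have := h a
      tauto
  · rintro ⟨h1, h2⟩ a h
    exact h (h1 a) (h2 a)

theorem mem_ThC_compl (b : Lab L) (M : Type) [L.Structure M] [Nonempty M] (n : ℕ) :
    cNot (cBox n) ∈ ThC b M ↔ n ∉ ThC b M := by
  unfold ThC cNot
  simp only [Set.mem_ofPred_eq, dec_cImp, Sat, dec_bot cBot rfl, dec_cBox]
  constructor
  · intro h
    exact h (Classical.arbitrary M)
  · intro h a
    exact h

theorem mem_ThC_bot (b : Lab L) (M : Type) [L.Structure M] [Nonempty M] :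
    cBot ∉ ThC b M := by
  unfold ThC
  simp only [Set.mem_ofPred_eq, Sat, dec_bot cBot rfl]
  intro h
  exact h (Classical.arbitrary M)

/-- An abstract form of the numeration theorem: `ν n` below `ν m` iff every member of `P` which
contains `n` contains `m`. -/
theorem atom_iff {B : Type} [BooleanAlgebra B] (ν : ℕ → B) (P : Set (Set ℕ))
    (hs : Function.Surjective ν)
    (hle : ∀ m n, ν m ≤ ν n ↔ ∀ x ∈ P, m ∈ x → n ∈ x)
    (i : ℕ → ℕ → ℕ) (hi : ∀ m n, ∀ x ∈ P, i m n ∈ x ↔ m ∈ x ∧ n ∈ x)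
    (z : ℕ) (hz : ∀ x ∈ P, z ∉ x) (n : ℕ) :
    IsAtom (ν n) ↔ ∃! x : Set ℕ, x ∈ P ∧ n ∈ x := by
  have hbot : ν z = ⊥ := by
    obtain ⟨y, hy⟩ := hs ⊥
    apply le_antisymm _ bot_le
    rw [← hy, hle]
    intro x hx h
    exact absurd h (hz x hx)
  have hb : ∀ m, ν m = ⊥ ↔ ∀ x ∈ P, m ∉ x := by
    intro m
    constructor
    · intro h x hx hm
      have h1 : ν m ≤ ν z := by rw [h, hbot]
      exact hz x hx ((hle m z).1 h1 x hx hm)
    · intro h
      apply le_antisymm _ bot_le
      rw [← hbot, hle]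
      intro x hx hm
      exact absurd hm (h x hx)
  constructor
  · intro h
    have h0 : ¬ ∀ x ∈ P, n ∉ x := by
      rw [← hb]
      exact h.1
    push Not at h0
    obtain ⟨x, hx, hnx⟩ := h0
    have key : ∀ x ∈ P, n ∈ x → ∀ y ∈ P, n ∈ y → ∀ m, m ∈ x → m ∈ y := by
      intro x hx hnx y hy hny m hmx
      by_contra hmy
      have h1 : ν (i n m) < ν n := by
        rw [lt_iff_le_and_ne]
        constructor
        · rw [hle]
          intro w hw hm
          exact ((hi n m w hw).1 hm).1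
        · intro heq
          have h2 : ν n ≤ ν (i n m) := heq.ge
          have h3 := (hle _ _).1 h2 y hy hny
          exact hmy ((hi n m y hy).1 h3).2
      have h4 := h.2 _ h1
      exact (hb _).1 h4 x hx ((hi n m x hx).2 ⟨hnx, hmx⟩)
    refine ⟨x, ⟨hx, hnx⟩, ?_⟩
    rintro y ⟨hy, hny⟩
    ext m
    exact ⟨key y hy hny x hx hnx m, key x hx hnx y hy hny m⟩
  · rintro ⟨x, ⟨hx, hnx⟩, hu⟩
    constructor
    · intro h
      exact (hb n).1 h x hx hnx
    · intro c hc
      obtain ⟨m, rfl⟩ := hs c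
      rw [hb]
      intro y hy hmy
      have h1 := (hle m n).1 hc.le y hy hmy
      have h2 : y = x := hu y ⟨hy, h1⟩
      subst h2
      apply hc.not_ge
      rw [hle]
      intro w hw hnw
      rw [hu w ⟨hw, hnw⟩]
      exact hmy

theorem lind_numbering (L : FirstOrder.Language.{0, 0}) [Finite (Σ n, L.Relations n)]
    [Finite (Σ n, L.Functions n)] {B : Type} [BooleanAlgebra B] (e : Lind (thP L) ≃o B) :
    ∃ ν : ℕ → B, Function.Surjective ν ∧
      (∃ i : ℕ → ℕ → ℕ, Computable₂ i ∧ ∀ m n, ν (i m n) = ν m ⊓ ν n) ∧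
      (∃ c : ℕ → ℕ, Computable c ∧ ∀ n, ν (c n) = (ν n)ᶜ) ∧
      IsPi11 {n | IsAtom (ν n)} := by
  obtain ⟨b⟩ := exists_lab L
  choose sent hsent using exists_sent b
  let ν : ℕ → B := fun n => e (cls (thP L) (sent n))
  have hle0 : ∀ m n, ν m ≤ ν n ↔ ∀ (M : Type) [L.Structure M], IsPrimeModel L M →
      m ∈ ThC b M → n ∈ ThC b M := by
    intro m n
    show e _ ≤ e _ ↔ _
    rw [e.le_iff_le, cls_le_iff]
    constructor
    · intro h M _ hM hm
      rw [← hsent] at hm ⊢
      exact h M hM hm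
    · intro h M _ hM hm
      have h1 := h M hM
      rw [← hsent, ← hsent] at h1
      exact h1 hm
  have hle : ∀ m n, ν m ≤ ν n ↔ ∀ x ∈ PT b, m ∈ x → n ∈ x := by
    intro m n
    rw [hle0]
    constructor
    · rintro h x ⟨M, _, hM, rfl⟩ hm
      exact h M hM hm
    · intro h M _ hM hm
      exact h _ ⟨M, _, hM, rfl⟩ hm
  have hs : Function.Surjective ν := by
    intro y
    obtain ⟨φ, hφ⟩ := cls_surj (thP L) (e.symm y)
    obtain ⟨n, hn⟩ := exists_code b φ
    refine ⟨n, ?_⟩
    have h1 : cls (thP L) (sent n) = cls (thP L) φ := by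
      apply le_antisymm
      · rw [cls_le_iff]
        intro M _ hM h
        have := hM.1
        rw [hn, ← hsent]
        exact h
      · rw [cls_le_iff]
        intro M _ hM h
        have := hM.1
        rw [hsent, ← hn]
        exact h
    show e (cls (thP L) (sent n)) = y
    rw [h1, hφ, e.apply_symm_apply]
  have hi : ∀ m n, ∀ x ∈ PT b, cAnd m n ∈ x ↔ m ∈ x ∧ n ∈ x := by
    rintro m n x ⟨M, _, hM, rfl⟩
    exact mem_ThC_cAnd b M m n
  have hc : ∀ n, ∀ x ∈ PT b, cNot (cBox n) ∈ x ↔ n ∉ x := by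
    rintro n x ⟨M, _, hM, rfl⟩
    have := hM.1
    exact mem_ThC_compl b M n
  have hz : ∀ x ∈ PT b, cBot ∉ x := by
    rintro x ⟨M, _, hM, rfl⟩
    have := hM.1
    exact mem_ThC_bot b M
  refine ⟨ν, hs, ⟨cAnd, cAnd_comp, ?_⟩, ⟨fun n => cNot (cBox n), cNot_comp.comp cBox_comp, ?_⟩, ?_⟩
  · intro m n
    apply le_antisymm
    · apply le_inf
      · rw [hle]
        intro x hx h
        exact ((hi m n x hx).1 h).1
      · rw [hle]
        intro x hx h
        exact ((hi m n x hx).1 h).2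
    · obtain ⟨k, hk⟩ := hs (ν m ⊓ ν n)
      rw [← hk, hle]
      intro x hx h
      have h1 : ν k ≤ ν m := by rw [hk]; exact inf_le_left
      have h2 : ν k ≤ ν n := by rw [hk]; exact inf_le_right
      exact (hi m n x hx).2 ⟨(hle _ _).1 h1 x hx h, (hle _ _).1 h2 x hx h⟩
  · intro n
    have hcomp : IsCompl (ν n) (ν (cNot (cBox n))) := by
      constructor
      · rw [disjoint_iff_inf_le]
        obtain ⟨k, hk⟩ := hs (ν n ⊓ ν (cNot (cBox n)))
        obtain ⟨z, hz'⟩ := hs ⊥
        rw [← hk, ← hz', hle]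
        intro x hx h
        have h1 : ν k ≤ ν n := by rw [hk]; exact inf_le_left
        have h2 : ν k ≤ ν (cNot (cBox n)) := by rw [hk]; exact inf_le_right
        exact absurd ((hle _ _).1 h1 x hx h) ((hc n x hx).1 ((hle _ _).1 h2 x hx h))
      · rw [codisjoint_iff_le_sup]
        obtain ⟨k, hk⟩ := hs (ν n ⊔ ν (cNot (cBox n)))
        obtain ⟨z, hz'⟩ := hs ⊤
        rw [← hk, ← hz', hle]
        intro x hx _
        have h1 : ν n ≤ ν k := by rw [hk]; exact le_sup_left
        have h2 : ν (cNot (cBox n)) ≤ ν k := by rw [hk]; exact le_sup_right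
        by_cases hn : n ∈ x
        · exact (hle _ _).1 h1 x hx hn
        · exact (hle _ _).1 h2 x hx ((hc n x hx).2 hn)
    exact hcomp.compl_eq.symm
  · have h := unique_prime_pi11 b
    convert h using 2
    ext n
    exact atom_iff ν (PT b) hs hle cAnd hi cBot hz n

end Pool.Agent.Lib.MP_8c048d_lc
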