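import Mathlib
import Pool.Agent.Lib.MP_8c048d_lc.LindNum
import Pool.Agent.Lib.MP_8c048d_lc.Inv
import Pool.Agent.Lib.MP_8c048d_lc.Cyl1
import Pool.Agent.Lib.MP_8c048d_lc.Cyl2

/-!
# The final assembly
-/

set_option autoImplicit false

namespace Pool.Agent.Lib.MP_8c048d_lc

open FirstOrder

theorem lind_not_universal (L : FirstOrder.Language.{0, 0}) [Finite (Σ n, L.Relations n)]
    [Finite (Σ n, L.Functions n)] (B : Type) [BooleanAlgebra B] (ν : ℕ → B)
    (hν : IsPi11Universal ν) : IsEmpty (Lind (thP L) ≃o B) := by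
  constructor
  intro e
  obtain ⟨ν', hs, hinf, hc, hat⟩ := lind_numbering L e
  obtain ⟨P, Q, hP, hQ, hPQ⟩ := exists_diag
  obtain ⟨a, e', -, -⟩ := hν.2 (AT (TreeT P Q)) (nuT (TreeT P Q))
    (nuT_algebra _ (treeT_sig P Q hP hQ))
  have h1 : S3 (CodeB (Set.Iic a)) := code_S3 ν' hs hinf hc hat a
  rw [← code_iso e', code_AT] at h1
  apply hPQ
  have h2 := h1.comp (f := fun n => 2 * n)
    (Primrec.nat_mul.comp (Primrec.const 2) Primrec.id).to_comp
  convert h2 using 1
  ext j
  simp only [Set.mem_setOf_eq]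
  constructor
  · intro h
    exact ⟨j, by rw [if_neg h]⟩
  · rintro ⟨j', hj'⟩
    split_ifs at hj' with h
    · omega
    · have : j = j' := by omega
      rw [this]
      exact h

end Pool.Agent.Lib.MP_8c048d_lc
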